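import Pool.Agent.Helper83.TH.St

set_option autoImplicit false

namespace Helper83.TH

theorem hAb (h1 : StIib) (h2 : StGl) : StAb := by
  intro k θ h y hk hh hh2 hθ hθ2 hkh hy hy7 n
  have hg := h2 θ h y hh hh2 hθ hθ2 hy hy7
  have hT0 : 0 ≤ 7 * ((2 : ℕ).factorial : ℝ) * (42 * h) ^ 2 := by positivity
  have hI := h1.2.1 k y n (7 * ((2 : ℕ).factorial : ℝ) * (42 * h) ^ 2) hk hT0 (fun i _ _ => hg 2 i)
  have hk0 : (0 : ℝ) ≤ k := by positivity
  have hfac : ((2 : ℕ).factorial : ℝ) = 2 := by norm_num [Nat.factorial]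
  rw [hfac] at hI
  have hsmall : (k : ℝ) / 5 * (7 * 2 * (42 * h) ^ 2) ≤ 1 := by
    have e1 : (k : ℝ) / 5 * (7 * 2 * (42 * h) ^ 2) = (7 * 2 * 42 ^ 2 / 5 / 10 ^ 6) * ((10 ^ 6 * (k : ℝ) * h) * h) := by ring
    rw [e1]
    calc (7 * 2 * 42 ^ 2 / 5 / 10 ^ 6) * ((10 ^ 6 * (k : ℝ) * h) * h) ≤ (7 * 2 * 42 ^ 2 / 5 / 10 ^ 6) * (1 * (1 / 100)) := by
          gcongr
      _ ≤ 1 := by norm_num
  have hII : |II k y n| ≤ 8 := by
    have e1 : |(y (n + 1) + y (n - 1)) / 2| ≤ 7 := by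
      rw [abs_div, abs_of_pos (show (0 : ℝ) < 2 by norm_num)]
      have := abs_add_le (y (n + 1)) (y (n - 1))
      have e2 := hy7 (n + 1)
      have e3 := hy7 (n - 1)
      linarith
    have e4 : II k y n = (II k y n - (y (n + 1) + y (n - 1)) / 2) + (y (n + 1) + y (n - 1)) / 2 := by ring
    rw [e4]
    refine (abs_add_le _ _).trans ?_
    linarith
  have hyn := hy7 n
  constructor
  · unfold AA
    rw [abs_div, abs_of_pos (show (0 : ℝ) < 2 by norm_num)]
    have := abs_add_le (y n) (II k y n)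
    linarith
  · unfold BB
    have hee : |ee n| = 1 := by unfold ee; split_ifs <;> simp
    rw [abs_div, abs_mul, hee, one_mul, abs_of_pos (show (0 : ℝ) < 2 by norm_num)]
    have := abs_sub (y n) (II k y n)
    linarith

end Helper83.TH
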