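import Pool.Agent.Helper83.TH.St

set_option autoImplicit false

namespace Helper83.TH

private theorem ph_nonneg_AlE (a b : ℝ) : 0 ≤ ph a b := by
  unfold ph; positivity

private theorem sq_AlE {a b θ : ℝ} (hs : |a + θ| ≤ 24) :
    |a + θ| * |a ^ 2 + b ^ 2 - 1| ≤ 48 * ph a b + |b| * (a + θ) ^ 2 := by
  obtain ⟨q, hq⟩ : ∃ q, q = a ^ 2 + b ^ 2 - 1 := ⟨_, rfl⟩
  obtain ⟨s, hs'⟩ : ∃ s, s = |a + θ| := ⟨_, rfl⟩
  have hs2 : (a + θ) ^ 2 = s ^ 2 := by rw [hs', sq_abs]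
  unfold ph
  rw [hs2, ← hq, ← hs']
  rw [← hs'] at hs
  have hs0 : 0 ≤ s := by rw [hs']; positivity
  rw [← sq_abs q]
  obtain ⟨P, hP⟩ : ∃ P, P = |q| := ⟨_, rfl⟩
  obtain ⟨N, hN⟩ : ∃ N, N = |b| := ⟨_, rfl⟩
  rw [← hP, ← hN]
  have hP0 : 0 ≤ P := by rw [hP]; positivity
  have hN0 : 0 ≤ N := by rw [hN]; positivity
  rcases eq_or_lt_of_le hP0 with h0 | h0
  · rw [← h0]; simp; positivity
  have hu : 0 < P + N := by linarith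
  rcases le_or_gt N P with hc | hc
  · have h1 : P / 2 ≤ P ^ 2 / (P + N) := by
      rw [div_le_div_iff₀ (by norm_num) hu]; nlinarith
    have h2 : 0 ≤ N * s ^ 2 := by positivity
    nlinarith
  · have h1 : P ^ 2 / (2 * N) ≤ P ^ 2 / (P + N) := by
      apply div_le_div_of_nonneg_left (by positivity) hu; linarith
    have hNp : 0 < N := by linarith
    have h2 : s * P ≤ P ^ 2 / (2 * N) + N * s ^ 2 := by
      have h3 : P ^ 2 / (2 * N) + N * s ^ 2 - s * P = (P ^ 2 + 2 * N ^ 2 * s ^ 2 - 2 * N * s * P) / (2 * N) := by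
        field_simp
      have h4 : 0 ≤ (P ^ 2 + 2 * N ^ 2 * s ^ 2 - 2 * N * s * P) / (2 * N) := by
        apply div_nonneg _ (by positivity)
        nlinarith [sq_nonneg (P - N * s), sq_nonneg (N * s)]
      linarith
    have h5 : 0 ≤ P ^ 2 / (P + N) := by positivity
    linarith

theorem hAlE : StAlE := by
  intro a b θ ρ X hθ hθ2 ha hb hρ hρ2 hX
  have hs24 : |a + θ| ≤ 24 := by
    calc |a + θ| ≤ |a| + |θ| := abs_add_le _ _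
      _ ≤ 8 + 16 := by rw [abs_of_pos hθ]; gcongr
      _ = 24 := by norm_num
  have hsq := sq_AlE (b := b) hs24
  have hφ := ph_nonneg_AlE a b
  obtain ⟨φ, hφd⟩ : ∃ φ, φ = ph a b := ⟨_, rfl⟩
  rw [← hφd] at hsq hφ
  rw [← hφd]
  obtain ⟨q, hq⟩ : ∃ q, q = a ^ 2 + b ^ 2 - 1 := ⟨_, rfl⟩
  rw [← hq] at hρ2 hsq
  rw [← hq]
  have hs2 : (a + θ) ^ 2 = |a + θ| ^ 2 := by rw [sq_abs]
  rw [hs2] at hsq hX
  rw [hs2]
  obtain ⟨s, hs⟩ : ∃ s, s = |a + θ| := ⟨_, rfl⟩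
  obtain ⟨P, hP⟩ : ∃ P, P = |q| := ⟨_, rfl⟩
  obtain ⟨N, hN⟩ : ∃ N, N = |b| := ⟨_, rfl⟩
  have hq2 : q ^ 2 = P ^ 2 := by rw [hP, sq_abs]
  rw [hq2]
  rw [← hs, ← hP, ← hN] at hsq
  rw [← hs, ← hP, ← hN] at hρ2
  rw [← hs, ← hN] at hX
  rw [← hs, ← hN]
  rw [← hN] at hb
  rw [← hs] at hs24
  have hP0 : 0 ≤ P := by rw [hP]; positivity
  have hN0 : 0 ≤ N := by rw [hN]; positivity
  have hs0 : 0 ≤ s := by rw [hs]; positivity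
  obtain ⟨w, hw⟩ : ∃ w, w = N * s ^ 2 := ⟨_, rfl⟩
  have hw0 : 0 ≤ w := by rw [hw]; positivity
  have hN2 : N ^ 2 * s ^ 2 ≤ 8 * w := by
    rw [hw]
    have : N ^ 2 ≤ 8 * N := by nlinarith
    calc N ^ 2 * s ^ 2 ≤ 8 * N * s ^ 2 := by gcongr
      _ = 8 * (N * s ^ 2) := by ring
  have e1 : N * s * ρ ≤ 5 * (P ^ 2 / 2 + 20 * w) := by
    have h1 : N * s * ρ ≤ N * s * (5 * (P + 2 * (N * s))) := by gcongr
    have h2 : N * s * (5 * (P + 2 * (N * s))) = 5 * (N * s * P + 2 * (N ^ 2 * s ^ 2)) := by ring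
    have h3 : N * s * P ≤ P ^ 2 / 2 + N ^ 2 * s ^ 2 / 2 := by nlinarith [sq_nonneg (P - N * s)]
    rw [h2] at h1
    linarith
  rw [← hw] at hsq
  have e2 : s * ρ ≤ 5 * (48 * φ + 3 * w) := by
    have h1 : s * ρ ≤ s * (5 * (P + 2 * (N * s))) := by gcongr
    have h2 : s * (5 * (P + 2 * (N * s))) = 5 * (s * P + 2 * (N * s ^ 2)) := by ring
    rw [h2, ← hw] at h1
    linarith
  have e3 : ρ ^ 2 ≤ 50 * P ^ 2 + 1600 * w := by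
    have h1 : ρ ^ 2 ≤ (5 * (P + 2 * (N * s))) ^ 2 := by gcongr
    have h2 : (5 * (P + 2 * (N * s))) ^ 2 ≤ 50 * P ^ 2 + 200 * (N ^ 2 * s ^ 2) := by
      nlinarith [sq_nonneg (P - 2 * (N * s))]
    linarith
  rw [← hw] at hX
  rw [← hw]
  have hP2 : 0 ≤ P ^ 2 := by positivity
  have hX' : X ≤ -(4 * 10 ^ 6 * w) + 1 / 10 ^ 4 * (N * s * ρ) + 1 / 10 ^ 10 * (s * ρ) + 1 / 10 ^ 10 * ρ ^ 2 := by
    have : 1 / 10 ^ 4 * (N * s) * ρ = 1 / 10 ^ 4 * (N * s * ρ) := by ring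
    have h2 : 1 / 10 ^ 10 * s * ρ = 1 / 10 ^ 10 * (s * ρ) := by ring
    rw [this, h2] at hX
    exact hX
  norm_num at hX' ⊢
  linarith

end Helper83.TH
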