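import Pool.Agent.Helper83.TH.St

set_option autoImplicit false

namespace Helper83.TH

theorem hAlG : StAlG := by
  rintro a b a' b' θ h ρ ⟨hh, hh2, hθ, hθ2, ha, hb, hρ, hρ2, hρ3, hA, hB, hA2, hB2⟩
  obtain ⟨α, hα⟩ : ∃ α, α = a' - a := ⟨_, rfl⟩
  obtain ⟨β, hβ⟩ : ∃ β, β = b' - b := ⟨_, rfl⟩
  obtain ⟨q, hq⟩ : ∃ q, q = a ^ 2 + b ^ 2 - 1 := ⟨_, rfl⟩
  obtain ⟨s, hs⟩ : ∃ s, s = a + θ := ⟨_, rfl⟩
  obtain ⟨r, hr⟩ : ∃ r, r = h * ρ := ⟨_, rfl⟩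
  rw [← hα, ← hr] at hA
  rw [← hβ, ← hr] at hB
  rw [← hα, ← hq, ← hr] at hA2
  rw [← hβ, ← hs, ← hr] at hB2
  rw [← hq, ← hs] at hρ3
  rw [← hq, ← hs]
  have hr0 : 0 ≤ r := by rw [hr]; positivity
  have hr1 : r ≤ 1 := by
    rw [hr]
    calc h * ρ ≤ 1 / 10 ^ 18 * 1100 := by gcongr
      _ ≤ 1 := by norm_num
  have hid : gg θ a' b' - gg θ a b = -(q * α) - 2 * (b * s) * β - a * α ^ 2 - α ^ 3 / 3 - s * β ^ 2 - 2 * b * α * β - α * β ^ 2 := by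
    have e1 : a' = a + α := by rw [hα]; ring
    have e2 : b' = b + β := by rw [hβ]; ring
    unfold gg
    rw [e1, e2, hq, hs]
    ring
  rw [hid]
  have hs24 : |s| ≤ 24 := by
    rw [hs]
    calc |a + θ| ≤ |a| + |θ| := abs_add_le _ _
      _ ≤ 8 + 16 := by rw [abs_of_pos hθ]; gcongr
      _ = 24 := by norm_num
  -- the quadratic terms
  have hα2 : α ^ 2 ≤ r ^ 2 := by rw [← sq_abs α]; gcongr
  have hβ2 : β ^ 2 ≤ r ^ 2 := by rw [← sq_abs β]; gcongr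
  have t1 : -(a * α ^ 2) ≤ 8 * r ^ 2 := by
    calc -(a * α ^ 2) ≤ |a * α ^ 2| := neg_le_abs _
      _ = |a| * α ^ 2 := by rw [abs_mul, abs_of_nonneg (sq_nonneg α)]
      _ ≤ 8 * r ^ 2 := by gcongr
  have t2 : -(α ^ 3 / 3) ≤ r ^ 2 := by
    calc -(α ^ 3 / 3) ≤ |α ^ 3 / 3| := neg_le_abs _
      _ = |α| * α ^ 2 / 3 := by
        rw [abs_div, abs_pow, ← sq_abs α, abs_of_pos (show (0 : ℝ) < 3 by norm_num)]; ring
      _ ≤ 1 * r ^ 2 / 3 := by gcongr; exact hA.trans hr1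
      _ ≤ r ^ 2 := by nlinarith [sq_nonneg r]
  have t3 : -(s * β ^ 2) ≤ 24 * r ^ 2 := by
    calc -(s * β ^ 2) ≤ |s * β ^ 2| := neg_le_abs _
      _ = |s| * β ^ 2 := by rw [abs_mul, abs_of_nonneg (sq_nonneg β)]
      _ ≤ 24 * r ^ 2 := by gcongr
  have t4 : -(2 * b * α * β) ≤ 16 * r ^ 2 := by
    calc -(2 * b * α * β) ≤ |2 * b * α * β| := neg_le_abs _
      _ = 2 * |b| * |α| * |β| := by
        rw [abs_mul, abs_mul, abs_mul, abs_of_pos (show (0 : ℝ) < 2 by norm_num)]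
      _ ≤ 2 * 8 * r * r := by gcongr
      _ = 16 * r ^ 2 := by ring
  have t5 : -(α * β ^ 2) ≤ r ^ 2 := by
    calc -(α * β ^ 2) ≤ |α * β ^ 2| := neg_le_abs _
      _ = |α| * β ^ 2 := by rw [abs_mul, abs_of_nonneg (sq_nonneg β)]
      _ ≤ 1 * r ^ 2 := by gcongr; exact hA.trans hr1
      _ = r ^ 2 := by ring
  -- the linear terms
  obtain ⟨P, hP⟩ : ∃ P, P = |q| := ⟨_, rfl⟩
  obtain ⟨W, hW⟩ : ∃ W, W = |b| * |s| := ⟨_, rfl⟩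
  have hP0 : 0 ≤ P := by rw [hP]; positivity
  have hW0 : 0 ≤ W := by rw [hW]; positivity
  have hPq : P ^ 2 = q ^ 2 := by rw [hP, sq_abs]
  have hWb : W ^ 2 = b ^ 2 * s ^ 2 := by rw [hW, mul_pow, sq_abs, sq_abs]
  have t6 : -(q * α) ≤ -(h * q ^ 2 / 2) + 2 / 10 ^ 7 * r * P := by
    have : -(q * α) = -(h * q ^ 2 / 2) - q * (α - h * q / 2) := by ring
    rw [this]
    have h1 : -(q * (α - h * q / 2)) ≤ P * (2 / 10 ^ 7 * r) := by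
      calc -(q * (α - h * q / 2)) ≤ |q * (α - h * q / 2)| := neg_le_abs _
        _ = P * |α - h * q / 2| := by rw [abs_mul, hP]
        _ ≤ P * (2 / 10 ^ 7 * r) := by gcongr
    linarith
  have t7 : -(2 * (b * s) * β) ≤ 2 * h * (b ^ 2 * s ^ 2) + 4 / 10 ^ 7 * r * W := by
    have : -(2 * (b * s) * β) = 2 * h * (b ^ 2 * s ^ 2) - 2 * ((b * s) * (β + h * b * s)) := by ring
    rw [this]
    have h1 : -((b * s) * (β + h * b * s)) ≤ W * (2 / 10 ^ 7 * r) := by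
      calc -((b * s) * (β + h * b * s)) ≤ |(b * s) * (β + h * b * s)| := neg_le_abs _
        _ = W * |β + h * b * s| := by rw [abs_mul, abs_mul, hW]
        _ ≤ W * (2 / 10 ^ 7 * r) := by gcongr
    linarith
  rw [← hP, ← hW] at hρ3
  -- collect
  have hρΛ : ρ * (P + 2 * W) ≤ 5 * (P + 2 * W) ^ 2 := by nlinarith
  have hρ2' : ρ ^ 2 ≤ 25 * (P + 2 * W) ^ 2 := by
    calc ρ ^ 2 ≤ (5 * (P + 2 * W)) ^ 2 := by gcongr
      _ = 25 * (P + 2 * W) ^ 2 := by ring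
  have hΛ : (P + 2 * W) ^ 2 ≤ 2 * q ^ 2 + 8 * (b ^ 2 * s ^ 2) := by
    rw [← hPq, ← hWb]; nlinarith [sq_nonneg (P - 2 * W)]
  have hb2 : b ^ 2 * s ^ 2 ≤ 8 * (|b| * s ^ 2) := by
    have : b ^ 2 ≤ 8 * |b| := by
      rw [← sq_abs b]; nlinarith [abs_nonneg b]
    calc b ^ 2 * s ^ 2 ≤ 8 * |b| * s ^ 2 := by gcongr
      _ = 8 * (|b| * s ^ 2) := by ring
  have hr2 : 50 * r ^ 2 ≤ h * (1 / 10 ^ 7 * (P + 2 * W) ^ 2) := by
    rw [hr]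
    have : h * (h * ρ ^ 2 * 50) ≤ h * (1 / 10 ^ 7 * (P + 2 * W) ^ 2) := by
      apply mul_le_mul_of_nonneg_left _ hh.le
      calc h * ρ ^ 2 * 50 ≤ 1 / 10 ^ 18 * (25 * (P + 2 * W) ^ 2) * 50 := by gcongr
        _ ≤ 1 / 10 ^ 7 * (P + 2 * W) ^ 2 := by nlinarith [sq_nonneg (P + 2 * W)]
    calc 50 * (h * ρ) ^ 2 = h * (h * ρ ^ 2 * 50) := by ring
      _ ≤ _ := this
  have hlin : 2 / 10 ^ 7 * r * P + 4 / 10 ^ 7 * r * W ≤ h * (1 / 10 ^ 6 * (P + 2 * W) ^ 2) := by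
    rw [hr]
    have : 2 / 10 ^ 7 * (h * ρ) * P + 4 / 10 ^ 7 * (h * ρ) * W = h * (2 / 10 ^ 7 * (ρ * (P + 2 * W))) := by ring
    rw [this]
    apply mul_le_mul_of_nonneg_left _ hh.le
    linarith
  have hq0 : 0 ≤ q ^ 2 := sq_nonneg q
  have hw0 : 0 ≤ |b| * s ^ 2 := by positivity
  have hfin : -(q ^ 2 / 2) + 2 * (b ^ 2 * s ^ 2) + 1 / 10 ^ 6 * (P + 2 * W) ^ 2 + 1 / 10 ^ 7 * (P + 2 * W) ^ 2 ≤
      -(7 / 16 * q ^ 2) + 24 * (|b| * s ^ 2) := by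
    nlinarith
  have hfin' := mul_le_mul_of_nonneg_left hfin hh.le
  nlinarith

end Helper83.TH
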