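import Pool.Agent.Helper83.TH.St

set_option autoImplicit false

namespace Helper83.TH

private theorem ph_nonneg_AlP (a b : ℝ) : 0 ≤ ph a b := by
  unfold ph; positivity

private theorem ph_le_AlP (a b : ℝ) : ph a b ≤ 4 * (a ^ 2 * ph a b) + 2 * (a ^ 2 + b ^ 2 - 1) ^ 2 := by
  have h0 := ph_nonneg_AlP a b
  rcases le_or_gt (1 / 4) (a ^ 2) with hc | hc
  · nlinarith [sq_nonneg (a ^ 2 + b ^ 2 - 1)]
  · have hu : 1 / 2 ≤ |a ^ 2 + b ^ 2 - 1| + |b| := by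
      rcases le_or_gt (1 / 2) |b| with hb | hb
      · have := abs_nonneg (a ^ 2 + b ^ 2 - 1)
        linarith
      · have hb2 : b ^ 2 ≤ 1 / 4 := by
          rw [← sq_abs]; nlinarith [abs_nonneg b]
        have : 1 / 2 ≤ |a ^ 2 + b ^ 2 - 1| := by
          rw [abs_of_neg (by linarith)]
          linarith
        have := abs_nonneg b
        linarith
    have h1 : ph a b ≤ 2 * (a ^ 2 + b ^ 2 - 1) ^ 2 := by
      unfold ph
      rw [div_le_iff₀ (by linarith)]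
      nlinarith [sq_nonneg (a ^ 2 + b ^ 2 - 1)]
    have h2 : 0 ≤ a ^ 2 * ph a b := by positivity
    linarith

theorem hAlP (h1 : StAlR) : StAlP := by
  intro a b a' b' θ h ρ hI
  obtain ⟨hr1, hr2⟩ := h1 a b a' b' θ h ρ hI
  have hh : 0 < h := hI.1
  have hφ := ph_le_AlP a b
  have hφ0 := ph_nonneg_AlP a b
  obtain ⟨φ, hφd⟩ : ∃ φ, φ = ph a b := ⟨_, rfl⟩
  obtain ⟨φ', hφd'⟩ : ∃ φ, φ = ph a' b' := ⟨_, rfl⟩
  obtain ⟨q, hq⟩ : ∃ q, q = (a ^ 2 + b ^ 2 - 1) ^ 2 := ⟨_, rfl⟩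
  obtain ⟨w, hw⟩ : ∃ w, w = |b| * (a + θ) ^ 2 := ⟨_, rfl⟩
  have hw0 : 0 ≤ w := by rw [hw]; positivity
  have hq0 : 0 ≤ q := by rw [hq]; positivity
  rw [← hφd, ← hφd', ← hw] at hr1
  rw [← hφd', ← hq, ← hw] at hr2
  rw [← hφd, ← hq] at hφ
  rw [← hφd] at hφ0
  rw [← hφd, ← hφd', ← hq, ← hw]
  have h3 : -((a' - a) * φ') ≤ h * (51 / 100 * q + w) := (neg_le_abs _).trans hr2
  have e : -(1 / 4 * (a' * φ')) + 1 / 4 * (a * φ) = 1 / 4 * (-((a' - a) * φ')) + 1 / 4 * (-(a * (φ' - φ))) := by ring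
  rw [e]
  have h4 : 1 / 4 * (51 / 100 * q + w) + 1 / 4 * (-(a ^ 2 * φ) + 1 / 60 * φ + 14 / 10 * 10 ^ 6 * w) ≤
      13 / 50 * q - 1 / 20 * φ + 4 * 10 ^ 5 * w := by
    norm_num
    linarith
  have h5 := mul_le_mul_of_nonneg_left h4 hh.le
  linarith

end Helper83.TH
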