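import Pool.Agent.Helper83.TH.St

set_option autoImplicit false

namespace Helper83.TH

theorem hAlQ : StAlQ := by
  intro P N P' N' D hP hN hu hu' hD h1 h2
  set u := P + N with hudef
  set u' := P' + N' with hu'def
  have hu'pos : 0 < u' := by linarith
  set x := P / u with hx
  have hx0 : 0 ≤ x := div_nonneg hP hu.le
  have hx1 : x ≤ 1 := by
    rw [hx, div_le_one hu]; linarith
  have hPx : P = x * u := by
    rw [hx]; field_simp
  have hN' : N' = u' - P' := by rw [hu'def]; ring
  have hNu : N = u - P := by rw [hudef]; ring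
  have hid : P' ^ 2 / u' - P ^ 2 / u - ((2 * x - x ^ 2) * (P' - P) - x ^ 2 * (N' - N)) =
      ((P' - P) - x * (u' - u)) ^ 2 / u' := by
    have : P ^ 2 / u = x ^ 2 * u := by
      rw [hPx]; field_simp
    rw [this, hN', hNu]
    field_simp
    rw [hPx]
    ring
  rw [hid]
  have habs : |(P' - P) - x * (u' - u)| ≤ 3 * D := by
    have h3 : |u' - u| ≤ 2 * D := by
      have : u' - u = (P' - P) + (N' - N) := by rw [hu'def, hudef]; ring
      rw [this]
      exact (abs_add_le _ _).trans (by linarith)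
    calc |(P' - P) - x * (u' - u)| ≤ |P' - P| + |x * (u' - u)| := abs_sub _ _
      _ = |P' - P| + x * |u' - u| := by rw [abs_mul, abs_of_nonneg hx0]
      _ ≤ D + 1 * (2 * D) := by gcongr
      _ = 3 * D := by ring
  have hsq : ((P' - P) - x * (u' - u)) ^ 2 ≤ 9 * D ^ 2 := by
    rw [← sq_abs]
    calc |(P' - P) - x * (u' - u)| ^ 2 ≤ (3 * D) ^ 2 := by gcongr
      _ = 9 * D ^ 2 := by ring
  rw [abs_of_nonneg (by positivity)]
  rw [div_le_div_iff₀ hu'pos hu]
  have hD2 : 0 ≤ D ^ 2 := by positivity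
  calc ((P' - P) - x * (u' - u)) ^ 2 * u ≤ 9 * D ^ 2 * u := by gcongr
    _ ≤ 18 * D ^ 2 * u' := by nlinarith

end Helper83.TH
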