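import Pool.Agent.Helper83.TH.St

set_option autoImplicit false

namespace Helper83.TH

/-- Amplitude of the increments in abstract form. `P, N` old, `P', N'` new values of `|q|`, `|b|`. -/
private theorem core_AlR {a θ h ρ P N P' N' s : ℝ} (hAlQ : StAlQ) (hh : 0 < h) (hh2 : h ≤ 1 / 10 ^ 18) (ha : |a| ≤ 8)
    (hP : 0 ≤ P) (hN : 0 ≤ N) (hN8 : N ≤ 8) (hP' : 0 ≤ P') (hN' : 0 ≤ N') (hs : 0 ≤ s) (hs24 : s ≤ 24) (hu : 0 < P + N)
    (hρ : 0 ≤ ρ) (hρ2 : ρ ≤ 5 * (P + 2 * (N * s)))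
    (h1 : |P' - (1 + h * a) * P| ≤ h * (2 * N ^ 2 * s + 33 * (2 / 10 ^ 7) * ρ)) (h2 : |N' - N| ≤ h * (N * s + 2 / 10 ^ 7 * ρ))
    (h3 : |P' - P| ≤ 33 * (h * ρ)) (h4 : |N' - N| ≤ h * ρ) :
    -(a * (P' ^ 2 / (P' + N') - P ^ 2 / (P + N))) ≤
      h * (-(a ^ 2 * (P ^ 2 / (P + N))) + 1 / 60 * (P ^ 2 / (P + N)) + 14 / 10 * 10 ^ 6 * (N * s ^ 2)) := by
  obtain ⟨u, hud⟩ : ∃ u, u = P + N := ⟨_, rfl⟩
  obtain ⟨x, hx⟩ : ∃ x, x = P / (P + N) := ⟨_, rfl⟩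
  obtain ⟨φ, hφ⟩ : ∃ φ, φ = P ^ 2 / (P + N) := ⟨_, rfl⟩
  have hx0 : 0 ≤ x := by rw [hx]; positivity
  have hx1 : x ≤ 1 := by rw [hx, div_le_one hu]; linarith
  have hxP : x * P = φ := by rw [hx, hφ]; ring
  have hxu : x * u = P := by rw [hx, hud]; field_simp
  have hu0 : 0 < u := by rw [hud]; exact hu
  have hφ0 : 0 ≤ φ := by rw [← hxP]; positivity
  have hD0 : 0 ≤ 33 * (h * ρ) := by positivity
  have hρu : ρ ≤ 240 * u := by
    have : N * s ≤ N * 24 := by gcongr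
    rw [hud]; linarith
  have h4' : |N' - N| ≤ 33 * (h * ρ) := h4.trans (by nlinarith [mul_nonneg hh.le hρ])
  have hsmall : 34 * (h * ρ) ≤ u / 2 := by
    calc 34 * (h * ρ) ≤ 34 * (1 / 10 ^ 18 * (240 * u)) := by gcongr
      _ ≤ u / 2 := by nlinarith
  have hu' : (P + N) / 2 ≤ P' + N' := by
    have e1 := (abs_le.1 h3).1
    have e2 := (abs_le.1 h4).1
    rw [← hud]
    have : P' + N' ≥ u - 34 * (h * ρ) := by rw [hud]; linarith
    linarith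
  have hQ := hAlQ P N P' N' (33 * (h * ρ)) hP hN hu hu' hD0 h3 h4'
  rw [← hx, ← hφ, ← hud] at hQ
  rw [← hφ]
  obtain ⟨φ', hφ'⟩ : ∃ φ', φ' = P' ^ 2 / (P' + N') := ⟨_, rfl⟩
  rw [← hφ'] at hQ
  rw [← hφ']
  -- the remainder
  obtain ⟨r, hr⟩ : ∃ r, r = φ' - φ - ((2 * x - x ^ 2) * (P' - P) - x ^ 2 * (N' - N)) := ⟨_, rfl⟩
  rw [← hr] at hQ
  have hρsq : ρ ^ 2 / u ≤ 50 * φ + 200 * (N * s ^ 2) := by
    rw [div_le_iff₀ hu0]
    have g1 : ρ ^ 2 ≤ (5 * (P + 2 * (N * s))) ^ 2 := by gcongr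
    have g2 : φ * u = P ^ 2 := by rw [hφ, hud]; field_simp
    have g3 : N * s ^ 2 * u ≥ (N * s) ^ 2 := by
      rw [hud]; nlinarith [mul_nonneg (mul_nonneg hN (sq_nonneg s)) hP]
    nlinarith [sq_nonneg (P - 2 * (N * s))]
  have hr2 : |r| ≤ h * (1 / 10 ^ 11 * (φ + N * s ^ 2)) := by
    refine hQ.trans ?_
    have g1 : 18 * (33 * (h * ρ)) ^ 2 / u = 19602 * h * (h * (ρ ^ 2 / u)) := by ring
    rw [g1]
    have g2 : h * (ρ ^ 2 / u) ≤ h * (50 * φ + 200 * (N * s ^ 2)) := by gcongr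
    have g0 : 0 ≤ N * s ^ 2 := by positivity
    calc 19602 * h * (h * (ρ ^ 2 / u)) ≤ 19602 * (1 / 10 ^ 18) * (h * (50 * φ + 200 * (N * s ^ 2))) := by gcongr
      _ = h * (19602 * (1 / 10 ^ 18) * (50 * φ + 200 * (N * s ^ 2))) := by ring
      _ ≤ h * (1 / 10 ^ 11 * (φ + N * s ^ 2)) := by
        apply mul_le_mul_of_nonneg_left _ hh.le
        norm_num
        linarith
  -- first part
  obtain ⟨e1, he1⟩ : ∃ e1, e1 = P' - (1 + h * a) * P := ⟨_, rfl⟩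
  obtain ⟨e2, he2⟩ : ∃ e2, e2 = N' - N := ⟨_, rfl⟩
  rw [← he1] at h1
  rw [← he2] at h2 hr
  have hPP : P' - P = h * a * P + e1 := by rw [he1]; ring
  rw [hPP] at hr
  have hmain : -(a * (φ' - φ)) = -(h * a ^ 2 * ((2 * x - x ^ 2) * P)) - a * ((2 * x - x ^ 2) * e1 - x ^ 2 * e2) - a * r := by
    rw [hr]; ring
  rw [hmain]
  have m1 : φ ≤ (2 * x - x ^ 2) * P := by
    rw [← hxP]
    apply mul_le_mul_of_nonneg_right _ hP
    nlinarith
  have m1' : -(h * a ^ 2 * ((2 * x - x ^ 2) * P)) ≤ -(h * a ^ 2 * φ) := by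
    have : 0 ≤ h * a ^ 2 := by positivity
    nlinarith
  have m2 : -(a * ((2 * x - x ^ 2) * e1 - x ^ 2 * e2)) ≤ 8 * x * (2 * |e1| + |e2|) := by
    have c1 : |(2 * x - x ^ 2) * e1 - x ^ 2 * e2| ≤ x * (2 * |e1| + |e2|) := by
      calc |(2 * x - x ^ 2) * e1 - x ^ 2 * e2| ≤ |(2 * x - x ^ 2) * e1| + |x ^ 2 * e2| := abs_sub _ _
        _ = (2 * x - x ^ 2) * |e1| + x ^ 2 * |e2| := by
          rw [abs_mul, abs_mul, abs_of_nonneg (show 0 ≤ 2 * x - x ^ 2 by nlinarith), abs_of_nonneg (sq_nonneg x)]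
        _ ≤ 2 * x * |e1| + x * |e2| := by
          gcongr
          · nlinarith [sq_nonneg x]
          · nlinarith
        _ = x * (2 * |e1| + |e2|) := by ring
    calc -(a * ((2 * x - x ^ 2) * e1 - x ^ 2 * e2)) ≤ |a * ((2 * x - x ^ 2) * e1 - x ^ 2 * e2)| := neg_le_abs _
      _ = |a| * |(2 * x - x ^ 2) * e1 - x ^ 2 * e2| := abs_mul _ _
      _ ≤ 8 * (x * (2 * |e1| + |e2|)) := by gcongr
      _ = 8 * x * (2 * |e1| + |e2|) := by ring
  have m3 : -(a * r) ≤ 8 * |r| := by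
    calc -(a * r) ≤ |a * r| := neg_le_abs _
      _ = |a| * |r| := abs_mul _ _
      _ ≤ 8 * |r| := by gcongr
  have hNs0 : 0 ≤ N * s := by positivity
  have m4 : 2 * |e1| + |e2| ≤ h * (34 * (N * s) + 67 * 5 * (2 / 10 ^ 7) * P) := by
    have c1 : 2 * |e1| + |e2| ≤ h * (4 * N ^ 2 * s + N * s + 67 * (2 / 10 ^ 7) * ρ) := by
      have : h * (4 * N ^ 2 * s + N * s + 67 * (2 / 10 ^ 7) * ρ) =
          2 * (h * (2 * N ^ 2 * s + 33 * (2 / 10 ^ 7) * ρ)) + h * (N * s + 2 / 10 ^ 7 * ρ) := by ring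
      rw [this]; linarith
    refine c1.trans ?_
    apply mul_le_mul_of_nonneg_left _ hh.le
    have c2 : N ^ 2 * s ≤ 8 * (N * s) := by
      calc N ^ 2 * s = N * (N * s) := by ring
        _ ≤ 8 * (N * s) := by gcongr
    norm_num
    linarith
  have m5 : 8 * x * (2 * |e1| + |e2|) ≤ h * (272 * (x * (N * s)) + 2680 * (2 / 10 ^ 7) * φ) := by
    calc 8 * x * (2 * |e1| + |e2|) ≤ 8 * x * (h * (34 * (N * s) + 67 * 5 * (2 / 10 ^ 7) * P)) := by gcongr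
      _ = h * (272 * (x * (N * s)) + 2680 * (2 / 10 ^ 7) * (x * P)) := by ring
      _ = h * (272 * (x * (N * s)) + 2680 * (2 / 10 ^ 7) * φ) := by rw [hxP]
  have m6 : x * (N * s) ≤ 1 / 20000 * φ + 5000 * (N * s ^ 2) := by
    -- `x N s = (x √u)(N s/√u)`
    have c1 : φ = x ^ 2 * u := by rw [← hxP, ← hxu]; ring
    have c2 : N * (N * s ^ 2) ≤ u * (N * s ^ 2) := by
      apply mul_le_mul_of_nonneg_right _ (by positivity)
      rw [hud]; linarith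
    rw [c1]
    have c3 : u * (x * (N * s)) ≤ u * (1 / 20000 * (x ^ 2 * u) + 5000 * (N * s ^ 2)) := by
      nlinarith [sq_nonneg (x * u / 100 - 100 * (N * s))]
    exact le_of_mul_le_mul_left c3 hu0
  have m7 : 0 ≤ N * s ^ 2 := by positivity
  have m8 : 272 * (x * (N * s)) + 2680 * (2 / 10 ^ 7) * φ + 8 * (1 / 10 ^ 11 * (φ + N * s ^ 2)) ≤
      1 / 60 * φ + 14 / 10 * 10 ^ 6 * (N * s ^ 2) := by
    norm_num
    linarith
  have m9 := mul_le_mul_of_nonneg_left m8 hh.le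
  nlinarith

private theorem ph_nonneg_AlR (a b : ℝ) : 0 ≤ ph a b := by
  unfold ph; positivity

private theorem ph_le_AlR (a b : ℝ) : ph a b ≤ |a ^ 2 + b ^ 2 - 1| := by
  unfold ph
  rcases eq_or_lt_of_le (add_nonneg (abs_nonneg (a ^ 2 + b ^ 2 - 1)) (abs_nonneg b)) with h0 | h0
  · rw [← h0, div_zero]; positivity
  · rw [div_le_iff₀ h0, ← sq_abs (a ^ 2 + b ^ 2 - 1)]
    nlinarith [abs_nonneg (a ^ 2 + b ^ 2 - 1), abs_nonneg b, mul_nonneg (abs_nonneg (a ^ 2 + b ^ 2 - 1)) (abs_nonneg b)]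

theorem hAlR (h1 : StAlQ) : StAlR := by
  rintro a b a' b' θ h ρ ⟨hh, hh2, hθ, hθ2, ha, hb, hρ, hρ2, hρ3, hA, hB, hA2, hB2⟩
  obtain ⟨α, hα⟩ : ∃ α, α = a' - a := ⟨_, rfl⟩
  obtain ⟨β, hβ⟩ : ∃ β, β = b' - b := ⟨_, rfl⟩
  obtain ⟨q, hq⟩ : ∃ q, q = a ^ 2 + b ^ 2 - 1 := ⟨_, rfl⟩
  obtain ⟨q', hq'⟩ : ∃ q', q' = a' ^ 2 + b' ^ 2 - 1 := ⟨_, rfl⟩
  obtain ⟨s, hs⟩ : ∃ s, s = a + θ := ⟨_, rfl⟩
  obtain ⟨r, hr⟩ : ∃ r, r = h * ρ := ⟨_, rfl⟩
  have hr0 : 0 ≤ r := by rw [hr]; positivity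
  have hr1 : r ≤ 1 / 10 ^ 14 := by
    rw [hr]
    calc h * ρ ≤ 1 / 10 ^ 18 * 1100 := by gcongr
      _ ≤ 1 / 10 ^ 14 := by norm_num
  rw [← hα, ← hr] at hA
  rw [← hβ, ← hr] at hB
  rw [← hα, ← hq, ← hr] at hA2
  rw [← hβ, ← hs, ← hr] at hB2
  rw [← hq, ← hs] at hρ3
  have hs24 : |s| ≤ 24 := by
    rw [hs]
    calc |a + θ| ≤ |a| + |θ| := abs_add_le _ _
      _ ≤ 8 + 16 := by rw [abs_of_pos hθ]; gcongr
      _ = 24 := by norm_num
  have ea : a' = a + α := by rw [hα]; ring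
  have eb : b' = b + β := by rw [hβ]; ring
  -- increments of `q`
  have hdq : q' - (1 + h * a) * q = -(2 * h * b ^ 2 * s) + (2 * a * (α - h * q / 2) + 2 * b * (β + h * b * s) + α ^ 2 + β ^ 2) := by
    rw [hq', ea, eb, hq]; ring
  have hα2 : α ^ 2 ≤ r ^ 2 := by rw [← sq_abs α]; gcongr
  have hβ2 : β ^ 2 ≤ r ^ 2 := by rw [← sq_abs β]; gcongr
  have herr : |2 * a * (α - h * q / 2) + 2 * b * (β + h * b * s) + α ^ 2 + β ^ 2| ≤ 33 * (2 / 10 ^ 7) * r := by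
    have c1 : |2 * a * (α - h * q / 2)| ≤ 16 * (2 / 10 ^ 7 * r) := by
      rw [abs_mul, abs_mul, abs_of_pos (show (0 : ℝ) < 2 by norm_num)]
      calc 2 * |a| * |α - h * q / 2| ≤ 2 * 8 * (2 / 10 ^ 7 * r) := by gcongr
        _ = 16 * (2 / 10 ^ 7 * r) := by ring
    have c2 : |2 * b * (β + h * b * s)| ≤ 16 * (2 / 10 ^ 7 * r) := by
      rw [abs_mul, abs_mul, abs_of_pos (show (0 : ℝ) < 2 by norm_num)]
      calc 2 * |b| * |β + h * b * s| ≤ 2 * 8 * (2 / 10 ^ 7 * r) := by gcongr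
        _ = 16 * (2 / 10 ^ 7 * r) := by ring
    have c3 : |α ^ 2| ≤ r ^ 2 := by rw [abs_of_nonneg (sq_nonneg α)]; exact hα2
    have c4 : |β ^ 2| ≤ r ^ 2 := by rw [abs_of_nonneg (sq_nonneg β)]; exact hβ2
    have c5 : r ^ 2 ≤ 1 / 10 ^ 14 * r := by nlinarith
    calc |2 * a * (α - h * q / 2) + 2 * b * (β + h * b * s) + α ^ 2 + β ^ 2|
        ≤ |2 * a * (α - h * q / 2) + 2 * b * (β + h * b * s) + α ^ 2| + |β ^ 2| := abs_add_le _ _
      _ ≤ |2 * a * (α - h * q / 2) + 2 * b * (β + h * b * s)| + |α ^ 2| + |β ^ 2| := by gcongr; exact abs_add_le _ _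
      _ ≤ |2 * a * (α - h * q / 2)| + |2 * b * (β + h * b * s)| + |α ^ 2| + |β ^ 2| := by gcongr; exact abs_add_le _ _
      _ ≤ 16 * (2 / 10 ^ 7 * r) + 16 * (2 / 10 ^ 7 * r) + r ^ 2 + r ^ 2 := by gcongr
      _ ≤ 33 * (2 / 10 ^ 7) * r := by norm_num at c5 ⊢; linarith
  obtain ⟨P, hP⟩ : ∃ P, P = |q| := ⟨_, rfl⟩
  obtain ⟨N, hN⟩ : ∃ N, N = |b| := ⟨_, rfl⟩
  obtain ⟨P', hP'⟩ : ∃ P', P' = |q'| := ⟨_, rfl⟩
  obtain ⟨N', hN'⟩ : ∃ N', N' = |b'| := ⟨_, rfl⟩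
  have hP0 : 0 ≤ P := by rw [hP]; positivity
  have hN0 : 0 ≤ N := by rw [hN]; positivity
  have hP'0 : 0 ≤ P' := by rw [hP']; positivity
  have hN'0 : 0 ≤ N' := by rw [hN']; positivity
  have hN8 : N ≤ 8 := by rw [hN]; exact hb
  have hb2 : b ^ 2 = N ^ 2 := by rw [hN, sq_abs]
  have hha : 0 ≤ 1 + h * a := by
    have : |h * a| ≤ 1 := by
      rw [abs_mul, abs_of_pos hh]
      calc h * |a| ≤ 1 / 10 ^ 18 * 8 := by gcongr
        _ ≤ 1 := by norm_num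
    linarith [(abs_le.1 this).1]
  have k1 : |P' - (1 + h * a) * P| ≤ h * (2 * N ^ 2 * |s| + 33 * (2 / 10 ^ 7) * ρ) := by
    have c1 : |P' - (1 + h * a) * P| ≤ |q' - (1 + h * a) * q| := by
      have : (1 + h * a) * P = |(1 + h * a) * q| := by rw [abs_mul, abs_of_nonneg hha, hP]
      rw [this, hP']
      exact abs_abs_sub_abs_le _ _
    refine c1.trans ?_
    rw [hdq]
    refine (abs_add_le _ _).trans ?_
    have c2 : |-(2 * h * b ^ 2 * s)| = h * (2 * N ^ 2 * |s|) := by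
      rw [abs_neg, abs_mul, abs_mul, abs_mul, abs_of_pos (show (0 : ℝ) < 2 by norm_num), abs_of_pos hh,
        abs_of_nonneg (sq_nonneg b), hb2]
      ring
    rw [c2]
    have c3 : h * (2 * N ^ 2 * |s| + 33 * (2 / 10 ^ 7) * ρ) = h * (2 * N ^ 2 * |s|) + 33 * (2 / 10 ^ 7) * (h * ρ) := by ring
    rw [c3, ← hr]
    linarith
  have k2 : |N' - N| ≤ h * (N * |s| + 2 / 10 ^ 7 * ρ) := by
    have c1 : |N' - N| ≤ |b' - b| := by rw [hN', hN]; exact abs_abs_sub_abs_le _ _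
    refine c1.trans ?_
    rw [← hβ]
    have c2 : β = -(h * b * s) + (β + h * b * s) := by ring
    rw [c2]
    refine (abs_add_le _ _).trans ?_
    have c3 : |-(h * b * s)| = h * (N * |s|) := by
      rw [abs_neg, abs_mul, abs_mul, abs_of_pos hh, hN]; ring
    rw [c3]
    have c4 : h * (N * |s| + 2 / 10 ^ 7 * ρ) = h * (N * |s|) + 2 / 10 ^ 7 * (h * ρ) := by ring
    rw [c4, ← hr]
    linarith
  have k3 : |P' - P| ≤ 33 * (h * ρ) := by
    have c1 : |P' - P| ≤ |q' - q| := by rw [hP', hP]; exact abs_abs_sub_abs_le _ _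
    refine c1.trans ?_
    have c2 : q' - q = 2 * a * α + 2 * b * β + α ^ 2 + β ^ 2 := by rw [hq', ea, eb, hq]; ring
    rw [c2, ← hr]
    have d1 : |2 * a * α| ≤ 16 * r := by
      rw [abs_mul, abs_mul, abs_of_pos (show (0 : ℝ) < 2 by norm_num)]
      calc 2 * |a| * |α| ≤ 2 * 8 * r := by gcongr
        _ = 16 * r := by ring
    have d2 : |2 * b * β| ≤ 16 * r := by
      rw [abs_mul, abs_mul, abs_of_pos (show (0 : ℝ) < 2 by norm_num)]
      calc 2 * |b| * |β| ≤ 2 * 8 * r := by gcongr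
        _ = 16 * r := by ring
    have c3 : |α ^ 2| ≤ r ^ 2 := by rw [abs_of_nonneg (sq_nonneg α)]; exact hα2
    have c4 : |β ^ 2| ≤ r ^ 2 := by rw [abs_of_nonneg (sq_nonneg β)]; exact hβ2
    have c5 : r ^ 2 ≤ 1 / 10 ^ 14 * r := by nlinarith
    calc |2 * a * α + 2 * b * β + α ^ 2 + β ^ 2|
        ≤ |2 * a * α + 2 * b * β + α ^ 2| + |β ^ 2| := abs_add_le _ _
      _ ≤ |2 * a * α + 2 * b * β| + |α ^ 2| + |β ^ 2| := by gcongr; exact abs_add_le _ _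
      _ ≤ |2 * a * α| + |2 * b * β| + |α ^ 2| + |β ^ 2| := by gcongr; exact abs_add_le _ _
      _ ≤ 16 * r + 16 * r + r ^ 2 + r ^ 2 := by gcongr
      _ ≤ 33 * r := by norm_num at c5 ⊢; linarith
  have k4 : |N' - N| ≤ h * ρ := by
    rw [← hr, hN', hN]
    refine (abs_abs_sub_abs_le _ _).trans ?_
    rw [← hβ]; exact hB
  have hρ4 : ρ ≤ 5 * (P + 2 * (N * |s|)) := by rw [hP, hN]; exact hρ3
  have ephi : ph a b = P ^ 2 / (P + N) := by
    unfold ph; rw [← hq, hP, hN, sq_abs]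
  have ephi' : ph a' b' = P' ^ 2 / (P' + N') := by
    unfold ph; rw [← hq', hP', hN', sq_abs]
  refine ⟨?_, ?_⟩
  · rcases eq_or_lt_of_le (add_nonneg hP0 hN0) with h0 | h0
    · -- everything vanishes
      have hPz : P = 0 := by linarith
      have hNz : N = 0 := by linarith
      have hρz : ρ = 0 := by
        rw [hPz, hNz] at hρ4; linarith
      rw [hρz] at hr
      have hr' : r = 0 := by rw [hr]; ring
      have hαz : α = 0 := abs_nonpos_iff.1 (by rw [hr'] at hA; exact hA)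
      have hβz : β = 0 := abs_nonpos_iff.1 (by rw [hr'] at hB; exact hB)
      have e1 : a' = a := by rw [ea, hαz]; ring
      have e2 : b' = b := by rw [eb, hβz]; ring
      rw [e1, e2, sub_self, mul_zero, neg_zero]
      have e3 : ph a b = 0 := by rw [ephi, hPz]; simp
      rw [e3]
      have : 0 ≤ |b| * (a + θ) ^ 2 := by positivity
      have e4 : h * (-(a ^ 2 * 0) + 1 / 60 * 0 + 14 / 10 * 10 ^ 6 * (|b| * (a + θ) ^ 2)) =
          14 / 10 * 10 ^ 6 * (h * (|b| * (a + θ) ^ 2)) := by ring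
      rw [e4]; positivity
    · have := core_AlR (a := a) (θ := θ) (h := h) (ρ := ρ) h1 hh hh2 ha hP0 hN0 hN8 hP'0 hN'0 (abs_nonneg s) hs24 h0 hρ hρ4 k1 k2 k3 k4
      rw [ephi, ephi', ← hN, ← hs]
      rw [sq_abs] at this
      exact this
  · -- the first order term
    have c1 : ph a' b' ≤ P + 33 * (h * ρ) := by
      refine (ph_le_AlR a' b').trans ?_
      rw [← hq', ← hP']
      linarith [(abs_le.1 k3).2]
    have c2 : |α| ≤ h * P / 2 + 2 / 10 ^ 7 * r := by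
      have : α = h * q / 2 + (α - h * q / 2) := by ring
      rw [this]
      refine (abs_add_le _ _).trans ?_
      have e5 : |h * q / 2| = h * P / 2 := by
        rw [abs_div, abs_mul, abs_of_pos hh, abs_of_pos (show (0 : ℝ) < 2 by norm_num), hP]
      rw [e5]
      linarith
    rw [abs_mul, ← hα, abs_of_nonneg (ph_nonneg_AlR a' b'), ← hq, ← hs, ← hN]
    have hq2 : q ^ 2 = P ^ 2 := by rw [hP, sq_abs]
    rw [hq2]
    obtain ⟨W, hW⟩ : ∃ W, W = N * |s| := ⟨_, rfl⟩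
    have hW0 : 0 ≤ W := by rw [hW]; positivity
    rw [← hW] at hρ4
    obtain ⟨w, hw⟩ : ∃ w, w = N * s ^ 2 := ⟨_, rfl⟩
    have hw0 : 0 ≤ w := by rw [hw]; positivity
    have hWw : W ^ 2 ≤ 8 * w := by
      rw [hW, hw, mul_pow, sq_abs]
      have : N ^ 2 ≤ 8 * N := by nlinarith
      calc N ^ 2 * s ^ 2 ≤ 8 * N * s ^ 2 := by gcongr
        _ = 8 * (N * s ^ 2) := by ring
    rw [← hw]
    calc |α| * ph a' b' ≤ (h * P / 2 + 2 / 10 ^ 7 * r) * (P + 33 * (h * ρ)) := by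
          gcongr
          exact ph_nonneg_AlR a' b'
      _ = h * (P ^ 2 / 2 + 33 / 2 * (h * (ρ * P)) + 2 / 10 ^ 7 * (ρ * P) + 66 / 10 ^ 7 * (h * ρ ^ 2)) := by
          rw [hr]; ring
      _ ≤ h * (51 / 100 * P ^ 2 + w) := by
          apply mul_le_mul_of_nonneg_left _ hh.le
          have d1 : ρ * P ≤ 5 * (P + 2 * W) * P := by gcongr
          have d2 : ρ ^ 2 ≤ (5 * (P + 2 * W)) ^ 2 := by gcongr
          have d3 : (P + 2 * W) * P ≤ 2 * P ^ 2 + W ^ 2 := by nlinarith [sq_nonneg (P - W)]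
          have d4 : (P + 2 * W) ^ 2 ≤ 2 * P ^ 2 + 8 * W ^ 2 := by nlinarith [sq_nonneg (P - 2 * W)]
          have d5 : 0 ≤ ρ * P := by positivity
          have d6 : h * (ρ * P) ≤ 1 / 10 ^ 18 * (ρ * P) := by gcongr
          have d7 : h * ρ ^ 2 ≤ 1 / 10 ^ 18 * ρ ^ 2 := by gcongr
          have d8 : 0 ≤ P ^ 2 := sq_nonneg P
          norm_num at d6 d7 ⊢
          nlinarith

end Helper83.TH
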