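import Pool.Agent.Helper83.TH.St

/-!
# Project TH: module Ap (bound of bounded orbits)
-/

set_option autoImplicit false

open Set Filter Topology
open Helper85.HN (hen Orb Bd KK E0 dl ak)

noncomputable section

namespace Helper83.TH

/-- MODULE Ap. -/
theorem hAp (h1 : StApZ) : StAp := by
  intro θ h y hh hh2 hθ hδ2 hY hB n
  have hZ := h1 θ h y hh hh2 hθ hδ2 hY hB
  set δ : ℝ := θ * h with hδ
  have hδ0 : 0 < δ := mul_pos hθ hh
  obtain ⟨Z, hZd⟩ : ∃ Z : ℤ → ℝ, ∀ n, Z n = y (n + 1) + (1 - δ) * y n := ⟨_, fun _ => rfl⟩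
  have hZ1 : ∀ n, |Z n| ≤ 2 + h := fun n => by rw [hZd]; exact hZ n
  have hZs : ∀ n, Z n - Z (n - 1) = h * (y n ^ 2 - 1) := by
    intro n
    have e := hY n
    rw [hZd, hZd, sub_add_cancel]
    have : h * (θ * (y n - y (n - 1))) = δ * (y n - y (n - 1)) := by rw [hδ]; ring
    linear_combination e + this
  have hZdiff : ∀ a b, Z a - Z b ≤ 4 + 2 * h := by
    intro a b
    have h2 := (abs_le.1 (hZ1 a)).2
    have h3 := (abs_le.1 (hZ1 b)).1
    linarith
  obtain ⟨s, hsd⟩ : ∃ s : ℤ → ℝ, ∀ n, s n = y n - y (n - 1) := ⟨_, fun _ => rfl⟩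
  have hstep : ∀ n, |s (n + 1)| ≤ |s n| + (Z n - Z (n - 1)) + 2 * h := by
    intro n
    have e := hY n
    have e2 : s (n + 1) = -((1 - δ) * s n) + h * (y n ^ 2 - 1) := by
      rw [hsd, hsd, add_sub_cancel_right]
      have : h * (θ * (y n - y (n - 1))) = δ * (y n - y (n - 1)) := by rw [hδ]; ring
      linear_combination e + this
    rw [e2, hZs]
    have h2 : |-((1 - δ) * s n) + h * (y n ^ 2 - 1)| ≤ |(1 - δ) * s n| + |h * (y n ^ 2 - 1)| := by
      have := abs_add_le (-((1 - δ) * s n)) (h * (y n ^ 2 - 1))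
      rwa [abs_neg] at this
    have h3 : |(1 - δ) * s n| ≤ |s n| := by
      rw [abs_mul, abs_of_nonneg (by linarith : (0 : ℝ) ≤ 1 - δ)]
      nlinarith [abs_nonneg (s n)]
    have h4 : |h * (y n ^ 2 - 1)| ≤ h * (y n ^ 2 - 1) + 2 * h := by
      rw [abs_mul, abs_of_pos hh]
      have h5 : |y n ^ 2 - 1| ≤ (y n ^ 2 - 1) + 2 := by
        rw [abs_le]
        constructor
        · nlinarith [sq_nonneg (y n)]
        · linarith
      nlinarith
    linarith
  have hback : ∀ (j : ℕ) (n : ℤ), |s n| ≤ |s (n - j)| + (Z (n - 1) - Z (n - j - 1)) + 2 * h * j := by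
    intro j
    induction j with
    | zero => intro n; simp
    | succ j ih =>
      intro n
      have h2 := ih n
      have h3 := hstep (n - j - 1)
      rw [show n - (j : ℤ) - 1 + 1 = n - j by ring] at h3
      have e1 : n - ((j + 1 : ℕ) : ℤ) = n - j - 1 := by push_cast; ring
      rw [e1]
      push_cast
      linarith
  -- a small step exists
  obtain ⟨N, hN1, hN2⟩ : ∃ N : ℕ, 1 ≤ (N : ℝ) * h ∧ (N : ℝ) * h ≤ 1 + h := by
    refine ⟨⌈1 / h⌉₊, ?_, ?_⟩
    · have := Nat.le_ceil (1 / h)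
      rwa [div_le_iff₀ hh] at this
    · have h2 := (Nat.ceil_lt_add_one (by positivity : (0 : ℝ) ≤ 1 / h)).le
      have h3 := mul_le_mul_of_nonneg_right h2 hh.le
      rwa [add_mul, one_div_mul_cancel hh.ne', one_mul] at h3
  have hex : ∃ j : ℕ, j ≤ N ∧ s (n - j) ^ 2 ≤ 20 + 16 * h := by
    by_contra hcon
    push Not at hcon
    have key : ∀ M : ℕ, M ≤ N → h * M * (20 + 16 * h) ≤
        2 * ((Z (n - 1) - Z (n - M - 1) + M * h) + (Z (n - 2) - Z (n - M - 2) + M * h)) := by
      intro M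
      induction M with
      | zero => intro _; simp
      | succ M ih =>
        intro hM
        have h2 := ih (by omega)
        have h3 := hcon (M + 1) hM
        have e1 : n - ((M + 1 : ℕ) : ℤ) = n - M - 1 := by push_cast; ring
        rw [e1] at h3 ⊢
        rw [hsd] at h3
        have h4 := hZs (n - M - 1)
        have h5 := hZs (n - M - 2)
        rw [show n - (M : ℤ) - 1 - 1 = n - M - 2 by ring] at h3 h4 ⊢
        rw [show n - (M : ℤ) - 2 - 1 = n - M - 1 - 2 by ring] at h5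
        have h6 : h * (20 + 16 * h) ≤ h * (y (n - M - 1) - y (n - M - 2)) ^ 2 :=
          mul_le_mul_of_nonneg_left h3.le hh.le
        have h7 : h * (y (n - M - 1) - y (n - M - 2)) ^ 2 ≤
            h * (2 * (y (n - M - 1) ^ 2 + y (n - M - 2) ^ 2)) := by
          refine mul_le_mul_of_nonneg_left ?_ hh.le
          nlinarith [sq_nonneg (y (n - M - 1) + y (n - M - 2))]
        push_cast
        nlinarith
    have h2 := key N le_rfl
    have h3 := hZdiff (n - 1) (n - N - 1)
    have h4 := hZdiff (n - 2) (n - N - 2)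
    nlinarith [hN1, hh]
  obtain ⟨j, hj, hsj⟩ := hex
  have hsj2 : |s (n - j)| ≤ 4.5 := by
    apply abs_le_of_sq_le_sq _ (by norm_num)
    nlinarith
  have hjN : (j : ℝ) * h ≤ 1 + h := by
    have : (j : ℝ) ≤ N := by exact_mod_cast hj
    nlinarith
  have hsn : |s n| ≤ 10.6 := by
    have h2 := hback j n
    have h3 := hZdiff (n - 1) (n - j - 1)
    nlinarith
  -- the bound
  have e3 : (2 - δ) * y n = Z (n - 1) + (1 - δ) * s n := by
    rw [hZd, hsd, sub_add_cancel]
    ring
  have h5 : |(2 - δ) * y n| ≤ 2 + h + 10.6 := by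
    rw [e3]
    refine (abs_add_le _ _).trans ?_
    have h6 := hZ1 (n - 1)
    have h7 : |(1 - δ) * s n| ≤ |s n| := by
      rw [abs_mul, abs_of_nonneg (by linarith : (0 : ℝ) ≤ 1 - δ)]
      nlinarith [abs_nonneg (s n)]
    linarith
  rw [abs_mul, abs_of_nonneg (by linarith : (0 : ℝ) ≤ 2 - δ)] at h5
  nlinarith [abs_nonneg (y n)]

end Helper83.TH
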