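import Pool.Agent.Helper83.TH.St

set_option autoImplicit false

namespace Helper83.TH

open Helper85.HN (hen Orb Bd KK E0)

theorem hApZ : StApZ := by
  intro θ h y hh hh2 hθ hδ hy hbd
  obtain ⟨δ, hδd⟩ : ∃ δ, δ = θ * h := ⟨_, rfl⟩
  have hδ0 : 0 < δ := by rw [hδd]; positivity
  rw [← hδd] at hδ
  obtain ⟨Z, hZ⟩ : ∃ Z : ℤ → ℝ, ∀ n, Z n = y (n + 1) + (1 - δ) * y n := ⟨_, fun _ => rfl⟩
  have hinc : ∀ n, Z n - Z (n - 1) = h * (y n ^ 2 - 1) := by
    intro n
    have h1 := hy n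
    rw [hZ, hZ, sub_add_cancel, hδd]
    linear_combination h1
  have hinc2 : ∀ n, Z (n + 1) - Z (n - 1) = h * (y n ^ 2 + y (n + 1) ^ 2 - 2) := by
    intro n
    have h1 := hinc n
    have h2 := hinc (n + 1)
    rw [add_sub_cancel_right] at h2
    linear_combination h1 + h2
  have hsq : ∀ n, Z n ^ 2 / 2 ≤ y n ^ 2 + y (n + 1) ^ 2 := by
    intro n
    rw [hZ]
    have h1 : (y (n + 1) + (1 - δ) * y n) ^ 2 ≤ 2 * (y (n + 1) ^ 2 + ((1 - δ) * y n) ^ 2) := by
      nlinarith [sq_nonneg (y (n + 1) - (1 - δ) * y n)]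
    have h2 : ((1 - δ) * y n) ^ 2 ≤ y n ^ 2 := by
      rw [mul_pow]
      have : (1 - δ) ^ 2 ≤ 1 := by nlinarith
      nlinarith [sq_nonneg (y n)]
    linarith
  have hge : ∀ n, h * (Z n ^ 2 / 2 - 2) ≤ Z (n + 1) - Z (n - 1) := by
    intro n
    rw [hinc2]
    apply mul_le_mul_of_nonneg_left _ hh.le
    linarith [hsq n]
  obtain ⟨K, hK⟩ : ∃ K : ℝ, ∀ n, |Z n| ≤ K := by
    obtain ⟨M, hM⟩ := hbd
    refine ⟨M + M, fun n => ?_⟩
    rw [hZ]
    have hM0 : 0 ≤ M := (abs_nonneg _).trans (hM n)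
    calc |y (n + 1) + (1 - δ) * y n| ≤ |y (n + 1)| + |(1 - δ) * y n| := abs_add_le _ _
      _ = |y (n + 1)| + (1 - δ) * |y n| := by rw [abs_mul, abs_of_nonneg (show 0 ≤ 1 - δ by linarith)]
      _ ≤ M + 1 * M := by gcongr <;> first | exact hM _ | linarith
      _ = M + M := by ring
  have hupper : ∀ m, Z m ≤ 2 + h := by
    intro m
    by_contra hcon
    push Not at hcon
    have hm1 : 2 < Z (m + 1) := by
      have h1 := hinc (m + 1)
      rw [add_sub_cancel_right] at h1
      nlinarith [sq_nonneg (y (m + 1))]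
    obtain ⟨M, hMd⟩ : ∃ M, M = min (Z m) (Z (m + 1)) := ⟨_, rfl⟩
    have hM2 : 2 < M := by rw [hMd]; exact lt_min (by linarith) hm1
    obtain ⟨μ, hμ⟩ : ∃ μ, μ = h * (M ^ 2 / 2 - 2) := ⟨_, rfl⟩
    have hμ0 : 0 < μ := by rw [hμ]; apply mul_pos hh; nlinarith
    have hstep : ∀ (n : ℤ) (t : ℝ), M ≤ t → t ≤ Z n → t ≤ Z (n + 1) → t + μ ≤ Z (n + 2) := by
      intro n t ht h1 h2
      have h3 := hge (n + 1)
      rw [add_sub_cancel_right, show n + 1 + 1 = n + 2 by ring] at h3
      have h4 : μ ≤ h * (Z (n + 1) ^ 2 / 2 - 2) := by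
        rw [hμ]
        apply mul_le_mul_of_nonneg_left _ hh.le
        have : M ^ 2 ≤ Z (n + 1) ^ 2 := by
          apply pow_le_pow_left₀ (by linarith); linarith
        linarith
      linarith
    have hind : ∀ j : ℕ, M + j * μ ≤ Z (m + 2 * j) ∧ M + j * μ ≤ Z (m + 2 * j + 1) := by
      intro j
      induction j with
      | zero =>
        simp only [Nat.cast_zero, zero_mul, add_zero, mul_zero]
        exact ⟨by rw [hMd]; exact min_le_left _ _, by rw [hMd]; exact min_le_right _ _⟩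
      | succ j ih =>
        obtain ⟨i1, i2⟩ := ih
        have hj : M ≤ M + j * μ := by
          have : 0 ≤ (j : ℝ) * μ := by positivity
          linarith
        have s1 := hstep (m + 2 * j) (M + j * μ) hj i1 i2
        have s2 := hstep (m + 2 * j + 1) (M + j * μ) hj i2 (by
          rw [show m + 2 * (j : ℤ) + 1 + 1 = m + 2 * j + 2 by ring]; linarith)
        push_cast
        constructor
        · rw [show m + 2 * ((j : ℤ) + 1) = m + 2 * j + 2 by ring]
          linarith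
        · rw [show m + 2 * ((j : ℤ) + 1) + 1 = m + 2 * j + 1 + 2 by ring]
          linarith
    obtain ⟨j, hj⟩ := exists_nat_gt (K / μ)
    have h1 := (hind j).1
    have h2 := (abs_le.1 (hK (m + 2 * j))).2
    rw [div_lt_iff₀ hμ0] at hj
    linarith
  have hlower : ∀ m, -(2 + h) ≤ Z m := by
    intro m
    by_contra hcon
    push Not at hcon
    have hm1 : Z (m - 1) < -2 := by
      have h1 := hinc m
      nlinarith [sq_nonneg (y m)]
    obtain ⟨M, hMd⟩ : ∃ M, M = min (-Z m) (-Z (m - 1)) := ⟨_, rfl⟩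
    have hM2 : 2 < M := by rw [hMd]; exact lt_min (by linarith) (by linarith)
    obtain ⟨μ, hμ⟩ : ∃ μ, μ = h * (M ^ 2 / 2 - 2) := ⟨_, rfl⟩
    have hμ0 : 0 < μ := by rw [hμ]; apply mul_pos hh; nlinarith
    have hstep : ∀ (n : ℤ) (t : ℝ), M ≤ t → t ≤ -Z n → t ≤ -Z (n - 1) → t + μ ≤ -Z (n - 2) := by
      intro n t ht h1 h2
      have h3 := hge (n - 1)
      rw [sub_add_cancel, show n - 1 - 1 = n - 2 by ring] at h3
      have h4 : μ ≤ h * (Z (n - 1) ^ 2 / 2 - 2) := by
        rw [hμ]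
        apply mul_le_mul_of_nonneg_left _ hh.le
        have : M ^ 2 ≤ (-Z (n - 1)) ^ 2 := by
          apply pow_le_pow_left₀ (by linarith); linarith
        have h5 : (-Z (n - 1)) ^ 2 = Z (n - 1) ^ 2 := by ring
        linarith
      linarith
    have hind : ∀ j : ℕ, M + j * μ ≤ -Z (m - 2 * j) ∧ M + j * μ ≤ -Z (m - 2 * j - 1) := by
      intro j
      induction j with
      | zero =>
        simp only [Nat.cast_zero, zero_mul, add_zero, mul_zero, sub_zero]
        exact ⟨by rw [hMd]; exact min_le_left _ _, by rw [hMd]; exact min_le_right _ _⟩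
      | succ j ih =>
        obtain ⟨i1, i2⟩ := ih
        have hj : M ≤ M + j * μ := by
          have : 0 ≤ (j : ℝ) * μ := by positivity
          linarith
        have s1 := hstep (m - 2 * j) (M + j * μ) hj i1 i2
        have s2 := hstep (m - 2 * j - 1) (M + j * μ) hj i2 (by
          rw [show m - 2 * (j : ℤ) - 1 - 1 = m - 2 * j - 2 by ring]; linarith)
        push_cast
        constructor
        · rw [show m - 2 * ((j : ℤ) + 1) = m - 2 * j - 2 by ring]
          linarith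
        · rw [show m - 2 * ((j : ℤ) + 1) - 1 = m - 2 * j - 1 - 2 by ring]
          linarith
    obtain ⟨j, hj⟩ := exists_nat_gt (K / μ)
    have h1 := (hind j).1
    have h2 := (abs_le.1 (hK (m - 2 * j))).1
    rw [div_lt_iff₀ hμ0] at hj
    linarith
  intro n
  rw [← hδd, ← hZ]
  exact abs_le.2 ⟨hlower n, hupper n⟩

end Helper83.TH
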