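import Pool.Agent.Helper83.TH.St

set_option autoImplicit false

namespace Helper83.TH

open Helper85.HN (hen Orb Bd KK E0)

/-- The exponentially small quantity is below its argument. -/
private theorem small_Bc {a u : ℝ} (ha : 0 < a) (hu : 0 < u) (hua : u ≤ a ^ 3 / 6) :
    Real.exp (-(a / u)) ≤ u ^ 2 := by
  have hx : 0 ≤ a / u := by positivity
  have h1 := Real.pow_div_factorial_le_exp (x := a / u) hx 3
  have h5 : ((Nat.factorial 3 : ℕ) : ℝ) = 6 := by norm_num [Nat.factorial]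
  rw [h5] at h1
  have hpos : 0 < (a / u) ^ 3 / 6 := by positivity
  rw [Real.exp_neg]
  have h2 : (Real.exp (a / u))⁻¹ ≤ ((a / u) ^ 3 / 6)⁻¹ := inv_anti₀ hpos h1
  refine h2.trans ?_
  have h3 : ((a / u) ^ 3 / 6)⁻¹ = 6 * u ^ 3 / a ^ 3 := by
    field_simp
  rw [h3, div_le_iff₀ (by positivity)]
  have h4 : 6 * u ≤ a ^ 3 := by linarith
  have h6 : 0 ≤ u ^ 2 := by positivity
  nlinarith [mul_le_mul_of_nonneg_left h4 h6]

private theorem smallx_Bc {a x : ℝ} (ha : 0 < a) (hx : 0 < x) (hxa : x ≤ (a ^ 3 / 6) ^ 2) :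
    Real.exp (-(a / Real.sqrt x)) ≤ x := by
  have hu : 0 < Real.sqrt x := Real.sqrt_pos.2 hx
  have hsq : Real.sqrt x ^ 2 = x := Real.sq_sqrt hx.le
  have hle : Real.sqrt x ≤ a ^ 3 / 6 := by
    rw [← Real.sqrt_sq (show 0 ≤ a ^ 3 / 6 by positivity)]
    exact Real.sqrt_le_sqrt hxa
  have := small_Bc ha hu hle
  rwa [hsq] at this

theorem hBc (h1 : StHor) (h2 : Helper85.HN.StTop) : StBc := by
  obtain ⟨a0, d0, ha0, hd0, hbox⟩ := h1
  refine ⟨a0 / 2, min (d0 / 2) (min ((a0 ^ 3 / 6) ^ 2 / 2) (1 / 4)), by positivity, by positivity, ?_⟩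
  intro b c hb hc hor
  have hb1 : |b + 1| < d0 / 2 := lt_of_lt_of_le hb (min_le_left _ _)
  have hb2 : |b + 1| < 1 / 4 := lt_of_lt_of_le hb ((min_le_right _ _).trans (min_le_right _ _))
  have hb3 : |b + 1| < (a0 ^ 3 / 6) ^ 2 / 2 := lt_of_lt_of_le hb ((min_le_right _ _).trans (min_le_left _ _))
  have hc1 : |c| < d0 / 2 := lt_of_lt_of_le hc (min_le_left _ _)
  have hc3 : |c| < (a0 ^ 3 / 6) ^ 2 / 2 := lt_of_lt_of_le hc ((min_le_right _ _).trans (min_le_left _ _))
  have hsw : |1 + b| = |b + 1| := by rw [add_comm]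
  have hβ0 : 0 ≤ |b + 1| := abs_nonneg _
  have hsqb : (1 + b) ^ 2 = |b + 1| ^ 2 := by rw [sq_abs]; ring
  have hq : (1 + b) ^ 2 / 4 ≤ |b + 1| / 4 := by
    rw [hsqb]; nlinarith
  rcases le_or_gt ((1 + b) ^ 2 / 4 - c) 0 with he | he
  · exact h2.2.1 (b, c) (by simpa using he)
  set e : ℝ := (1 + b) ^ 2 / 4 - c with hedef
  have hcl : -c ≤ |c| := neg_le_abs c
  have hed : e < d0 := by linarith
  have hex : e ≤ (a0 ^ 3 / 6) ^ 2 := by linarith
  have hsm : Real.exp (-(a0 / Real.sqrt e)) ≤ e := smallx_Bc ha0 he hex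
  apply hbox b c (by rw [hsw]; linarith) he hed
  rw [hsw, ← hedef]
  rcases le_or_gt 0 c with hc0 | hc0
  · refine hsm.trans ?_
    have : e ≤ (1 + b) ^ 2 / 4 := by rw [hedef]; linarith
    linarith
  · have hor' : Real.exp (-(a0 / 2 / Real.sqrt (-c))) ≤ |b + 1| := by
      rcases hor with h | h
      · exact absurd h (not_le.2 hc0)
      · exact h
    rcases le_or_gt ((1 + b) ^ 2 / 4) (3 * (-c)) with h3 | h3
    · refine le_trans ?_ hor'
      apply Real.exp_le_exp.2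
      apply neg_le_neg
      have hC : 0 < -c := by linarith
      have hCs : 0 < Real.sqrt (-c) := Real.sqrt_pos.2 hC
      have hes : 0 < Real.sqrt e := Real.sqrt_pos.2 he
      have hle : Real.sqrt e ≤ 2 * Real.sqrt (-c) := by
        have : e ≤ 4 * (-c) := by rw [hedef]; linarith
        calc Real.sqrt e ≤ Real.sqrt (4 * (-c)) := Real.sqrt_le_sqrt this
          _ = 2 * Real.sqrt (-c) := by
            rw [Real.sqrt_mul (by norm_num)]
            congr 1
            rw [show (4 : ℝ) = 2 ^ 2 by norm_num, Real.sqrt_sq (by norm_num)]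
      rw [div_le_div_iff₀ hCs hes]
      nlinarith
    · refine hsm.trans ?_
      have : e ≤ (1 + b) ^ 2 / 3 := by rw [hedef]; linarith
      nlinarith

end Helper83.TH
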