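import Pool.Agent.Helper83.TH.St

/-!
# Project TH, module Big: large friction
-/

set_option autoImplicit false

open Set Filter Topology
open Helper85.HN (hen Orb Bd KK E0 dl ak)

namespace Helper83.TH

private theorem tele_Big (c : ℕ → ℝ) (n : ℕ) :
    ∑ t ∈ Finset.range n, (c (t + 2) - c t) = c (n + 1) + c n - c 1 - c 0 := by
  induction n with
  | zero => simp
  | succ n ih => rw [Finset.sum_range_succ, ih]; ring

private theorem teleb_Big (c : ℕ → ℝ) (hc : ∀ t, |c t| ≤ 7) (n : ℕ) :
    |∑ t ∈ Finset.range n, (c (t + 2) - c t)| ≤ 28 := by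
  rw [tele_Big, abs_le]
  have h1 := abs_le.1 (hc (n + 1))
  have h2 := abs_le.1 (hc n)
  have h3 := abs_le.1 (hc 1)
  have h4 := abs_le.1 (hc 0)
  constructor <;> linarith [h1.1, h1.2, h2.1, h2.2, h3.1, h3.2, h4.1, h4.2]

private theorem alt_Big (c w : ℕ → ℝ) (hc : ∀ t, |c t| ≤ 7) (hw : ∀ t, w t = c (t + 2) - c t)
    (n : ℕ) (h : ∀ t, t + 1 < n → w t * w (t + 1) < 0) :
    ∑ t ∈ Finset.range n, |w t| ≤ 28 := by
  obtain ⟨τ, hτ, hτ0⟩ : ∃ τ : ℝ, τ * τ = 1 ∧ |w 0| = τ * w 0 := by
    rcases le_total 0 (w 0) with h0 | h0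
    · exact ⟨1, by norm_num, by rw [abs_of_nonneg h0, one_mul]⟩
    · exact ⟨-1, by norm_num, by rw [abs_of_nonpos h0]; ring⟩
  have key : ∀ t, t < n → |w t| = τ * (-1) ^ t * w t := by
    intro t
    induction t with
    | zero => intro _; rw [pow_zero, mul_one]; exact hτ0
    | succ t ih =>
      intro ht
      have h1 := ih (by omega)
      have h2 := h t ht
      set s : ℝ := τ * (-1) ^ t with hs
      have hss : s * s = 1 := by
        rw [hs]
        have : ((-1 : ℝ) ^ t) * ((-1) ^ t) = 1 := by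
          rw [← mul_pow]; norm_num
        calc τ * (-1) ^ t * (τ * (-1) ^ t) = (τ * τ) * ((-1) ^ t * (-1) ^ t) := by ring
          _ = 1 := by rw [hτ, this, one_mul]
      have h3 : 0 ≤ s * w t := by rw [← h1]; exact abs_nonneg _
      have h4 : (s * w t) * (s * w (t + 1)) < 0 := by
        calc (s * w t) * (s * w (t + 1)) = (s * s) * (w t * w (t + 1)) := by ring
          _ < 0 := by rw [hss, one_mul]; exact h2
      have h5 : s * w (t + 1) < 0 := by
        by_contra hcon
        push Not at hcon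
        have := mul_nonneg h3 hcon
        linarith
      have h6 : |w (t + 1)| = |s * w (t + 1)| := by
        rw [abs_mul]
        have : |s| = 1 := by
          have h7 : |s| * |s| = 1 := by rw [abs_mul_abs_self, hss]
          nlinarith [abs_nonneg s]
        rw [this, one_mul]
      rw [h6, abs_of_neg h5, pow_succ, hs]
      ring
  have e : ∑ t ∈ Finset.range n, |w t| =
      τ * ∑ t ∈ Finset.range n, ((fun t => (-1) ^ t * c t) (t + 2) - (fun t => (-1) ^ t * c t) t) := by
    rw [Finset.mul_sum]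
    apply Finset.sum_congr rfl
    intro t ht
    rw [key t (Finset.mem_range.1 ht), hw t]
    simp only [pow_add]
    ring
  have hb := teleb_Big (fun t => (-1) ^ t * c t) (by
    intro t
    rw [abs_mul, abs_pow, abs_neg, abs_one, one_pow, one_mul]
    exact hc t) n
  have hτ1 : |τ| = 1 := by
    have h7 : |τ| * |τ| = 1 := by rw [abs_mul_abs_self, hτ]
    nlinarith [abs_nonneg τ]
  rw [e]
  refine (le_abs_self _).trans ?_
  rw [abs_mul, hτ1, one_mul]
  exact hb

private theorem same_Big (c w κ : ℕ → ℝ) (d : ℝ) (hd : 0 ≤ d) (hκ : ∀ t, 0 ≤ κ t)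
    (hc : ∀ t, |c t| ≤ 7) (hw : ∀ t, w t = c (t + 2) - c t)
    (hr : ∀ t, w (t + 2) = d * w t + κ t * w (t + 1)) (n : ℕ) (h : 0 ≤ w 0 * w 1) :
    ∑ t ∈ Finset.range n, |w t| ≤ 28 := by
  have hb := teleb_Big c hc n
  rcases lt_or_ge 0 (w 0 + w 1) with hp | hp
  · -- both nonnegative
    have h0 : 0 ≤ w 0 ∧ 0 ≤ w 1 := by
      constructor <;> by_contra hcon <;> push Not at hcon <;> nlinarith
    have key : ∀ t, 0 ≤ w t ∧ 0 ≤ w (t + 1) := by
      intro t
      induction t with
      | zero => exact h0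
      | succ t ih =>
        refine ⟨ih.2, ?_⟩
        rw [hr t]
        exact add_nonneg (mul_nonneg hd ih.1) (mul_nonneg (hκ t) ih.2)
    have e : ∑ t ∈ Finset.range n, |w t| = ∑ t ∈ Finset.range n, (c (t + 2) - c t) := by
      apply Finset.sum_congr rfl
      intro t _
      rw [abs_of_nonneg (key t).1, hw t]
    rw [e]
    exact (le_abs_self _).trans hb
  · have h0 : w 0 ≤ 0 ∧ w 1 ≤ 0 := by
      constructor <;> by_contra hcon <;> push Not at hcon <;> nlinarith
    have key : ∀ t, w t ≤ 0 ∧ w (t + 1) ≤ 0 := by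
      intro t
      induction t with
      | zero => exact h0
      | succ t ih =>
        refine ⟨ih.2, ?_⟩
        rw [hr t]
        have h1 := mul_nonneg hd (neg_nonneg.2 ih.1)
        have h2 := mul_nonneg (hκ t) (neg_nonneg.2 ih.2)
        linarith
    have e : ∑ t ∈ Finset.range n, |w t| = -∑ t ∈ Finset.range n, (c (t + 2) - c t) := by
      rw [← Finset.sum_neg_distrib]
      apply Finset.sum_congr rfl
      intro t _
      rw [abs_of_nonpos (key t).1, hw t]
    rw [e]
    exact (neg_le_abs _).trans hb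

private theorem all_Big (c w κ : ℕ → ℝ) (d : ℝ) (hd : 0 ≤ d) (hκ : ∀ t, 0 ≤ κ t)
    (hc : ∀ t, |c t| ≤ 7) (hw : ∀ t, w t = c (t + 2) - c t)
    (hr : ∀ t, w (t + 2) = d * w t + κ t * w (t + 1)) (n : ℕ) :
    ∑ t ∈ Finset.range n, |w t| ≤ 56 := by
  classical
  by_cases H : ∃ t, 0 ≤ w t * w (t + 1)
  · set t0 := Nat.find H with ht0
    have h1 : 0 ≤ w t0 * w (t0 + 1) := Nat.find_spec H
    have h2 : ∀ t, t < t0 → w t * w (t + 1) < 0 := fun t ht => not_le.1 (Nat.find_min H ht)
    by_cases hn : n ≤ t0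
    · have := alt_Big c w hc hw n (fun t ht => h2 t (by omega))
      linarith
    · obtain ⟨r, rfl⟩ : ∃ r, n = t0 + r := ⟨n - t0, by omega⟩
      rw [Finset.sum_range_add]
      have h3 := alt_Big c w hc hw t0 (fun t ht => h2 t (by omega))
      have h4 := same_Big (fun t => c (t0 + t)) (fun t => w (t0 + t)) (fun t => κ (t0 + t)) d hd
        (fun t => hκ _) (fun t => hc _) (fun t => hw _) (fun t => hr _) r h1
      linarith
  · push Not at H
    have := alt_Big c w hc hw n (fun t _ => H t)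
    linarith

theorem hBig (h1 : StAp) : StBig := by
  intro θ h hθ hh hh1 hθh
  refine ⟨784, ?_⟩
  intro y hy hbd m N
  have hb := h1 θ h y hh hh1 (by linarith) hθh hy hbd
  have key := all_Big (fun t => y (m + t - 1)) (fun t => y (m + t + 1) - y (m + t - 1))
    (fun t => h * (y (m + t + 2) + y (m + t) + θ)) (1 - θ * h) (by linarith)
    (fun t => by
      have h2 := abs_le.1 (hb (m + t + 2))
      have h3 := abs_le.1 (hb (m + t))
      exact mul_nonneg hh.le (by linarith [h2.1, h3.1])) (fun t => hb _)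
    (fun t => by
      have e : m + ((t + 2 : ℕ) : ℤ) - 1 = m + t + 1 := by push_cast; ring
      simp only [e])
    (fun t => by
      have e1 : m + ((t + 2 : ℕ) : ℤ) + 1 = (m + t + 2) + 1 := by push_cast; ring
      have e2 : m + ((t + 2 : ℕ) : ℤ) - 1 = m + t + 1 := by push_cast; ring
      have e3 : m + ((t + 1 : ℕ) : ℤ) + 1 = m + t + 2 := by push_cast; ring
      have e4 : m + ((t + 1 : ℕ) : ℤ) - 1 = m + t := by push_cast; ring
      simp only [e1, e2, e3, e4]
      have a1 := hy (m + t + 2)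
      have a2 := hy (m + t)
      have e5 : m + (t : ℤ) + 2 - 1 = m + t + 1 := by ring
      rw [e5] at a1
      have a3 := hy (m + t + 1)
      linear_combination a1 - a2) N
  have h3 : ∀ i ∈ Finset.range N, (y (m + i + 1) - y (m + i - 1)) ^ 2 ≤
      14 * |y (m + i + 1) - y (m + i - 1)| := by
    intro i _
    rw [← sq_abs, sq]
    apply mul_le_mul_of_nonneg_right _ (abs_nonneg _)
    have h2 := abs_le.1 (hb (m + i + 1))
    have h3 := abs_le.1 (hb (m + i - 1))
    rw [abs_le]
    constructor <;> linarith [h2.1, h2.2, h3.1, h3.2]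
  calc ∑ i ∈ Finset.range N, (y (m + i + 1) - y (m + i - 1)) ^ 2
      ≤ ∑ i ∈ Finset.range N, 14 * |y (m + i + 1) - y (m + i - 1)| := Finset.sum_le_sum h3
    _ = 14 * ∑ i ∈ Finset.range N, |y (m + i + 1) - y (m + i - 1)| := by rw [Finset.mul_sum]
    _ ≤ 14 * 56 := mul_le_mul_of_nonneg_left key (by norm_num)
    _ = 784 := by norm_num

end Helper83.TH
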