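import Pool.Agent.Helper83.TH.St

/-! # Project TH (MP_b39980), module `Cal`: the mean value `CA` -/

set_option autoImplicit false

open Set Filter Topology
open Helper85.HN (hen Orb Bd KK E0 dl ak)

namespace Helper83.TH

/-- a gap of first differences (step 2) -/
private theorem gap_Cal (D : ℤ → ℝ) (U : ℝ) (a : ℤ) : ∀ m : ℕ,
    (∀ s : ℕ, s < m → |D (a + 2 * (s : ℤ) + 2) - D (a + 2 * (s : ℤ))| ≤ U) →
    |D (a + 2 * (m : ℤ)) - D a| ≤ m * U := by
  intro m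
  induction m with
  | zero => intro _; simp
  | succ m ih =>
    intro h
    have h1 := ih (fun s hs => h s (by omega))
    have h2 := h m (by omega)
    have e : a + 2 * ((m + 1 : ℕ) : ℤ) = a + 2 * (m : ℤ) + 2 := by push_cast; ring
    rw [e]
    have h3 : D (a + 2 * (m : ℤ) + 2) - D a =
        (D (a + 2 * (m : ℤ) + 2) - D (a + 2 * (m : ℤ))) + (D (a + 2 * (m : ℤ)) - D a) := by ring
    rw [h3]
    push_cast
    have := abs_add_le (D (a + 2 * (m : ℤ) + 2) - D (a + 2 * (m : ℤ))) (D (a + 2 * (m : ℤ)) - D a)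
    linarith

/-- the deviation of the pair of values at distance `r` -/
private theorem dev_Cal (z : ℤ → ℝ) (T : ℝ) (n : ℤ) (k : ℕ)
    (h : ∀ i : ℤ, |i - n| ≤ 2 * (k : ℤ) + 1 → |(z (i + 4) - z (i + 2)) - (z (i + 2) - z i)| ≤ 2 * T) :
    ∀ r : ℕ, r < k → |z (n + 1 + 2 * (r : ℤ)) + z (n - 1 - 2 * (r : ℤ)) - z (n + 1) - z (n - 1)| ≤
      2 * T * (r * (r + 1)) := by
  intro r
  induction r with
  | zero => intro _; simp
  | succ r ih =>
    intro hr
    have h1 := ih (by omega)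
    have h2 := gap_Cal (fun i => z (i + 2) - z i) (2 * T) (n - 3 - 2 * (r : ℤ)) (2 * r + 2) (by
      intro s hs
      have h3 := h (n - 3 - 2 * (r : ℤ) + 2 * (s : ℤ)) (by
        rw [abs_le]; constructor <;> omega)
      have e1 : n - 3 - 2 * (r : ℤ) + 2 * (s : ℤ) + 2 + 2 = n - 3 - 2 * (r : ℤ) + 2 * (s : ℤ) + 4 := by
        ring
      simp only [e1]
      exact h3)
    have e2 : n - 3 - 2 * (r : ℤ) + 2 * ((2 * r + 2 : ℕ) : ℤ) = n + 1 + 2 * (r : ℤ) := by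
      push_cast; ring
    simp only [e2] at h2
    have e3 : n + 1 + 2 * ((r + 1 : ℕ) : ℤ) = n + 1 + 2 * (r : ℤ) + 2 := by push_cast; ring
    have e4 : n - 1 - 2 * ((r + 1 : ℕ) : ℤ) = n - 3 - 2 * (r : ℤ) := by push_cast; ring
    have e5 : n - 3 - 2 * (r : ℤ) + 2 = n - 1 - 2 * (r : ℤ) := by ring
    rw [e3, e4]
    rw [e5] at h2
    have h4 : z (n + 1 + 2 * (r : ℤ) + 2) + z (n - 3 - 2 * (r : ℤ)) - z (n + 1) - z (n - 1) =
        (z (n + 1 + 2 * (r : ℤ)) + z (n - 1 - 2 * (r : ℤ)) - z (n + 1) - z (n - 1)) +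
        (z (n + 1 + 2 * (r : ℤ) + 2) - z (n + 1 + 2 * (r : ℤ)) -
          (z (n - 1 - 2 * (r : ℤ)) - z (n - 3 - 2 * (r : ℤ)))) := by ring
    rw [h4]
    refine (abs_add_le _ _).trans ?_
    push_cast at h2 ⊢
    nlinarith

/-- the sum over the window -/
private theorem sum_Cal (g : ℤ → ℝ) (n : ℤ) (j : ℕ) :
    ∑ i ∈ Finset.Ico (n + 1 - 2 * ((j + 1 : ℕ) : ℤ)) (n + 1 + 2 * ((j + 1 : ℕ) : ℤ)), g i =
      ∑ i ∈ Finset.Ico (n + 1 - 2 * (j : ℤ)) (n + 1 + 2 * (j : ℤ)), g i +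
      ((g (n + 1 + 2 * (j : ℤ)) + g (n + 1 + 2 * (j : ℤ) + 1)) +
        (g (n - 1 - 2 * (j : ℤ)) + g (n - 1 - 2 * (j : ℤ) + 1))) := by
  have e : Finset.Ico (n + 1 - 2 * ((j + 1 : ℕ) : ℤ)) (n + 1 + 2 * ((j + 1 : ℕ) : ℤ)) =
      insert (n + 1 + 2 * (j : ℤ)) (insert (n + 1 + 2 * (j : ℤ) + 1)
        (insert (n - 1 - 2 * (j : ℤ)) (insert (n - 1 - 2 * (j : ℤ) + 1)
          (Finset.Ico (n + 1 - 2 * (j : ℤ)) (n + 1 + 2 * (j : ℤ)))))) := by
    ext i
    simp only [Finset.mem_insert, Finset.mem_Ico]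
    push_cast
    omega
  rw [e, Finset.sum_insert, Finset.sum_insert, Finset.sum_insert, Finset.sum_insert]
  · ring
  · simp only [Finset.mem_Ico]; omega
  · simp only [Finset.mem_insert, Finset.mem_Ico]; omega
  · simp only [Finset.mem_insert, Finset.mem_Ico]; omega
  · simp only [Finset.mem_insert, Finset.mem_Ico]; omega

/-- the sum over the window against `j` times the central values -/
private theorem win_Cal (g : ℤ → ℝ) (T : ℝ) (n : ℤ) (k : ℕ) (hT : 0 ≤ T)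
    (h : ∀ r : ℕ, r < k → |(g (n + 1 + 2 * (r : ℤ)) + g (n + 1 + 2 * (r : ℤ) + 1)) +
      (g (n - 1 - 2 * (r : ℤ)) + g (n - 1 - 2 * (r : ℤ) + 1)) - (g (n + 1) + g (n + 1 + 1)) -
        (g (n - 1) + g (n - 1 + 1))| ≤ 2 * T * (r * (r + 1))) :
    ∀ j : ℕ, j ≤ k → |∑ i ∈ Finset.Ico (n + 1 - 2 * (j : ℤ)) (n + 1 + 2 * (j : ℤ)), g i -
      j * ((g (n + 1) + g (n + 1 + 1)) + (g (n - 1) + g (n - 1 + 1)))| ≤
        2 * T / 3 * (j ^ 3 - j) := by
  intro j
  induction j with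
  | zero => intro _; simp
  | succ j ih =>
    intro hj
    have h1 := ih (by omega)
    have h2 := h j (by omega)
    rw [sum_Cal]
    set S := ∑ i ∈ Finset.Ico (n + 1 - 2 * (j : ℤ)) (n + 1 + 2 * (j : ℤ)), g i
    set c := (g (n + 1) + g (n + 1 + 1)) + (g (n - 1) + g (n - 1 + 1)) with hc
    set p := (g (n + 1 + 2 * (j : ℤ)) + g (n + 1 + 2 * (j : ℤ) + 1)) +
      (g (n - 1 - 2 * (j : ℤ)) + g (n - 1 - 2 * (j : ℤ) + 1)) with hp
    have h3 : |p - c| ≤ 2 * T * (j * (j + 1)) := by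
      have e : p - c = (g (n + 1 + 2 * (j : ℤ)) + g (n + 1 + 2 * (j : ℤ) + 1)) +
      (g (n - 1 - 2 * (j : ℤ)) + g (n - 1 - 2 * (j : ℤ) + 1)) - (g (n + 1) + g (n + 1 + 1)) -
        (g (n - 1) + g (n - 1 + 1)) := by rw [hp, hc]; ring
      rw [e]; exact h2
    have h4 : S + p - ((j + 1 : ℕ) : ℝ) * c = (S - j * c) + (p - c) := by push_cast; ring
    rw [h4]
    refine (abs_add_le _ _).trans ?_
    have h5 : 2 * T / 3 * (((j + 1 : ℕ) : ℝ) ^ 3 - ((j + 1 : ℕ) : ℝ)) =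
        2 * T / 3 * (j ^ 3 - j) + 2 * T * (j * (j + 1)) := by push_cast; ring
    rw [h5]
    exact add_le_add h1 h3

theorem hCal (h1 : Helper85.HN.StEx) (h2 : Helper85.HN.StBj) : StCal := by
  intro k θ A n R T hk hR hT hA1 hA2 hA3 hdd
  set g : ℤ → ℝ := fun i => A i + θ with hg
  set z : ℤ → ℝ := fun i => g i + g (i + 1) with hz
  have hz2 : ∀ i : ℤ, |i - n| ≤ 2 * (k : ℤ) + 1 →
      |(z (i + 4) - z (i + 2)) - (z (i + 2) - z i)| ≤ 2 * T := by
    intro i hi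
    have ha := hdd i (by omega)
    have hb := hdd (i + 1) (by rw [abs_le] at hi ⊢; constructor <;> omega)
    have e : (z (i + 4) - z (i + 2)) - (z (i + 2) - z i) = dd 2 A i + dd 2 A (i + 1) := by
      simp only [hz, hg, dd]
      have e1 : i + 2 + 2 = i + 4 := by ring
      have e2 : i + 1 + 2 = i + 2 + 1 := by ring
      have e3 : i + 2 + 1 + 2 = i + 4 + 1 := by ring
      rw [e1, e2, e3]
      ring
    rw [e]
    refine (abs_add_le _ _).trans ?_
    linarith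
  have hdev := dev_Cal z T n k hz2
  have hwin := win_Cal g T n k hT hdev
  set c := (g (n + 1) + g (n + 1 + 1)) + (g (n - 1) + g (n - 1 + 1)) with hc
  have hsum1 : ∑ j ∈ Finset.Icc 1 k, ak k j * (j : ℝ) = 1 / 2 := by
    have h3 := h1 k Polynomial.X hk (by rw [Polynomial.natDegree_X]; omega)
    simp only [Polynomial.eval_X, Polynomial.derivative_X, Polynomial.eval_one] at h3
    have e : ∑ j ∈ Finset.Icc 1 k, ak k j * ((j : ℝ) - -(j : ℝ)) =
        2 * ∑ j ∈ Finset.Icc 1 k, ak k j * (j : ℝ) := by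
      rw [Finset.mul_sum]
      apply Finset.sum_congr rfl
      intro j _; ring
    rw [e] at h3
    linarith
  have hCA : CA k θ A (n + 1) - c / 2 = ∑ j ∈ Finset.Icc 1 k, ak k j *
      (∑ i ∈ Finset.Ico (n + 1 - 2 * (j : ℤ)) (n + 1 + 2 * (j : ℤ)), g i - j * c) := by
    have e : c / 2 = ∑ j ∈ Finset.Icc 1 k, ak k j * (j * c) := by
      have : ∑ j ∈ Finset.Icc 1 k, ak k j * (j * c) = (∑ j ∈ Finset.Icc 1 k, ak k j * (j : ℝ)) * c := by
        rw [Finset.sum_mul]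
        apply Finset.sum_congr rfl
        intro j _; ring
      rw [this, hsum1]; ring
    rw [e, CA, ← Finset.sum_sub_distrib]
    apply Finset.sum_congr rfl
    intro j _
    rw [mul_sub]
  have hk' : (1 : ℝ) ≤ k := by exact_mod_cast hk
  have hbound : |CA k θ A (n + 1) - c / 2| ≤ (k : ℝ) ^ 2 * T / 3 := by
    rw [hCA]
    refine (Finset.abs_sum_le_sum_abs _ _).trans ?_
    have h4 : ∀ j ∈ Finset.Icc 1 k, |ak k j * (∑ i ∈ Finset.Ico (n + 1 - 2 * (j : ℤ))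
        (n + 1 + 2 * (j : ℤ)), g i - j * c)| ≤ 2 * T / 3 * (|ak k j| * (j : ℝ) ^ 3) := by
      intro j hj
      rw [Finset.mem_Icc] at hj
      rw [abs_mul]
      have h5 := hwin j hj.2
      have h6 : 2 * T / 3 * ((j : ℝ) ^ 3 - j) ≤ 2 * T / 3 * (j : ℝ) ^ 3 := by
        have : (0 : ℝ) ≤ j := Nat.cast_nonneg j
        nlinarith
      calc |ak k j| * |∑ i ∈ Finset.Ico (n + 1 - 2 * (j : ℤ)) (n + 1 + 2 * (j : ℤ)), g i - j * c|
          ≤ |ak k j| * (2 * T / 3 * (j : ℝ) ^ 3) :=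
            mul_le_mul_of_nonneg_left (h5.trans h6) (abs_nonneg _)
        _ = _ := by ring
    refine (Finset.sum_le_sum h4).trans ?_
    rw [← Finset.mul_sum]
    have h7 := (h2 k hk).2 k (by linarith)
    have h8 : ((k : ℝ) * k + (k : ℝ) ^ 2 / k) / 4 ≤ (k : ℝ) ^ 2 / 2 := by
      have : (k : ℝ) ^ 2 / k = k := by field_simp
      rw [this]
      nlinarith
    have h9 := h7.trans h8
    have : 2 * T / 3 * ∑ j ∈ Finset.Icc 1 k, |ak k j| * (j : ℝ) ^ 3 ≤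
        2 * T / 3 * ((k : ℝ) ^ 2 / 2) := mul_le_mul_of_nonneg_left h9 (by positivity)
    linarith
  have hcen : |c / 2 - 2 * (A n + θ)| ≤ 2 * R := by
    have e1 : n + 1 + 1 = n + 2 := by ring
    have e2 : n - 1 + 1 = n := by ring
    have e3 : c / 2 - 2 * (A n + θ) =
        ((A (n + 1) - A n) + (A (n + 2) - A n) - (A n - A (n - 1))) / 2 := by
      rw [hc]; simp only [hg, e1, e2]; ring
    rw [e3, abs_le]
    rw [abs_le] at hA1 hA2 hA3
    constructor <;> linarith [hA1.1, hA1.2, hA2.1, hA2.2, hA3.1, hA3.2]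
  have h10 : CA k θ A (n + 1) - 2 * (A n + θ) =
      (CA k θ A (n + 1) - c / 2) + (c / 2 - 2 * (A n + θ)) := by ring
  rw [h10]
  refine (abs_add_le _ _).trans ?_
  linarith

end Helper83.TH
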