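import Pool.Agent.Helper83.TH.St

/-!
# Project TH, module Ck: the coefficients of the interpolation formula
-/

set_option autoImplicit false

open Set Filter Topology
open Helper85.HN (hen Orb Bd KK E0 dl ak)

namespace Helper83.TH

private theorem icc_Ck (f : ℕ → ℝ) (n : ℕ) :
    ∑ j ∈ Finset.Icc 1 n, f j = ∑ i ∈ Finset.range n, f (i + 1) := by
  induction n with
  | zero => simp
  | succ n ih => rw [Finset.sum_Icc_succ_top (by omega), ih, Finset.sum_range_succ]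

private theorem alt_Ck (t : ℕ → ℝ) (h0 : ∀ i, 0 ≤ t i) (h1 : ∀ i, t (i + 1) ≤ t i) :
    ∀ n a : ℕ, 0 ≤ ∑ i ∈ Finset.range n, (-1 : ℝ) ^ i * t (a + i) ∧
      ∑ i ∈ Finset.range n, (-1 : ℝ) ^ i * t (a + i) ≤ t a := by
  intro n
  induction n with
  | zero => intro a; simp [h0 a]
  | succ n ih =>
    intro a
    have e : ∑ i ∈ Finset.range (n + 1), (-1 : ℝ) ^ i * t (a + i) =
        t a - ∑ i ∈ Finset.range n, (-1 : ℝ) ^ i * t (a + 1 + i) := by
      rw [Finset.sum_range_succ', pow_zero, one_mul, Nat.add_zero, add_comm, sub_eq_add_neg,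
        ← Finset.sum_neg_distrib]
      congr 1
      apply Finset.sum_congr rfl
      intro i _
      rw [pow_succ, show a + (i + 1) = a + 1 + i by ring]
      ring
    obtain ⟨h2, h3⟩ := ih (a + 1)
    rw [e]
    constructor
    · have := h1 a
      linarith
    · linarith

private noncomputable def bb_Ck (k j : ℕ) : ℝ := ((2 * k - 1).choose (k + j - 1) : ℝ)

private theorem bb_nonneg_Ck (k j : ℕ) : 0 ≤ bb_Ck k j := Nat.cast_nonneg _

private theorem bb_pos_Ck {k j : ℕ} (_hk : 1 ≤ k) (hj : j ≤ k) : 0 < bb_Ck k j := by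
  unfold bb_Ck
  exact_mod_cast Nat.choose_pos (by omega)

private theorem bb_zero_Ck {k j : ℕ} (hk : 1 ≤ k) (hj : k < j) : bb_Ck k j = 0 := by
  unfold bb_Ck
  rw [Nat.choose_eq_zero_of_lt (by omega)]
  simp

private theorem rec_Ck {k j : ℕ} (hk : 1 ≤ k) (hj : 1 ≤ j) (hjk : j ≤ k) :
    ((k : ℝ) + j) * bb_Ck k (j + 1) = ((k : ℝ) - j) * bb_Ck k j := by
  have h := Nat.choose_succ_right_eq (2 * k - 1) (k + j - 1)
  rw [show k + j - 1 + 1 = k + j by omega, show 2 * k - 1 - (k + j - 1) = k - j by omega] at h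
  have h' : (((2 * k - 1).choose (k + j) * (k + j) : ℕ) : ℝ) =
      (((2 * k - 1).choose (k + j - 1) * (k - j) : ℕ) : ℝ) := by exact_mod_cast h
  rw [Nat.cast_mul, Nat.cast_mul, Nat.cast_add, Nat.cast_sub hjk] at h'
  unfold bb_Ck
  rw [show k + (j + 1) - 1 = k + j by omega]
  linarith

private theorem anti_Ck {k j : ℕ} (hk : 1 ≤ k) (hj : 1 ≤ j) : bb_Ck k (j + 1) ≤ bb_Ck k j := by
  by_cases hjk : j ≤ k
  · have h := rec_Ck hk hj hjk
    have h1 : (0 : ℝ) < (k : ℝ) + j := by positivity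
    have h2 := bb_nonneg_Ck k j
    have h3 : (0 : ℝ) ≤ (j : ℝ) := Nat.cast_nonneg _
    have h4 : ((k : ℝ) + j) * bb_Ck k (j + 1) ≤ ((k : ℝ) + j) * bb_Ck k j := by
      rw [h]
      nlinarith
    exact le_of_mul_le_mul_left h4 h1
  · rw [bb_zero_Ck hk (by omega)]
    exact bb_nonneg_Ck _ _

private noncomputable def tt_Ck (k i : ℕ) : ℝ := bb_Ck k (i + 1) / (2 * (i : ℝ) + 1)

private theorem tt_nonneg_Ck (k i : ℕ) : 0 ≤ tt_Ck k i :=
  div_nonneg (bb_nonneg_Ck _ _) (by positivity)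

private theorem tt_anti_Ck {k : ℕ} (hk : 1 ≤ k) (i : ℕ) : tt_Ck k (i + 1) ≤ tt_Ck k i := by
  unfold tt_Ck
  apply div_le_div₀ (bb_nonneg_Ck _ _) (anti_Ck hk (by omega)) (by positivity)
  push_cast
  linarith

private theorem nk_eq_Ck (k : ℕ) : Nk k = ∑ i ∈ Finset.range k, (-1 : ℝ) ^ i * tt_Ck k i := by
  unfold Nk
  rw [icc_Ck]
  apply Finset.sum_congr rfl
  intro i _
  unfold tt_Ck bb_Ck
  push_cast
  rw [show i + 1 + 1 = i + 2 by ring, pow_add, show 2 * ((i : ℝ) + 1) - 1 = 2 * i + 1 by ring]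
  ring

private theorem nk_ge_Ck {k : ℕ} (hk : 1 ≤ k) : 2 / 3 * bb_Ck k 1 ≤ Nk k := by
  obtain ⟨n, rfl⟩ : ∃ n, k = n + 1 := ⟨k - 1, by omega⟩
  have h := alt_Ck (tt_Ck (n + 1)) (tt_nonneg_Ck _) (tt_anti_Ck hk) n 1
  have e : Nk (n + 1) = tt_Ck (n + 1) 0 -
      ∑ i ∈ Finset.range n, (-1 : ℝ) ^ i * tt_Ck (n + 1) (1 + i) := by
    rw [nk_eq_Ck, Finset.sum_range_succ', pow_zero, one_mul, add_comm, sub_eq_add_neg,
      ← Finset.sum_neg_distrib]
    congr 1
    apply Finset.sum_congr rfl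
    intro i _
    rw [pow_succ, show i + 1 = 1 + i by ring]
    ring
  have h2 : tt_Ck (n + 1) 0 = bb_Ck (n + 1) 1 := by
    unfold tt_Ck
    simp
  have h3 : tt_Ck (n + 1) 1 ≤ bb_Ck (n + 1) 1 / 3 := by
    unfold tt_Ck
    have h4 := anti_Ck (j := 1) hk le_rfl
    have e3 : 2 * ((1 : ℕ) : ℝ) + 1 = 3 := by norm_num
    rw [e3]
    exact div_le_div_of_nonneg_right h4 (by norm_num)
  rw [e, h2]
  linarith [h.2]

private theorem tel_Ck {k : ℕ} (hk : 1 ≤ k) : ∀ n : ℕ, n ≤ k →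
    ∑ i ∈ Finset.range n, (2 * (i : ℝ) + 1) * bb_Ck k (i + 1) =
      (k : ℝ) * bb_Ck k 1 - ((k : ℝ) + n) * bb_Ck k (n + 1) := by
  intro n
  induction n with
  | zero => intro _; simp
  | succ n ih =>
    intro hn
    rw [Finset.sum_range_succ, ih (by omega)]
    have h := rec_Ck (j := n + 1) hk (by omega) hn
    push_cast at h ⊢
    linarith

theorem hCk : StCk := by
  intro k hk
  have hb1 : 0 < bb_Ck k 1 := bb_pos_Ck hk hk
  have hN := nk_ge_Ck hk
  have hNpos : 0 < Nk k := by linarith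
  have hbj : ∀ j : ℕ, 1 ≤ j → bb_Ck k j ≤ bb_Ck k 1 := by
    intro j hj
    induction j, hj using Nat.le_induction with
    | base => exact le_rfl
    | succ j hj ih => exact (anti_Ck hk hj).trans ih
  have habs : ∀ j : ℕ, 1 ≤ j → |ck k j| = bb_Ck k j / ((2 * (j : ℝ) - 1) * (2 * Nk k)) := by
    intro j hj
    have hj1 : (1 : ℝ) ≤ j := by exact_mod_cast hj
    unfold ck
    rw [abs_div, abs_mul, abs_pow, abs_neg, abs_one, one_pow, one_mul,
      abs_of_nonneg (Nat.cast_nonneg _), abs_of_pos (mul_pos (by linarith) (by linarith))]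
    rfl
  refine ⟨hNpos, ?_, ?_, ?_⟩
  · intro j hj
    rw [Finset.mem_Icc] at hj
    rw [habs j hj.1]
    have hj1 : (1 : ℝ) ≤ j := by exact_mod_cast hj.1
    rw [div_le_iff₀ (mul_pos (by linarith) (by linarith))]
    have h1 := hbj j hj.1
    have h2 : 1 * (2 * Nk k) ≤ (2 * (j : ℝ) - 1) * (2 * Nk k) :=
      mul_le_mul_of_nonneg_right (by linarith) (by linarith)
    linarith
  · have e : ∀ j ∈ Finset.Icc 1 k, ck k j =
        1 / (2 * Nk k) * ((-1) ^ (j + 1) * ((2 * k - 1).choose (k + j - 1) : ℝ) / (2 * (j : ℝ) - 1)) := by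
      intro j hj
      rw [Finset.mem_Icc] at hj
      have hj1 : (1 : ℝ) ≤ j := by exact_mod_cast hj.1
      have h1 : (2 * (j : ℝ) - 1) ≠ 0 := by
        have : (0 : ℝ) < 2 * (j : ℝ) - 1 := by linarith
        exact this.ne'
      unfold ck
      field_simp
    rw [Finset.sum_congr rfl e, ← Finset.mul_sum]
    change 1 / (2 * Nk k) * Nk k = 1 / 2
    field_simp
  · have e : ∀ j ∈ Finset.Icc 1 k, |ck k j| * (2 * (j : ℝ) - 1) ^ 2 =
        1 / (2 * Nk k) * ((2 * (j : ℝ) - 1) * bb_Ck k j) := by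
      intro j hj
      rw [Finset.mem_Icc] at hj
      rw [habs j hj.1]
      have hj1 : (1 : ℝ) ≤ j := by exact_mod_cast hj.1
      have h1 : (2 * (j : ℝ) - 1) ≠ 0 := by
        have : (0 : ℝ) < 2 * (j : ℝ) - 1 := by linarith
        exact this.ne'
      field_simp
    rw [Finset.sum_congr rfl e, ← Finset.mul_sum, icc_Ck]
    have e2 : ∑ i ∈ Finset.range k, (2 * ((i + 1 : ℕ) : ℝ) - 1) * bb_Ck k (i + 1) =
        (k : ℝ) * bb_Ck k 1 := by
      have h := tel_Ck hk k le_rfl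
      rw [bb_zero_Ck hk (Nat.lt_succ_self k), mul_zero, sub_zero] at h
      rw [← h]
      apply Finset.sum_congr rfl
      intro i _
      push_cast
      ring
    rw [e2]
    rw [div_mul_eq_mul_div, one_mul, div_le_iff₀ (by linarith)]
    have hk0 : (0 : ℝ) ≤ k := Nat.cast_nonneg _
    have : (k : ℝ) * (2 / 3 * bb_Ck k 1) ≤ k * Nk k := mul_le_mul_of_nonneg_left hN hk0
    linarith

end Helper83.TH
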