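import Pool.Agent.Helper83.TH.St

set_option autoImplicit false

namespace Helper83.TH

open Helper85.HN (hen Orb Bd KK E0)

theorem hCor : StCor := by
  intro b c he hz
  set e : ℝ := (1 + b) ^ 2 / 4 - c with hedef
  set h : ℝ := Real.sqrt e with hh
  have hpos : 0 < h := Real.sqrt_pos.2 he
  have hsq : h ^ 2 = e := Real.sq_sqrt he.le
  obtain ⟨C, hC⟩ := hz
  refine ⟨h ^ 2 * C, ?_⟩
  intro x hx hbd m N
  set y : ℤ → ℝ := fun n => (x n - (1 + b) / 2) / h with hy
  have hxy : ∀ n, x n = h * y n + (1 + b) / 2 := by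
    intro n
    rw [hy]; field_simp; ring
  have hYe : Ye ((1 + b) / h) h y := by
    intro n
    have h1 := hx n
    rw [hxy (n + 1), hxy n, hxy (n - 1)] at h1
    have h2 : h * (y (n + 1) - y (n - 1)) = h * (h * (y n ^ 2 - 1 + (1 + b) / h * (y n - y (n - 1)))) := by
      have h3 : h * (h * (y n ^ 2 - 1 + (1 + b) / h * (y n - y (n - 1)))) =
          h ^ 2 * y n ^ 2 - h ^ 2 + (1 + b) * h * (y n - y (n - 1)) := by
        field_simp
      rw [h3, hsq, hedef]
      linear_combination h1 + (y n ^ 2) * (hsq.trans hedef)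
    exact mul_left_cancel₀ hpos.ne' h2
  have hBd : Bd y := by
    obtain ⟨M, hM⟩ := hbd
    refine ⟨(M + |(1 + b) / 2|) / h, fun n => ?_⟩
    rw [hy]
    simp only
    rw [abs_div, abs_of_pos hpos]
    gcongr
    exact (abs_sub _ _).trans (by gcongr; exact hM n)
  have := hC y hYe hBd m N
  calc ∑ i ∈ Finset.range N, (x (m + i + 1) - x (m + i - 1)) ^ 2
      = h ^ 2 * ∑ i ∈ Finset.range N, (y (m + i + 1) - y (m + i - 1)) ^ 2 := by
        rw [Finset.mul_sum]
        apply Finset.sum_congr rfl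
        intro i _
        rw [hxy (m + i + 1), hxy (m + i - 1)]
        ring
    _ ≤ h ^ 2 * C := by gcongr

end Helper83.TH
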