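import Pool.Agent.Helper83.TH.St

/-!
Module Dd of project TH: rules for the iterated differences with step two.
-/

set_option autoImplicit false

open Set Filter Topology
open Helper85.HN (hen Orb Bd KK E0 dl ak)

namespace Helper83.TH

private theorem dd_dl_Dd (m : ℕ) (u : ℤ → ℝ) (n : ℤ) : ∀ i : ℤ,
    dl m (fun i => u (n + 2 * i)) i = dd m u (n + 2 * i) := by
  induction m with
  | zero => intro i; rfl
  | succ m ih =>
    intro i
    show dl m (fun i => u (n + 2 * i)) (i + 1) - dl m (fun i => u (n + 2 * i)) i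
      = dd m u (n + 2 * i + 2) - dd m u (n + 2 * i)
    rw [ih, ih]
    have e : n + 2 * (i + 1) = n + 2 * i + 2 := by ring
    rw [e]

private theorem dd_zero_Dd (m : ℕ) (u : ℤ → ℝ) (n : ℤ) :
    dl m (fun i => u (n + 2 * i)) 0 = dd m u n := by
  have h := dd_dl_Dd m u n 0
  rw [mul_zero, add_zero] at h
  exact h

private theorem dd_lin_Dd (m : ℕ) (u v : ℤ → ℝ) (x : ℝ) : ∀ n : ℤ,
    dd m (fun i => u i + x * v i) n = dd m u n + x * dd m v n := by
  induction m with
  | zero => intro n; rfl
  | succ m ih =>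
    intro n
    show dd m (fun i => u i + x * v i) (n + 2) - dd m (fun i => u i + x * v i) n
      = (dd m u (n + 2) - dd m u n) + x * (dd m v (n + 2) - dd m v n)
    rw [ih, ih]
    ring

private theorem dd_const_Dd (m : ℕ) (x : ℝ) : ∀ n : ℤ, dd (m + 1) (fun _ => x) n = 0 := by
  induction m with
  | zero =>
    intro n
    show x - x = 0
    ring
  | succ m ih =>
    intro n
    show dd (m + 1) (fun _ => x) (n + 2) - dd (m + 1) (fun _ => x) n = 0
    rw [ih, ih]
    ring

private theorem dd_dd_Dd (m j : ℕ) (u : ℤ → ℝ) : ∀ n : ℤ, dd m (dd j u) n = dd (m + j) u n := by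
  induction m with
  | zero => intro n; rw [Nat.zero_add]; rfl
  | succ m ih =>
    intro n
    have e : m + 1 + j = (m + j) + 1 := by omega
    rw [e]
    show dd m (dd j u) (n + 2) - dd m (dd j u) n = dd (m + j) u (n + 2) - dd (m + j) u n
    rw [ih, ih]

private theorem dd_shift_Dd (m : ℕ) (u : ℤ → ℝ) (s : ℤ) : ∀ n : ℤ,
    dd m (fun i => u (i + s)) n = dd m u (n + s) := by
  induction m with
  | zero => intro n; rfl
  | succ m ih =>
    intro n
    show dd m (fun i => u (i + s)) (n + 2) - dd m (fun i => u (i + s)) n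
      = dd m u (n + s + 2) - dd m u (n + s)
    rw [ih, ih]
    have e : n + 2 + s = n + s + 2 := by ring
    rw [e]

theorem hDd (h1 : Helper85.HN.StLei) : StDd := by
  refine ⟨fun m u n i => dd_dl_Dd m u n i, ?_, fun m u v x n => dd_lin_Dd m u v x n, ?_,
    fun m j u n => dd_dd_Dd m j u n, fun m u s n => dd_shift_Dd m u s n⟩
  · intro m u v n
    have h := h1.1 m (fun i => u (n + 2 * i)) (fun i => v (n + 2 * i)) 0
    have e0 : dl m (fun i => u (n + 2 * i) * v (n + 2 * i)) 0 = dd m (fun i => u i * v i) n :=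
      dd_zero_Dd m (fun i => u i * v i) n
    rw [← e0, h]
    apply Finset.sum_congr rfl
    intro j _
    rw [dd_dl_Dd j u n, dd_zero_Dd (m - j) v n, zero_add]
  · intro m x n hm
    obtain ⟨k, rfl⟩ : ∃ k, m = k + 1 := ⟨m - 1, by omega⟩
    exact dd_const_Dd k x n

end Helper83.TH
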