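import Pool.Agent.Helper83.TH.St

/-!
# Project TH: module E1
-/

set_option autoImplicit false

open Set Filter Topology
open Helper85.HN (hen Orb Bd KK E0 dl ak)

noncomputable section

namespace Helper83.TH

private def SS (k : ℕ) (f : ℤ → ℝ) : ℝ := ∑ j ∈ Finset.Icc 1 k, ck k j * (f j + f (1 - j))

private theorem II_eq (k : ℕ) (w : ℤ → ℝ) (n : ℤ) : II k w n = SS k (fun i => w (n - 1 + 2 * i)) := by
  unfold II SS
  refine Finset.sum_congr rfl fun j _ => ?_
  have e1 : n + (2 * (j : ℤ) - 1) = n - 1 + 2 * j := by ring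
  have e2 : n - (2 * (j : ℤ) - 1) = n - 1 + 2 * (1 - j) := by ring
  rw [e1, e2]

private theorem SS_add (k : ℕ) (f g : ℤ → ℝ) : SS k (fun i => f i + g i) = SS k f + SS k g := by
  unfold SS
  rw [← Finset.sum_add_distrib]
  exact Finset.sum_congr rfl fun j _ => by ring

private theorem SS_mul (k : ℕ) (c : ℝ) (f : ℤ → ℝ) : SS k (fun i => c * f i) = c * SS k f := by
  unfold SS
  rw [Finset.mul_sum]
  exact Finset.sum_congr rfl fun j _ => by ring

private theorem SS_const (h1 : StCk) {k : ℕ} (hk : 1 ≤ k) (c : ℝ) : SS k (fun _ => c) = c := by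
  have h := (h1 k hk).2.2.1
  unfold SS
  have : ∑ j ∈ Finset.Icc 1 k, ck k j * (c + c) = (∑ j ∈ Finset.Icc 1 k, ck k j) * (c + c) := by
    rw [Finset.sum_mul]
  rw [this, h]
  ring

private theorem SS_bound (h1 : StCk) {k : ℕ} (hk : 1 ≤ k) (f : ℤ → ℝ) (T : ℝ)
    (hf : ∀ i : ℤ, |i| ≤ (k : ℤ) → |f i| ≤ T) : |SS k f| ≤ 3 / 2 * k * T := by
  unfold SS
  have h := (h1 k hk).2.1
  have hT : 0 ≤ T := le_trans (abs_nonneg _) (hf 0 (by simp))
  calc |∑ j ∈ Finset.Icc 1 k, ck k j * (f j + f (1 - j))|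
      ≤ ∑ j ∈ Finset.Icc 1 k, |ck k j * (f j + f (1 - j))| := Finset.abs_sum_le_sum_abs _ _
    _ ≤ ∑ j ∈ Finset.Icc 1 k, 3 / 4 * (2 * T) := by
        refine Finset.sum_le_sum fun j hj => ?_
        rw [abs_mul]
        have hj' := Finset.mem_Icc.1 hj
        have a1 := hf (j : ℤ) (by rw [abs_le]; constructor <;> omega)
        have a2 := hf (1 - (j : ℤ)) (by rw [abs_le]; constructor <;> omega)
        have a3 : |f j + f (1 - j)| ≤ 2 * T := le_trans (abs_add_le _ _) (by linarith)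
        exact mul_le_mul (h j hj) a3 (abs_nonneg _) (by norm_num)
    _ = 3 / 2 * k * T := by
        rw [Finset.sum_const, Nat.card_Icc, nsmul_eq_mul]
        simp only [Nat.add_sub_cancel]
        ring

private theorem SS_poly (h2 : StExi) {k : ℕ} (hk : 1 ≤ k) (P : Polynomial ℝ) (hP : P.natDegree ≤ 2 * k - 1) :
    SS k (fun i => P.eval (i : ℝ)) = P.eval (1 / 2) := by
  have h := h2 k P 0 hk hP
  rw [show (0 : ℝ) + 1 / 2 = 1 / 2 from by norm_num] at h
  rw [← h]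
  unfold SS
  refine Finset.sum_congr rfl fun j _ => ?_
  simp only [zero_add]
  push_cast
  rfl

theorem hE1 (h1 : StCk) (h2 : StExi) (_h3 : StIib) (h4 : StPol) : StE1 := by
  intro l y n R h hl hR hh hlh hReg
  obtain ⟨P', Q, -, hQd, hPQ⟩ := h4 l y n R h hl hR hh hlh hReg
  set k : ℕ := 3 * l with hk
  have hk1 : 1 ≤ k := by omega
  have hkR : (k : ℝ) = 3 * (l : ℝ) := by rw [hk]; push_cast; ring
  have hk1R : (1 : ℝ) ≤ k := by exact_mod_cast hk1
  set ε : ℝ := (1 / 10) ^ (2 * l) with hε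
  have hε0 : 0 < ε := by positivity
  have hε1 : ε ≤ 1 / 100 := by
    rw [hε]
    calc ((1 : ℝ) / 10) ^ (2 * l) ≤ (1 / 10) ^ 2 :=
          pow_le_pow_of_le_one (by norm_num) (by norm_num) (by omega)
      _ = 1 / 100 := by norm_num
  set τ : ℝ := 6 * k * R * ε with hτ
  have hτ0 : 0 ≤ τ := by positivity
  have hτ' : 18 * (l : ℝ) * R * ε = τ := by rw [hτ, hkR]; ring
  have hτR : 2 * τ ≤ k * R := by
    rw [hτ]
    have : 0 ≤ (k : ℝ) * R := by positivity
    nlinarith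
  -- differences
  have hstep : ∀ i : ℤ, n - (12 * (l : ℤ) + 1) ≤ i → i + 2 ≤ n + (12 * (l : ℤ) + 1) → |y (i + 2) - y i| ≤ R := by
    intro i hi1 hi2
    have := hReg 1 i le_rfl hi1 (by push_cast; linarith)
    simpa [dd] using this
  set z : ℤ → ℝ := fun i => y (n - 1 + 2 * i) - y (n - 1) with hz
  have hzn : ∀ m : ℕ, m ≤ 6 * l → |z (m : ℤ)| ≤ m * R ∧ |z (-(m : ℤ))| ≤ m * R := by
    intro m
    induction m with
    | zero => intro _; simp [hz]
    | succ m ih =>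
        intro hm
        obtain ⟨i1, i2⟩ := ih (by omega)
        constructor
        · have e : z ((m + 1 : ℕ) : ℤ) = z (m : ℤ) + (y ((n - 1 + 2 * (m : ℤ)) + 2) - y (n - 1 + 2 * (m : ℤ))) := by
            simp only [hz]
            have : n - 1 + 2 * ((m + 1 : ℕ) : ℤ) = n - 1 + 2 * (m : ℤ) + 2 := by push_cast; ring
            rw [this]
            ring
          rw [e]
          have h5 := hstep (n - 1 + 2 * (m : ℤ)) (by omega) (by omega)
          have h6 := abs_add_le (z (m : ℤ)) (y ((n - 1 + 2 * (m : ℤ)) + 2) - y (n - 1 + 2 * (m : ℤ)))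
          push_cast
          linarith
        · have e : z (-((m + 1 : ℕ) : ℤ)) = z (-(m : ℤ)) - (y ((n - 1 + 2 * (-(m : ℤ) - 1)) + 2) - y (n - 1 + 2 * (-(m : ℤ) - 1))) := by
            simp only [hz]
            have e1 : n - 1 + 2 * (-((m + 1 : ℕ) : ℤ)) = n - 1 + 2 * (-(m : ℤ) - 1) := by push_cast; ring
            have e2 : n - 1 + 2 * (-(m : ℤ) - 1) + 2 = n - 1 + 2 * (-(m : ℤ)) := by ring
            rw [e1, e2]
            ring
          rw [e]
          have h5 := hstep (n - 1 + 2 * (-(m : ℤ) - 1)) (by omega) (by omega)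
          have h6 := abs_sub (z (-(m : ℤ))) (y ((n - 1 + 2 * (-(m : ℤ) - 1)) + 2) - y (n - 1 + 2 * (-(m : ℤ) - 1)))
          push_cast
          linarith
  have hzb : ∀ i : ℤ, |i| ≤ (k : ℤ) → |z i| ≤ k * R := by
    intro i hi
    have hm : i.natAbs ≤ 3 * l := by rw [Int.abs_eq_natAbs] at hi; omega
    have hmR : (i.natAbs : ℝ) ≤ k := by rw [hk]; exact_mod_cast hm
    have h5 := hzn i.natAbs (by omega)
    have h6 : (i.natAbs : ℝ) * R ≤ k * R := mul_le_mul_of_nonneg_right hmR hR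
    rcases Int.natAbs_eq i with h7 | h7
    · rw [h7]; exact le_trans h5.1 h6
    · rw [h7]; exact le_trans h5.2 h6
  set G : Polynomial ℝ := Q - Polynomial.C (Q.eval 0) with hG
  have hGd : G.natDegree ≤ 2 * l := by
    rw [hG]
    refine le_trans (Polynomial.natDegree_sub_le _ _) ?_
    rw [Polynomial.natDegree_C]
    omega
  have hGe : ∀ t : ℝ, G.eval t = Q.eval t - Q.eval 0 := by
    intro t
    rw [hG, Polynomial.eval_sub, Polynomial.eval_C]
  set g : ℤ → ℝ := fun i => G.eval (i : ℝ) with hg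
  set ρ : ℤ → ℝ := fun i => z i - g i with hρ
  have hρb : ∀ i : ℤ, |i| ≤ (k : ℤ) → |ρ i| ≤ 2 * τ := by
    intro i hi
    have a1 := (hPQ i (by omega)).2
    have a2 := (hPQ 0 (by simp)).2
    rw [hτ'] at a1 a2
    simp only [mul_zero, add_zero, Int.cast_zero] at a2
    have e : ρ i = (y (n - 1 + 2 * i) - Q.eval (i : ℝ)) - (y (n - 1) - Q.eval 0) := by
      simp only [hρ, hz, hg, hGe]
      ring
    rw [e]
    have := abs_sub (y (n - 1 + 2 * i) - Q.eval (i : ℝ)) (y (n - 1) - Q.eval 0)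
    linarith
  have hgb : ∀ i : ℤ, |i| ≤ (k : ℤ) → |g i| ≤ 2 * (k * R) := by
    intro i hi
    have e : g i = z i - ρ i := by simp only [hρ]; ring
    rw [e]
    have a1 := hzb i hi
    have a2 := hρb i hi
    have := abs_sub (z i) (ρ i)
    linarith
  -- the identity
  have hSg : SS k g = G.eval (1 / 2) := SS_poly h2 hk1 G (by omega)
  have hSgg : SS k (fun i => g i ^ 2) = G.eval (1 / 2) ^ 2 := by
    have h5 := SS_poly h2 hk1 (G ^ 2) (by
      refine le_trans (Polynomial.natDegree_pow_le) ?_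
      omega)
    simp only [Polynomial.eval_pow] at h5
    exact h5
  have hz1 : SS k z = G.eval (1 / 2) + SS k ρ := by
    rw [← hSg, ← SS_add]
    congr 1
    funext i
    simp only [hρ]
    ring
  have hz2 : SS k (fun i => z i ^ 2) = G.eval (1 / 2) ^ 2 + SS k (fun i => 2 * g i * ρ i + ρ i ^ 2) := by
    rw [← hSgg, ← SS_add]
    congr 1
    funext i
    simp only [hρ]
    ring
  have hy1 : II k y n = SS k z + y (n - 1) := by
    rw [II_eq]
    have : (fun i : ℤ => y (n - 1 + 2 * i)) = fun i => z i + (fun _ => y (n - 1)) i := by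
      funext i
      simp only [hz]
      ring
    rw [this, SS_add, SS_const h1 hk1]
  have hy2 : II k (fun i => y i ^ 2) n = SS k (fun i => z i ^ 2) + (2 * y (n - 1) * SS k z + y (n - 1) ^ 2) := by
    have e5 : (fun i : ℤ => y (n - 1 + 2 * i) ^ 2) =
        fun i => z i ^ 2 + (fun i => (2 * y (n - 1)) * z i + (fun _ => y (n - 1) ^ 2) i) i := by
      funext i
      simp only [hz]
      ring
    rw [II_eq, e5, SS_add, SS_add, SS_mul, SS_const h1 hk1]
  have hid : II k (fun i => y i ^ 2) n - II k y n ^ 2 =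
      SS k (fun i => 2 * g i * ρ i + ρ i ^ 2) - 2 * G.eval (1 / 2) * SS k ρ - SS k ρ ^ 2 := by
    rw [hy1, hy2, hz1, hz2]
    ring
  -- bounds
  have b1 : |SS k (fun i => 2 * g i * ρ i + ρ i ^ 2)| ≤ 3 / 2 * k * (10 * (k * R) * τ) := by
    apply SS_bound h1 hk1
    intro i hi
    have a1 := hgb i hi
    have a2 := hρb i hi
    have a3 : |2 * g i * ρ i + ρ i ^ 2| ≤ 2 * |g i| * |ρ i| + |ρ i| ^ 2 := by
      refine le_trans (abs_add_le _ _) ?_
      rw [abs_mul, abs_mul, abs_pow]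
      simp
    have hkR0 : 0 ≤ (k : ℝ) * R := by positivity
    have a4 : |g i| * |ρ i| ≤ 2 * (k * R) * (2 * τ) :=
      mul_le_mul a1 a2 (abs_nonneg _) (by positivity)
    have a5 : |ρ i| ^ 2 ≤ (2 * τ) * (k * R) := by
      rw [pow_two]
      exact mul_le_mul a2 (le_trans a2 hτR) (abs_nonneg _) (by positivity)
    nlinarith
  have b2 : |SS k ρ| ≤ 3 / 2 * k * (2 * τ) := SS_bound h1 hk1 ρ _ hρb
  have b3 : |G.eval (1 / 2)| ≤ 3 / 2 * k * (2 * (k * R)) := by
    rw [← hSg]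
    exact SS_bound h1 hk1 g _ hgb
  have hkR0 : 0 ≤ (k : ℝ) * R := by positivity
  have b4 : |2 * G.eval (1 / 2) * SS k ρ| ≤ 18 * k ^ 3 * R * τ := by
    rw [abs_mul, abs_mul, abs_two]
    have : |G.eval (1 / 2)| * |SS k ρ| ≤ (3 / 2 * k * (2 * (k * R))) * (3 / 2 * k * (2 * τ)) :=
      mul_le_mul b3 b2 (abs_nonneg _) (by positivity)
    calc 2 * |G.eval (1 / 2)| * |SS k ρ| = 2 * (|G.eval (1 / 2)| * |SS k ρ|) := by ring
      _ ≤ 2 * ((3 / 2 * k * (2 * (k * R))) * (3 / 2 * k * (2 * τ))) := by linarith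
      _ = 18 * k ^ 3 * R * τ := by ring
  have b5 : |SS k ρ ^ 2| ≤ 9 / 2 * k ^ 3 * R * τ := by
    rw [abs_pow]
    have : |SS k ρ| ^ 2 ≤ (3 / 2 * k * (2 * τ)) ^ 2 := pow_le_pow_left₀ (abs_nonneg _) b2 2
    refine le_trans this ?_
    have e : (3 / 2 * (k : ℝ) * (2 * τ)) ^ 2 = 9 / 2 * k ^ 2 * τ * (2 * τ) := by ring
    rw [e]
    have : 9 / 2 * (k : ℝ) ^ 2 * τ * (2 * τ) ≤ 9 / 2 * (k : ℝ) ^ 2 * τ * (k * R) :=
      mul_le_mul_of_nonneg_left hτR (by positivity)
    refine le_trans this (le_of_eq ?_)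
    ring
  rw [hid]
  have t1 : |SS k (fun i => 2 * g i * ρ i + ρ i ^ 2) - 2 * G.eval (1 / 2) * SS k ρ - SS k ρ ^ 2| ≤
      3 / 2 * k * (10 * (k * R) * τ) + 18 * k ^ 3 * R * τ + 9 / 2 * k ^ 3 * R * τ := by
    refine le_trans (abs_sub _ _) ?_
    have := abs_sub (SS k (fun i => 2 * g i * ρ i + ρ i ^ 2)) (2 * G.eval (1 / 2) * SS k ρ)
    linarith
  refine le_trans t1 ?_
  have t2 : 3 / 2 * k * (10 * (k * R) * τ) ≤ 15 * k ^ 3 * R * τ := by
    have : (k : ℝ) ^ 2 * (R * τ) ≤ k ^ 3 * (R * τ) := by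
      apply mul_le_mul_of_nonneg_right _ (by positivity)
      exact pow_le_pow_right₀ hk1R (by norm_num)
    nlinarith
  have t3 : 3 / 2 * k * (10 * (k * R) * τ) + 18 * k ^ 3 * R * τ + 9 / 2 * k ^ 3 * R * τ ≤ 40 * k ^ 3 * R * τ := by
    have : 0 ≤ (k : ℝ) ^ 3 * R * τ := by positivity
    linarith
  refine le_trans t3 ?_
  have t4 : 40 * (k : ℝ) ^ 3 * R * τ = 240 * (k : ℝ) ^ 4 * (R ^ 2 * ε) := by rw [hτ]; ring
  have t5 : et l * R ^ 2 / 4 = 25000 * (k : ℝ) ^ 6 * (R ^ 2 * ε) := by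
    unfold et
    rw [hkR, ← hε]
    ring
  rw [t4, t5]
  apply mul_le_mul_of_nonneg_right _ (by positivity)
  have : (k : ℝ) ^ 4 ≤ k ^ 6 := pow_le_pow_right₀ hk1R (by norm_num)
  nlinarith [pow_nonneg (le_trans zero_le_one hk1R) 4]

end Helper83.TH
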