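import Pool.Agent.Helper83.TH.St

/-!
Module E2 of project TH (MP_b39980_an): the interpolation operator is almost an involution.
-/

set_option autoImplicit false

open Set Filter Topology
open Helper85.HN (hen Orb Bd KK E0 dl ak)

namespace Helper83.TH

private lemma err_E2 (h1 : StCk) {k : ℕ} (hk : 1 ≤ k) (a b a' b' : ℕ → ℝ) (δ : ℝ)
    (ha : ∀ j ∈ Finset.Icc 1 k, |a j - a' j| ≤ δ) (hb : ∀ j ∈ Finset.Icc 1 k, |b j - b' j| ≤ δ) :
    |∑ j ∈ Finset.Icc 1 k, ck k j * (a j + b j) - ∑ j ∈ Finset.Icc 1 k, ck k j * (a' j + b' j)| ≤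
      3 / 2 * (k : ℝ) * δ := by
  rw [← Finset.sum_sub_distrib]
  refine (Finset.abs_sum_le_sum_abs _ _).trans ?_
  have hc := (h1 k hk).2.1
  have hterm : ∀ j ∈ Finset.Icc 1 k, |ck k j * (a j + b j) - ck k j * (a' j + b' j)| ≤ 3 / 4 * (2 * δ) := by
    intro j hj
    have e : ck k j * (a j + b j) - ck k j * (a' j + b' j) = ck k j * ((a j - a' j) + (b j - b' j)) := by ring
    rw [e, abs_mul]
    refine mul_le_mul (hc j hj) ?_ (abs_nonneg _) (by norm_num)
    refine (abs_add_le _ _).trans ?_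
    linarith [ha j hj, hb j hj]
  refine (Finset.sum_le_sum hterm).trans ?_
  rw [Finset.sum_const, nsmul_eq_mul, Nat.card_Icc, Nat.add_sub_cancel]
  apply le_of_eq
  ring

theorem hE2 (h1 : StCk) (h2 : StExi) (_h3 : StIib) (h4 : StPol) : StE2 := by
  intro l y n R h hl hR hh hlh hreg
  obtain ⟨P, Q, hPd, -, hPQ⟩ := h4 l y n R h hl hR hh hlh hreg
  have hP : ∀ i : ℤ, |i| ≤ 6 * (l : ℤ) →
      |y (n + 2 * i) - P.eval (i : ℝ)| ≤ 18 * (l : ℝ) * R * (1 / 10) ^ (2 * l) := fun i hi => (hPQ i hi).1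
  set k : ℕ := 3 * l with hk
  have hk1 : 1 ≤ k := by omega
  set τ : ℝ := 18 * (l : ℝ) * R * (1 / 10) ^ (2 * l) with hτ
  have hτ0 : 0 ≤ τ := by positivity
  -- first application
  have hA : ∀ i : ℤ, |i| ≤ (k : ℤ) → |II k y (n - 1 + 2 * i) - P.eval ((i : ℝ) - 1 / 2)| ≤ 3 / 2 * (k : ℝ) * τ := by
    intro i hi
    have hex := h2 k P ((i : ℝ) - 1) hk1 (by omega)
    have e1 : (i : ℝ) - 1 + 1 / 2 = (i : ℝ) - 1 / 2 := by ring
    rw [e1] at hex
    rw [← hex]
    unfold II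
    refine err_E2 h1 hk1 (fun j => y (n - 1 + 2 * i + (2 * (j : ℤ) - 1)))
      (fun j => y (n - 1 + 2 * i - (2 * (j : ℤ) - 1))) (fun j => P.eval ((i : ℝ) - 1 + j))
      (fun j => P.eval ((i : ℝ) - 1 + 1 - j)) τ ?_ ?_
    · intro j hj
      rw [Finset.mem_Icc] at hj
      have h5 := hP (i + j - 1) (by
        rw [abs_le] at hi ⊢
        constructor <;> omega)
      have e2 : n - 1 + 2 * i + (2 * (j : ℤ) - 1) = n + 2 * (i + j - 1) := by ring
      have e3 : ((i + j - 1 : ℤ) : ℝ) = (i : ℝ) - 1 + j := by push_cast; ring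
      rw [e2, ← e3]
      exact h5
    · intro j hj
      rw [Finset.mem_Icc] at hj
      have h5 := hP (i - j) (by
        rw [abs_le] at hi ⊢
        constructor <;> omega)
      have e2 : n - 1 + 2 * i - (2 * (j : ℤ) - 1) = n + 2 * (i - j) := by ring
      have e3 : ((i - j : ℤ) : ℝ) = (i : ℝ) - 1 + 1 - j := by push_cast; ring
      rw [e2, ← e3]
      exact h5
  -- second application
  set Ph : Polynomial ℝ := P.comp (Polynomial.X - Polynomial.C (1 / 2)) with hPh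
  have hPhe : ∀ t : ℝ, Ph.eval t = P.eval (t - 1 / 2) := by
    intro t
    rw [hPh, Polynomial.eval_comp]
    simp
  have hPhd : Ph.natDegree ≤ 2 * k - 1 := by
    rw [hPh, Polynomial.natDegree_comp, Polynomial.natDegree_X_sub_C, mul_one]
    omega
  have hB : |II k (II k y) n - P.eval 0| ≤ 3 / 2 * (k : ℝ) * (3 / 2 * (k : ℝ) * τ) := by
    have hex := h2 k Ph 0 hk1 hPhd
    have e1 : Ph.eval ((0 : ℝ) + 1 / 2) = P.eval 0 := by
      rw [hPhe]; congr 1; ring
    rw [e1] at hex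
    rw [← hex]
    have e0 : II k (II k y) n = ∑ j ∈ Finset.Icc 1 k,
        ck k j * (II k y (n + (2 * (j : ℤ) - 1)) + II k y (n - (2 * (j : ℤ) - 1))) := rfl
    rw [e0]
    refine err_E2 h1 hk1 (fun j => II k y (n + (2 * (j : ℤ) - 1)))
      (fun j => II k y (n - (2 * (j : ℤ) - 1))) (fun j => Ph.eval ((0 : ℝ) + j))
      (fun j => Ph.eval ((0 : ℝ) + 1 - j)) _ ?_ ?_
    · intro j hj
      rw [Finset.mem_Icc] at hj
      have h5 := hA j (by
        rw [abs_le]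
        constructor <;> omega)
      have e2 : n + (2 * (j : ℤ) - 1) = n - 1 + 2 * j := by ring
      rw [e2, hPhe, zero_add]
      simpa using h5
    · intro j hj
      rw [Finset.mem_Icc] at hj
      have h5 := hA (1 - j) (by
        rw [abs_le]
        constructor <;> omega)
      have e2 : n - (2 * (j : ℤ) - 1) = n - 1 + 2 * (1 - j) := by ring
      rw [e2, hPhe]
      have e3 : (0 : ℝ) + 1 - j - 1 / 2 = (((1 - j : ℤ)) : ℝ) - 1 / 2 := by push_cast; ring
      rw [e3]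
      exact h5
  have hC : |y n - P.eval 0| ≤ τ := by
    have h5 := hP 0 (by simp)
    simpa using h5
  have hD : |y n - II k (II k y) n| ≤ τ + 3 / 2 * (k : ℝ) * (3 / 2 * (k : ℝ) * τ) := by
    have e : y n - II k (II k y) n = (y n - P.eval 0) - (II k (II k y) n - P.eval 0) := by ring
    rw [e]
    refine (abs_sub _ _).trans ?_
    exact add_le_add hC hB
  refine hD.trans ?_
  have hkl : (k : ℝ) = 3 * (l : ℝ) := by
    rw [hk]; push_cast; ring
  have hl1 : (1 : ℝ) ≤ l := by exact_mod_cast hl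
  unfold et
  rw [hkl, hτ]
  set t : ℝ := (1 / 10 : ℝ) ^ (2 * l) with ht
  have ht0 : 0 ≤ t := by positivity
  have hRt : 0 ≤ R * t := mul_nonneg hR ht0
  have hl3 : (l : ℝ) ≤ (l : ℝ) ^ 6 := le_self_pow₀ hl1 (by norm_num)
  have hl4 : (l : ℝ) ^ 3 ≤ (l : ℝ) ^ 6 := pow_le_pow_right₀ hl1 (by norm_num)
  have e1 : 18 * (l : ℝ) * R * t + 3 / 2 * (3 * (l : ℝ)) * (3 / 2 * (3 * (l : ℝ)) * (18 * (l : ℝ) * R * t)) =
      (18 * (l : ℝ) + 729 / 2 * (l : ℝ) ^ 3) * (R * t) := by ring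
  have e2 : 10 ^ 5 * (3 * (l : ℝ)) ^ 6 * t * R / 4 = (10 ^ 5 * 729 / 4 * (l : ℝ) ^ 6) * (R * t) := by ring
  rw [e1, e2]
  refine mul_le_mul_of_nonneg_right ?_ hRt
  have hl6 : (0 : ℝ) ≤ (l : ℝ) ^ 6 := by positivity
  linarith

end Helper83.TH
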