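import Pool.Agent.Helper83.TH.St

/-! Project TH, module E3: the Leibniz defect. -/

set_option autoImplicit false

open Set Filter Topology
open Helper85.HN (hen Orb Bd KK E0 dl ak)

namespace Helper83.TH

private theorem ee_E3 (n i : ℤ) : ee (n + 2 * i) = ee n := by
  unfold ee
  have h : Even (n + 2 * i) ↔ Even n := by
    rw [Int.even_add]
    simp
  simp only [h]

private theorem abs_ee_E3 (n : ℤ) : |ee n| = 1 := by
  unfold ee
  split_ifs <;> simp

private theorem chain_E3 {w : ℤ → ℝ} {n : ℤ} {k : ℕ} {R : ℝ}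
    (h : ∀ i : ℤ, -(k : ℤ) ≤ i → i + 1 ≤ k → |w (n + 2 * (i + 1)) - w (n + 2 * i)| ≤ R) :
    ∀ j : ℕ, j ≤ k → |w (n + 2 * (j : ℤ)) - w n| ≤ j * R ∧ |w (n + 2 * (-(j : ℤ))) - w n| ≤ j * R := by
  intro j
  induction j with
  | zero => simp
  | succ j ih =>
    intro hj
    obtain ⟨h1, h2⟩ := ih (by omega)
    constructor
    · have h3 := h (j : ℤ) (by omega) (by omega)
      have e : w (n + 2 * ((j + 1 : ℕ) : ℤ)) - w n =
          (w (n + 2 * ((j : ℤ) + 1)) - w (n + 2 * (j : ℤ))) + (w (n + 2 * (j : ℤ)) - w n) := by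
        push_cast
        ring
      rw [e]
      refine (abs_add_le _ _).trans ?_
      push_cast
      linarith
    · have h3 := h (-((j + 1 : ℕ) : ℤ)) (by omega) (by omega)
      have e : w (n + 2 * (-((j + 1 : ℕ) : ℤ))) - w n =
          -(w (n + 2 * (-((j + 1 : ℕ) : ℤ) + 1)) - w (n + 2 * (-((j + 1 : ℕ) : ℤ)))) +
            (w (n + 2 * (-(j : ℤ))) - w n) := by
        have : -((j + 1 : ℕ) : ℤ) + 1 = -(j : ℤ) := by push_cast; ring
        rw [this]
        ring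
      rw [e]
      refine (abs_add_le _ _).trans ?_
      rw [abs_neg]
      push_cast at h3 ⊢
      linarith

private theorem chainI_E3 {w : ℤ → ℝ} {n : ℤ} {k : ℕ} {R : ℝ} (hR : 0 ≤ R)
    (h : ∀ i : ℤ, -(k : ℤ) ≤ i → i + 1 ≤ k → |w (n + 2 * (i + 1)) - w (n + 2 * i)| ≤ R)
    (i : ℤ) (hi : |i| ≤ k) : |w (n + 2 * i) - w n| ≤ k * R := by
  rcases abs_le.1 hi with ⟨h1, h2⟩
  rcases le_total 0 i with h0 | h0
  · obtain ⟨j, rfl⟩ := Int.eq_ofNat_of_zero_le h0
    have hj : j ≤ k := by exact_mod_cast h2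
    refine ((chain_E3 h j hj).1).trans ?_
    exact mul_le_mul_of_nonneg_right (by exact_mod_cast hj) hR
  · obtain ⟨j, hj⟩ := Int.eq_ofNat_of_zero_le (neg_nonneg.2 h0)
    have hij : i = -(j : ℤ) := by omega
    subst hij
    have hj' : j ≤ k := by omega
    refine ((chain_E3 h j hj').2).trans ?_
    exact mul_le_mul_of_nonneg_right (by exact_mod_cast hj') hR

/-- the polynomial expression -/
private noncomputable def pe_E3 (α β a b : ℝ) : ℝ := β * a ^ 2 + 2 * α * a * b + β * b ^ 2 + a ^ 2 * b + b ^ 3 / 3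

private theorem pe_bound_E3 {α β a b a' b' s M : ℝ} (hα : |α| ≤ 41) (hβ : |β| ≤ 41)
    (ha : |a| ≤ M) (hb : |b| ≤ M) (ha' : |a'| ≤ M) (hb' : |b'| ≤ M)
    (hs : |a - a'| ≤ s) (ht : |b - b'| ≤ s) :
    |pe_E3 α β a b - pe_E3 α β a' b'| ≤ 328 * (s * M) + 4 * (s * M ^ 2) := by
  have hM : 0 ≤ M := (abs_nonneg a).trans ha
  have hs0 : 0 ≤ s := (abs_nonneg _).trans hs
  have hprod : ∀ {x y x' y' p q p' : ℝ}, |x - x'| ≤ p → |y| ≤ q → |x'| ≤ p' → |y - y'| ≤ s →
      0 ≤ p → |x * y - x' * y'| ≤ p * q + p' * s := by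
    intro x y x' y' p q p' h1 h2 h3 h4 hp
    have e : x * y - x' * y' = (x - x') * y + x' * (y - y') := by ring
    rw [e]
    refine (abs_add_le _ _).trans ?_
    rw [abs_mul, abs_mul]
    have hp' : 0 ≤ p' := (abs_nonneg _).trans h3
    exact add_le_add (mul_le_mul h1 h2 (abs_nonneg _) hp) (mul_le_mul h3 h4 (abs_nonneg _) hp')
  have aa : |a * a - a' * a'| ≤ 2 * (s * M) := by
    have := hprod hs ha ha' hs hs0
    linarith
  have ab : |a * b - a' * b'| ≤ 2 * (s * M) := by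
    have := hprod hs hb ha' ht hs0
    linarith
  have bb : |b * b - b' * b'| ≤ 2 * (s * M) := by
    have := hprod ht hb hb' ht hs0
    linarith
  have hsM : 0 ≤ s * M := mul_nonneg hs0 hM
  have haa' : |a' * a'| ≤ M ^ 2 := by
    rw [abs_mul, pow_two]
    exact mul_le_mul ha' ha' (abs_nonneg _) hM
  have hbb' : |b' * b'| ≤ M ^ 2 := by
    rw [abs_mul, pow_two]
    exact mul_le_mul hb' hb' (abs_nonneg _) hM
  have aab : |a * a * b - a' * a' * b'| ≤ 3 * (s * M ^ 2) := by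
    have := hprod aa hb haa' ht (by linarith)
    nlinarith
  have bbb : |b * b * b - b' * b' * b'| ≤ 3 * (s * M ^ 2) := by
    have := hprod bb hb hbb' ht (by linarith)
    nlinarith
  have e : pe_E3 α β a b - pe_E3 α β a' b' = β * (a * a - a' * a') + 2 * (α * (a * b - a' * b')) +
      β * (b * b - b' * b') + (a * a * b - a' * a' * b') + 1 / 3 * (b * b * b - b' * b' * b') := by
    unfold pe_E3
    ring
  rw [e]
  have t1 : |β * (a * a - a' * a')| ≤ 41 * (2 * (s * M)) := by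
    rw [abs_mul]; exact mul_le_mul hβ aa (abs_nonneg _) (by norm_num)
  have t2 : |2 * (α * (a * b - a' * b'))| ≤ 2 * (41 * (2 * (s * M))) := by
    rw [abs_mul, abs_two, abs_mul]
    exact mul_le_mul_of_nonneg_left (mul_le_mul hα ab (abs_nonneg _) (by norm_num)) (by norm_num)
  have t3 : |β * (b * b - b' * b')| ≤ 41 * (2 * (s * M)) := by
    rw [abs_mul]; exact mul_le_mul hβ bb (abs_nonneg _) (by norm_num)
  have t5 : |1 / 3 * (b * b * b - b' * b' * b')| ≤ s * M ^ 2 := by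
    rw [abs_mul, abs_of_nonneg (by norm_num : (0 : ℝ) ≤ 1 / 3)]
    linarith
  have u1 := abs_add_le (β * (a * a - a' * a') + 2 * (α * (a * b - a' * b')) +
      β * (b * b - b' * b') + (a * a * b - a' * a' * b')) (1 / 3 * (b * b * b - b' * b' * b'))
  have u2 := abs_add_le (β * (a * a - a' * a') + 2 * (α * (a * b - a' * b')) +
      β * (b * b - b' * b')) (a * a * b - a' * a' * b')
  have u3 := abs_add_le (β * (a * a - a' * a') + 2 * (α * (a * b - a' * b')))
    (β * (b * b - b' * b'))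
  have u4 := abs_add_le (β * (a * a - a' * a')) (2 * (α * (a * b - a' * b')))
  linarith

private theorem deg_E3 {GA GB : Polynomial ℝ} {d : ℕ} (hA : GA.natDegree ≤ d)
    (hB : GB.natDegree ≤ d) (α β : ℝ) :
    (Polynomial.C β * GA ^ 2 + Polynomial.C (2 * α) * (GA * GB) + Polynomial.C β * GB ^ 2 +
      GA ^ 2 * GB + Polynomial.C (1 / 3) * GB ^ 3).natDegree ≤ 3 * d := by
  have hA2 : (GA ^ 2).natDegree ≤ 2 * d := (Polynomial.natDegree_pow_le).trans (by omega)
  have hB2 : (GB ^ 2).natDegree ≤ 2 * d := (Polynomial.natDegree_pow_le).trans (by omega)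
  have hB3 : (GB ^ 3).natDegree ≤ 3 * d := (Polynomial.natDegree_pow_le).trans (by omega)
  have hAB : (GA * GB).natDegree ≤ 2 * d := (Polynomial.natDegree_mul_le).trans (by omega)
  have hAAB : (GA ^ 2 * GB).natDegree ≤ 3 * d := (Polynomial.natDegree_mul_le).trans (by omega)
  refine Polynomial.natDegree_add_le_of_degree_le (Polynomial.natDegree_add_le_of_degree_le
    (Polynomial.natDegree_add_le_of_degree_le (Polynomial.natDegree_add_le_of_degree_le
      ?_ ?_) ?_) hAAB) ?_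
  · exact (Polynomial.natDegree_C_mul_le _ _).trans (by omega)
  · exact (Polynomial.natDegree_C_mul_le _ _).trans (by omega)
  · exact (Polynomial.natDegree_C_mul_le _ _).trans (by omega)
  · exact (Polynomial.natDegree_C_mul_le _ _).trans hB3

private theorem der_E3 {GA GB : Polynomial ℝ} (hA : GA.eval 0 = 0) (hB : GB.eval 0 = 0)
    (α β : ℝ) :
    (Polynomial.derivative (Polynomial.C β * GA ^ 2 + Polynomial.C (2 * α) * (GA * GB) +
      Polynomial.C β * GB ^ 2 + GA ^ 2 * GB + Polynomial.C (1 / 3) * GB ^ 3)).eval 0 = 0 := by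
  simp [Polynomial.derivative_mul, Polynomial.derivative_pow, hA, hB]

private theorem ev_E3 (GA GB : Polynomial ℝ) (α β x : ℝ) :
    (Polynomial.C β * GA ^ 2 + Polynomial.C (2 * α) * (GA * GB) +
      Polynomial.C β * GB ^ 2 + GA ^ 2 * GB + Polynomial.C (1 / 3) * GB ^ 3).eval x =
      pe_E3 α β (GA.eval x) (GB.eval x) := by
  unfold pe_E3
  simp
  ring

theorem hE3 (h1 : StCk) (h2 : StExi) (h3 : StIib) (h4 : StPol) (h5 : Helper85.HN.StEx)
    (h6 : Helper85.HN.StBj) : StE3 := by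
  intro l y n R h hl hR hRh hh hlh hreg hAn hBn
  have hk1 : 1 ≤ 3 * l := by omega
  set k : ℕ := 3 * l with hk
  have hkl : (k : ℝ) = 3 * l := by rw [hk]; push_cast; ring
  have hl' : (1 : ℝ) ≤ l := by exact_mod_cast hl
  have hk' : (3 : ℝ) ≤ k := by rw [hkl]; linarith
  obtain ⟨-, hck, -, -⟩ := h1 k hk1
  obtain ⟨i1, -, i3, i4⟩ := h3
  obtain ⟨P, Q, hPd, hQd, hPQ⟩ := h4 l y n R h hl hR hh hlh hreg
  set e : ℝ := (1 / 10) ^ (2 * l) with he
  have he0 : 0 < e := by rw [he]; positivity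
  have he1 : e ≤ 1 / 100 := by
    rw [he, pow_mul]
    calc (((1 : ℝ) / 10) ^ 2) ^ l ≤ (((1 : ℝ) / 10) ^ 2) ^ 1 :=
          pow_le_pow_of_le_one (by norm_num) (by norm_num) hl
      _ = 1 / 100 := by norm_num
  set τ : ℝ := 18 * (l : ℝ) * R * e with hτ
  have hτ0 : 0 ≤ τ := by rw [hτ]; positivity
  have hτk : τ = 6 * k * R * e := by rw [hτ, hkl]; ring
  have hP : ∀ i : ℤ, |i| ≤ k → |y (n + 2 * i) - P.eval (i : ℝ)| ≤ τ := by
    intro i hi
    exact (hPQ i (by omega)).1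
  -- the interpolation
  have hI : ∀ i : ℤ, |i| ≤ k → |II k y (n + 2 * i) - Q.eval ((i : ℝ) + 1 / 2)| ≤ 3 / 2 * k * τ := by
    intro i hi
    obtain ⟨hi1, hi2⟩ := abs_le.1 hi
    have hx := h2 k Q (i : ℝ) hk1 (by omega)
    rw [← hx]
    unfold II
    rw [← Finset.sum_sub_distrib]
    refine (Finset.abs_sum_le_sum_abs _ _).trans ?_
    have hterm : ∀ j ∈ Finset.Icc 1 k, |ck k j * (y (n + 2 * i + (2 * (j : ℤ) - 1)) +
        y (n + 2 * i - (2 * (j : ℤ) - 1))) -
        ck k j * (Q.eval ((i : ℝ) + j) + Q.eval ((i : ℝ) + 1 - j))| ≤ 3 / 4 * (2 * τ) := by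
      intro j hj
      have hjj := Finset.mem_Icc.1 hj
      have hj1 : (1 : ℤ) ≤ j := by exact_mod_cast hjj.1
      have hj2 : (j : ℤ) ≤ k := by exact_mod_cast hjj.2
      have a1 := (hPQ (i + j) (abs_le.2 ⟨by omega, by omega⟩)).2
      have a2 := (hPQ (i + 1 - j) (abs_le.2 ⟨by omega, by omega⟩)).2
      have e1 : n + 2 * i + (2 * (j : ℤ) - 1) = n - 1 + 2 * (i + j) := by ring
      have e2 : n + 2 * i - (2 * (j : ℤ) - 1) = n - 1 + 2 * (i + 1 - j) := by ring
      rw [e1, e2, ← mul_sub, abs_mul]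
      refine mul_le_mul (hck j hj) ?_ (abs_nonneg _) (by norm_num)
      push_cast at a1 a2
      have e3 : y (n - 1 + 2 * (i + j)) + y (n - 1 + 2 * (i + 1 - j)) -
          (Q.eval ((i : ℝ) + j) + Q.eval ((i : ℝ) + 1 - j)) =
          (y (n - 1 + 2 * (i + j)) - Q.eval ((i : ℝ) + j)) +
            (y (n - 1 + 2 * (i + 1 - j)) - Q.eval ((i : ℝ) + 1 - j)) := by ring
      rw [e3]
      refine (abs_add_le _ _).trans ?_
      linarith
    refine (Finset.sum_le_sum hterm).trans ?_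
    rw [Finset.sum_const, Nat.card_Icc, nsmul_eq_mul]
    simp only [add_tsub_cancel_right]
    apply le_of_eq
    ring
  -- steps
  have hdd1 : ∀ (w : ℤ → ℝ) (i : ℤ), dd 1 w i = w (i + 2) - w i := fun w i => rfl
  have hst : ∀ i : ℤ, n - (12 * (l : ℤ) + 1) ≤ i → i + 2 ≤ n + (12 * (l : ℤ) + 1) →
      |dd 1 y i| ≤ R := by
    intro i hi1 hi2
    have := hreg 1 i le_rfl hi1 (by push_cast; omega)
    simpa using this
  have hstI : ∀ i : ℤ, -(k : ℤ) ≤ i → i + 1 ≤ k →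
      |II k y (n + 2 * (i + 1)) - II k y (n + 2 * i)| ≤ 3 / 2 * k * R := by
    intro i hi1 hi2
    have e1 : II k y (n + 2 * (i + 1)) - II k y (n + 2 * i) = dd 1 (II k y) (n + 2 * i) := by
      rw [hdd1]
      congr 2
      ring
    rw [e1, i4 k 1 y]
    refine i1 k (dd 1 y) (n + 2 * i) R hk1 hR fun j hj => ?_
    obtain ⟨hj1, hj2⟩ := abs_le.1 hj
    exact hst j (by omega) (by omega)
  have hsty : ∀ i : ℤ, -(k : ℤ) ≤ i → i + 1 ≤ k → |y (n + 2 * (i + 1)) - y (n + 2 * i)| ≤ R := by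
    intro i hi1 hi2
    have e1 : y (n + 2 * (i + 1)) - y (n + 2 * i) = dd 1 y (n + 2 * i) := by
      rw [hdd1]
      congr 2
      ring
    rw [e1]
    exact hst _ (by omega) (by omega)
  have hyk : ∀ i : ℤ, |i| ≤ k → |y (n + 2 * i) - y n| ≤ k * R := fun i hi =>
    chainI_E3 hR hsty i hi
  have hIk : ∀ i : ℤ, |i| ≤ k → |II k y (n + 2 * i) - II k y n| ≤ k * (3 / 2 * k * R) := fun i hi =>
    chainI_E3 (by positivity) hstI i hi
  have hkR : (k : ℝ) * R ≤ k ^ 2 * R := by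
    have : (k : ℝ) ≤ k ^ 2 := by nlinarith
    exact mul_le_mul_of_nonneg_right this hR
  -- the two functions
  set M : ℝ := 3 / 2 * k ^ 2 * R with hM
  set s : ℝ := 5 / 2 * k * τ with hs
  have hs0 : 0 ≤ s := by rw [hs]; positivity
  have hsM : s ≤ 15 / 100 * k ^ 2 * R := by
    rw [hs, hτk]
    calc 5 / 2 * (k : ℝ) * (6 * k * R * e) = 15 * (k ^ 2 * R) * e := by ring
      _ ≤ 15 * (k ^ 2 * R) * (1 / 100) := mul_le_mul_of_nonneg_left he1 (by positivity)
      _ = _ := by ring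
  set QC : Polynomial ℝ := Q.comp (Polynomial.X + Polynomial.C (1 / 2)) with hQC
  have hQCd : QC.natDegree ≤ 2 * l := by
    rw [hQC]
    refine Polynomial.natDegree_comp_le.trans ?_
    rw [Polynomial.natDegree_X_add_C, mul_one]
    exact hQd
  have hQCe : ∀ x : ℝ, QC.eval x = Q.eval (x + 1 / 2) := by
    intro x
    rw [hQC, Polynomial.eval_comp]
    simp
  -- general estimate for both functions
  have key : ∀ (c : ℝ) (w : ℤ → ℝ), |c| = 1 ∨ |c| = 1 → ∀ ε : ℝ, |ε| = 1 →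
      (∀ i : ℤ, w (n + 2 * i) = c * (y (n + 2 * i) + ε * II k y (n + 2 * i)) / 2) →
      ∃ G : Polynomial ℝ, G.natDegree ≤ 2 * l ∧ G.eval 0 = 0 ∧
        ∀ i : ℤ, |i| ≤ k → |w (n + 2 * i) - w n| ≤ M ∧ |G.eval (i : ℝ)| ≤ M ∧
          |(w (n + 2 * i) - w n) - G.eval (i : ℝ)| ≤ s := by
    intro c w hc ε hε hw
    have hc1 : |c| = 1 := hc.elim id id
    set PA : Polynomial ℝ := Polynomial.C (c / 2) * (P + Polynomial.C ε * QC) with hPA
    have hPAd : PA.natDegree ≤ 2 * l := by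
      rw [hPA]
      refine (Polynomial.natDegree_C_mul_le _ _).trans ?_
      refine Polynomial.natDegree_add_le_of_degree_le hPd ?_
      exact (Polynomial.natDegree_C_mul_le _ _).trans hQCd
    have hPAe : ∀ x : ℝ, PA.eval x = c / 2 * (P.eval x + ε * Q.eval (x + 1 / 2)) := by
      intro x
      rw [hPA]
      simp [hQCe]
    have hwP : ∀ i : ℤ, |i| ≤ k → |w (n + 2 * i) - PA.eval (i : ℝ)| ≤ 5 / 4 * k * τ := by
      intro i hi
      have a1 := hP i hi
      have a2 := hI i hi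
      have e1 : w (n + 2 * i) - PA.eval (i : ℝ) = c / 2 * ((y (n + 2 * i) - P.eval (i : ℝ)) +
          ε * (II k y (n + 2 * i) - Q.eval ((i : ℝ) + 1 / 2))) := by
        rw [hw, hPAe]
        ring
      rw [e1, abs_mul, abs_div, hc1, abs_two]
      have a3 : |(y (n + 2 * i) - P.eval (i : ℝ)) +
          ε * (II k y (n + 2 * i) - Q.eval ((i : ℝ) + 1 / 2))| ≤ τ + 3 / 2 * k * τ := by
        refine (abs_add_le _ _).trans ?_
        rw [abs_mul, hε, one_mul]
        exact add_le_add a1 a2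
      have a4 : τ ≤ k * τ := by nlinarith
      linarith
    have hww : ∀ i : ℤ, |i| ≤ k → |w (n + 2 * i) - w n| ≤ 5 / 4 * k ^ 2 * R := by
      intro i hi
      have a1 := hyk i hi
      have a2 := hIk i hi
      have h0 := hw 0
      rw [mul_zero, add_zero] at h0
      have e1 : w (n + 2 * i) - w n = c / 2 * ((y (n + 2 * i) - y n) +
          ε * (II k y (n + 2 * i) - II k y n)) := by
        rw [hw, h0]
        ring
      rw [e1, abs_mul, abs_div, hc1, abs_two]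
      have a3 : |(y (n + 2 * i) - y n) + ε * (II k y (n + 2 * i) - II k y n)| ≤
          k * R + k * (3 / 2 * k * R) := by
        refine (abs_add_le _ _).trans ?_
        rw [abs_mul, hε, one_mul]
        exact add_le_add a1 a2
      have e2 : (k : ℝ) * (3 / 2 * k * R) = 3 / 2 * (k ^ 2 * R) := by ring
      rw [e2] at a3
      linarith
    refine ⟨PA - Polynomial.C (PA.eval 0), ?_, ?_, ?_⟩
    · rw [Polynomial.natDegree_sub_C]
      exact hPAd
    · simp
    · intro i hi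
      have a1 := hww i hi
      have a2 := hwP i hi
      have a3 := hwP 0 (by simp)
      rw [mul_zero, add_zero, Int.cast_zero] at a3
      have a4 : |(w (n + 2 * i) - w n) - (PA - Polynomial.C (PA.eval 0)).eval (i : ℝ)| ≤ s := by
        have e1 : (w (n + 2 * i) - w n) - (PA - Polynomial.C (PA.eval 0)).eval (i : ℝ) =
            (w (n + 2 * i) - PA.eval (i : ℝ)) - (w n - PA.eval 0) := by
          simp
          ring
        rw [e1]
        refine (abs_sub _ _).trans ?_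
        rw [hs]
        linarith
      refine ⟨?_, ?_, a4⟩
      · refine a1.trans ?_
        rw [hM]
        have : 0 ≤ (k : ℝ) ^ 2 * R := by positivity
        linarith
      · have a5 := abs_sub_abs_le_abs_sub ((PA - Polynomial.C (PA.eval 0)).eval (i : ℝ))
          (w (n + 2 * i) - w n)
        rw [abs_sub_comm ((PA - Polynomial.C (PA.eval 0)).eval (i : ℝ)) (w (n + 2 * i) - w n)] at a5
        rw [hM]
        have : 0 ≤ (k : ℝ) ^ 2 * R := by positivity
        linarith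
  obtain ⟨GA, hGAd, hGA0, hGA⟩ := key 1 (AA k y) (Or.inl abs_one) 1 abs_one (by
    intro i
    unfold AA
    ring)
  obtain ⟨GB, hGBd, hGB0, hGB⟩ := key (ee n) (BB k y) (Or.inl (abs_ee_E3 n)) (-1) (by simp) (by
    intro i
    unfold BB
    rw [ee_E3]
    ring)
  obtain ⟨hak, -⟩ := h6 k hk1
  set α : ℝ := AA k y n with hα
  set β : ℝ := BB k y n with hβ
  have hz := h5 k _ hk1 ((deg_E3 hGAd hGBd α β).trans (by omega))
  rw [der_E3 hGA0 hGB0 α β] at hz
  -- the final sum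
  have hF : EEf k (AA k y) (BB k y) n = ∑ j ∈ Finset.Icc 1 k, ak k j *
      (pe_E3 α β (AA k y (n + 2 * (j : ℤ)) - α) (BB k y (n + 2 * (j : ℤ)) - β) -
        pe_E3 α β (AA k y (n + 2 * (-(j : ℤ))) - α) (BB k y (n + 2 * (-(j : ℤ))) - β)) := by
    unfold EEf D2 pe_E3
    refine Finset.sum_congr rfl fun j _ => ?_
    have e1 : n + 2 * (-(j : ℤ)) = n - 2 * (j : ℤ) := by ring
    rw [e1]
  set Bn : ℝ := 328 * (s * M) + 4 * (s * M ^ 2) with hBnd
  have hdiff : ∀ i : ℤ, |i| ≤ k → |pe_E3 α β (AA k y (n + 2 * i) - α) (BB k y (n + 2 * i) - β) -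
      pe_E3 α β (GA.eval (i : ℝ)) (GB.eval (i : ℝ))| ≤ Bn := by
    intro i hi
    obtain ⟨a1, a2, a3⟩ := hGA i hi
    obtain ⟨b1, b2, b3⟩ := hGB i hi
    exact pe_bound_E3 hAn hBn a1 b1 a2 b2 a3 b3
  have hfin : |EEf k (AA k y) (BB k y) n| ≤ k * (2 * Bn) := by
    rw [hF]
    have e1 : ∑ j ∈ Finset.Icc 1 k, ak k j *
        (pe_E3 α β (AA k y (n + 2 * (j : ℤ)) - α) (BB k y (n + 2 * (j : ℤ)) - β) -
          pe_E3 α β (AA k y (n + 2 * (-(j : ℤ))) - α) (BB k y (n + 2 * (-(j : ℤ))) - β)) =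
        ∑ j ∈ Finset.Icc 1 k, ak k j *
        ((pe_E3 α β (AA k y (n + 2 * (j : ℤ)) - α) (BB k y (n + 2 * (j : ℤ)) - β) -
          pe_E3 α β (GA.eval (j : ℝ)) (GB.eval (j : ℝ))) -
          (pe_E3 α β (AA k y (n + 2 * (-(j : ℤ))) - α) (BB k y (n + 2 * (-(j : ℤ))) - β) -
            pe_E3 α β (GA.eval (-(j : ℝ))) (GB.eval (-(j : ℝ))))) := by
      have e2 : ∑ j ∈ Finset.Icc 1 k, ak k j * (pe_E3 α β (GA.eval (j : ℝ)) (GB.eval (j : ℝ)) -
          pe_E3 α β (GA.eval (-(j : ℝ))) (GB.eval (-(j : ℝ)))) = 0 := by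
        rw [← hz]
        refine Finset.sum_congr rfl fun j _ => ?_
        rw [ev_E3, ev_E3]
      rw [← sub_zero (∑ j ∈ Finset.Icc 1 k, ak k j *
        (pe_E3 α β (AA k y (n + 2 * (j : ℤ)) - α) (BB k y (n + 2 * (j : ℤ)) - β) -
          pe_E3 α β (AA k y (n + 2 * (-(j : ℤ))) - α) (BB k y (n + 2 * (-(j : ℤ))) - β))), ← e2,
        ← Finset.sum_sub_distrib]
      refine Finset.sum_congr rfl fun j _ => ?_
      ring
    rw [e1]
    refine (Finset.abs_sum_le_sum_abs _ _).trans ?_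
    have hterm : ∀ j ∈ Finset.Icc 1 k, |ak k j *
        ((pe_E3 α β (AA k y (n + 2 * (j : ℤ)) - α) (BB k y (n + 2 * (j : ℤ)) - β) -
          pe_E3 α β (GA.eval (j : ℝ)) (GB.eval (j : ℝ))) -
          (pe_E3 α β (AA k y (n + 2 * (-(j : ℤ))) - α) (BB k y (n + 2 * (-(j : ℤ))) - β) -
            pe_E3 α β (GA.eval (-(j : ℝ))) (GB.eval (-(j : ℝ)))))| ≤ 2 * Bn := by
      intro j hj
      have hj2 : (j : ℤ) ≤ k := by exact_mod_cast (Finset.mem_Icc.1 hj).2
      have d1 := hdiff (j : ℤ) (by rw [abs_of_nonneg (by positivity)]; exact hj2)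
      have d2 := hdiff (-(j : ℤ)) (by rw [abs_neg, abs_of_nonneg (by positivity)]; exact hj2)
      push_cast at d1 d2
      rw [abs_mul]
      have d3 := (abs_sub (pe_E3 α β (AA k y (n + 2 * (j : ℤ)) - α) (BB k y (n + 2 * (j : ℤ)) - β) -
          pe_E3 α β (GA.eval (j : ℝ)) (GB.eval (j : ℝ)))
          (pe_E3 α β (AA k y (n + 2 * (-(j : ℤ))) - α) (BB k y (n + 2 * (-(j : ℤ))) - β) -
            pe_E3 α β (GA.eval (-(j : ℝ))) (GB.eval (-(j : ℝ)))))
      calc _ ≤ 1 * _ := mul_le_mul_of_nonneg_right (hak j hj) (abs_nonneg _)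
        _ ≤ 2 * Bn := by
            rw [one_mul]
            linarith
    refine (Finset.sum_le_sum hterm).trans ?_
    rw [Finset.sum_const, Nat.card_Icc, nsmul_eq_mul]
    simp
  refine hfin.trans ?_
  -- numbers
  have hkh : (k : ℝ) * h ≤ 1 / 10 ^ 6 := by
    rw [hkl]
    have : (10 : ℝ) ^ 6 * (3 * (l : ℝ)) * h = 10 ^ 6 * (3 * l * h) := by ring
    rw [this] at hlh
    rw [le_div_iff₀ (by positivity)]
    linarith
  have hkRs : (k : ℝ) * R ≤ 1 / 100 := by
    calc (k : ℝ) * R ≤ k * (6500 * h) := mul_le_mul_of_nonneg_left hRh (by positivity)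
      _ = 6500 * (k * h) := by ring
      _ ≤ 6500 * (1 / 10 ^ 6) := by linarith
      _ ≤ 1 / 100 := by norm_num
  have hsv : s = 15 * k ^ 2 * R * e := by rw [hs, hτk]; ring
  have hB1 : Bn = 7380 * (k ^ 4 * R ^ 2 * e) + 135 * (k ^ 5 * R ^ 2 * e) * (k * R) := by
    rw [hBnd, hsv, hM]
    ring
  have hX : 0 ≤ (k : ℝ) ^ 4 * R ^ 2 * e := by positivity
  have hY : 0 ≤ (k : ℝ) ^ 5 * R ^ 2 * e := by positivity
  have hZ : 0 ≤ (k : ℝ) ^ 6 * R ^ 2 * e := by positivity
  have hXY : 3 * ((k : ℝ) ^ 4 * R ^ 2 * e) ≤ k ^ 5 * R ^ 2 * e := by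
    have : (k : ℝ) ^ 5 * R ^ 2 * e = k * (k ^ 4 * R ^ 2 * e) := by ring
    rw [this]
    exact mul_le_mul_of_nonneg_right hk' hX
  have hB2 : Bn ≤ 3000 * (k ^ 5 * R ^ 2 * e) := by
    rw [hB1]
    have : 135 * ((k : ℝ) ^ 5 * R ^ 2 * e) * (k * R) ≤ 135 * (k ^ 5 * R ^ 2 * e) * (1 / 100) :=
      mul_le_mul_of_nonneg_left hkRs (by positivity)
    linarith
  have e1 : (k : ℝ) * (2 * (3000 * (k ^ 5 * R ^ 2 * e))) = 6000 * (k ^ 6 * R ^ 2 * e) := by ring
  have hB3 : (k : ℝ) * (2 * Bn) ≤ k * (2 * (3000 * (k ^ 5 * R ^ 2 * e))) :=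
    mul_le_mul_of_nonneg_left (by linarith) (by positivity)
  rw [e1] at hB3
  refine hB3.trans ?_
  have e2 : et l * R ^ 2 / 4 = 25000 * (k ^ 6 * R ^ 2 * e) := by
    unfold et
    rw [← hkl, ← he]
    ring
  rw [e2]
  linarith

end Helper83.TH
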