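import Pool.Agent.Helper83.TH.St

set_option autoImplicit false

namespace Helper83.TH

private theorem ee_succ_Eqs (n : ℤ) : ee (n + 1) = -ee n := by
  unfold ee
  by_cases h : Even n
  · rw [if_pos h, if_neg (by rw [Int.even_add_one]; exact not_not.2 h)]
  · rw [if_neg h, if_pos (by rw [Int.even_add_one]; exact h)]; norm_num

private theorem ee_pred_Eqs (n : ℤ) : ee (n - 1) = -ee n := by
  have := ee_succ_Eqs (n - 1)
  rw [sub_add_cancel] at this
  rw [this, neg_neg]

private theorem ee_sq_Eqs (n : ℤ) : ee n * ee n = 1 := by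
  unfold ee
  split_ifs <;> norm_num

theorem hEqs : StEqs := by
  intro k θ h y n hck hy
  -- the operator `II k` applied to the equation
  have hII : II k y (n + 1) - II k y (n - 1) = h * (II k (fun i => y i ^ 2) n - 1 + θ * (II k y n - II k y (n - 1))) := by
    have h1 : (1 : ℝ) = ∑ j ∈ Finset.Icc 1 k, ck k j * (1 + 1) := by
      rw [← Finset.sum_mul, hck]; norm_num
    unfold II
    rw [h1]
    rw [← Finset.sum_sub_distrib, ← Finset.sum_sub_distrib, ← Finset.sum_sub_distrib, Finset.mul_sum, ← Finset.sum_add_distrib,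
      Finset.mul_sum]
    apply Finset.sum_congr rfl
    intro j _
    have e1 := hy (n + (2 * (j : ℤ) - 1))
    have e2 := hy (n - (2 * (j : ℤ) - 1))
    have s1 : n + (2 * (j : ℤ) - 1) + 1 = n + 1 + (2 * (j : ℤ) - 1) := by ring
    have s2 : n + (2 * (j : ℤ) - 1) - 1 = n - 1 + (2 * (j : ℤ) - 1) := by ring
    have s3 : n - (2 * (j : ℤ) - 1) + 1 = n + 1 - (2 * (j : ℤ) - 1) := by ring
    have s4 : n - (2 * (j : ℤ) - 1) - 1 = n - 1 - (2 * (j : ℤ) - 1) := by ring
    rw [s1, s2] at e1
    rw [s3, s4] at e2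
    linear_combination (ck k j) * e1 + (ck k j) * e2
  have hyn := hy n
  have he := ee_sq_Eqs n
  refine ⟨?_, ?_, ?_⟩
  · unfold AA BB
    have hb2 : (ee n * (y n - II k y n) / 2) ^ 2 = ((y n - II k y n) / 2) ^ 2 := by
      have : (ee n * (y n - II k y n) / 2) ^ 2 = (ee n * ee n) * ((y n - II k y n) / 2) ^ 2 := by ring
      rw [this, he, one_mul]
    rw [hb2]
    linear_combination hyn / 2 + hII / 2
  · unfold AA BB
    rw [ee_succ_Eqs, ee_pred_Eqs]
    linear_combination (-(ee n) / 2) * hyn + ((ee n) / 2) * hII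
  · unfold AA BB
    have : ee n * (ee n * (y n - II k y n) / 2) = (ee n * ee n) * ((y n - II k y n) / 2) := by ring
    rw [this, he]
    ring

end Helper83.TH
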