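import Pool.Agent.Helper83.TH.St

/-!
Module Exi of project TH (MP_b39980_an): exactness of the interpolation.
-/

set_option autoImplicit false

open Set Filter Topology
open Helper85.HN (hen Orb Bd KK E0 dl ak)

namespace Helper83.TH

private lemma icc_Exi (k : ℕ) (f : ℕ → ℝ) : ∑ j ∈ Finset.Icc 1 k, f j = ∑ j ∈ Finset.range k, f (j + 1) := by
  induction k with
  | zero => simp
  | succ k ih => rw [Finset.sum_Icc_succ_top (by omega), ih, Finset.sum_range_succ]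

private lemma alt_Exi (k : ℕ) (hk : 1 ≤ k) (q : Polynomial ℝ) (hq : q.natDegree < 2 * k - 1) :
    ∑ j ∈ Finset.range k, (-1 : ℝ) ^ j * ((2 * k - 1).choose (k + j) : ℝ) *
      (q.eval ((j : ℝ) + 1 / 2) - q.eval (-((j : ℝ) + 1 / 2))) = 0 := by
  have h := congrFun (Polynomial.fwdDiff_iter_eq_zero_of_degree_lt hq) (-(k : ℝ) + 1 / 2)
  rw [fwdDiff_iter_eq_sum_shift] at h
  simp only [Pi.zero_apply] at h
  have h2 : ∑ i ∈ Finset.range (k + k), (-1 : ℝ) ^ (2 * k - 1 - i) * ((2 * k - 1).choose i : ℝ) *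
      q.eval (-(k : ℝ) + 1 / 2 + i) = 0 := by
    rw [← h, show 2 * k - 1 + 1 = k + k by omega]
    refine Finset.sum_congr rfl fun i _ => ?_
    rw [zsmul_eq_mul, nsmul_one]
    push_cast
    ring
  rw [Finset.sum_range_add, ← Finset.sum_range_reflect, ← Finset.sum_add_distrib] at h2
  have hk1 : (-1 : ℝ) ^ (k - 1) ≠ 0 := pow_ne_zero _ (by norm_num)
  apply mul_left_cancel₀ hk1
  rw [mul_zero, ← h2, Finset.mul_sum]
  refine Finset.sum_congr rfl fun j hj => ?_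
  have hj' : j < k := Finset.mem_range.mp hj
  have b2 : (-1 : ℝ) ^ j * (-1) ^ j = 1 := by
    rw [← mul_pow]; norm_num
  have a1 : (2 * k - 1).choose (k - 1 - j) = (2 * k - 1).choose (k + j) := by
    apply Nat.choose_symm_of_eq_add
    omega
  have a2 : -(k : ℝ) + 1 / 2 + ((k - 1 - j : ℕ) : ℝ) = -((j : ℝ) + 1 / 2) := by
    have : ((k - 1 - j : ℕ) : ℝ) + ((j + 1 : ℕ) : ℝ) = (k : ℝ) := by
      rw [← Nat.cast_add]; congr 1; omega
    push_cast at this
    linarith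
  have a3 : -(k : ℝ) + 1 / 2 + ((k + j : ℕ) : ℝ) = (j : ℝ) + 1 / 2 := by
    push_cast; ring
  have a4 : (-1 : ℝ) ^ (2 * k - 1 - (k + j)) = (-1) ^ (k - 1) * (-1) ^ j := by
    have b1 : (-1 : ℝ) ^ (2 * k - 1 - (k + j)) * (-1) ^ j = (-1) ^ (k - 1) := by
      rw [← pow_add]; congr 1; omega
    rw [← b1, mul_assoc, b2, mul_one]
  have a5 : (-1 : ℝ) ^ (2 * k - 1 - (k - 1 - j)) = -((-1) ^ (k - 1) * (-1) ^ j) := by
    have b1 : 2 * k - 1 - (k - 1 - j) = (k - 1) + j + 1 := by omega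
    rw [b1, pow_succ, pow_add]
    ring
  rw [a1, a2, a3, a4, a5]
  ring

theorem hExi (h1 : StCk) : StExi := by
  intro k P x hk hP
  obtain ⟨hN, -, hsum, -⟩ := h1 k hk
  set p : Polynomial ℝ := P.comp (Polynomial.X + Polynomial.C (x + 1 / 2)) with hp
  have hpe : ∀ t : ℝ, p.eval t = P.eval (t + (x + 1 / 2)) := by
    intro t
    rw [hp, Polynomial.eval_comp]
    simp
  have hpd : p.natDegree ≤ 2 * k - 1 := by
    rw [hp, Polynomial.natDegree_comp, Polynomial.natDegree_X_add_C, mul_one]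
    exact hP
  have hdeg : p.divX.natDegree < 2 * k - 1 := by
    rw [Polynomial.natDegree_divX_eq_natDegree_tsub_one]
    omega
  have hx : ∀ t : ℝ, p.eval t = p.divX.eval t * t + p.eval 0 := by
    intro t
    rw [← Polynomial.coeff_zero_eq_eval_zero]
    conv_lhs => rw [← Polynomial.divX_mul_X_add p]
    simp
  have halt := alt_Exi k hk p.divX hdeg
  have e0 : P.eval (x + 1 / 2) = p.eval 0 := by
    rw [hpe, zero_add]
  rw [e0, icc_Exi]
  rw [icc_Exi] at hsum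
  have e1 : ∀ j ∈ Finset.range k, ck k (j + 1) * (P.eval (x + ((j + 1 : ℕ) : ℝ)) + P.eval (x + 1 - ((j + 1 : ℕ) : ℝ))) =
      2 * p.eval 0 * ck k (j + 1) + (1 / (4 * Nk k)) * ((-1 : ℝ) ^ j * ((2 * k - 1).choose (k + j) : ℝ) *
      (p.divX.eval ((j : ℝ) + 1 / 2) - p.divX.eval (-((j : ℝ) + 1 / 2)))) := by
    intro j _
    have c1 : P.eval (x + ((j + 1 : ℕ) : ℝ)) = p.eval ((j : ℝ) + 1 / 2) := by
      rw [hpe]; congr 1; push_cast; ring
    have c2 : P.eval (x + 1 - ((j + 1 : ℕ) : ℝ)) = p.eval (-((j : ℝ) + 1 / 2)) := by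
      rw [hpe]; congr 1; push_cast; ring
    have c3 : ck k (j + 1) * ((j : ℝ) + 1 / 2) = (1 / (4 * Nk k)) * ((-1 : ℝ) ^ j * ((2 * k - 1).choose (k + j) : ℝ)) := by
      unfold ck
      have d1 : k + (j + 1) - 1 = k + j := by omega
      have d2 : (2 * ((j + 1 : ℕ) : ℝ) - 1) ≠ 0 := by
        push_cast
        have : (0 : ℝ) ≤ j := Nat.cast_nonneg j
        linarith
      have d3 : (-1 : ℝ) ^ (j + 1 + 1) = (-1) ^ j := by
        rw [pow_succ, pow_succ]; ring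
      rw [d1, d3]
      have hN' : Nk k ≠ 0 := hN.ne'
      field_simp
      push_cast
      ring
    rw [c1, c2, hx ((j : ℝ) + 1 / 2), hx (-((j : ℝ) + 1 / 2))]
    linear_combination (p.divX.eval ((j : ℝ) + 1 / 2) - p.divX.eval (-((j : ℝ) + 1 / 2))) * c3
  rw [Finset.sum_congr rfl e1, Finset.sum_add_distrib, ← Finset.mul_sum, ← Finset.mul_sum, halt, hsum]
  ring

end Helper83.TH
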