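import Pool.Agent.Helper83.TH.St

set_option autoImplicit false

namespace Helper83.TH

open Set Filter Topology

private lemma small_Frd (a : ℝ) (ha : 0 < a) : ∃ e1 > 0, ∀ ε : ℝ, 0 < ε → ε < e1 →
    Real.exp (-(a / Real.sqrt ε)) ≤ ε := by
  refine ⟨(a ^ 3 / 6) ^ 2, by positivity, fun ε hε hε1 => ?_⟩
  set x := Real.sqrt ε with hx
  have hx0 : 0 < x := Real.sqrt_pos.2 hε
  have hx2 : x ^ 2 = ε := Real.sq_sqrt hε.le
  have hxA : x ≤ a ^ 3 / 6 := by
    by_contra hcon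
    have := pow_lt_pow_left₀ (not_le.1 hcon) (by positivity) (n := 2) (by norm_num)
    linarith
  have h := Real.pow_div_factorial_le_exp (a / x) (by positivity) 3
  have h5 : ((Nat.factorial 3 : ℕ) : ℝ) = 6 := by norm_num [Nat.factorial]
  rw [h5] at h
  rw [Real.exp_neg, inv_le_comm₀ (Real.exp_pos _) hε]
  refine le_trans ?_ h
  rw [← hx2, div_pow, div_div, inv_eq_one_div, div_le_div_iff₀ (by positivity) (by positivity)]
  have : x ^ 3 = x * x ^ 2 := by ring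
  rw [this]
  have h4 : 0 < x ^ 2 := by positivity
  nlinarith

theorem hFrd : StFrd := by
  intro S a ε0 ha hε0 hS hC
  obtain ⟨γ, t, hγ, hγ', hγt, hloc⟩ := hC
  obtain ⟨e1, he1, hsm⟩ := small_Frd a ha
  have hstr : HasStrictDerivAt γ (deriv γ t) t := hγ.hasStrictDerivAt (by norm_num)
  have h1 : HasStrictDerivAt (fun s => (γ s).1) (deriv γ t).1 t := hstr.fst
  have h2 : HasStrictDerivAt (fun s => (γ s).2) (deriv γ t).2 t := hstr.snd
  -- points of `S` in a small neighbourhood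
  have key : ∀ V ∈ 𝓝 t, ∃ ε : ℝ, 0 < ε ∧ Real.exp (-(a / Real.sqrt ε)) ≤ ε ∧ ∃ b1 b2 : ℝ, b1 < -1 ∧
      -1 < b2 ∧ -1 - b1 ≤ Real.exp (-(a / Real.sqrt ε)) ∧
      (∃ s ∈ V, γ s = (b1, -ε)) ∧ ∃ s ∈ V, γ s = (b2, -ε) := by
    intro V hV
    obtain ⟨U, hU, hSU⟩ := hloc V hV
    obtain ⟨r, hr, hball⟩ := Metric.mem_nhds_iff.1 hU
    set ε := min (ε0 / 2) (min (e1 / 2) (r / 2)) with hε
    have hεpos : 0 < ε := by positivity
    have hεε0 : ε < ε0 := lt_of_le_of_lt (min_le_left _ _) (by linarith)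
    have hεe1 : ε < e1 := lt_of_le_of_lt ((min_le_right _ _).trans (min_le_left _ _)) (by linarith)
    have hεr : ε < r := lt_of_le_of_lt ((min_le_right _ _).trans (min_le_right _ _)) (by linarith)
    obtain ⟨b1, b2, hb1, hb2, hs1, hs2, hx1, hx2⟩ := hS ε ⟨hεpos, hεε0⟩
    have hex := hsm ε hεpos hεe1
    have hin : ∀ b : ℝ, |b + 1| ≤ ε → (b, -ε) ∈ U := by
      intro b hb
      apply hball
      rw [Metric.mem_ball, Prod.dist_eq, max_lt_iff, Real.dist_eq, Real.dist_eq]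
      refine ⟨?_, ?_⟩
      · change |b - -1| < r
        rw [sub_neg_eq_add]
        exact lt_of_le_of_lt hb hεr
      · change |-ε - 0| < r
        rw [sub_zero, abs_neg, abs_of_pos hεpos]
        exact hεr
    have hu1 : (b1, -ε) ∈ U := hin b1 (by rw [abs_of_neg (by linarith)]; linarith)
    have hu2 : (b2, -ε) ∈ U := hin b2 (by rw [abs_of_pos (by linarith)]; linarith)
    obtain ⟨s1, hsV1, hg1⟩ := hSU ⟨hs1, hu1⟩
    obtain ⟨s2, hsV2, hg2⟩ := hSU ⟨hs2, hu2⟩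
    exact ⟨ε, hεpos, hex, b1, b2, hb1, hb2, hx1, ⟨s1, hsV1, hg1⟩, ⟨s2, hsV2, hg2⟩⟩
  by_cases hz : (deriv γ t).2 = 0
  · have hk : (deriv γ t).1 ≠ 0 := by
      intro h0
      exact hγ' (Prod.ext h0 hz)
    set k := (deriv γ t).1 with hkd
    have hkp : 0 < |k| := abs_pos.2 hk
    rw [hz] at h2
    have e2 : ∀ᶠ s in 𝓝 t, ‖(γ s).2 - (γ t).2 - (s - t) • (0 : ℝ)‖ ≤ |k| / 4 * ‖s - t‖ :=
      (hasDerivAt_iff_isLittleO.1 h2.hasDerivAt).def (by positivity)
    have e1' : ∀ᶠ s in 𝓝 t, ‖(γ s).1 - (γ t).1 - (s - t) • k‖ ≤ |k| / 4 * ‖s - t‖ :=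
      (hasDerivAt_iff_isLittleO.1 h1.hasDerivAt).def (by positivity)
    obtain ⟨ε, hε, hex, b1, b2, hb1, hb2, hx1, ⟨s, hsV, hgs⟩, -⟩ := key _ (e2.and e1')
    obtain ⟨q2, q1⟩ := hsV
    rw [hgs, hγt] at q1 q2
    simp only [smul_eq_mul, mul_zero, sub_zero, Real.norm_eq_abs] at q1 q2
    have r1 : |(s - t) * k| ≤ |b1 - -1| + |b1 - -1 - (s - t) * k| := by
      have h := abs_sub (b1 - -1) (b1 - -1 - (s - t) * k)
      rwa [sub_sub_cancel] at h
    rw [abs_mul] at r1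
    have r2 : |-ε| = ε := by
      rw [abs_neg, abs_of_pos hε]
    rw [r2] at q2
    have r3 : |b1 - -1| = -1 - b1 := by rw [abs_of_neg (by linarith)]; ring
    rw [r3] at r1
    nlinarith
  · have hEq := (h2.hasStrictFDerivAt_equiv hz).eventually_left_inverse
    obtain ⟨ε, hε, hex, b1, b2, hb1, hb2, hx1, ⟨s1, hs1, hg1⟩, ⟨s2, hs2, hg2⟩⟩ := key _ hEq
    have hs1' : HasStrictFDerivAt.localInverse (fun s => (γ s).2) _ t
      (h2.hasStrictFDerivAt_equiv hz) (γ s1).2 = s1 := hs1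
    have hs2' : HasStrictFDerivAt.localInverse (fun s => (γ s).2) _ t
      (h2.hasStrictFDerivAt_equiv hz) (γ s2).2 = s2 := hs2
    rw [hg1] at hs1'
    rw [hg2] at hs2'
    have hss : s1 = s2 := hs1'.symm.trans hs2'
    rw [hss, hg2] at hg1
    have := congrArg Prod.fst hg1
    simp only at this
    linarith

end Helper83.TH
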