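import Pool.Agent.Helper83.TH.St

/-!
Module Ge2 of project TH (MP_b39980_an).
-/

set_option autoImplicit false

open Set Filter Topology
open Helper85.HN (hen Orb Bd KK E0 dl ak)

namespace Helper83.TH

private theorem cnt_sub_Ge2 {N : ℕ} (w : ℕ → Fin N) (c n r : ℕ) (hr : r < 2)
    (hc : ∀ n : ℕ, ((Finset.range n).filter (fun i => w (i + 2) ≠ w i)).card ≤ c) :
    ((Finset.range n).filter (fun j => (fun j => w (2 * j + r)) (j + 1) ≠ (fun j => w (2 * j + r)) j)).card ≤ c := by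
  refine le_trans (Finset.card_le_card_of_injOn (fun j => 2 * j + r) ?_ ?_) (hc (2 * n))
  · intro j hj
    have hj' := Finset.mem_filter.1 (Finset.mem_coe.1 hj)
    apply Finset.mem_coe.2
    rw [Finset.mem_filter, Finset.mem_range]
    have h1 := Finset.mem_range.1 hj'.1
    refine ⟨by show 2 * j + r < 2 * n; omega, ?_⟩
    have h2 := hj'.2
    have e : 2 * j + r + 2 = 2 * (j + 1) + r := by ring
    show w (2 * j + r + 2) ≠ w (2 * j + r)
    rw [e]
    exact h2
  · intro j _ j' _ h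
    have h' : 2 * j + r = 2 * j' + r := h
    omega

theorem hGe2 (h1 : Helper85.HN.StCnt) (h2 : Helper85.HN.StPoly) (h3 : StIt2) : StGe2 := by
  classical
  intro f K ρ C0 hf hK hm hρ hρ0 heq hfin hsum
  apply h2 f K hm
  intro U hU
  obtain ⟨N, c, A, hA, hx⟩ := h3 f K ρ C0 hf hK hm hρ hρ0 heq hfin hsum U hU
  refine ⟨(N ^ (c + 1)) ^ 2, c * 2, fun n => ?_⟩
  obtain ⟨W, hWc, hW⟩ := h1 N c n
  let comb : (ℕ → Fin N) × (ℕ → Fin N) → ℕ → Fin N := fun p i =>
    if i % 2 = 0 then p.1 (i / 2) else p.2 (i / 2)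
  let g : (ℕ → Fin N) → ℝ × ℝ := fun w' =>
    if h : ∃ y, y ∈ K ∧ ∀ i ≤ n, f^[i] y ∈ A (w' i) then h.choose else (0, 0)
  let s : Finset (ℝ × ℝ) := (W ×ˢ W).image (fun p => g (comb p))
  have hcov : Dynamics.IsDynCoverOf f K U n (s : Set (ℝ × ℝ)) := by
    intro x hxK
    obtain ⟨w, hw, hc⟩ := hx x hxK
    obtain ⟨we, heW, he⟩ := hW (fun j => w (2 * j + 0)) (cnt_sub_Ge2 w c n 0 (by norm_num) hc)
    obtain ⟨wo, hoW, ho⟩ := hW (fun j => w (2 * j + 1)) (cnt_sub_Ge2 w c n 1 (by norm_num) hc)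
    have hcomb : ∀ i ≤ n, comb (we, wo) i = w i := by
      intro i hi
      by_cases hi2 : i % 2 = 0
      · have e1 : comb (we, wo) i = we (i / 2) := if_pos hi2
        rw [e1, he (i / 2) (by omega)]
        show w (2 * (i / 2) + 0) = w i
        congr 1
        omega
      · have e1 : comb (we, wo) i = wo (i / 2) := if_neg hi2
        rw [e1, ho (i / 2) (by omega)]
        show w (2 * (i / 2) + 1) = w i
        congr 1
        omega
    have hex : ∃ y, y ∈ K ∧ ∀ i ≤ n, f^[i] y ∈ A (comb (we, wo) i) :=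
      ⟨x, hxK, fun i hi => by rw [hcomb i hi]; exact hw i⟩
    refine ⟨g (comb (we, wo)), ?_, ?_⟩
    · exact Finset.mem_coe.mpr (Finset.mem_image_of_mem (fun p => g (comb p))
        (Finset.mem_product.2 ⟨heW, hoW⟩ : (we, wo) ∈ W ×ˢ W))
    · show (x, g (comb (we, wo))) ∈ Dynamics.dynEntourage f U n
      rw [Dynamics.mem_dynEntourage]
      intro k hk
      have hg : f^[k] (g (comb (we, wo))) ∈ A (comb (we, wo) k) := by
        simp only [g, dif_pos hex]
        exact hex.choose_spec.2 k hk.le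
      exact hA (comb (we, wo) k) _ (by rw [hcomb k hk.le]; exact hw k) _ hg
  refine hcov.coverMincard_le_card.trans ?_
  have hcard : s.card ≤ (N ^ (c + 1)) ^ 2 * (n + 1) ^ (c * 2) := by
    calc s.card ≤ (W ×ˢ W).card := Finset.card_image_le
      _ = W.card * W.card := Finset.card_product _ _
      _ ≤ (N ^ (c + 1) * (n + 1) ^ c) * (N ^ (c + 1) * (n + 1) ^ c) := Nat.mul_le_mul hWc hWc
      _ = (N ^ (c + 1)) ^ 2 * (n + 1) ^ (c * 2) := by ring
  exact_mod_cast hcard

end Helper83.TH
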