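import Pool.Agent.Helper83.TH.St

/-!
# MP_b39980_an, project TH, module Gl: global bounds of all differences
-/

set_option autoImplicit false

open Set Filter Topology
open Helper85.HN (hen Orb Bd KK E0 dl ak)

namespace Helper83.TH

/-- the recurrence for the first differences -/
private theorem one_Gl (θ h : ℝ) (y : ℤ → ℝ) (hY : Ye θ h y) (n : ℤ) :
    dd 1 y n = 0 + h * ((y (n + 1) * y (n + 1) + (-1) * 1) + θ * (y (n + 1) + (-1) * y n)) := by
  have h1 := hY (n + 1)
  have e1 : n + 1 - 1 = n := by ring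
  have e2 : n + 1 + 1 = n + 2 := by ring
  rw [e1, e2] at h1
  have e3 : dd 1 y n = y (n + 2) - y n := rfl
  rw [e3, h1]
  ring

/-- the bound of the differences of the square -/
private theorem sq_Gl (h1 : StDd) (h : ℝ) (y : ℤ → ℝ) (m : ℕ)
    (hb : ∀ j ≤ m, ∀ n, |dd j y n| ≤ 7 * (j.factorial : ℝ) * (42 * h) ^ j) (n : ℤ) :
    |dd m (fun i => y i * y i) n| ≤ 49 * ((m + 1).factorial : ℝ) * (42 * h) ^ m := by
  rw [h1.2.1 m y y n]
  have hs : ∀ j ∈ Finset.range (m + 1),
      |(m.choose j : ℝ) * dd j y (n + 2 * ((m - j : ℕ) : ℤ)) * dd (m - j) y n|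
        ≤ 49 * (m.factorial : ℝ) * (42 * h) ^ m := by
    intro j hj
    have hj' : j ≤ m := Nat.lt_succ_iff.1 (Finset.mem_range.1 hj)
    have a1 := hb j hj' (n + 2 * ((m - j : ℕ) : ℤ))
    have a2 := hb (m - j) (Nat.sub_le m j) n
    rw [abs_mul, abs_mul, Nat.abs_cast]
    have hc : (0 : ℝ) ≤ (m.choose j : ℝ) := Nat.cast_nonneg _
    calc (m.choose j : ℝ) * |dd j y (n + 2 * ((m - j : ℕ) : ℤ))| * |dd (m - j) y n|
        = (m.choose j : ℝ) * (|dd j y (n + 2 * ((m - j : ℕ) : ℤ))| * |dd (m - j) y n|) := by ring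
      _ ≤ (m.choose j : ℝ) * ((7 * (j.factorial : ℝ) * (42 * h) ^ j) *
            (7 * ((m - j).factorial : ℝ) * (42 * h) ^ (m - j))) :=
          mul_le_mul_of_nonneg_left
            (mul_le_mul a1 a2 (abs_nonneg _) ((abs_nonneg _).trans a1)) hc
      _ = 49 * ((m.choose j : ℝ) * (j.factorial : ℝ) * ((m - j).factorial : ℝ)) *
            ((42 * h) ^ j * (42 * h) ^ (m - j)) := by ring
      _ = 49 * (m.factorial : ℝ) * (42 * h) ^ m := by
          rw [← pow_add, Nat.add_sub_cancel' hj']
          have := Nat.choose_mul_factorial_mul_factorial hj'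
          rw [← this]
          push_cast
          ring
  calc |∑ j ∈ Finset.range (m + 1), (m.choose j : ℝ) * dd j y (n + 2 * ((m - j : ℕ) : ℤ)) * dd (m - j) y n|
      ≤ ∑ j ∈ Finset.range (m + 1), |(m.choose j : ℝ) * dd j y (n + 2 * ((m - j : ℕ) : ℤ)) * dd (m - j) y n| :=
        Finset.abs_sum_le_sum_abs _ _
    _ ≤ ∑ _j ∈ Finset.range (m + 1), 49 * (m.factorial : ℝ) * (42 * h) ^ m := Finset.sum_le_sum hs
    _ = 49 * ((m + 1).factorial : ℝ) * (42 * h) ^ m := by
        rw [Finset.sum_const, Finset.card_range, nsmul_eq_mul, Nat.factorial_succ]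
        push_cast
        ring

theorem hGl (h1 : StDd) : StGl := by
  intro θ h y h0 h100 hθ0 hθ1 hY hy m
  induction m using Nat.strong_induction_on with
  | _ m ih =>
    intro n
    match m, ih with
    | 0, _ =>
      have : dd 0 y n = y n := rfl
      rw [this]
      simpa using hy n
    | 1, _ =>
      rw [one_Gl θ h y hY n, zero_add, abs_mul, abs_of_pos h0]
      have a1 : |y (n + 1) * y (n + 1) + (-1) * 1| ≤ 50 := by
        have hsq : y (n + 1) * y (n + 1) ≤ 49 := by
          rw [← abs_mul_abs_self (y (n + 1))]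
          calc |y (n + 1)| * |y (n + 1)| ≤ 7 * 7 :=
                mul_le_mul (hy _) (hy _) (abs_nonneg _) (by norm_num)
            _ = 49 := by norm_num
        have hsq0 : 0 ≤ y (n + 1) * y (n + 1) := mul_self_nonneg _
        rw [abs_le]
        constructor <;> linarith
      have a2 : |θ * (y (n + 1) + (-1) * y n)| ≤ 16 * 14 := by
        rw [abs_mul, abs_of_nonneg hθ0]
        have : |y (n + 1) + (-1) * y n| ≤ 14 := by
          have b1 := abs_le.1 (hy (n + 1))
          have b2 := abs_le.1 (hy n)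
          rw [abs_le]
          constructor <;> linarith [b1.1, b1.2, b2.1, b2.2]
        exact mul_le_mul hθ1 this (abs_nonneg _) (by norm_num)
      calc h * |y (n + 1) * y (n + 1) + (-1) * 1 + θ * (y (n + 1) + (-1) * y n)|
          ≤ h * (50 + 16 * 14) :=
            mul_le_mul_of_nonneg_left ((abs_add_le _ _).trans (add_le_add a1 a2)) h0.le
        _ ≤ 7 * ((1 : ℕ).factorial : ℝ) * (42 * h) ^ 1 := by
            norm_num [Nat.factorial]
            linarith
    | m + 2, ih =>
      obtain ⟨hL1, hL2, hL3, hL4, hL5, hL6⟩ := h1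
      have e0 : dd (m + 2) y n = dd (m + 1) (dd 1 y) n := by
        rw [hL5 (m + 1) 1 y n]
      have e1 : dd 1 y = fun i => (fun _ : ℤ => (0 : ℝ)) i + h *
          (fun i => (fun i => y (i + 1) * y (i + 1) + (-1) * (fun _ : ℤ => (1 : ℝ)) i) i
            + θ * (fun i => y (i + 1) + (-1) * y i) i) i := by
        funext i
        exact one_Gl θ h y hY i
      have e2 : dd (m + 2) y n = h * (dd (m + 1) (fun i => y i * y i) (n + 1)
          + θ * (dd (m + 1) y (n + 1) + (-1) * dd (m + 1) y n)) := by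
        have f1 := hL3 (m + 1) (fun _ : ℤ => (0 : ℝ))
          (fun i => (fun i => y (i + 1) * y (i + 1) + (-1) * (fun _ : ℤ => (1 : ℝ)) i) i
            + θ * (fun i => y (i + 1) + (-1) * y i) i) h n
        have f2 := hL3 (m + 1) (fun i => y (i + 1) * y (i + 1) + (-1) * (fun _ : ℤ => (1 : ℝ)) i)
          (fun i => y (i + 1) + (-1) * y i) θ n
        have f3 := hL3 (m + 1) (fun i => y (i + 1) * y (i + 1)) (fun _ : ℤ => (1 : ℝ)) (-1) n
        have f4 := hL3 (m + 1) (fun i => y (i + 1)) y (-1) n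
        have g1 := hL4 (m + 1) 0 n (by omega)
        have g2 := hL4 (m + 1) 1 n (by omega)
        have g3 := hL6 (m + 1) (fun i => y i * y i) 1 n
        have g4 := hL6 (m + 1) y 1 n
        rw [e0, e1, f1, f2, f3, f4, g1, g2, g4, ← g3]
        ring
      rw [e2]
      have a1 := sq_Gl ⟨hL1, hL2, hL3, hL4, hL5, hL6⟩ h y (m + 1)
        (fun j hj n => ih j (by omega) n) (n + 1)
      have b1 := ih (m + 1) (by omega) (n + 1)
      have b2 := ih (m + 1) (by omega) n
      have a2 : |θ * (dd (m + 1) y (n + 1) + (-1) * dd (m + 1) y n)| ≤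
          16 * (2 * (7 * ((m + 1).factorial : ℝ) * (42 * h) ^ (m + 1))) := by
        rw [abs_mul, abs_of_nonneg hθ0]
        have : |dd (m + 1) y (n + 1) + (-1) * dd (m + 1) y n| ≤
            2 * (7 * ((m + 1).factorial : ℝ) * (42 * h) ^ (m + 1)) := by
          have c1 := abs_le.1 b1
          have c2 := abs_le.1 b2
          rw [abs_le]
          constructor <;> linarith [c1.1, c1.2, c2.1, c2.2]
        exact mul_le_mul hθ1 this (abs_nonneg _) (by norm_num)
      have hf : 2 * ((m + 1).factorial : ℝ) ≤ ((m + 2).factorial : ℝ) := by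
        rw [Nat.factorial_succ (m + 1)]
        push_cast
        have h5 : (0 : ℝ) ≤ ((m + 1).factorial : ℝ) := Nat.cast_nonneg _
        have hm : (0 : ℝ) ≤ (m : ℝ) := Nat.cast_nonneg _
        nlinarith
      have hp : (0 : ℝ) ≤ (42 * h) ^ (m + 1) := by positivity
      rw [abs_mul, abs_of_pos h0]
      calc h * |dd (m + 1) (fun i => y i * y i) (n + 1)
            + θ * (dd (m + 1) y (n + 1) + (-1) * dd (m + 1) y n)|
          ≤ h * (49 * ((m + 1 + 1).factorial : ℝ) * (42 * h) ^ (m + 1)
            + 16 * (2 * (7 * ((m + 1).factorial : ℝ) * (42 * h) ^ (m + 1)))) :=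
            mul_le_mul_of_nonneg_left ((abs_add_le _ _).trans (add_le_add a1 a2)) h0.le
        _ = h * (42 * h) ^ (m + 1) * (49 * ((m + 2).factorial : ℝ)
            + 112 * (2 * ((m + 1).factorial : ℝ))) := by
            rw [show m + 1 + 1 = m + 2 by ring]
            ring
        _ ≤ h * (42 * h) ^ (m + 1) * (49 * ((m + 2).factorial : ℝ)
            + 112 * ((m + 2).factorial : ℝ)) := by
            apply mul_le_mul_of_nonneg_left _ (mul_nonneg h0.le hp)
            linarith
        _ = 161 * (((m + 2).factorial : ℝ) * (h * (42 * h) ^ (m + 1))) := by ring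
        _ ≤ 294 * (((m + 2).factorial : ℝ) * (h * (42 * h) ^ (m + 1))) := by
            apply mul_le_mul_of_nonneg_right (by norm_num)
            exact mul_nonneg (Nat.cast_nonneg _) (mul_nonneg h0.le hp)
        _ = 7 * ((m + 2).factorial : ℝ) * (42 * h) ^ (m + 2) := by
            rw [show (42 * h) ^ (m + 2) = (42 * h) ^ (m + 1) * (42 * h) by rw [← pow_succ]]
            ring

end Helper83.TH
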