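import Pool.Agent.Helper83.TH.St

/-!
# MP_b39980_an, project TH, module Gro: the growth of `Lf`
-/

set_option autoImplicit false

open Set Filter Topology
open Helper85.HN (hen Orb Bd KK E0 dl ak)

namespace Helper83.TH

private lemma alg_Gro (θ h B s ϑ β α DA DB EE ea eb R et L' L : ℝ)
    (hh : 0 < h) (hh1 : h ≤ 1 / 10 ^ 18) (hθ : 0 < θ) (hθ1 : θ ≤ 16) (het : 0 ≤ et)
    (hR : 0 ≤ R) (hR1 : R ≤ 1100 * h) (hs : |s| ≤ 24) (hϑ : h * |ϑ| ≤ 1 / 10 ^ 14 * R)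
    (hϑ1 : |ϑ| ≤ 1) (hβ : |β| ≤ R) (hα : |α| ≤ R) (hDA : |DA| ≤ 2 * R) (hDB : |DB| ≤ 2 * R)
    (hEE : |EE| ≤ et * R ^ 2 / 4) (hea : |ea| ≤ h * (et * R ^ 2 / 4) / 2)
    (heb : |eb| ≤ h * (et * R ^ 2 / 4) / 2)
    (hid : L' - L = -θ * h ^ 2 * (2 * B * s - θ * β) * (2 * s + ϑ) + θ * h * eb * (2 * s + ϑ)
      - h * θ * α * DB - ea * DB + eb * DA + h * EE) :
    |L' - L + 4 * θ * h ^ 2 * B * s ^ 2| ≤ 1 / 10 ^ 10 * θ * h * (|B| * |s|) * R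
      + 3 * θ ^ 2 * h ^ 2 * |s| * R + 4 * θ * h * R ^ 2 + h * et * R ^ 2 := by
  have hθh : 0 < θ * h := mul_pos hθ hh
  have hQ : 0 ≤ h * et * R ^ 2 := by positivity
  have hP : 0 ≤ θ * h * R ^ 2 := by positivity
  have hCA : |2 * s + ϑ| ≤ 49 := by
    calc |2 * s + ϑ| ≤ |2 * s| + |ϑ| := abs_add_le _ _
      _ = 2 * |s| + |ϑ| := by rw [abs_mul]; norm_num
      _ ≤ 49 := by linarith
  -- the eight terms
  have e1 : |2 * θ * h ^ 2 * B * s * ϑ| ≤ 1 / 10 ^ 10 * θ * h * (|B| * |s|) * R := by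
    have : |2 * θ * h ^ 2 * B * s * ϑ| = 2 * (θ * h) * (|B| * |s|) * (h * |ϑ|) := by
      rw [abs_mul, abs_mul, abs_mul, abs_mul, abs_mul]
      rw [abs_of_pos hθ, abs_of_pos (show (0 : ℝ) < h ^ 2 by positivity),
        abs_of_pos (show (0 : ℝ) < 2 by norm_num)]
      ring
    rw [this]
    calc 2 * (θ * h) * (|B| * |s|) * (h * |ϑ|)
        ≤ 2 * (θ * h) * (|B| * |s|) * (1 / 10 ^ 14 * R) := by gcongr
      _ = (2 / 10 ^ 14) * (θ * h * (|B| * |s|) * R) := by ring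
      _ ≤ (1 / 10 ^ 10) * (θ * h * (|B| * |s|) * R) := by
          apply mul_le_mul_of_nonneg_right _ (by positivity)
          norm_num
      _ = 1 / 10 ^ 10 * θ * h * (|B| * |s|) * R := by ring
  have e2 : |2 * θ ^ 2 * h ^ 2 * s * β| ≤ 2 * θ ^ 2 * h ^ 2 * |s| * R := by
    rw [abs_mul, abs_mul]
    rw [abs_of_pos (show (0 : ℝ) < 2 * θ ^ 2 * h ^ 2 by positivity)]
    gcongr
  have e2' : 2 * θ ^ 2 * h ^ 2 * |s| * R ≤ 3 * θ ^ 2 * h ^ 2 * |s| * R := by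
    have : 0 ≤ θ ^ 2 * h ^ 2 * |s| * R := by positivity
    linarith
  have e3 : |θ ^ 2 * h ^ 2 * β * ϑ| ≤ θ * h * R ^ 2 := by
    have : |θ ^ 2 * h ^ 2 * β * ϑ| = θ * (θ * h) * |β| * (h * |ϑ|) := by
      rw [abs_mul, abs_mul]
      rw [abs_of_pos (show (0 : ℝ) < θ ^ 2 * h ^ 2 by positivity)]
      ring
    rw [this]
    calc θ * (θ * h) * |β| * (h * |ϑ|) ≤ 16 * (θ * h) * R * (1 / 10 ^ 14 * R) := by gcongr
      _ = (16 / 10 ^ 14) * (θ * h * R ^ 2) := by ring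
      _ ≤ 1 * (θ * h * R ^ 2) := by
          apply mul_le_mul_of_nonneg_right _ hP
          norm_num
      _ = θ * h * R ^ 2 := by ring
  have hR10 : R ≤ 1 / 10 ^ 4 := by
    calc R ≤ 1100 * h := hR1
      _ ≤ 1100 * (1 / 10 ^ 18) := by linarith
      _ ≤ 1 / 10 ^ 4 := by norm_num
  have e4 : |θ * h * eb * (2 * s + ϑ)| ≤ 1 / 10 * (h * et * R ^ 2) := by
    rw [abs_mul, abs_mul, abs_of_pos hθh]
    have h16 : θ * h ≤ 16 * (1 / 10 ^ 18) := by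
      calc θ * h ≤ 16 * h := by gcongr
        _ ≤ 16 * (1 / 10 ^ 18) := by linarith
    calc θ * h * |eb| * |2 * s + ϑ| ≤ (16 * (1 / 10 ^ 18)) * (h * (et * R ^ 2 / 4) / 2) * 49 := by
          gcongr
      _ = (16 * (1 / 10 ^ 18) * 49 / 8) * (h * et * R ^ 2) := by ring
      _ ≤ 1 / 10 * (h * et * R ^ 2) := by
          apply mul_le_mul_of_nonneg_right _ hQ
          norm_num
  have e5 : |h * θ * α * DB| ≤ 2 * θ * h * R ^ 2 := by
    rw [abs_mul, abs_mul, abs_of_pos (show 0 < h * θ by positivity)]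
    calc h * θ * |α| * |DB| ≤ h * θ * R * (2 * R) := by gcongr
      _ = 2 * θ * h * R ^ 2 := by ring
  have e6 : |ea * DB| ≤ 1 / 10 * (h * et * R ^ 2) := by
    rw [abs_mul]
    calc |ea| * |DB| ≤ (h * (et * R ^ 2 / 4) / 2) * (2 * R) := by gcongr
      _ = (R / 4) * (h * et * R ^ 2) := by ring
      _ ≤ 1 / 10 * (h * et * R ^ 2) := by
          apply mul_le_mul_of_nonneg_right _ hQ
          linarith
  have e7 : |eb * DA| ≤ 1 / 10 * (h * et * R ^ 2) := by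
    rw [abs_mul]
    calc |eb| * |DA| ≤ (h * (et * R ^ 2 / 4) / 2) * (2 * R) := by gcongr
      _ = (R / 4) * (h * et * R ^ 2) := by ring
      _ ≤ 1 / 10 * (h * et * R ^ 2) := by
          apply mul_le_mul_of_nonneg_right _ hQ
          linarith
  have e8 : |h * EE| ≤ 1 / 4 * (h * et * R ^ 2) := by
    rw [abs_mul, abs_of_pos hh]
    calc h * |EE| ≤ h * (et * R ^ 2 / 4) := by gcongr
      _ = 1 / 4 * (h * et * R ^ 2) := by ring
  have key : L' - L + 4 * θ * h ^ 2 * B * s ^ 2 =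
      -(2 * θ * h ^ 2 * B * s * ϑ) + 2 * θ ^ 2 * h ^ 2 * s * β + θ ^ 2 * h ^ 2 * β * ϑ
        + θ * h * eb * (2 * s + ϑ) - h * θ * α * DB - ea * DB + eb * DA + h * EE := by
    rw [hid]; ring
  rw [key]
  have a1 := abs_le.1 e1
  have a2 := abs_le.1 (e2.trans e2')
  have a3 := abs_le.1 e3
  have a4 := abs_le.1 e4
  have a5 := abs_le.1 e5
  have a6 := abs_le.1 e6
  have a7 := abs_le.1 e7
  have a8 := abs_le.1 e8
  rw [abs_le]
  constructor <;> linarith [a1.1, a1.2, a2.1, a2.2, a3.1, a3.2, a4.1, a4.2, a5.1, a5.2, a6.1, a6.2,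
    a7.1, a7.2, a8.1, a8.2]

theorem hGro (h1 : StAp) (h2 : StGl) (h3 : StReg) (h4 : StCk) (h5 : StE1) (h6 : StE3)
    (h7 : StEqs) (h8 : StSh) (h9 : StAb) (h10 : StDb) (h11 : StCal) (h12 : StIdn) : StGro := by
  intro l θ h y hHyp hY hBd n
  obtain ⟨hl, hh, hh1, hθ, hθ1, hkh, het⟩ := hHyp
  have hθh : θ * h ≤ 1 / 200 := by
    calc θ * h ≤ 16 * (1 / 10 ^ 18) := by gcongr
      _ ≤ 1 / 200 := by norm_num
  have hap := h1 θ h y hh (hh1.trans (by norm_num)) hθ hθh hY hBd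
  have hl1 : (1 : ℝ) ≤ (l : ℝ) := by exact_mod_cast hl
  obtain ⟨k, hk⟩ : ∃ k : ℕ, k = 3 * l := ⟨_, rfl⟩
  have hkR : (k : ℝ) = 3 * (l : ℝ) := by rw [hk]; push_cast; ring
  have hkZ : (k : ℤ) = 3 * (l : ℤ) := by rw [hk]; push_cast; ring
  have hk3 : 3 ≤ k := by omega
  rw [← hkR] at hkh
  have hk6 : 10 ^ 6 * (k : ℝ) * h ≤ 1 := by
    have : 0 ≤ (k : ℝ) * h := by positivity
    linarith [this, hkh]
  obtain ⟨hReg, hR0, hR1⟩ := h3 θ h y k hh (hh1.trans (by norm_num)) hθ.le hθ1 hk6 hY hap n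
  obtain ⟨R, hRdef⟩ : ∃ R, R = RR y n := ⟨_, rfl⟩
  rw [← hRdef] at hReg hR0 hR1
  have hReg' : Reg (12 * (l : ℤ) + 1) h R y n := by
    intro m i hm hi1 hi2
    apply hReg m i hm
    · rw [hkZ]; omega
    · rw [hkZ]; omega
  have hk6' : 10 ^ 6 * (3 * (l : ℝ)) * h ≤ 1 := by rw [← hkR]; exact hk6
  have hab := h9 k θ h y (by omega) hh (hh1.trans (by norm_num)) hθ.le hθ1 hk6 hY hap n
  have hE1 := h5 l y n R h hl hR0 hh hk6' hReg'
  rw [← hk] at hE1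
  have hE3 := h6 l y n R h hl hR0 (by linarith) hh hk6' hReg'
    (by rw [← hk]; linarith [hab.1]) (by rw [← hk]; linarith [hab.2])
  rw [← hk] at hE3
  obtain ⟨q1, q2, q3⟩ := h7 k θ h y n (h4 k (by omega)).2.2.1 hY
  obtain ⟨⟨s1, s2, s3, s4⟩, s5, -, -⟩ := h8 k y n R h hk3 hR0 hh hh1 hk6 hReg
  rw [← hk, ← hRdef]
  -- numerical facts
  have hu : (k : ℝ) ^ 2 * h ^ 2 ≤ 1 / 10 ^ 16 := by
    have h0 : (k : ℝ) * h ≤ 1 / 10 ^ 8 := by
      have : 10 ^ 8 * ((k : ℝ) * h) ≤ 1 := by linarith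
      rw [le_div_iff₀ (by norm_num)]
      linarith
    have h00 : 0 ≤ (k : ℝ) * h := by positivity
    calc (k : ℝ) ^ 2 * h ^ 2 = ((k : ℝ) * h) ^ 2 := by ring
      _ ≤ (1 / 10 ^ 8) ^ 2 := by gcongr
      _ = 1 / 10 ^ 16 := by norm_num
  have hD2 : ∀ w : ℤ → ℝ, |dd 1 w (n - 2)| ≤ 11 / 10 * R → |dd 1 w n| ≤ 11 / 10 * R →
      (∀ i : ℤ, |i - n| ≤ 2 * (k : ℤ) + 2 → |dd 3 w i| ≤ 15000 * h ^ 2 * R) →
      |D2 k w n| ≤ 2 * R := by
    intro w w1 w2 w3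
    have := h10 k w n (11 / 10 * R) (15000 * h ^ 2 * R) (by omega) (by positivity) w1 w2
      (fun i hi1 hi2 => w3 i (by rw [abs_le]; constructor <;> omega))
    calc |D2 k w n| ≤ 11 / 10 * R + 15000 * h ^ 2 * R * (k : ℝ) ^ 2 / 2 := this
      _ = 11 / 10 * R + 7500 * ((k : ℝ) ^ 2 * h ^ 2) * R := by ring
      _ ≤ 11 / 10 * R + 7500 * (1 / 10 ^ 16) * R := by gcongr
      _ ≤ 2 * R := by
        have : 0 ≤ R := hR0
        norm_num
        linarith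
  have hsm2 : |(n - 2) - n| ≤ 2 * (k : ℤ) + 2 := by
    rw [abs_le]; constructor <;> omega
  have hs0 : |n - n| ≤ 2 * (k : ℤ) + 2 := by
    rw [abs_le]; constructor <;> omega
  have hDA := hD2 (AA k y) (s5 (n - 2) hsm2).1 (s5 n hs0).1 (fun i hi => (s5 i hi).2.2.2.2.1)
  have hDB := hD2 (BB k y) (s5 (n - 2) hsm2).2.1 (s5 n hs0).2.1
    (fun i hi => (s5 i hi).2.2.2.2.2)
  have hA2 : |AA k y (n + 2) - AA k y n| ≤ 11 / 10 * R := (s5 n hs0).1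
  have hCA := h11 k θ (AA k y) n R (90 * h * R) (by omega) hR0 (by positivity) s2 s1 hA2
    (fun i hi => (s5 i hi).2.2.1)
  -- the error terms
  obtain ⟨E, hE⟩ : ∃ E, E = II k (fun i => y i ^ 2) n - II k y n ^ 2 := ⟨_, rfl⟩
  rw [← hE] at hE1 q1 q2
  have hee : |ee n| = 1 := by
    unfold ee
    split_ifs <;> simp
  have hea : |h * E / 2| ≤ h * (et l * R ^ 2 / 4) / 2 := by
    rw [abs_div, abs_mul, abs_of_pos hh, abs_of_pos (show (0 : ℝ) < 2 by norm_num)]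
    gcongr
  have heb : |ee n * (h * E / 2)| ≤ h * (et l * R ^ 2 / 4) / 2 := by
    rw [abs_mul, hee, one_mul]
    exact hea
  have hid := h12 k θ h (AA k y) (BB k y) n (h * E / 2) (ee n * (h * E / 2)) q1 q2
  have het0 : 0 ≤ et l := by unfold et; positivity
  have hs24 : |AA k y n + θ| ≤ 24 := by
    have := abs_le.1 hab.1
    rw [abs_le]
    constructor <;> linarith [this.1, this.2]
  apply alg_Gro θ h (BB k y n) (AA k y n + θ) (CA k θ (AA k y) (n + 1) - 2 * (AA k y n + θ))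
    (BB k y n - BB k y (n - 1)) (AA k y n - AA k y (n - 1)) (D2 k (AA k y) n) (D2 k (BB k y) n)
    (EEf k (AA k y) (BB k y) n) (h * E / 2) (ee n * (h * E / 2)) R (et l)
    _ _ hh hh1 hθ hθ1 het0 hR0 hR1 hs24 _ _ s3 s1 hDA hDB hE3 hea heb _
  · calc h * |CA k θ (AA k y) (n + 1) - 2 * (AA k y n + θ)|
        ≤ h * (2 * R + (k : ℝ) ^ 2 * (90 * h * R) / 3) := by gcongr
      _ = 2 * h * R + 30 * ((k : ℝ) ^ 2 * h ^ 2) * R := by ring
      _ ≤ 2 * (1 / 10 ^ 18) * R + 30 * (1 / 10 ^ 16) * R := by gcongr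
      _ = (2 * (1 / 10 ^ 18) + 30 * (1 / 10 ^ 16)) * R := by ring
      _ ≤ 1 / 10 ^ 14 * R := by
          apply mul_le_mul_of_nonneg_right _ hR0
          norm_num
  · calc |CA k θ (AA k y) (n + 1) - 2 * (AA k y n + θ)|
        ≤ 2 * R + (k : ℝ) ^ 2 * (90 * h * R) / 3 := hCA
      _ ≤ 2 * (1100 * h) + (k : ℝ) ^ 2 * (90 * h * (1100 * h)) / 3 := by gcongr
      _ = 2200 * h + 33000 * ((k : ℝ) ^ 2 * h ^ 2) := by ring
      _ ≤ 2200 * (1 / 10 ^ 18) + 33000 * (1 / 10 ^ 16) := by gcongr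
      _ ≤ 1 := by norm_num
  · rw [hid]
    ring

end Helper83.TH
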