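import Pool.Agent.Helper83.TH.St

set_option autoImplicit false

namespace Helper83.TH

open Set Filter Topology
open Helper85.HN (hen Orb Bd KK E0)

/-- The exponentially small quantity is below its argument. -/
private theorem small_Hof {a u : ℝ} (ha : 0 < a) (hu : 0 < u) (hua : u ≤ a ^ 3 / 6) :
    Real.exp (-(a / u)) ≤ u ^ 2 := by
  have hx : 0 ≤ a / u := by positivity
  have h1 := Real.pow_div_factorial_le_exp (x := a / u) hx 3
  have h5 : ((Nat.factorial 3 : ℕ) : ℝ) = 6 := by norm_num [Nat.factorial]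
  rw [h5] at h1
  have hpos : 0 < (a / u) ^ 3 / 6 := by positivity
  rw [Real.exp_neg]
  have h2 : (Real.exp (a / u))⁻¹ ≤ ((a / u) ^ 3 / 6)⁻¹ := inv_anti₀ hpos h1
  refine h2.trans ?_
  have h3 : ((a / u) ^ 3 / 6)⁻¹ = 6 * u ^ 3 / a ^ 3 := by
    field_simp
  rw [h3, div_le_iff₀ (by positivity)]
  have h4 : 6 * u ≤ a ^ 3 := by linarith
  have h6 : 0 ≤ u ^ 2 := by positivity
  nlinarith [mul_le_mul_of_nonneg_left h4 h6]

private theorem smallx_Hof {a x : ℝ} (ha : 0 < a) (hx : 0 < x) (hxa : x ≤ (a ^ 3 / 6) ^ 2) :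
    Real.exp (-(a / Real.sqrt x)) ≤ x := by
  have hu : 0 < Real.sqrt x := Real.sqrt_pos.2 hx
  have hsq : Real.sqrt x ^ 2 = x := Real.sq_sqrt hx.le
  have hle : Real.sqrt x ≤ a ^ 3 / 6 := by
    rw [← Real.sqrt_sq (show 0 ≤ a ^ 3 / 6 by positivity)]
    exact Real.sqrt_le_sqrt hxa
  have := small_Hof ha hu hle
  rwa [hsq] at this

theorem hHof (h1 : StBc) : StHof := by
  obtain ⟨a, d, ha, hd, hbox⟩ := h1
  refine ⟨a, d, ha, hd, ?_⟩
  rintro ⟨b, c⟩ hq hb hc
  simp only at hb hc ⊢
  -- a neighbourhood contained in `E0` is impossible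
  have key : (∀ᶠ p : ℝ × ℝ in 𝓝 (b, c), p ∈ E0) → False := by
    intro h
    have : (b, c) ∈ interior E0 := mem_interior_iff_mem_nhds.2 h
    exact hq.2 this
  have evb : ∀ᶠ p : ℝ × ℝ in 𝓝 (b, c), |p.1 + 1| < d := by
    have hcn : ContinuousAt (fun p : ℝ × ℝ => |p.1 + 1|) (b, c) := by fun_prop
    exact hcn.eventually_lt continuousAt_const (by simpa using hb)
  have evc : ∀ᶠ p : ℝ × ℝ in 𝓝 (b, c), |p.2| < d := by
    have hcn : ContinuousAt (fun p : ℝ × ℝ => |p.2|) (b, c) := by fun_prop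
    exact hcn.eventually_lt continuousAt_const (by simpa using hc)
  rcases lt_trichotomy c 0 with hc0 | hc0 | hc0
  · right
    refine ⟨hc0, ?_⟩
    by_contra hcon
    push Not at hcon
    apply key
    have hlt : ∀ᶠ p : ℝ × ℝ in 𝓝 (b, c), Real.exp (-(a / Real.sqrt (-p.2))) < |p.1 + 1| := by
      have hs : Real.sqrt (-c) ≠ 0 := (Real.sqrt_pos.2 (by linarith)).ne'
      have hcn1 : ContinuousAt (fun p : ℝ × ℝ => Real.exp (-(a / Real.sqrt (-p.2)))) (b, c) := by
        apply Real.continuous_exp.continuousAt.comp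
        apply ContinuousAt.neg
        apply ContinuousAt.div continuousAt_const
        · exact (Real.continuous_sqrt.comp (continuous_neg.comp continuous_snd)).continuousAt
        · exact hs
      have hcn2 : ContinuousAt (fun p : ℝ × ℝ => |p.1 + 1|) (b, c) := by fun_prop
      exact hcn1.eventually_lt hcn2 hcon
    filter_upwards [evb, evc, hlt] with p h1 h2 h3
    exact hbox p.1 p.2 h1 h2 (Or.inr h3.le)
  · subst hc0
    left
    by_contra hne
    have hb1 : b + 1 ≠ 0 := by
      intro h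
      apply hne
      have : b = -1 := by linarith
      rw [this]
    have hβ : 0 < |b + 1| := abs_pos.2 hb1
    apply key
    have ev1 : ∀ᶠ p : ℝ × ℝ in 𝓝 (b, 0), |b + 1| / 2 < |p.1 + 1| := by
      have hcn2 : ContinuousAt (fun p : ℝ × ℝ => |p.1 + 1|) (b, 0) := by fun_prop
      exact continuousAt_const.eventually_lt hcn2 (by simp only; linarith)
    have ev2 : ∀ᶠ p : ℝ × ℝ in 𝓝 (b, 0), |p.2| < min ((a ^ 3 / 6) ^ 2) (|b + 1| / 2) := by
      have hcn : ContinuousAt (fun p : ℝ × ℝ => |p.2|) (b, 0) := by fun_prop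
      refine hcn.eventually_lt continuousAt_const ?_
      simp only [abs_zero]
      positivity
    filter_upwards [evb, evc, ev1, ev2] with p h1 h2 h3 h4
    apply hbox p.1 p.2 h1 h2
    rcases le_or_gt 0 p.2 with h0 | h0
    · exact Or.inl h0
    · right
      have h5 : |p.2| = -p.2 := abs_of_neg h0
      rw [h5] at h4
      have h6 := smallx_Hof ha (show 0 < -p.2 by linarith) (h4.le.trans (min_le_left _ _))
      have h7 := h4.le.trans (min_le_right _ _)
      linarith
  · exfalso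
    apply key
    have ev3 : ∀ᶠ p : ℝ × ℝ in 𝓝 (b, c), 0 < p.2 :=
      continuousAt_const.eventually_lt continuousAt_snd hc0
    filter_upwards [evb, evc, ev3] with p h1 h2 h3
    exact hbox p.1 p.2 h1 h2 (Or.inl h3.le)

end Helper83.TH
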