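import Pool.Agent.Helper83.TH.St

set_option autoImplicit false

namespace Helper83.TH

open Helper85.HN (hen Orb Bd KK E0)

theorem hHor (h1 : StHp) (h2 : StSyz) (h3 : StZen) : StHor := by
  refine ⟨1 / 10 ^ 10, 1 / 10 ^ 36, by positivity, by positivity, ?_⟩
  intro b c hb he hed hexp
  set e : ℝ := (1 + b) ^ 2 / 4 - c with hedef
  set r : ℝ := Real.sqrt e with hr
  have hrpos : 0 < r := Real.sqrt_pos.2 he
  have hrsq : r ^ 2 = e := Real.sq_sqrt he.le
  have hrle : r ≤ 1 / 10 ^ 18 := by
    by_contra hcon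
    push Not at hcon
    have : (1 / 10 ^ 18 : ℝ) ^ 2 < r ^ 2 := pow_lt_pow_left₀ hcon (by positivity) (by norm_num)
    rw [hrsq] at this
    norm_num at this hed
    linarith
  have hne : 0 < |1 + b| := lt_of_lt_of_le (Real.exp_pos _) hexp
  have hinv : (10 : ℝ) ^ 18 ≤ 1 / r := by
    rw [le_div_iff₀ hrpos]
    calc (10 : ℝ) ^ 18 * r ≤ 10 ^ 18 * (1 / 10 ^ 18) := by gcongr
      _ = 1 := by norm_num
  apply h3
  rcases lt_or_gt_of_ne (abs_pos.1 hne) with hneg | hpos
  · -- b < -1
    have hb1 : b < -1 := by linarith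
    have habs : |1 + b| = -(1 + b) := abs_of_neg hneg
    have hbl : -2 ≤ b := by
      rw [habs] at hb
      have : (1 : ℝ) / 10 ^ 36 ≤ 1 := by norm_num
      linarith
    have hb0 : b ≠ 0 := by linarith
    apply h2 b c hb0
    have hbinv : 1 / b < 0 := by
      rw [one_div]; exact inv_neg''.2 (by linarith)
    have e1 : 1 + 1 / b = -(1 + b) / (-b) := by
      field_simp
      ring
    have hnb : 0 < -b := by linarith
    have e2 : (1 + 1 / b) ^ 2 / 4 - c / b ^ 2 = e / b ^ 2 := by
      rw [hedef]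
      field_simp
      ring
    have hb2 : 1 ≤ b ^ 2 := by nlinarith
    have hsqrt : Real.sqrt (e / b ^ 2) = r / (-b) := by
      rw [Real.sqrt_div he.le, ← hr]
      congr 1
      rw [← abs_of_pos hnb, abs_neg, Real.sqrt_sq_eq_abs]
    have hone : 0 < 1 + 1 / b := by
      rw [e1]; exact div_pos (by linarith) hnb
    have hsm : 1 + 1 / b ≤ -(1 + b) := by
      rw [e1, div_le_iff₀ hnb]
      nlinarith
    apply h1
    · linarith
    · rw [habs] at hb
      have : (1 : ℝ) / 10 ^ 36 ≤ 1 / 1000 := by norm_num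
      linarith
    · rw [e2]; positivity
    · rw [e2, div_le_iff₀ (by positivity)]
      have : (0 : ℝ) < 1 / 10 ^ 36 := by positivity
      nlinarith
    · rw [e2, hsqrt, e1]
      have hkey : Real.exp (-(1 / (10 ^ 9 * (r / -b)))) ≤ Real.exp (-(1 / 10 ^ 10 / r)) / 2 := by
        have hx : Real.exp (-(1 / (10 ^ 9 * (r / -b)))) ≤ Real.exp (-(1 / 10 ^ 10 / r) - 1) := by
          apply Real.exp_le_exp.2
          have q1 : 1 / (10 ^ 9 * (r / -b)) = (-b) * (1 / 10 ^ 9) * (1 / r) := by
            field_simp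
          have q2 : 1 / 10 ^ 10 / r = (1 / 10 ^ 10) * (1 / r) := by
            field_simp
          rw [q1, q2]
          have q3 : (1 / 10 ^ 9 : ℝ) * (1 / r) ≤ (-b) * (1 / 10 ^ 9) * (1 / r) := by
            have : (0 : ℝ) ≤ (1 / 10 ^ 9 : ℝ) * (1 / r) := by positivity
            nlinarith
          have q4 : (1 : ℝ) ≤ (9 / 10 ^ 10) * (1 / r) := by
            calc (1 : ℝ) ≤ (9 / 10 ^ 10) * 10 ^ 18 := by norm_num
              _ ≤ (9 / 10 ^ 10) * (1 / r) := by gcongr
          have q5 : (1 / 10 ^ 9 : ℝ) * (1 / r) = (1 / 10 ^ 10) * (1 / r) + (9 / 10 ^ 10) * (1 / r) := by ring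
          linarith
        refine hx.trans ?_
        rw [Real.exp_sub]
        have : (2 : ℝ) ≤ Real.exp 1 := by
          have := Real.add_one_le_exp (1 : ℝ)
          linarith
        gcongr
      refine hkey.trans ?_
      rw [habs] at hexp
      rw [div_le_div_iff₀ (by norm_num) hnb]
      nlinarith [Real.exp_pos (-(1 / 10 ^ 10 / r))]
  · -- b > -1
    have hb1 : -1 < b := by linarith
    have habs : |1 + b| = 1 + b := abs_of_pos hpos
    rw [habs] at hb hexp
    apply h1 b c hb1
    · have : (1 : ℝ) / 10 ^ 36 ≤ 1 / 1000 := by norm_num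
      linarith
    · exact he
    · exact hed.le
    · refine le_trans ?_ hexp
      apply Real.exp_le_exp.2
      rw [← hedef, ← hr]
      have q1 : 1 / (10 ^ 9 * r) = (1 / 10 ^ 9) * (1 / r) := by
        field_simp
      have q2 : 1 / 10 ^ 10 / r = (1 / 10 ^ 10) * (1 / r) := by
        field_simp
      rw [q1, q2]
      have : (0 : ℝ) < 1 / r := by positivity
      nlinarith

end Helper83.TH
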