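import Pool.Agent.Helper83.TH.St

set_option autoImplicit false

namespace Helper83.TH

theorem hHp (h1 : StBig) (h2 : StSum) (h3 : StCor) (h4 : StNum) : StHp := by
  intro b c hb hb2 he he2 hexp
  set e : ℝ := (1 + b) ^ 2 / 4 - c with hedef
  set h : ℝ := Real.sqrt e with hh
  have hpos : 0 < h := Real.sqrt_pos.2 he
  have hsq : h ^ 2 = e := Real.sq_sqrt he.le
  have hle : h ≤ 1 / 10 ^ 18 := by
    by_contra hcon
    push Not at hcon
    have : (1 / 10 ^ 18 : ℝ) ^ 2 < h ^ 2 := pow_lt_pow_left₀ hcon (by positivity) (by norm_num)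
    rw [hsq] at this
    norm_num at this he2
    linarith
  have hθpos : 0 < (1 + b) / h := div_pos (by linarith) hpos
  have hθh : (1 + b) / h * h = 1 + b := div_mul_cancel₀ _ hpos.ne'
  apply h3 b c he
  rw [← hedef, ← hh]
  rcases le_total 16 ((1 + b) / h) with hc | hc
  · exact h1 _ _ hc hpos (hle.trans (by norm_num)) (by rw [hθh]; linarith)
  · obtain ⟨l, hl⟩ := h4 ((1 + b) / h) h hpos hle hθpos hc (by rw [hθh]; exact hexp)
    exact h2 l _ _ hl

end Helper83.TH
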