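import Pool.Agent.Helper83.TH.St

/-! Project TH, module Idn: the exact identity for the Noether energy. -/

set_option autoImplicit false

open Set Filter Topology
open Helper85.HN (hen Orb Bd KK E0 dl ak)

namespace Helper83.TH

/-- Telescoping of a sum over a moving window. -/
theorem tel_Idn (f : ℤ → ℝ) {p q : ℤ} (hpq : p ≤ q) :
    ∑ i ∈ Finset.Ico (p + 1) (q + 1), f i - ∑ i ∈ Finset.Ico p q, f i = f q - f p := by
  have h1 : ∑ i ∈ Finset.Ico p (q + 1), f i = f p + ∑ i ∈ Finset.Ico (p + 1) (q + 1), f i := by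
    rw [← Finset.insert_Ico_add_one_left_eq_Ico (by omega : p < q + 1), Finset.sum_insert (by simp)]
  have h2 : ∑ i ∈ Finset.Ico p (q + 1), f i = ∑ i ∈ Finset.Ico p q, f i + f q := by
    rw [← Finset.insert_Ico_right_eq_Ico_add_one hpq, Finset.sum_insert (by simp)]
    ring
  linarith

theorem W_Idn (k : ℕ) (h : ℝ) (A B : ℤ → ℝ) (n : ℤ) :
    Wf k h A B (n + 1) - Wf k h A B n =
      D2 k B n * (A (n + 1) - A (n - 1)) - D2 k A n * (B (n + 1) - B (n - 1)) -
        h * D2 k (HH A B) n := by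
  unfold Wf D2
  rw [Finset.sum_mul, Finset.sum_mul, Finset.mul_sum, ← Finset.sum_sub_distrib,
    ← Finset.sum_sub_distrib, ← Finset.sum_sub_distrib]
  refine Finset.sum_congr rfl fun j hj => ?_
  have hj1 : (1 : ℤ) ≤ j := by exact_mod_cast (Finset.mem_Icc.1 hj).1
  have t1 := tel_Idn (XX A B (2 * (j : ℤ) - 1)) (p := n - 2 * (j : ℤ)) (q := n + 1) (by omega)
  have t2 := tel_Idn (XX A B (2 * (j : ℤ) + 1)) (p := n - 2 * (j : ℤ)) (q := n - 1) (by omega)
  have t3 := tel_Idn (HH A B) (p := n - 2 * (j : ℤ)) (q := n + 2 * (j : ℤ)) (by omega)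
  have e1 : n + 1 - 2 * (j : ℤ) = n - 2 * (j : ℤ) + 1 := by ring
  have e2 : n + 1 - 1 = n - 1 + 1 := by ring
  have e3 : n + 1 + 2 * (j : ℤ) = n + 2 * (j : ℤ) + 1 := by ring
  rw [e1, e2, e3]
  have x1 : XX A B (2 * (j : ℤ) - 1) (n + 1) =
      A (n + 1) * B (n + 2 * (j : ℤ)) - B (n + 1) * A (n + 2 * (j : ℤ)) := by
    unfold XX
    have : n + 1 + (2 * (j : ℤ) - 1) = n + 2 * (j : ℤ) := by ring
    rw [this]
  have x2 : XX A B (2 * (j : ℤ) - 1) (n - 2 * (j : ℤ)) =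
      A (n - 2 * (j : ℤ)) * B (n - 1) - B (n - 2 * (j : ℤ)) * A (n - 1) := by
    unfold XX
    have : n - 2 * (j : ℤ) + (2 * (j : ℤ) - 1) = n - 1 := by ring
    rw [this]
  have x3 : XX A B (2 * (j : ℤ) + 1) (n - 1) =
      A (n - 1) * B (n + 2 * (j : ℤ)) - B (n - 1) * A (n + 2 * (j : ℤ)) := by
    unfold XX
    have : n - 1 + (2 * (j : ℤ) + 1) = n + 2 * (j : ℤ) := by ring
    rw [this]
  have x4 : XX A B (2 * (j : ℤ) + 1) (n - 2 * (j : ℤ)) =
      A (n - 2 * (j : ℤ)) * B (n + 1) - B (n - 2 * (j : ℤ)) * A (n + 1) := by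
    unfold XX
    have : n - 2 * (j : ℤ) + (2 * (j : ℤ) + 1) = n + 1 := by ring
    rw [this]
  rw [x1, x2] at t1
  rw [x3, x4] at t2
  linear_combination ak k j * t1 - ak k j * t2 - ak k j * h * t3

theorem H_Idn (k : ℕ) (A B : ℤ → ℝ) (n : ℤ) :
    D2 k (HH A B) n = 2 * A n * B n * D2 k A n + (A n ^ 2 + B n ^ 2 - 1) * D2 k B n +
      EEf k A B n := by
  unfold EEf D2
  rw [Finset.mul_sum, Finset.mul_sum, ← Finset.sum_add_distrib, ← Finset.sum_add_distrib]
  refine Finset.sum_congr rfl fun j _ => ?_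
  unfold HH
  ring

theorem C_Idn (k : ℕ) (θ : ℝ) (A : ℤ → ℝ) (n : ℤ) :
    CA k θ A (n + 1) - CA k θ A n = D2 k A n := by
  unfold CA D2
  rw [← Finset.sum_sub_distrib]
  refine Finset.sum_congr rfl fun j _ => ?_
  have t3 := tel_Idn (fun i => A i + θ) (p := n - 2 * (j : ℤ)) (q := n + 2 * (j : ℤ)) (by omega)
  have e1 : n + 1 - 2 * (j : ℤ) = n - 2 * (j : ℤ) + 1 := by ring
  have e3 : n + 1 + 2 * (j : ℤ) = n + 2 * (j : ℤ) + 1 := by ring
  rw [e1, e3]
  linear_combination ak k j * t3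

theorem hIdn : StIdn := by
  intro k θ h A B n ea eb hA hB
  have w := W_Idn k h A B n
  have c := C_Idn k θ A n
  have hh := H_Idn k A B n
  rw [hA, hB, hh] at w
  have c' : CA k θ A n = CA k θ A (n + 1) - D2 k A n := by linarith
  have hB' : B (n + 1) = B (n - 1) + (-h * (2 * A n * B n + θ * (B n + B (n - 1))) + eb) := by
    linarith
  have e : n + 1 - 1 = n := by ring
  unfold Lf
  rw [c', e, hB']
  linear_combination -w

end Helper83.TH
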