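import Pool.Agent.Helper83.TH.St

/-!
# Project TH, module Iib: bounds of the interpolation operator `II`
-/

set_option autoImplicit false

open Set Filter Topology
open Helper85.HN (hen Orb Bd KK E0 dl ak)

noncomputable section

namespace Helper83.TH

private theorem chain_Iib (u : ℤ → ℝ) (T : ℝ) (a : ℤ) :
    ∀ m : ℕ, (∀ i : ℤ, a ≤ i → i < a + m → |u (i + 1) - u i| ≤ T) → |u (a + m) - u a| ≤ m * T
  | 0, _ => by simp
  | m + 1, h => by
    have h1 := chain_Iib u T a m (fun i hi hi2 => h i hi (by push_cast; omega))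
    have h2 := h (a + m) (by omega) (by push_cast; omega)
    have e : a + ((m + 1 : ℕ) : ℤ) = a + m + 1 := by push_cast; ring
    rw [e]
    have e2 : u (a + m + 1) - u a = (u (a + m + 1) - u (a + m)) + (u (a + m) - u a) := by ring
    rw [e2]
    refine (abs_add_le _ _).trans ?_
    push_cast
    linarith

private theorem dd_two_Iib (w : ℤ → ℝ) (i : ℤ) :
    dd 2 w i = (w (i + 2 + 2) - w (i + 2)) - (w (i + 2) - w i) := by
  simp only [dd]

private theorem brack_Iib (k : ℕ) (w : ℤ → ℝ) (n : ℤ) (T : ℝ)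
    (hw : ∀ i : ℤ, n - (2 * (k : ℤ) - 1) ≤ i → i + 4 ≤ n + (2 * (k : ℤ) - 1) → |dd 2 w i| ≤ T) :
    ∀ j : ℕ, j + 1 ≤ k →
      |(w (n + (2 * ((j + 1 : ℕ) : ℤ) - 1)) + w (n - (2 * ((j + 1 : ℕ) : ℤ) - 1)))
        - (w (n + 1) + w (n - 1))| ≤ ((j : ℝ) + 1) * j * T
  | 0, _ => by
    have e1 : n + (2 * ((0 + 1 : ℕ) : ℤ) - 1) = n + 1 := by push_cast; ring
    have e2 : n - (2 * ((0 + 1 : ℕ) : ℤ) - 1) = n - 1 := by push_cast; ring
    rw [e1, e2]
    simp
  | j + 1, hj => by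
    have h1 := brack_Iib k w n T hw j (by omega)
    have h2 := chain_Iib (fun i => w (n + 1 + 2 * i) - w (n - 1 + 2 * i)) T (-((j : ℤ) + 1))
      (2 * (j + 1)) (fun i hi hi2 => by
        have h3 := hw (n - 1 + 2 * i) (by push_cast at hi2; omega) (by push_cast at hi2; omega)
        rw [dd_two_Iib] at h3
        have e1 : n - 1 + 2 * i + 2 + 2 = n + 1 + 2 * (i + 1) := by ring
        have e2 : n - 1 + 2 * i + 2 = n - 1 + 2 * (i + 1) := by ring
        have e3 : n - 1 + 2 * (i + 1) = n + 1 + 2 * i := by ring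
        rw [e1, e2] at h3
        show |(w (n + 1 + 2 * (i + 1)) - w (n - 1 + 2 * (i + 1))) -
          (w (n + 1 + 2 * i) - w (n - 1 + 2 * i))| ≤ T
        rw [e3] at h3 ⊢
        exact h3)
    have e1 : -((j : ℤ) + 1) + ((2 * (j + 1) : ℕ) : ℤ) = (j : ℤ) + 1 := by push_cast; ring
    rw [e1] at h2
    have f1 : n + 1 + 2 * ((j : ℤ) + 1) = n + (2 * ((j + 1 + 1 : ℕ) : ℤ) - 1) := by push_cast; ring
    have f2 : n - 1 + 2 * ((j : ℤ) + 1) = n + (2 * ((j + 1 : ℕ) : ℤ) - 1) := by push_cast; ring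
    have f3 : n + 1 + 2 * (-((j : ℤ) + 1)) = n - (2 * ((j + 1 : ℕ) : ℤ) - 1) := by push_cast; ring
    have f4 : n - 1 + 2 * (-((j : ℤ) + 1)) = n - (2 * ((j + 1 + 1 : ℕ) : ℤ) - 1) := by
      push_cast; ring
    rw [f1, f2, f3, f4] at h2
    have e2 : (w (n + (2 * ((j + 1 + 1 : ℕ) : ℤ) - 1)) + w (n - (2 * ((j + 1 + 1 : ℕ) : ℤ) - 1)))
        - (w (n + 1) + w (n - 1)) =
        ((w (n + (2 * ((j + 1 + 1 : ℕ) : ℤ) - 1)) - w (n + (2 * ((j + 1 : ℕ) : ℤ) - 1))) -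
          (w (n - (2 * ((j + 1 : ℕ) : ℤ) - 1)) - w (n - (2 * ((j + 1 + 1 : ℕ) : ℤ) - 1)))) +
        ((w (n + (2 * ((j + 1 : ℕ) : ℤ) - 1)) + w (n - (2 * ((j + 1 : ℕ) : ℤ) - 1)))
        - (w (n + 1) + w (n - 1))) := by ring
    rw [e2]
    refine (abs_add_le _ _).trans ?_
    push_cast at h1 h2 ⊢
    nlinarith [h1, h2]

private theorem dd_II_Iib (k : ℕ) : ∀ (m : ℕ) (w : ℤ → ℝ) (n : ℤ),
    dd m (II k w) n = II k (dd m w) n
  | 0, w, n => rfl
  | m + 1, w, n => by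
    show dd m (II k w) (n + 2) - dd m (II k w) n = _
    rw [dd_II_Iib k m w (n + 2), dd_II_Iib k m w n]
    simp only [II, dd]
    rw [← Finset.sum_sub_distrib]
    refine Finset.sum_congr rfl fun j _ => ?_
    have e1 : n + 2 + (2 * (j : ℤ) - 1) = n + (2 * (j : ℤ) - 1) + 2 := by ring
    have e2 : n + 2 - (2 * (j : ℤ) - 1) = n - (2 * (j : ℤ) - 1) + 2 := by ring
    rw [e1, e2]
    ring

theorem hIib (h1 : StCk) : StIib := by
  refine ⟨?_, ?_, ?_, ?_⟩
  · intro k w n T hk hT hw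
    obtain ⟨-, hc, -, -⟩ := h1 k hk
    have h2 : ∀ j ∈ Finset.Icc 1 k,
        |ck k j * (w (n + (2 * (j : ℤ) - 1)) + w (n - (2 * (j : ℤ) - 1)))| ≤ 3 / 2 * T := by
      intro j hj
      have hj' := Finset.mem_Icc.mp hj
      have a1 := hw (n + (2 * (j : ℤ) - 1)) (by
        rw [show n + (2 * (j : ℤ) - 1) - n = 2 * (j : ℤ) - 1 by ring, abs_of_nonneg (by omega)]
        omega)
      have a2 := hw (n - (2 * (j : ℤ) - 1)) (by
        rw [show n - (2 * (j : ℤ) - 1) - n = -(2 * (j : ℤ) - 1) by ring, abs_neg,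
          abs_of_nonneg (by omega)]
        omega)
      rw [abs_mul]
      have a3 := abs_add_le (w (n + (2 * (j : ℤ) - 1))) (w (n - (2 * (j : ℤ) - 1)))
      have a4 := hc j hj
      calc |ck k j| * |w (n + (2 * (j : ℤ) - 1)) + w (n - (2 * (j : ℤ) - 1))|
          ≤ 3 / 4 * (2 * T) := mul_le_mul a4 (by linarith) (abs_nonneg _) (by norm_num)
        _ = 3 / 2 * T := by ring
    calc |II k w n| ≤ ∑ j ∈ Finset.Icc 1 k,
          |ck k j * (w (n + (2 * (j : ℤ) - 1)) + w (n - (2 * (j : ℤ) - 1)))| :=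
          Finset.abs_sum_le_sum_abs _ _
      _ ≤ ∑ _j ∈ Finset.Icc 1 k, 3 / 2 * T := Finset.sum_le_sum h2
      _ = 3 / 2 * (k : ℝ) * T := by
          rw [Finset.sum_const, Nat.card_Icc, nsmul_eq_mul]
          simp only [Nat.add_sub_cancel]
          ring
  · intro k w n T hk hT hw
    obtain ⟨-, -, hs, hq⟩ := h1 k hk
    have h2 : II k w n - (w (n + 1) + w (n - 1)) / 2 = ∑ j ∈ Finset.Icc 1 k, ck k j *
        ((w (n + (2 * (j : ℤ) - 1)) + w (n - (2 * (j : ℤ) - 1))) - (w (n + 1) + w (n - 1))) := by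
      have : (w (n + 1) + w (n - 1)) / 2 = ∑ j ∈ Finset.Icc 1 k, ck k j * (w (n + 1) + w (n - 1)) := by
        rw [← Finset.sum_mul, hs]
        ring
      rw [this]
      unfold II
      rw [← Finset.sum_sub_distrib]
      refine Finset.sum_congr rfl fun j _ => ?_
      ring
    rw [h2]
    have h3 : ∀ j ∈ Finset.Icc 1 k, |ck k j *
        ((w (n + (2 * (j : ℤ) - 1)) + w (n - (2 * (j : ℤ) - 1))) - (w (n + 1) + w (n - 1)))| ≤
        |ck k j| * (2 * (j : ℝ) - 1) ^ 2 * (T / 4) := by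
      intro j hj
      have hj' := Finset.mem_Icc.mp hj
      obtain ⟨i, rfl⟩ : ∃ i, j = i + 1 := ⟨j - 1, by omega⟩
      have h4 := brack_Iib k w n T hw i (by omega)
      rw [abs_mul, mul_assoc]
      refine mul_le_mul_of_nonneg_left ?_ (abs_nonneg _)
      refine h4.trans ?_
      push_cast
      nlinarith [hT, mul_nonneg hT (Nat.cast_nonneg i : (0 : ℝ) ≤ (i : ℝ))]
    calc |∑ j ∈ Finset.Icc 1 k, ck k j *
        ((w (n + (2 * (j : ℤ) - 1)) + w (n - (2 * (j : ℤ) - 1))) - (w (n + 1) + w (n - 1)))|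
        ≤ ∑ j ∈ Finset.Icc 1 k, |ck k j *
        ((w (n + (2 * (j : ℤ) - 1)) + w (n - (2 * (j : ℤ) - 1))) - (w (n + 1) + w (n - 1)))| :=
          Finset.abs_sum_le_sum_abs _ _
      _ ≤ ∑ j ∈ Finset.Icc 1 k, |ck k j| * (2 * (j : ℝ) - 1) ^ 2 * (T / 4) := Finset.sum_le_sum h3
      _ = (∑ j ∈ Finset.Icc 1 k, |ck k j| * (2 * (j : ℝ) - 1) ^ 2) * (T / 4) := by
          rw [Finset.sum_mul]
      _ ≤ 3 / 4 * (k : ℝ) * (T / 4) := mul_le_mul_of_nonneg_right hq (by positivity)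
      _ ≤ (k : ℝ) / 5 * T := by
          have : 0 ≤ (k : ℝ) * T := by positivity
          nlinarith
  · intro k u v x n
    unfold II
    rw [Finset.mul_sum, ← Finset.sum_add_distrib]
    refine Finset.sum_congr rfl fun j _ => ?_
    ring
  · intro k m w n
    exact dd_II_Iib k m w n

end Helper83.TH
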