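import Pool.Agent.Helper83.TH.St

/-!
Module Lsm of project TH (MP_b39980_an): size of `Lf`.
-/

set_option autoImplicit false

open Set Filter Topology
open Helper85.HN (hen Orb Bd KK E0 dl ak)

namespace Helper83.TH

private lemma sum_Lsm (a b : ℤ) (f : ℤ → ℝ) (c : ℝ) (hab : a ≤ b) (hf : ∀ i, a ≤ i → i < b → |f i| ≤ c) :
    |∑ i ∈ Finset.Ico a b, f i| ≤ ((b - a : ℤ) : ℝ) * c := by
  refine (Finset.abs_sum_le_sum_abs _ _).trans ?_
  have h1 : ∀ i ∈ Finset.Ico a b, |f i| ≤ c := by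
    intro i hi
    rw [Finset.mem_Ico] at hi
    exact hf i hi.1 hi.2
  refine (Finset.sum_le_sum h1).trans ?_
  rw [Finset.sum_const, nsmul_eq_mul, Int.card_Ico]
  have h2 : (((b - a).toNat : ℕ) : ℝ) = ((b - a : ℤ) : ℝ) := by
    have : (((b - a).toNat : ℕ) : ℤ) = b - a := Int.toNat_of_nonneg (by omega)
    exact_mod_cast this
  rw [h2]

theorem hLsm (h1 : Helper85.HN.StBj) : StLsm := by
  intro k θ h A B n β hk hh hh1 hθ hθ1 hβ hAB
  have hak := (h1 k hk).1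
  have hkr : (1 : ℝ) ≤ k := by exact_mod_cast hk
  have hXX : ∀ d i : ℤ, |i - n| ≤ 2 * (k : ℤ) + 1 → |i + d - n| ≤ 2 * (k : ℤ) + 1 → |XX A B d i| ≤ 16 * β := by
    intro d i hi hd
    obtain ⟨a1, -, a3⟩ := hAB i hi
    obtain ⟨b1, -, b3⟩ := hAB (i + d) hd
    unfold XX
    refine (abs_sub _ _).trans ?_
    rw [abs_mul, abs_mul]
    have c1 : |A i| * |B (i + d)| ≤ 8 * β := mul_le_mul a1 b3 (abs_nonneg _) (by norm_num)
    have c2 : |B i| * |A (i + d)| ≤ β * 8 := mul_le_mul a3 b1 (abs_nonneg _) hβ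
    linarith
  have hHH : ∀ i : ℤ, |i - n| ≤ 2 * (k : ℤ) + 1 → |HH A B i| ≤ 87 * β := by
    intro i hi
    obtain ⟨a1, a2, a3⟩ := hAB i hi
    have e : HH A B i = B i * (A i ^ 2 + B i ^ 2 / 3 - 1) := by
      unfold HH; ring
    rw [e, abs_mul, mul_comm 87 β]
    refine mul_le_mul a3 ?_ (abs_nonneg _) hβ
    have c1 : A i ^ 2 ≤ 64 := by
      rw [← sq_abs]; nlinarith [abs_nonneg (A i)]
    have c2 : B i ^ 2 ≤ 64 := by
      rw [← sq_abs]; nlinarith [abs_nonneg (B i)]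
    rw [abs_le]
    constructor <;> nlinarith [sq_nonneg (A i), sq_nonneg (B i)]
  have hsum : ∀ (f : ℕ → ℝ) (c : ℝ), (∀ j ∈ Finset.Icc 1 k, |f j| ≤ 4 * (j : ℝ) * c) → 0 ≤ c →
      |∑ j ∈ Finset.Icc 1 k, ak k j * f j| ≤ 4 * (k : ℝ) ^ 2 * c := by
    intro f c hf hc
    refine (Finset.abs_sum_le_sum_abs _ _).trans ?_
    have hterm : ∀ j ∈ Finset.Icc 1 k, |ak k j * f j| ≤ 4 * (k : ℝ) * c := by
      intro j hj
      rw [abs_mul]
      have hj2 := Finset.mem_Icc.1 hj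
      have hjk : (j : ℝ) ≤ k := by exact_mod_cast hj2.2
      calc |ak k j| * |f j| ≤ 1 * |f j| := mul_le_mul_of_nonneg_right (hak j hj) (abs_nonneg _)
        _ ≤ 4 * (j : ℝ) * c := by rw [one_mul]; exact hf j hj
        _ ≤ 4 * (k : ℝ) * c := by
            refine mul_le_mul_of_nonneg_right ?_ hc
            linarith
    refine (Finset.sum_le_sum hterm).trans ?_
    rw [Finset.sum_const, nsmul_eq_mul, Nat.card_Icc, Nat.add_sub_cancel]
    apply le_of_eq
    ring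
  have hWf : |Wf k h A B n| ≤ 4 * (k : ℝ) ^ 2 * ((16 + 87 * h) * β) := by
    unfold Wf
    refine hsum _ _ ?_ (by positivity)
    intro j hj
    have hj2 := Finset.mem_Icc.1 hj
    have s1 : |∑ i ∈ Finset.Ico (n - 2 * (j : ℤ)) (n + 1), XX A B (2 * (j : ℤ) - 1) i| ≤
        (2 * (j : ℝ) + 1) * (16 * β) := by
      refine (sum_Lsm _ _ _ (16 * β) (by omega) ?_).trans ?_
      · intro i hi1 hi2
        refine hXX _ _ ?_ ?_ <;> rw [abs_le] <;> constructor <;> omega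
      · apply le_of_eq
        push_cast
        ring
    have s2 : |∑ i ∈ Finset.Ico (n - 2 * (j : ℤ)) (n - 1), XX A B (2 * (j : ℤ) + 1) i| ≤
        (2 * (j : ℝ) - 1) * (16 * β) := by
      refine (sum_Lsm _ _ _ (16 * β) (by omega) ?_).trans ?_
      · intro i hi1 hi2
        refine hXX _ _ ?_ ?_ <;> rw [abs_le] <;> constructor <;> omega
      · apply le_of_eq
        push_cast
        ring
    have s3 : |∑ i ∈ Finset.Ico (n - 2 * (j : ℤ)) (n + 2 * (j : ℤ)), HH A B i| ≤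
        (4 * (j : ℝ)) * (87 * β) := by
      refine (sum_Lsm _ _ _ (87 * β) (by omega) ?_).trans ?_
      · intro i hi1 hi2
        refine hHH _ ?_
        rw [abs_le]
        constructor <;> omega
      · apply le_of_eq
        push_cast
        ring
    refine (abs_sub _ _).trans ?_
    have s4 := (abs_sub (∑ i ∈ Finset.Ico (n - 2 * (j : ℤ)) (n + 1), XX A B (2 * (j : ℤ) - 1) i)
      (∑ i ∈ Finset.Ico (n - 2 * (j : ℤ)) (n - 1), XX A B (2 * (j : ℤ) + 1) i))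
    have s5 : |h * ∑ i ∈ Finset.Ico (n - 2 * (j : ℤ)) (n + 2 * (j : ℤ)), HH A B i| ≤
        h * ((4 * (j : ℝ)) * (87 * β)) := by
      rw [abs_mul, abs_of_pos hh]
      exact mul_le_mul_of_nonneg_left s3 hh.le
    have s6 : (2 * (j : ℝ) + 1) * (16 * β) + (2 * (j : ℝ) - 1) * (16 * β) + h * ((4 * (j : ℝ)) * (87 * β)) =
        4 * (j : ℝ) * ((16 + 87 * h) * β) := by ring
    linarith
  have hCA : |CA k θ A n| ≤ 4 * (k : ℝ) ^ 2 * 24 := by
    unfold CA
    refine hsum _ _ ?_ (by norm_num)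
    intro j hj
    have hj2 := Finset.mem_Icc.1 hj
    refine (sum_Lsm _ _ _ 24 (by omega) ?_).trans ?_
    · intro i hi1 hi2
      have a1 := (hAB i (by rw [abs_le]; constructor <;> omega)).1
      refine (abs_add_le _ _).trans ?_
      rw [abs_of_nonneg hθ]
      linarith
    · apply le_of_eq
      push_cast
      ring
  have hB1 : |B n| ≤ β := (hAB n (by rw [sub_self, abs_zero]; omega)).2.2
  have hB2 : |B (n - 1)| ≤ β := (hAB (n - 1) (by rw [abs_le]; constructor <;> omega)).2.2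
  have hlast : |θ * h * (B n + B (n - 1)) * CA k θ A n| ≤ (16 / 100 * (2 * β)) * (4 * (k : ℝ) ^ 2 * 24) := by
    rw [abs_mul, abs_mul]
    refine mul_le_mul ?_ hCA (abs_nonneg _) (by positivity)
    refine mul_le_mul ?_ ?_ (abs_nonneg _) (by norm_num)
    · rw [abs_of_nonneg (mul_nonneg hθ hh.le)]
      nlinarith
    · refine (abs_add_le _ _).trans ?_
      linarith
  unfold Lf
  refine (abs_add_le _ _).trans ?_
  rw [abs_neg]
  have hk2 : 0 ≤ (k : ℝ) ^ 2 * β := by positivity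
  have e1 : 4 * (k : ℝ) ^ 2 * ((16 + 87 * h) * β) = (64 + 348 * h) * ((k : ℝ) ^ 2 * β) := by ring
  have e2 : (16 / 100 * (2 * β)) * (4 * (k : ℝ) ^ 2 * 24) = 3072 / 100 * ((k : ℝ) ^ 2 * β) := by ring
  rw [e1] at hWf
  rw [e2] at hlast
  have e3 : 100 * (k : ℝ) ^ 2 * β = 100 * ((k : ℝ) ^ 2 * β) := by ring
  rw [e3]
  have e4 : (64 + 348 * h) * ((k : ℝ) ^ 2 * β) ≤ (64 + 348 * (1 / 100)) * ((k : ℝ) ^ 2 * β) :=
    mul_le_mul_of_nonneg_right (by linarith) hk2
  linarith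

end Helper83.TH
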