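import Pool.Agent.Helper83.TH.St

set_option autoImplicit false

namespace Helper83.TH

theorem hNum : StNum := by
  intro θ h hh hh2 hθ hθ2 hexp
  obtain ⟨x, hx⟩ : ∃ x, x = 1 / h := ⟨_, rfl⟩
  have hx0 : 0 < x := by rw [hx]; positivity
  have hxh : x * h = 1 := by rw [hx]; field_simp
  have hx18 : (10 : ℝ) ^ 18 ≤ x := by
    rw [hx, le_div_iff₀ hh]
    calc (10 : ℝ) ^ 18 * h ≤ 10 ^ 18 * (1 / 10 ^ 18) := by gcongr
      _ = 1 := by norm_num
  obtain ⟨t, ht⟩ : ∃ t, t = x / (3 * 10 ^ 8) := ⟨_, rfl⟩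
  have ht0 : 0 < t := by rw [ht]; positivity
  have ht1 : 2 ≤ t := by
    rw [ht, le_div_iff₀ (by norm_num)]
    refine le_trans ?_ hx18
    norm_num
  refine ⟨⌊t⌋₊, ?_⟩
  obtain ⟨l, hl⟩ : ∃ l, l = ⌊t⌋₊ := ⟨_, rfl⟩
  rw [← hl]
  have hl1 : 1 ≤ l := by
    rw [hl]; exact (Nat.one_le_floor_iff _).2 (by linarith)
  have hlt : (l : ℝ) ≤ t := by rw [hl]; exact Nat.floor_le ht0.le
  have hltl : t < l + 1 := by rw [hl]; exact Nat.lt_floor_add_one t
  have hlh : t / 2 ≤ l := by linarith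
  have hl0 : (0 : ℝ) < l := by exact_mod_cast hl1
  have h3l : 3 * (l : ℝ) ≤ x / 10 ^ 8 := by
    have : 3 * t = x / 10 ^ 8 := by rw [ht]; field_simp
    linarith
  refine ⟨hl1, hh, hh2, hθ, hθ2, ?_, ?_⟩
  · calc 10 ^ 8 * (3 * (l : ℝ)) * h ≤ 10 ^ 8 * (x / 10 ^ 8) * h := by gcongr
      _ = x * h := by ring
      _ = 1 := hxh
      _ ≤ 1 := le_refl _
  · have e0 : 10 ^ 13 * (3 * (l : ℝ)) ^ 2 * et l = 10 ^ 18 * (3 * (l : ℝ)) ^ 8 * (1 / 10) ^ (2 * l) := by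
      unfold et; ring
    rw [e0]
    refine le_trans ?_ hexp
    -- the power of ten
    have e1 : ((1 : ℝ) / 10) ^ (2 * l) ≤ Real.exp (-(4 * l)) := by
      have h10 : (1 : ℝ) / 10 ≤ Real.exp (-2) := by
        rw [Real.exp_neg, one_div]
        apply inv_anti₀ (Real.exp_pos _)
        have : Real.exp 2 = Real.exp 1 * Real.exp 1 := by rw [← Real.exp_add]; norm_num
        rw [this]
        have h2 := Real.exp_one_lt_d9
        have h3 := Real.exp_pos 1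
        nlinarith
      calc ((1 : ℝ) / 10) ^ (2 * l) ≤ (Real.exp (-2)) ^ (2 * l) := by gcongr
        _ = Real.exp (-(4 * l)) := by
          rw [← Real.exp_nat_mul]; congr 1; push_cast; ring
    have e2 : Real.exp (-(4 * (l : ℝ))) ≤ Real.exp (-(6 / 10 ^ 9 * x)) := by
      apply Real.exp_le_exp.2
      apply neg_le_neg
      have : 2 * t = 2 / 3 / 10 ^ 8 * x := by rw [ht]; field_simp
      have h2 : 6 / 10 ^ 9 * x ≤ 2 / 3 / 10 ^ 8 * x := by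
        apply mul_le_mul_of_nonneg_right _ hx0.le
        norm_num
      linarith
    have e3 : (3 * (l : ℝ)) ^ 8 ≤ (x / 10 ^ 8) ^ 8 := by gcongr
    have e4 : 10 ^ 18 * (3 * (l : ℝ)) ^ 8 * (1 / 10) ^ (2 * l) ≤ 10 ^ 18 * (x / 10 ^ 8) ^ 8 * Real.exp (-(6 / 10 ^ 9 * x)) := by
      have := e1.trans e2
      gcongr
    refine e4.trans ?_
    have e5 : 1 / (10 ^ 9 * h) = 1 / 10 ^ 9 * x := by rw [hx]; field_simp
    rw [e5]
    have e6 : Real.exp (-(1 / 10 ^ 9 * x)) = Real.exp (5 / 10 ^ 9 * x) * Real.exp (-(6 / 10 ^ 9 * x)) := by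
      rw [← Real.exp_add]; congr 1; ring
    rw [e6]
    apply mul_le_mul_of_nonneg_right _ (Real.exp_pos _).le
    have h1 := Real.pow_div_factorial_le_exp (x := 5 / 10 ^ 9 * x) (by positivity) 12
    refine le_trans ?_ h1
    have h12 : ((Nat.factorial 12 : ℕ) : ℝ) = 479001600 := by norm_num [Nat.factorial]
    rw [h12]
    have hx4 : ((10 : ℝ) ^ 18) ^ 4 ≤ x ^ 4 := by gcongr
    have e7 : (5 / 10 ^ 9 * x) ^ 12 / 479001600 = x ^ 8 * (x ^ 4 * (5 ^ 12 / 10 ^ 108 / 479001600)) := by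
      ring
    have e8 : 10 ^ 18 * (x / 10 ^ 8) ^ 8 = x ^ 8 * (1 / 10 ^ 46) := by
      field_simp
    rw [e7, e8]
    apply mul_le_mul_of_nonneg_left _ (by positivity)
    calc (1 : ℝ) / 10 ^ 46 ≤ (10 ^ 18) ^ 4 * (5 ^ 12 / 10 ^ 108 / 479001600) := by norm_num
      _ ≤ x ^ 4 * (5 ^ 12 / 10 ^ 108 / 479001600) := by gcongr

end Helper83.TH
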