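import Pool.Agent.Helper83.TH.St

set_option autoImplicit false

namespace Helper83.TH

open Helper85.HN (hen Orb Bd KK E0)

theorem hPer : StPer := by
  intro b c
  by_cases hb : 1 + b = 0
  · -- `x² = -c = y²`
    have hb' : b = -1 := by linarith
    have hfin : {t : ℝ | t ^ 2 = -c}.Finite := by
      have hsub : {t : ℝ | t ^ 2 = -c} ⊆ {Real.sqrt (-c), -Real.sqrt (-c)} := by
        intro t ht
        have ht' : t ^ 2 = -c := ht
        have h0 : 0 ≤ -c := by rw [← ht']; positivity
        have : t ^ 2 = Real.sqrt (-c) ^ 2 := by rw [Real.sq_sqrt h0, ht']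
        rcases sq_eq_sq_iff_eq_or_eq_neg.1 this with h | h
        · left; exact h
        · right; exact h
      exact (Set.toFinite _).subset hsub
    apply (hfin.prod hfin).subset
    rintro ⟨x, y⟩ hp
    have hp' : hen b c (hen b c (x, y)) = (x, y) := hp
    simp only [hen, Prod.mk.injEq] at hp'
    obtain ⟨h1, h2⟩ := hp'
    rw [h2] at h1
    refine ⟨?_, ?_⟩
    · show x ^ 2 = -c
      rw [hb'] at h2; linarith
    · show y ^ 2 = -c
      rw [hb'] at h1; linarith
  · -- quartic
    set P : Polynomial ℝ := (Polynomial.X ^ 2 + Polynomial.C c) ^ 2 + Polynomial.C ((1 + b) ^ 2 * c) -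
      Polynomial.C ((1 + b) ^ 3) * Polynomial.X with hP
    have hP0 : P ≠ 0 := by
      intro h0
      have hc4 : P.coeff 4 = 1 := by
        obtain ⟨α, hα⟩ : ∃ α : ℝ, α = 2 * c := ⟨_, rfl⟩
        obtain ⟨β, hβ⟩ : ∃ β : ℝ, β = c ^ 2 + (1 + b) ^ 2 * c := ⟨_, rfl⟩
        obtain ⟨γ, hγ⟩ : ∃ γ : ℝ, γ = (1 + b) ^ 3 := ⟨_, rfl⟩
        have : P = Polynomial.X ^ 4 + Polynomial.C α * Polynomial.X ^ 2 + Polynomial.C β -
            Polynomial.C γ * Polynomial.X := by
          rw [hP, hα, hβ, hγ]
          simp only [Polynomial.C_mul, Polynomial.C_add, Polynomial.C_pow, map_ofNat]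
          ring
        rw [this]
        simp [Polynomial.coeff_X, Polynomial.coeff_C, Polynomial.coeff_X_pow]
      rw [h0] at hc4
      simp at hc4
    have hfin : {t : ℝ | P.IsRoot t}.Finite := Polynomial.finite_setOf_isRoot hP0
    apply (hfin.image (fun t => (t, (t ^ 2 + c) / (1 + b)))).subset
    rintro ⟨x, y⟩ hp
    have hp' : hen b c (hen b c (x, y)) = (x, y) := hp
    simp only [hen, Prod.mk.injEq] at hp'
    obtain ⟨h1, h2⟩ := hp'
    rw [h2] at h1
    have hy : y = (x ^ 2 + c) / (1 + b) := by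
      field_simp
      linarith
    refine ⟨x, ?_, ?_⟩
    · show P.eval x = 0
      have h3 : (1 + b) * y = x ^ 2 + c := by linarith
      have h4 : (1 + b) * x = y ^ 2 + c := by linarith
      rw [hP]
      simp only [Polynomial.eval_sub, Polynomial.eval_add, Polynomial.eval_pow, Polynomial.eval_X, Polynomial.eval_C,
        Polynomial.eval_mul]
      rw [← h3]
      linear_combination (-(1 + b) ^ 2) * h4
    · simp only [Prod.mk.injEq, true_and]
      exact hy.symm

end Helper83.TH
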