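import Pool.Agent.Helper83.TH.St

/-!
# Project TH, module Pol: polynomial approximation on both sublattices
-/

set_option autoImplicit false

open Set Filter Topology
open Helper85.HN (hen Orb Bd KK E0 dl ak)

namespace Helper83.TH

private theorem one_Pol (h1 : StDd) (h2 : Helper85.HN.StNew) (l : ℕ) (y : ℤ → ℝ) (n c : ℤ)
    (R h : ℝ) (hl : 1 ≤ l) (hR : 0 ≤ R) (h0 : 0 < h) (hlh : 10 ^ 6 * (3 * (l : ℝ)) * h ≤ 1)
    (hReg : Reg (12 * (l : ℤ) + 1) h R y n) (hc : n - 1 ≤ c) (hc' : c ≤ n + 1) :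
    ∃ P : Polynomial ℝ, P.natDegree ≤ 2 * l ∧ ∀ i : ℤ, |i| ≤ 6 * (l : ℤ) →
      |y (c + 2 * i) - P.eval (i : ℝ)| ≤ 18 * (l : ℝ) * R * (1 / 10) ^ (2 * l) := by
  have hlR : (1 : ℝ) ≤ l := by exact_mod_cast hl
  obtain ⟨P, hP, hPe⟩ := h2 (6 * l) (2 * l) (fun i => y (c + 2 * i)) 0 R (84 * h / 10)
    (by omega) hR (by positivity) (by push_cast; nlinarith) (by
      intro m hm hm2
      rw [h1.1]
      have h3 := hReg m (c + 2 * (0 - ((6 * l : ℕ) : ℤ))) (by omega) (by push_cast; omega)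
        (by push_cast; omega)
      have h4 : 10 * (84 * h / 10) = 84 * h := by ring
      rw [h4]
      exact h3)
  refine ⟨P, hP, ?_⟩
  intro i hi
  have h3 := hPe i (by push_cast; exact hi)
  simp only [zero_add] at h3
  refine h3.trans (le_of_eq ?_)
  push_cast
  ring

theorem hPol (h1 : StDd) (h2 : Helper85.HN.StNew) : StPol := by
  intro l y n R h hl hR h0 hlh hReg
  obtain ⟨P, hP, hPe⟩ := one_Pol h1 h2 l y n n R h hl hR h0 hlh hReg (by omega) (by omega)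
  obtain ⟨Q, hQ, hQe⟩ := one_Pol h1 h2 l y n (n - 1) R h hl hR h0 hlh hReg (by omega) (by omega)
  exact ⟨P, Q, hP, hQ, fun i hi => ⟨hPe i hi, hQe i hi⟩⟩

end Helper83.TH
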