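import Pool.Agent.Helper83.TH.St

/-!
# MP_b39980_an, project TH, module Reg: local regularity
-/

set_option autoImplicit false

open Set Filter Topology
open Helper85.HN (hen Orb Bd KK E0 dl ak)

namespace Helper83.TH

private theorem step_Reg (θ h : ℝ) (y : ℤ → ℝ) (h0 : 0 < h) (hθ0 : 0 ≤ θ) (hθ1 : θ ≤ 16)
    (hY : Ye θ h y) (hy : ∀ n, |y n| ≤ 7) (n : ℤ) : |y (n + 1) - y (n - 1)| ≤ 275 * h := by
  rw [hY n, abs_mul, abs_of_pos h0]
  have a1 : |y n ^ 2 - 1| ≤ 49 := by
    have hsq : y n ^ 2 ≤ 49 := by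
      rw [← sq_abs]
      calc |y n| ^ 2 ≤ 7 ^ 2 := by
            exact pow_le_pow_left₀ (abs_nonneg _) (hy n) 2
        _ = 49 := by norm_num
    have hsq0 : 0 ≤ y n ^ 2 := sq_nonneg _
    rw [abs_le]
    constructor <;> linarith
  have a2 : |θ * (y n - y (n - 1))| ≤ 16 * 14 := by
    rw [abs_mul, abs_of_nonneg hθ0]
    have : |y n - y (n - 1)| ≤ 14 := by
      have b1 := abs_le.1 (hy n)
      have b2 := abs_le.1 (hy (n - 1))
      rw [abs_le]
      constructor <;> linarith [b1.1, b1.2, b2.1, b2.2]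
    exact mul_le_mul hθ1 this (abs_nonneg _) (by norm_num)
  calc h * |y n ^ 2 - 1 + θ * (y n - y (n - 1))| ≤ h * (49 + 16 * 14) :=
        mul_le_mul_of_nonneg_left ((abs_add_le _ _).trans (add_le_add a1 a2)) h0.le
    _ ≤ 275 * h := by linarith

theorem hReg (h1 : StGl) (h2 : StLoc) (h3 : StSlo) : StReg := by
  intro θ h y k h0 h5 hθ0 hθ1 hk hY hy n
  have hR0 : 0 ≤ RR y n := by
    unfold RR
    positivity
  refine ⟨?_, hR0, ?_⟩
  · have hG := h1 θ h y h0 (h5.trans (by norm_num)) hθ0 hθ1 hY hy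
    have hS := h3 θ h y (10 * k) h0 (h5.trans (by norm_num)) hθ0 hθ1 (by
      push_cast
      have : 0 ≤ (k : ℝ) * h := by positivity
      linarith) hY hy n
    have hL := h2 θ h (RR y n) y (n - 10 * (k : ℤ)) (n + 10 * (k : ℤ)) h0 (h5.trans (by norm_num))
      hθ0 hθ1 hR0 hY hy hG (by
        intro i hi1 hi2
        have := hS (i + 1) (by
          push_cast
          rw [abs_le]
          constructor <;> omega)
        rwa [show i + 1 + 1 = i + 2 by ring, show i + 1 - 1 = i by ring] at this)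
    exact hL
  · unfold RR
    have a1 := step_Reg θ h y h0 hθ0 hθ1 hY hy n
    have a2 := step_Reg θ h y h0 hθ0 hθ1 hY hy (n - 1)
    rw [show n - 1 + 1 = n by ring, show n - 1 - 1 = n - 2 by ring] at a2
    linarith

end Helper83.TH
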