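import Pool.Agent.Helper83.TH.St

/-!
# MP_b39980_an, project TH, module Rq: the local size
-/

set_option autoImplicit false

open Set Filter Topology
open Helper85.HN (hen Orb Bd KK E0 dl ak)

namespace Helper83.TH

private lemma step_Rq (h θ q α b s β E ε ε' T F : ℝ) (hh : 0 < h) (hθ : 0 < θ) (hθ1 : θ ≤ 16)
    (hT : 0 ≤ T) (hα : |α| ≤ T) (hβ : |β| ≤ T) (hE : |E| ≤ F) (hε : |ε| = 1) (hε' : |ε'| = 1) :
    |(h * (q + θ * α) + h * E / 2) + ε' * (-h * (2 * (b * s) - θ * β) + ε * (h * E / 2))|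
      ≤ h * (|q| + 2 * (|b| * |s|) + 32 * T + F) := by
  have f1 : |θ * α| ≤ 16 * T := by
    rw [abs_mul, abs_of_pos hθ]
    gcongr
  have f2 : |θ * β| ≤ 16 * T := by
    rw [abs_mul, abs_of_pos hθ]
    gcongr
  have f3 : |h * E / 2| ≤ h * F / 2 := by
    rw [abs_div, abs_mul, abs_of_pos hh, abs_of_pos (show (0 : ℝ) < 2 by norm_num)]
    gcongr
  have g1 : |h * (q + θ * α)| ≤ h * (|q| + 16 * T) := by
    rw [abs_mul, abs_of_pos hh]
    have := abs_add_le q (θ * α)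
    gcongr
    linarith
  have g2 : |2 * (b * s) - θ * β| ≤ 2 * (|b| * |s|) + 16 * T := by
    have h1 : |2 * (b * s)| = 2 * (|b| * |s|) := by
      rw [abs_mul, abs_mul, abs_of_pos (show (0 : ℝ) < 2 by norm_num)]
    have := abs_sub (2 * (b * s)) (θ * β)
    linarith
  have g3 : |-h * (2 * (b * s) - θ * β)| ≤ h * (2 * (|b| * |s|) + 16 * T) := by
    rw [abs_mul, abs_neg, abs_of_pos hh]
    gcongr
  have g4 : |ε * (h * E / 2)| ≤ h * F / 2 := by
    rw [abs_mul, hε, one_mul]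
    exact f3
  have g5 : |ε' * (-h * (2 * (b * s) - θ * β) + ε * (h * E / 2))|
      ≤ h * (2 * (|b| * |s|) + 16 * T) + h * F / 2 := by
    rw [abs_mul, hε', one_mul]
    have := abs_add_le (-h * (2 * (b * s) - θ * β)) (ε * (h * E / 2))
    linarith
  have g6 := abs_add_le (h * (q + θ * α)) (h * E / 2)
  have g7 := abs_add_le (h * (q + θ * α) + h * E / 2)
    (ε' * (-h * (2 * (b * s) - θ * β) + ε * (h * E / 2)))
  calc _ ≤ (h * (|q| + 16 * T) + h * F / 2) + (h * (2 * (|b| * |s|) + 16 * T) + h * F / 2) := by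
        linarith
    _ = h * (|q| + 2 * (|b| * |s|) + 32 * T + F) := by ring

private lemma ee_abs_Rq (n : ℤ) : |ee n| = 1 := by
  unfold ee
  split_ifs <;> simp

private lemma ee_sub_Rq (n : ℤ) : ee (n + 1) = ee (n - 1) := by
  have : Even (n + 1) ↔ Even (n - 1) := by
    rw [show n + 1 = (n - 1) + 2 by ring, Int.even_add]
    simp
  unfold ee
  simp only [this]

theorem hRq (h1 : StAp) (h2 : StGl) (h3 : StReg) (h4 : StCk) (h5 : StE1) (h6 : StEqs)
    (h7 : StSh) (h8 : StAb) : StRq := by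
  intro l θ h y hHyp hY hBd n
  obtain ⟨hl, hh, hh1, hθ, hθ1, hkh, het⟩ := hHyp
  have hθh : θ * h ≤ 16 * (1 / 10 ^ 18) := by gcongr
  have hap := h1 θ h y hh (hh1.trans (by norm_num)) hθ (hθh.trans (by norm_num)) hY hBd
  have hl1 : (1 : ℝ) ≤ (l : ℝ) := by exact_mod_cast hl
  obtain ⟨k, hk⟩ : ∃ k : ℕ, k = 3 * l := ⟨_, rfl⟩
  have hkR : (k : ℝ) = 3 * (l : ℝ) := by rw [hk]; push_cast; ring
  have hkZ : (k : ℤ) = 3 * (l : ℤ) := by rw [hk]; push_cast; ring
  have hk3 : 3 ≤ k := by omega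
  rw [← hkR] at hkh
  have hk6 : 10 ^ 6 * (k : ℝ) * h ≤ 1 := by
    have : 0 ≤ (k : ℝ) * h := by positivity
    linarith [this, hkh]
  obtain ⟨hReg, hR0, hR1⟩ := h3 θ h y k hh (hh1.trans (by norm_num)) hθ.le hθ1 hk6 hY hap n
  obtain ⟨R, hRdef⟩ : ∃ R, R = RR y n := ⟨_, rfl⟩
  rw [← hRdef] at hReg hR0 hR1
  have hReg0 : Reg (12 * (l : ℤ) + 1) h R y n := by
    intro m i hm hi1 hi2
    apply hReg m i hm
    · rw [hkZ]; omega
    · rw [hkZ]; omega
  have hReg1 : Reg (12 * (l : ℤ) + 1) h R y (n - 1) := by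
    intro m i hm hi1 hi2
    apply hReg m i hm
    · rw [hkZ]; omega
    · rw [hkZ]; omega
  have hk6' : 10 ^ 6 * (3 * (l : ℝ)) * h ≤ 1 := by rw [← hkR]; exact hk6
  have hab := h8 k θ h y (by omega) hh (hh1.trans (by norm_num)) hθ.le hθ1 hk6 hY hap
  have hE0 := h5 l y n R h hl hR0 hh hk6' hReg0
  have hE1 := h5 l y (n - 1) R h hl hR0 hh hk6' hReg1
  rw [← hk] at hE0 hE1
  have hck := (h4 k (by omega)).2.2.1
  obtain ⟨q1, q2, q3⟩ := h6 k θ h y n hck hY
  obtain ⟨r1, r2, r3⟩ := h6 k θ h y (n - 1) hck hY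
  obtain ⟨-, -, q3p⟩ := h6 k θ h y (n + 1) hck hY
  obtain ⟨-, -, q3m⟩ := h6 k θ h y (n - 2) hck hY
  obtain ⟨⟨s1, s2, s3, s4⟩, s5, -, -⟩ := h7 k y n R h hk3 hR0 hh hh1 hk6 hReg
  rw [← hk, ← hRdef]
  have het0 : 0 ≤ et l := by unfold et; positivity
  have het1 : et l ≤ 1 := by
    have e1 : (1 : ℝ) ≤ 10 ^ 13 * (3 * (l : ℝ)) ^ 2 := by nlinarith
    have e2 : 1 * et l ≤ 10 ^ 13 * (3 * (l : ℝ)) ^ 2 * et l := by gcongr
    have e3 : (16 * (1 / 10 ^ 18) : ℝ) ≤ 1 := by norm_num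
    linarith
  have hRle : R ≤ 1 := by
    calc R ≤ 1100 * h := hR1
      _ ≤ 1100 * (1 / 10 ^ 18) := by linarith
      _ ≤ 1 := by norm_num
  have hF : et l * R ^ 2 / 4 ≤ 1 / 4 * R := by
    have : et l * R ^ 2 ≤ 1 * (1 * R) := by
      rw [pow_two]
      gcongr
    linarith
  have hF0 : 0 ≤ et l * R ^ 2 / 4 := by positivity
  -- indices
  have i1 : (n - 1 + 1 : ℤ) = n := by ring
  have i2 : (n - 1 - 1 : ℤ) = n - 2 := by ring
  rw [i1, i2] at r1 r2
  have hsm2 : |(n - 2) - n| ≤ 2 * (k : ℤ) + 2 := by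
    rw [abs_le]; constructor <;> omega
  have hA2 : |AA k y n - AA k y (n - 2)| ≤ 11 / 10 * R := by
    have := (s5 (n - 2) hsm2).1
    have e : dd 1 (AA k y) (n - 2) = AA k y n - AA k y (n - 2) := by
      show AA k y (n - 2 + 2) - AA k y (n - 2) = _
      rw [show n - 2 + 2 = n by ring]
    rwa [e] at this
  have hB2 : |BB k y n - BB k y (n - 2)| ≤ 11 / 10 * R := by
    have := (s5 (n - 2) hsm2).2.1
    have e : dd 1 (BB k y) (n - 2) = BB k y n - BB k y (n - 2) := by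
      show BB k y (n - 2 + 2) - BB k y (n - 2) = _
      rw [show n - 2 + 2 = n by ring]
    rwa [e] at this
  have hRR : R = 2 * (|y (n + 1) - y (n - 1)| + |y n - y (n - 2)|) := by rw [hRdef]; rfl
  have ha := (hab n).1
  have hb := (hab n).2
  have ha' := (hab (n - 1)).1
  have hb' := (hab (n - 1)).2
  have ee1 : ee (n + 1) = ee (n - 1) := ee_sub_Rq n
  have ee2 : ee n = ee (n - 2) := by
    have := ee_sub_Rq (n - 1)
    rwa [i1, i2] at this
  -- the two velocities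
  have hv : |y (n + 1) - y (n - 1)| ≤ h * (|qq (AA k y) (BB k y) n|
      + 2 * (|BB k y n| * |AA k y n + θ|) + 32 * R + et l * R ^ 2 / 4) := by
    have e : y (n + 1) - y (n - 1) =
        (h * (qq (AA k y) (BB k y) n + θ * (AA k y n - AA k y (n - 1)))
          + h * (II k (fun i => y i ^ 2) n - II k y n ^ 2) / 2)
        + ee (n + 1) * (-h * (2 * (BB k y n * (AA k y n + θ)) - θ * (BB k y n - BB k y (n - 1)))
          + ee n * (h * (II k (fun i => y i ^ 2) n - II k y n ^ 2) / 2)) := by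
      have e1 : y (n + 1) - y (n - 1) = (AA k y (n + 1) - AA k y (n - 1))
          + ee (n + 1) * (BB k y (n + 1) - BB k y (n - 1)) := by
        rw [q3p, r3, ee1]; ring
      rw [e1, q1, q2]
      unfold qq
      ring
    rw [e]
    exact step_Rq h θ _ _ _ _ _ _ _ _ R _ hh hθ hθ1 hR0 s1 s3 hE0 (ee_abs_Rq n)
      (ee_abs_Rq (n + 1))
  have t1 : |AA k y (n - 1) - AA k y (n - 2)| ≤ 21 / 10 * R := by
    have a1 := abs_le.1 hA2
    have a2 := abs_le.1 s1
    rw [abs_le]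
    constructor <;> linarith [a1.1, a1.2, a2.1, a2.2]
  have t2 : |BB k y (n - 1) - BB k y (n - 2)| ≤ 21 / 10 * R := by
    have a1 := abs_le.1 hB2
    have a2 := abs_le.1 s3
    rw [abs_le]
    constructor <;> linarith [a1.1, a1.2, a2.1, a2.2]
  have hw : |y n - y (n - 2)| ≤ h * (|qq (AA k y) (BB k y) (n - 1)|
      + 2 * (|BB k y (n - 1)| * |AA k y (n - 1) + θ|) + 32 * (21 / 10 * R)
        + et l * R ^ 2 / 4) := by
    have e : y n - y (n - 2) =
        (h * (qq (AA k y) (BB k y) (n - 1) + θ * (AA k y (n - 1) - AA k y (n - 2)))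
          + h * (II k (fun i => y i ^ 2) (n - 1) - II k y (n - 1) ^ 2) / 2)
        + ee n * (-h * (2 * (BB k y (n - 1) * (AA k y (n - 1) + θ))
            - θ * (BB k y (n - 1) - BB k y (n - 2)))
          + ee (n - 1) * (h * (II k (fun i => y i ^ 2) (n - 1) - II k y (n - 1) ^ 2) / 2)) := by
      have e1 : y n - y (n - 2) = (AA k y n - AA k y (n - 2))
          + ee n * (BB k y n - BB k y (n - 2)) := by
        rw [q3, q3m, ← ee2]; ring
      rw [e1, r1, r2]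
      unfold qq
      ring
    rw [e]
    exact step_Rq h θ _ _ _ _ _ _ _ _ (21 / 10 * R) _ hh hθ hθ1 (by positivity) t1 t2 hE1
      (ee_abs_Rq (n - 1)) (ee_abs_Rq n)
  -- comparison of the sizes at `n - 1` and at `n`
  obtain ⟨a, hadef⟩ : ∃ a, a = AA k y n := ⟨_, rfl⟩
  obtain ⟨b, hbdef⟩ : ∃ b, b = BB k y n := ⟨_, rfl⟩
  obtain ⟨a', ha'def⟩ : ∃ a', a' = AA k y (n - 1) := ⟨_, rfl⟩
  obtain ⟨b', hb'def⟩ : ∃ b', b' = BB k y (n - 1) := ⟨_, rfl⟩
  have hqn : qq (AA k y) (BB k y) n = a ^ 2 + b ^ 2 - 1 := by unfold qq; rw [hadef, hbdef]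
  have hqn' : qq (AA k y) (BB k y) (n - 1) = a' ^ 2 + b' ^ 2 - 1 := by
    unfold qq; rw [ha'def, hb'def]
  rw [hqn] at hv ⊢
  rw [hqn'] at hw
  rw [← hadef, ← hbdef] at hv ⊢
  rw [← ha'def, ← hb'def] at hw
  rw [← hadef, ← ha'def] at s1
  rw [← hbdef, ← hb'def] at s3
  rw [← hadef] at ha
  rw [← hbdef] at hb
  rw [← ha'def] at ha'
  rw [← hb'def] at hb'
  have c1 : |a' ^ 2 + b' ^ 2 - 1| ≤ |a ^ 2 + b ^ 2 - 1| + 32 * R := by
    have e : a' ^ 2 + b' ^ 2 - 1 = (a ^ 2 + b ^ 2 - 1) + (-((a - a') * (a + a'))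
        + -((b - b') * (b + b'))) := by ring
    have u1 : |(a - a') * (a + a')| ≤ R * 16 := by
      rw [abs_mul]
      have := abs_add_le a a'
      gcongr
      linarith
    have u2 : |(b - b') * (b + b')| ≤ R * 16 := by
      rw [abs_mul]
      have := abs_add_le b b'
      gcongr
      linarith
    have u3 := abs_add_le (a ^ 2 + b ^ 2 - 1) (-((a - a') * (a + a')) + -((b - b') * (b + b')))
    have u4 := abs_add_le (-((a - a') * (a + a'))) (-((b - b') * (b + b')))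
    rw [abs_neg, abs_neg] at u4
    rw [e]
    linarith
  have c2 : |b'| * |a' + θ| ≤ |b| * |a + θ| + 32 * R := by
    have e : b' * (a' + θ) = b * (a + θ) + (-((b - b') * (a' + θ)) + -(b * (a - a'))) := by ring
    have u0 : |a' + θ| ≤ 24 := by
      have := abs_add_le a' θ
      rw [abs_of_pos hθ] at this
      linarith
    have u1 : |(b - b') * (a' + θ)| ≤ R * 24 := by
      rw [abs_mul]
      gcongr
    have u2 : |b * (a - a')| ≤ 8 * R := by
      rw [abs_mul]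
      gcongr
    have u3 := abs_add_le (b * (a + θ)) (-((b - b') * (a' + θ)) + -(b * (a - a')))
    have u4 := abs_add_le (-((b - b') * (a' + θ))) (-(b * (a - a')))
    rw [abs_neg, abs_neg] at u4
    rw [← abs_mul, ← abs_mul, e]
    linarith
  have d1 : |y (n + 1) - y (n - 1)| ≤ h * (|a ^ 2 + b ^ 2 - 1| + 2 * (|b| * |a + θ|)
      + 33 * R) := by
    refine hv.trans ?_
    gcongr h * ?_
    linarith
  have d2 : |y n - y (n - 2)| ≤ h * (|a ^ 2 + b ^ 2 - 1| + 2 * (|b| * |a + θ|)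
      + 165 * R) := by
    refine hw.trans ?_
    gcongr h * ?_
    linarith
  have d3 : R ≤ 4 * (h * (|a ^ 2 + b ^ 2 - 1| + 2 * (|b| * |a + θ|))) + 396 * (h * R) := by
    calc R = 2 * (|y (n + 1) - y (n - 1)| + |y n - y (n - 2)|) := hRR
      _ ≤ 2 * (h * (|a ^ 2 + b ^ 2 - 1| + 2 * (|b| * |a + θ|) + 33 * R)
          + h * (|a ^ 2 + b ^ 2 - 1| + 2 * (|b| * |a + θ|) + 165 * R)) := by gcongr
      _ = 4 * (h * (|a ^ 2 + b ^ 2 - 1| + 2 * (|b| * |a + θ|))) + 396 * (h * R) := by ring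
  have d4 : 396 * (h * R) ≤ 1 / 5 * R := by
    have : h * R ≤ 1 / 10 ^ 18 * R := by gcongr
    have e : (396 * (1 / 10 ^ 18) : ℝ) ≤ 1 / 5 := by norm_num
    calc 396 * (h * R) ≤ 396 * (1 / 10 ^ 18 * R) := by linarith
      _ = (396 * (1 / 10 ^ 18)) * R := by ring
      _ ≤ 1 / 5 * R := by gcongr
  have d5 : R ≤ 5 * (h * (|a ^ 2 + b ^ 2 - 1| + 2 * (|b| * |a + θ|))) := by linarith
  linarith

end Helper83.TH
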