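import Pool.Agent.Helper83.TH.St

set_option autoImplicit false

/-! Module Sgc of project TH (MP_b39980_an): when `B` changes sign it is exponentially small. -/

open Set Filter Topology
open Helper85.HN (hen Orb Bd KK E0 dl ak)

namespace Helper83.TH

private theorem ee_abs_Sgc (n : ℤ) : |ee n| = 1 := by
  unfold ee
  split_ifs <;> simp

private theorem ee_add_Sgc (n j : ℤ) : ee (n + (2 * j - 1)) = -ee n := by
  unfold ee
  by_cases h : Even n
  · have : ¬ Even (n + (2 * j - 1)) := by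
      intro h2
      rw [Int.even_iff] at h h2
      omega
    simp [h, this]
  · have : Even (n + (2 * j - 1)) := by
      rw [Int.even_iff] at h ⊢
      omega
    simp [h, this]

private theorem ee_sub_Sgc (n j : ℤ) : ee (n - (2 * j - 1)) = -ee n := by
  unfold ee
  by_cases h : Even n
  · have : ¬ Even (n - (2 * j - 1)) := by
      intro h2
      rw [Int.even_iff] at h h2
      omega
    simp [h, this]
  · have : Even (n - (2 * j - 1)) := by
      rw [Int.even_iff] at h ⊢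
      omega
    simp [h, this]

private theorem IIB_Sgc (k : ℕ) (y : ℤ → ℝ) (n : ℤ) :
    II k (BB k y) n = -(ee n) / 2 * (II k y n - II k (II k y) n) := by
  have e2 : II k y n - II k (II k y) n = ∑ j ∈ Finset.Icc 1 k, ck k j *
      ((y (n + (2 * (j : ℤ) - 1)) - II k y (n + (2 * (j : ℤ) - 1))) +
        (y (n - (2 * (j : ℤ) - 1)) - II k y (n - (2 * (j : ℤ) - 1)))) := by
    show (∑ j ∈ Finset.Icc 1 k, ck k j * (y (n + (2 * (j : ℤ) - 1)) + y (n - (2 * (j : ℤ) - 1)))) -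
      (∑ j ∈ Finset.Icc 1 k, ck k j * (II k y (n + (2 * (j : ℤ) - 1)) + II k y (n - (2 * (j : ℤ) - 1)))) = _
    rw [← Finset.sum_sub_distrib]
    exact Finset.sum_congr rfl fun j _ => by ring
  rw [e2, Finset.mul_sum]
  show ∑ j ∈ Finset.Icc 1 k, ck k j * (BB k y (n + (2 * (j : ℤ) - 1)) + BB k y (n - (2 * (j : ℤ) - 1))) = _
  refine Finset.sum_congr rfl fun j _ => ?_
  unfold BB
  rw [ee_add_Sgc, ee_sub_Sgc]
  ring

private theorem sign_Sgc {a b : ℝ} (h : a * b ≤ 0) : |b| + |a| ≤ |b - a| := by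
  have h1 : (|b| + |a|) ^ 2 ≤ |b - a| ^ 2 := by
    have h2 : |b| * |a| = -(a * b) := by
      rw [← abs_mul, mul_comm b a, abs_of_nonpos h]
    rw [sq_abs, add_sq, sq_abs, sq_abs]
    nlinarith
  exact (pow_le_pow_iff_left₀ (by positivity) (abs_nonneg _) two_ne_zero).1 h1

private theorem grow_Sgc {V : ℤ → ℝ} {q c : ℝ} (hq : 1 ≤ q) (hc : 0 ≤ c) 
    (n : ℤ) (s : ℤ) (M : ℕ) (h : ∀ j : ℕ, j < M → V (n + s * (j + 1 : ℕ)) ≤ q * V (n + s * j) + c) :
    ∀ j : ℕ, j ≤ M → V (n + s * j) ≤ q ^ j * (V n + j * c) := by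
  intro j
  induction j with
  | zero => intro _; simp
  | succ j ih =>
    intro hj
    have h1 := h j (by omega)
    have h2 := ih (by omega)
    have h3 : (1 : ℝ) ≤ q ^ (j + 1) := one_le_pow₀ hq
    have h4 : q * V (n + s * j) ≤ q * (q ^ j * (V n + j * c)) :=
      mul_le_mul_of_nonneg_left h2 (by linarith)
    have h5 : c ≤ q ^ (j + 1) * c := le_mul_of_one_le_left hc h3
    calc V (n + s * (j + 1 : ℕ)) ≤ q * (q ^ j * (V n + j * c)) + q ^ (j + 1) * c := by linarith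
      _ = q ^ (j + 1) * (V n + ((j + 1 : ℕ) : ℝ) * c) := by
          push_cast
          ring

private theorem step_Sgc {b0 b1 b2 u h θ c : ℝ} (hh0 : 0 < h) (hh1 : h ≤ 1 / 1000) (hθ0 : 0 ≤ θ)
    (hθ1 : θ ≤ 16) (hu : |u| ≤ 32) (hc : 0 ≤ c)
    (h10 : |b2 - (b0 * (1 - θ * h) - h * u * b1)| ≤ c / 8) :
    |b2| + |b1| ≤ (1 + 50 * h) * (|b1| + |b0|) + c / 7 ∧
    |b1| + |b0| ≤ (1 + 50 * h) * (|b2| + |b1|) + c / 7 := by
  have hθh0 : 0 ≤ θ * h := by positivity
  have hθh : θ * h ≤ 16 * h := mul_le_mul_of_nonneg_right hθ1 hh0.le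
  have h15 : |h * u * b1| ≤ 32 * (h * |b1|) := by
    rw [abs_mul, abs_mul, abs_of_pos hh0]
    have := mul_le_mul_of_nonneg_right hu (mul_nonneg hh0.le (abs_nonneg b1))
    calc h * |u| * |b1| = |u| * (h * |b1|) := by ring
      _ ≤ 32 * (h * |b1|) := this
  have hb0 := abs_nonneg b0
  have hb1 := abs_nonneg b1
  have hb2 := abs_nonneg b2
  have hhb0 := mul_nonneg hh0.le hb0
  have hhb1 := mul_nonneg hh0.le hb1
  have hhb2 := mul_nonneg hh0.le hb2
  constructor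
  · have h12 : |b0 * (1 - θ * h)| ≤ |b0| := by
      rw [abs_mul, abs_of_nonneg (by linarith only [hθh, hh1] : (0 : ℝ) ≤ 1 - θ * h)]
      exact mul_le_of_le_one_right hb0 (by linarith only [hθh0])
    have h13 := abs_sub_abs_le_abs_sub b2 (b0 * (1 - θ * h) - h * u * b1)
    have h14 := abs_sub (b0 * (1 - θ * h)) (h * u * b1)
    have h16 : (1 + 50 * h) * (|b1| + |b0|) = |b1| + |b0| + 50 * (h * |b1|) + 50 * (h * |b0|) := by ring
    rw [h16]
    linarith only [h10, h12, h13, h14, h15, hhb0, hhb1, hc]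
  · have h12 : |b0| * (1 - θ * h) ≤ |b2| + 32 * (h * |b1|) + c / 8 := by
      have h12 : |b0 * (1 - θ * h)| = |b0| * (1 - θ * h) := by
        rw [abs_mul, abs_of_nonneg (by linarith only [hθh, hh1] : (0 : ℝ) ≤ 1 - θ * h)]
      rw [← h12]
      have h13 : b0 * (1 - θ * h) = -(b2 - (b0 * (1 - θ * h) - h * u * b1)) + (b2 + h * u * b1) := by
        ring
      have h14 := abs_add_le (-(b2 - (b0 * (1 - θ * h) - h * u * b1))) (b2 + h * u * b1)
      have h16 := abs_add_le b2 (h * u * b1)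
      rw [← h13, abs_neg] at h14
      linarith only [h10, h14, h15, h16]
    have h18 : |b0| * (1 - 16 * h) ≤ |b0| * (1 - θ * h) :=
      mul_le_mul_of_nonneg_left (by linarith only [hθh]) hb0
    have h19 : 0 < 1 - 16 * h := by linarith only [hh1]
    have h21 : 1 + 32 * h ≤ (1 + 50 * h) * (1 - 16 * h) := by nlinarith only [hh0, hh1]
    have h22 : c / 8 ≤ c / 7 * (1 - 16 * h) := by nlinarith only [hh0, hh1, hc]
    have h23 : (|b2| + |b1|) * (1 + 32 * h) ≤ (|b2| + |b1|) * ((1 + 50 * h) * (1 - 16 * h)) :=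
      mul_le_mul_of_nonneg_left h21 (by positivity)
    have h20 : (|b1| + |b0|) * (1 - 16 * h) ≤
        ((1 + 50 * h) * (|b2| + |b1|) + c / 7) * (1 - 16 * h) := by
      have e1 : ((1 + 50 * h) * (|b2| + |b1|) + c / 7) * (1 - 16 * h) =
          (|b2| + |b1|) * ((1 + 50 * h) * (1 - 16 * h)) + c / 7 * (1 - 16 * h) := by ring
      have e2 : (|b1| + |b0|) * (1 - 16 * h) = |b1| - 16 * (h * |b1|) + |b0| * (1 - 16 * h) := by ring
      have e3 : (|b2| + |b1|) * (1 + 32 * h) = |b2| + |b1| + 32 * (h * |b2|) + 32 * (h * |b1|) := by ring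
      rw [e1, e2]
      rw [e3] at h23
      linarith only [h12, h18, h22, h23, hhb1, hhb2]
    exact le_of_mul_le_mul_right h20 h19

theorem hSgc (h1 : StAp) (h2 : StGl) (h3 : StReg) (h4 : StCk) (h5 : StE1) (h6 : StE2)
    (h7 : StEqs) (h8 : StIib) (h9 : StAb) : StSgc := by
  intro l θ h y hH hY hB n hsg
  obtain ⟨hl, hh0, hh1, hθ0, hθ1, hkh, het⟩ := hH
  have hl1 : (1 : ℝ) ≤ l := by exact_mod_cast hl
  have hlh : (l : ℝ) * h ≤ 1 / (3 * 10 ^ 8) := by
    rw [le_div_iff₀ (by norm_num)]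
    linarith only [hkh]
  have hlh0 : 0 ≤ (l : ℝ) * h := by positivity
  have hk3 : ((3 * l : ℕ) : ℝ) = 3 * (l : ℝ) := by push_cast; ring
  have hθh : θ * h ≤ 16 / 10 ^ 18 := by
    calc θ * h ≤ 16 * (1 / 10 ^ 18) := mul_le_mul hθ1 hh1 hh0.le (by norm_num)
      _ = 16 / 10 ^ 18 := by norm_num
  have hθh0 : 0 ≤ θ * h := by positivity
  have hy : ∀ n, |y n| ≤ 7 := h1 θ h y hh0 (hh1.trans (by norm_num)) hθ0 (hθh.trans (by norm_num)) hY hB
  have h6k : 10 ^ 6 * ((3 * l : ℕ) : ℝ) * h ≤ 1 := by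
    rw [hk3]
    linarith only [hkh, hlh0]
  obtain ⟨hReg, hR0, hR1⟩ := h3 θ h y (3 * l) hh0 (hh1.trans (by norm_num)) hθ0.le hθ1 h6k hY hy n
  have hAB := h9 (3 * l) θ h y (by omega) hh0 (hh1.trans (by norm_num)) hθ0.le hθ1 h6k hY hy
  have hck := (h4 (3 * l) (by omega)).2.2.1
  set R : ℝ := RR y n with hRdef
  set A : ℤ → ℝ := AA (3 * l) y with hA
  set B : ℤ → ℝ := BB (3 * l) y with hBdef
  set e : ℝ := et l with he
  have he0 : 0 ≤ e := by
    rw [he]
    unfold et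
    positivity
  have hRle : R ≤ 1 := by
    have : 1100 * h ≤ 1100 * (1 / 10 ^ 18) := by linarith
    have h10 : (1100 : ℝ) * (1 / 10 ^ 18) ≤ 1 := by norm_num
    linarith
  have hRsq : R ^ 2 ≤ R := by nlinarith only [hR0, hRle]
  have heR : 0 ≤ e * R := by positivity
  have heR2 : e * R ^ 2 ≤ e * R := mul_le_mul_of_nonneg_left hRsq he0
  have heR20 : 0 ≤ e * R ^ 2 := by positivity
  have hRegi : ∀ i : ℤ, |i - n| ≤ 6 * (l : ℤ) + 3 → Reg (12 * (l : ℤ) + 1) h R y i := by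
    intro i hi m j hm hj1 hj2
    have hi' := abs_le.1 hi
    have hl' : (1 : ℤ) ≤ l := by exact_mod_cast hl
    refine hReg m j hm ?_ ?_
    · push_cast
      omega
    · push_cast
      omega
  have hkh6 : 10 ^ 6 * (3 * (l : ℝ)) * h ≤ 1 := by
    rw [← hk3]
    exact h6k
  have hE : ∀ i : ℤ, |i - n| ≤ 6 * (l : ℤ) + 3 →
      |II (3 * l) (fun i => y i ^ 2) i - II (3 * l) y i ^ 2| ≤ e * R ^ 2 / 4 := fun i hi =>
    h5 l y i R h hl hR0 hh0 hkh6 (hRegi i hi)
  -- the recursion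
  have heq : ∀ i : ℤ, |i - n| ≤ 6 * (l : ℤ) + 3 →
      |B (i + 1) - (B (i - 1) * (1 - θ * h) - h * (2 * A i + θ) * B i)| ≤ h * (e * R ^ 2) / 8 := by
    intro i hi
    have h10 := (h7 (3 * l) θ h y i hck hY).2.1
    have h11 : B (i + 1) - (B (i - 1) * (1 - θ * h) - h * (2 * A i + θ) * B i) =
        ee i * (h * (II (3 * l) (fun i => y i ^ 2) i - II (3 * l) y i ^ 2) / 2) := by
      have h12 : B (i + 1) - B (i - 1) = -h * (2 * A i * B i + θ * (B i + B (i - 1)))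
        + ee i * (h * (II (3 * l) (fun i => y i ^ 2) i - II (3 * l) y i ^ 2) / 2) := h10
      linear_combination h12
    rw [h11, abs_mul, ee_abs_Sgc, one_mul, abs_div, abs_mul, abs_of_pos hh0,
      abs_of_pos (by norm_num : (0 : ℝ) < 2)]
    have h13 := mul_le_mul_of_nonneg_left (hE i hi) hh0.le
    linarith
  have hA32 : ∀ i, |2 * A i + θ| ≤ 32 := by
    intro i
    have h10 := abs_le.1 (hAB i).1
    rw [abs_le]
    constructor <;> linarith
  have hhA : ∀ i, |h * (2 * A i + θ) * B i| ≤ 32 * h * |B i| := by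
    intro i
    rw [abs_mul, abs_mul, abs_of_pos hh0]
    have := mul_le_mul_of_nonneg_right (hA32 i) (mul_nonneg hh0.le (abs_nonneg (B i)))
    calc h * |2 * A i + θ| * |B i| = |2 * A i + θ| * (h * |B i|) := by ring
      _ ≤ 32 * (h * |B i|) := this
      _ = 32 * h * |B i| := by ring
  have hc0 : 0 ≤ h * (e * R ^ 2) := by positivity
  have hh3 : h ≤ 1 / 1000 := hh1.trans (by norm_num)
  have hstp : ∀ i : ℤ, |i - n| ≤ 6 * (l : ℤ) + 3 →
      |B (i + 1)| + |B i| ≤ (1 + 50 * h) * (|B i| + |B (i - 1)|) + h * (e * R ^ 2) / 7 ∧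
      |B i| + |B (i - 1)| ≤ (1 + 50 * h) * (|B (i + 1)| + |B i|) + h * (e * R ^ 2) / 7 := fun i hi =>
    step_Sgc hh0 hh3 hθ0.le hθ1 (hA32 i) hc0 (heq i hi)
  -- growth
  set V : ℤ → ℝ := fun i => |B i| + |B (i - 1)| with hV
  have hV0 : ∀ i, 0 ≤ V i := fun i => by positivity
  set c : ℝ := h * (e * R ^ 2) / 7 with hc
  have hc0' : 0 ≤ c := by positivity
  have hq1 : (1 : ℝ) ≤ 1 + 50 * h := by linarith
  have hgu : ∀ j : ℕ, j ≤ 6 * l + 3 → V (n + 1 + 1 * j) ≤ (1 + 50 * h) ^ j * (V (n + 1) + j * c) := by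
    refine grow_Sgc hq1 hc0' (n + 1) 1 (6 * l + 3) fun j hj => ?_
    have hi : |(n + 1 + 1 * (j : ℤ)) - n| ≤ 6 * (l : ℤ) + 3 := by
      rw [abs_le]
      constructor <;> omega
    have h10 := (hstp (n + 1 + 1 * (j : ℤ)) hi).1
    have e1 : n + 1 + 1 * ((j + 1 : ℕ) : ℤ) = n + 1 + 1 * (j : ℤ) + 1 := by push_cast; ring
    rw [e1]
    show |B (n + 1 + 1 * (j : ℤ) + 1)| + |B (n + 1 + 1 * (j : ℤ) + 1 - 1)| ≤ _
    rw [add_sub_cancel_right]
    exact h10
  have hgd : ∀ j : ℕ, j ≤ 6 * l + 3 → V (n + 1 + -1 * j) ≤ (1 + 50 * h) ^ j * (V (n + 1) + j * c) := by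
    refine grow_Sgc hq1 hc0' (n + 1) (-1) (6 * l + 3) fun j hj => ?_
    have hi : |(n + 1 + -1 * ((j + 1 : ℕ) : ℤ)) - n| ≤ 6 * (l : ℤ) + 3 := by
      rw [abs_le]
      push_cast
      constructor <;> omega
    have h10 := (hstp (n + 1 + -1 * ((j + 1 : ℕ) : ℤ)) hi).2
    have e1 : n + 1 + -1 * ((j + 1 : ℕ) : ℤ) + 1 = n + 1 + -1 * (j : ℤ) := by push_cast; ring
    have e2 : n + 1 + -1 * ((j + 1 : ℕ) : ℤ) = n + 1 + -1 * (j : ℤ) - 1 := by push_cast; ring
    show |B (n + 1 + -1 * ((j + 1 : ℕ) : ℤ))| + |B (n + 1 + -1 * ((j + 1 : ℕ) : ℤ) - 1)| ≤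
      (1 + 50 * h) * (|B (n + 1 + -1 * (j : ℤ))| + |B (n + 1 + -1 * (j : ℤ) - 1)|) + c
    rw [← e1, add_sub_cancel_right]
    exact h10
  have hqM : (1 + 50 * h) ^ (6 * l + 3) ≤ 10001 / 10000 := by
    have h10 : 1 + 50 * h ≤ Real.exp (50 * h) := by
      have := Real.add_one_le_exp (50 * h)
      linarith
    have h11 : (1 + 50 * h) ^ (6 * l + 3) ≤ Real.exp (50 * h) ^ (6 * l + 3) :=
      pow_le_pow_left₀ (by linarith) h10 _
    rw [← Real.exp_nat_mul] at h11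
    have h12 : ((6 * l + 3 : ℕ) : ℝ) * (50 * h) ≤ 1 / 10 ^ 5 := by
      push_cast
      have h13 : h ≤ (l : ℝ) * h := le_mul_of_one_le_left hh0.le hl1
      linarith only [h13, hlh]
    have h13 : Real.exp (((6 * l + 3 : ℕ) : ℝ) * (50 * h)) ≤ Real.exp (1 / 10 ^ 5) :=
      Real.exp_le_exp.2 h12
    have h14 : Real.exp (1 / 10 ^ 5) ≤ 10001 / 10000 := by
      have h15 := Real.add_one_le_exp (-(1 / 10 ^ 5) : ℝ)
      rw [Real.exp_neg] at h15
      have h16 := Real.exp_pos (1 / 10 ^ 5 : ℝ)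
      have h17 : (-(1 / 10 ^ 5) + 1) * Real.exp (1 / 10 ^ 5) ≤ 1 := by
        calc (-(1 / 10 ^ 5) + 1) * Real.exp (1 / 10 ^ 5)
            ≤ (Real.exp (1 / 10 ^ 5))⁻¹ * Real.exp (1 / 10 ^ 5) :=
              mul_le_mul_of_nonneg_right h15 h16.le
          _ = 1 := inv_mul_cancel₀ h16.ne'
      linarith
    linarith
  have hMc : ((6 * l + 3 : ℕ) : ℝ) * c ≤ 1 / 10 ^ 8 * (e * R) := by
    have h10 : ((6 * l + 3 : ℕ) : ℝ) * h ≤ 3 / 10 ^ 8 := by
      push_cast
      have h13 : h ≤ (l : ℝ) * h := le_mul_of_one_le_left hh0.le hl1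
      linarith only [h13, hlh]
    calc ((6 * l + 3 : ℕ) : ℝ) * c = ((6 * l + 3 : ℕ) : ℝ) * h * (e * R ^ 2) / 7 := by
          rw [hc]; ring
      _ ≤ 3 / 10 ^ 8 * (e * R ^ 2) / 7 := by
          have := mul_le_mul_of_nonneg_right h10 heR20
          linarith
      _ ≤ 1 / 10 ^ 8 * (e * R) := by linarith
  set β : ℝ := 10001 / 10000 * (V (n + 1) + 1 / 10 ^ 8 * (e * R)) with hβ
  have hβ0 : 0 ≤ β := by
    have := hV0 (n + 1)
    positivity
  have hpb : ∀ j : ℕ, j ≤ 6 * l + 3 → (1 + 50 * h) ^ j * (V (n + 1) + j * c) ≤ β := by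
    intro j hj
    have h10 : (1 + 50 * h) ^ j ≤ (1 + 50 * h) ^ (6 * l + 3) := pow_le_pow_right₀ hq1 hj
    have h11 : (j : ℝ) * c ≤ ((6 * l + 3 : ℕ) : ℝ) * c :=
      mul_le_mul_of_nonneg_right (by exact_mod_cast hj) hc0'
    have h12 : V (n + 1) + j * c ≤ V (n + 1) + 1 / 10 ^ 8 * (e * R) := by linarith
    have h13 := hV0 (n + 1)
    exact mul_le_mul (h10.trans hqM) h12 (by positivity) (by norm_num)
  have hβb : ∀ i : ℤ, |i - n| ≤ 6 * (l : ℤ) + 3 → |B i| ≤ β := by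
    intro i hi
    have hi' := abs_le.1 hi
    rcases le_or_gt i n with hin | hin
    · obtain ⟨j, hj⟩ : ∃ j : ℕ, (j : ℤ) = n - i := ⟨(n - i).toNat, by omega⟩
      have hj' : j ≤ 6 * l + 3 := by omega
      have h10 := (hgd j hj').trans (hpb j hj')
      have e1 : n + 1 + -1 * (j : ℤ) = i + 1 := by omega
      rw [e1] at h10
      have h11 : |B (i + 1)| + |B (i + 1 - 1)| ≤ β := h10
      rw [add_sub_cancel_right] at h11
      have := abs_nonneg (B (i + 1))
      linarith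
    · obtain ⟨j, hj⟩ : ∃ j : ℕ, (j : ℤ) = i - n - 1 := ⟨(i - n - 1).toNat, by omega⟩
      have hj' : j ≤ 6 * l + 3 := by omega
      have h10 := (hgu j hj').trans (hpb j hj')
      have e1 : n + 1 + 1 * (j : ℤ) = i := by omega
      rw [e1] at h10
      have h11 : |B i| + |B (i - 1)| ≤ β := h10
      have := abs_nonneg (B (i - 1))
      linarith
  -- differences
  have hdiff : ∀ i : ℤ, |i - n| ≤ 6 * (l : ℤ) + 2 →
      |B (i + 1) - B (i - 1)| ≤ 48 * h * β + h * (e * R ^ 2) / 8 := by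
    intro i hi
    have hi' := abs_le.1 hi
    have h10 := heq i (by omega)
    have hb1 := hβb i (by omega)
    have hb2 := hβb (i - 1) (by rw [abs_le]; constructor <;> omega)
    have h11 : B (i + 1) - B (i - 1) =
        (B (i + 1) - (B (i - 1) * (1 - θ * h) - h * (2 * A i + θ) * B i)) +
        (-(θ * h * B (i - 1)) + -(h * (2 * A i + θ) * B i)) := by ring
    have h12 := abs_add_le (B (i + 1) - (B (i - 1) * (1 - θ * h) - h * (2 * A i + θ) * B i))
      (-(θ * h * B (i - 1)) + -(h * (2 * A i + θ) * B i))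
    have h13 := abs_add_le (-(θ * h * B (i - 1))) (-(h * (2 * A i + θ) * B i))
    rw [abs_neg, abs_neg] at h13
    rw [← h11] at h12
    have h14 : |θ * h * B (i - 1)| ≤ 16 * h * β := by
      rw [abs_mul, abs_of_nonneg hθh0]
      have : θ * h ≤ 16 * h := mul_le_mul_of_nonneg_right hθ1 hh0.le
      exact mul_le_mul this hb2 (abs_nonneg _) (by positivity)
    have h15 : |h * (2 * A i + θ) * B i| ≤ 32 * h * β :=
      (hhA i).trans (mul_le_mul_of_nonneg_left hb1 (by positivity))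
    linarith
  have hl' : (1 : ℤ) ≤ l := by exact_mod_cast hl
  have hII : |II (3 * l) B n - (B (n + 1) + B (n - 1)) / 2| ≤
      ((3 * l : ℕ) : ℝ) / 5 * (2 * (48 * h * β + h * (e * R ^ 2) / 8)) := by
    refine h8.2.1 (3 * l) B n _ (by omega) (by positivity) fun i hi1 hi2 => ?_
    push_cast at hi1 hi2
    have h10 := hdiff (i + 3) (by rw [abs_le]; constructor <;> omega)
    have h11 := hdiff (i + 1) (by rw [abs_le]; constructor <;> omega)
    have e1 : i + 3 + 1 = i + 2 + 2 := by ring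
    have e2 : i + 3 - 1 = i + 2 := by ring
    have e3 : i + 1 + 1 = i + 2 := by ring
    have e4 : i + 1 - 1 = i := by ring
    rw [e1, e2] at h10
    rw [e3, e4] at h11
    have h12 : dd 2 B i = (B (i + 2 + 2) - B (i + 2)) - (B (i + 2) - B i) := rfl
    rw [h12]
    exact (abs_sub _ _).trans (by linarith)
  have hkb : ((3 * l : ℕ) : ℝ) / 5 * (2 * (48 * h * β + h * (e * R ^ 2) / 8)) ≤
      1 / 10 ^ 6 * β + 1 / 10 ^ 6 * (e * R) := by
    have h10 : ((3 * l : ℕ) : ℝ) * h ≤ 1 / 10 ^ 8 := by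
      rw [hk3]
      linarith only [hlh]
    have h11 : ((3 * l : ℕ) : ℝ) / 5 * (2 * (48 * h * β + h * (e * R ^ 2) / 8)) =
        (((3 * l : ℕ) : ℝ) * h) * (96 / 5 * β + e * R ^ 2 / 20) := by ring
    rw [h11]
    have h12 : 0 ≤ 96 / 5 * β + e * R ^ 2 / 20 := by positivity
    have h13 := mul_le_mul_of_nonneg_right h10 h12
    linarith
  have hBB : |B n - II (3 * l) B n| ≤ e * R / 8 := by
    have h10 : B n - II (3 * l) B n = ee n * ((y n - II (3 * l) (II (3 * l) y) n) / 2) := by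
      have h11 : II (3 * l) B n = -(ee n) / 2 * (II (3 * l) y n - II (3 * l) (II (3 * l) y) n) :=
        IIB_Sgc (3 * l) y n
      have h12 : B n = ee n * (y n - II (3 * l) y n) / 2 := rfl
      rw [h11, h12]
      ring
    rw [h10, abs_mul, ee_abs_Sgc, one_mul, abs_div, abs_of_pos (by norm_num : (0 : ℝ) < 2)]
    have h13 := h6 l y n R h hl hR0 hh0 hkh6 (hRegi n (by rw [sub_self, abs_zero]; omega))
    linarith
  have hd0 := hdiff n (by rw [sub_self, abs_zero]; omega)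
  have hstep : |B (n + 1) - B n| ≤ 1 / 10 ^ 4 * β + e * R / 7 := by
    have h10 : B (n + 1) - B n = (B (n + 1) - B (n - 1)) / 2 +
        (-(II (3 * l) B n - (B (n + 1) + B (n - 1)) / 2) + -(B n - II (3 * l) B n)) := by ring
    have h11 := abs_add_le ((B (n + 1) - B (n - 1)) / 2)
        (-(II (3 * l) B n - (B (n + 1) + B (n - 1)) / 2) + -(B n - II (3 * l) B n))
    have h12 := abs_add_le (-(II (3 * l) B n - (B (n + 1) + B (n - 1)) / 2)) (-(B n - II (3 * l) B n))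
    rw [abs_neg, abs_neg] at h12
    rw [← h10, abs_div, abs_of_pos (by norm_num : (0 : ℝ) < 2)] at h11
    have h13 : 48 * h * β ≤ 1 / 10 ^ 5 * β := by
      have h16 : h ≤ 1 / 10 ^ 8 := hh1.trans (by norm_num)
      have h17 : 48 * h ≤ 1 / 10 ^ 5 := by
        calc 48 * h ≤ 48 * (1 / 10 ^ 8) := by gcongr
          _ ≤ 1 / 10 ^ 5 := by norm_num
      exact mul_le_mul_of_nonneg_right h17 hβ0
    have h14 : h * (e * R ^ 2) ≤ 1 / 10 ^ 6 * (e * R) := by
      have h16 : h ≤ 1 / 10 ^ 6 := hh1.trans (by norm_num)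
      exact mul_le_mul h16 heR2 heR20 (by norm_num)
    have h15 : |II (3 * l) B n - (B (n + 1) + B (n - 1)) / 2| ≤ 1 / 10 ^ 6 * β + 1 / 10 ^ 6 * (e * R) :=
      hII.trans hkb
    clear_value β c V
    clear hII hkb h10 hβb hpb hgu hgd hqM hMc hstp heq hdiff hhA hA32 hE hReg hAB h1 h2 h3 h4 h5 h6 h7 h8 h9
    linarith only [h11, h12, h13, h14, h15, hBB, hd0, heR, hβ0]
  have hVn : V (n + 1) ≤ 1 / 10 ^ 4 * β + e * R / 7 := by
    have h10 : V (n + 1) = |B (n + 1)| + |B n| := by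
      show |B (n + 1)| + |B (n + 1 - 1)| = _
      rw [add_sub_cancel_right]
    rw [h10]
    exact (sign_Sgc hsg).trans hstep
  have hfin : β ≤ e * R := by
    have h10 := hV0 (n + 1)
    rw [hβ] at hVn ⊢
    linarith
  intro i hi
  exact (hβb i (by omega)).trans hfin

end Helper83.TH
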