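import Pool.Agent.Helper83.TH.St

/-!
# MP_b39980_an, project TH, module Sh: sharp local estimates for `A`, `B` (helper80)
-/

set_option autoImplicit false

open Set Filter Topology
open Helper85.HN (hen Orb Bd KK E0 dl ak)

noncomputable section

namespace Helper83.TH

private theorem ee_odd_Sh (n d : ℤ) (hd : Odd d) : ee (n + d) = -ee n := by
  unfold ee
  have h1 : ¬ Even d := Int.not_even_iff_odd.2 hd
  by_cases hn : Even n
  · rw [if_pos hn, if_neg]
    rw [Int.even_add]; tauto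
  · rw [if_neg hn, if_pos]
    · norm_num
    · rw [Int.even_add]; tauto

private theorem ee_two_Sh (n : ℤ) : ee (n + 2) = ee n := by
  have : n + 2 = (n + 1) + 1 := by ring
  rw [this, ee_odd_Sh _ 1 odd_one, ee_odd_Sh _ 1 odd_one, neg_neg]

private theorem ee_abs_Sh (n : ℤ) : |ee n| = 1 := by
  unfold ee; split_ifs <;> simp

private theorem dd_AA_Sh (k : ℕ) (y : ℤ → ℝ) : ∀ (m : ℕ) (i : ℤ),
    dd m (AA k y) i = (dd m y i + dd m (II k y) i) / 2
  | 0, i => rfl
  | m + 1, i => by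
    change dd m (AA k y) (i + 2) - dd m (AA k y) i = ((dd m y (i + 2) - dd m y i) +
      (dd m (II k y) (i + 2) - dd m (II k y) i)) / 2
    rw [dd_AA_Sh k y m, dd_AA_Sh k y m]; ring

private theorem dd_BB_Sh (k : ℕ) (y : ℤ → ℝ) : ∀ (m : ℕ) (i : ℤ),
    dd m (BB k y) i = ee i * (dd m y i - dd m (II k y) i) / 2
  | 0, i => rfl
  | m + 1, i => by
    change dd m (BB k y) (i + 2) - dd m (BB k y) i = ee i * ((dd m y (i + 2) - dd m y i) -
      (dd m (II k y) (i + 2) - dd m (II k y) i)) / 2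
    rw [dd_BB_Sh k y m, dd_BB_Sh k y m, ee_two_Sh]; ring

private theorem II_ee_Sh (k : ℕ) (u : ℤ → ℝ) (n : ℤ) : II k (fun i => ee i * u i) n = -ee n * II k u n := by
  unfold II
  rw [Finset.mul_sum]
  refine Finset.sum_congr rfl fun j _ => ?_
  have h1 : ee (n + (2 * (j : ℤ) - 1)) = -ee n := ee_odd_Sh n _ ⟨(j : ℤ) - 1, by ring⟩
  have h2 : ee (n - (2 * (j : ℤ) - 1)) = -ee n := by
    rw [sub_eq_add_neg]; exact ee_odd_Sh n _ ⟨-(j : ℤ), by ring⟩
  beta_reduce
  rw [h1, h2]; ring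

private theorem abs_half_Sh (a b c : ℝ) (ha : |a| ≤ c) (hb : |b| ≤ c) : |(a + b) / 2| ≤ c ∧ |(a - b) / 2| ≤ c := by
  rw [abs_le] at ha hb
  constructor <;> rw [abs_le] <;> constructor <;> linarith [ha.1, ha.2, hb.1, hb.2]

theorem hSh (h1 : StIib) (h2 : StDd) : StSh := by
  obtain ⟨_, b2, b3, b4⟩ := h1
  obtain ⟨_, _, _, _, d5, _⟩ := h2
  intro k y n R h hk hR hh hh18 hkh hreg
  have hk0 : (3 : ℝ) ≤ k := by exact_mod_cast hk
  have hkZ : (3 : ℤ) ≤ k := by exact_mod_cast hk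
  have hkh' : (k : ℝ) * h ≤ 1 / 10 ^ 6 := by
    rw [le_div_iff₀ (by norm_num)]; linarith
  have hkh0 : 0 ≤ (k : ℝ) * h := by positivity
  have r1 : ∀ i : ℤ, n - 10 * (k : ℤ) ≤ i → i + 2 ≤ n + 10 * (k : ℤ) → |dd 1 y i| ≤ R := by
    intro i hi hi'
    have := hreg 1 i le_rfl hi (by push_cast; linarith)
    simpa using this
  have r2 : ∀ i : ℤ, n - 10 * (k : ℤ) ≤ i → i + 4 ≤ n + 10 * (k : ℤ) → |dd 2 y i| ≤ 84 * h * R := by
    intro i hi hi'
    have := hreg 2 i (by norm_num) hi (by push_cast; linarith)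
    norm_num at this
    linarith
  have r3 : ∀ i : ℤ, n - 10 * (k : ℤ) ≤ i → i + 6 ≤ n + 10 * (k : ℤ) → |dd 3 y i| ≤ 14112 * h ^ 2 * R := by
    intro i hi hi'
    have := hreg 3 i (by norm_num) hi (by push_cast; linarith)
    norm_num [Nat.factorial, mul_pow] at this
    linarith
  have r4 : ∀ i : ℤ, n - 10 * (k : ℤ) ≤ i → i + 8 ≤ n + 10 * (k : ℤ) → |dd 4 y i| ≤ 6 * (84 * h) ^ 3 * R := by
    intro i hi hi'
    have := hreg 4 i (by norm_num) hi (by push_cast; linarith)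
    norm_num [Nat.factorial] at this
    linarith
  have r5 : ∀ i : ℤ, n - 10 * (k : ℤ) ≤ i → i + 10 ≤ n + 10 * (k : ℤ) → |dd 5 y i| ≤ 24 * (84 * h) ^ 4 * R := by
    intro i hi hi'
    have := hreg 5 i (by norm_num) hi (by push_cast; linarith)
    norm_num [Nat.factorial] at this
    linarith
  -- bound of the interpolation of differences
  have bII : ∀ (m : ℕ) (i : ℤ) (S T : ℝ), 0 ≤ T → |dd m y (i + 1)| ≤ S → |dd m y (i - 1)| ≤ S →
      (∀ j : ℤ, i - (2 * (k : ℤ) - 1) ≤ j → j + 4 ≤ i + (2 * (k : ℤ) - 1) → |dd (m + 2) y j| ≤ T) →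
      |dd m (II k y) i| ≤ S + (k : ℝ) / 5 * T := by
    intro m i S T hT hS1 hS2 hj
    rw [b4]
    have h1 := b2 k (dd m y) i T (by linarith) hT (by
      intro j hj1 hj2
      rw [d5, add_comm 2 m]
      exact hj j hj1 hj2)
    have h2 := abs_le.1 h1
    have h3 := abs_le.1 (abs_half_Sh _ _ S hS1 hS2).1
    rw [abs_le]
    constructor <;> linarith [h2.1, h2.2, h3.1, h3.2]
  have hA2 : ∀ i : ℤ, |i - n| ≤ 2 * (k : ℤ) + 2 → |dd 1 (AA k y) i| ≤ 11 / 10 * R ∧ |dd 1 (BB k y) i| ≤ 11 / 10 * R ∧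
      |dd 2 (AA k y) i| ≤ 90 * h * R ∧ |dd 2 (BB k y) i| ≤ 90 * h * R ∧
      |dd 3 (AA k y) i| ≤ 15000 * h ^ 2 * R ∧ |dd 3 (BB k y) i| ≤ 15000 * h ^ 2 * R := by
    intro i hi
    have hi' := abs_le.1 hi
    have hi1 := hi'.1
    have hi2 := hi'.2
    have comb : ∀ (m : ℕ) (c : ℝ), |dd m y i| ≤ c → |dd m (II k y) i| ≤ c →
        |dd m (AA k y) i| ≤ c ∧ |dd m (BB k y) i| ≤ c := by
      intro m c hc1 hc2
      have := abs_half_Sh _ _ c hc1 hc2
      refine ⟨?_, ?_⟩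
      · rw [dd_AA_Sh]; exact this.1
      · rw [dd_BB_Sh, mul_div_assoc, abs_mul, ee_abs_Sh, one_mul]; exact this.2
    have q1 : |dd 1 (II k y) i| ≤ R + (k : ℝ) / 5 * (14112 * h ^ 2 * R) :=
      bII 1 i R _ (by positivity) (r1 _ (by linarith) (by linarith)) (r1 _ (by linarith) (by linarith))
        (fun j hj1 hj2 => r3 j (by linarith) (by linarith))
    have q2 : |dd 2 (II k y) i| ≤ 84 * h * R + (k : ℝ) / 5 * (6 * (84 * h) ^ 3 * R) :=
      bII 2 i _ _ (by positivity) (r2 _ (by linarith) (by linarith)) (r2 _ (by linarith) (by linarith))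
        (fun j hj1 hj2 => r4 j (by linarith) (by linarith))
    have q3 : |dd 3 (II k y) i| ≤ 14112 * h ^ 2 * R + (k : ℝ) / 5 * (24 * (84 * h) ^ 4 * R) :=
      bII 3 i _ _ (by positivity) (r3 _ (by linarith) (by linarith)) (r3 _ (by linarith) (by linarith))
        (fun j hj1 hj2 => r5 j (by linarith) (by linarith))
    have s1 : (k : ℝ) / 5 * (14112 * h ^ 2 * R) ≤ 1 / 10 * R := by
      have e : (k : ℝ) / 5 * (14112 * h ^ 2 * R) = ((k : ℝ) * h) * (h * (14112 / 5)) * R := by ring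
      rw [e]
      have : ((k : ℝ) * h) * (h * (14112 / 5)) ≤ 1 / 10 ^ 6 * (1 / 10 ^ 18 * (14112 / 5)) := by gcongr
      exact mul_le_mul_of_nonneg_right (this.trans (by norm_num)) hR
    have s2 : (k : ℝ) / 5 * (6 * (84 * h) ^ 3 * R) ≤ 6 * h * R := by
      have e : (k : ℝ) / 5 * (6 * (84 * h) ^ 3 * R) = ((k : ℝ) * h) * (h * (6 * 84 ^ 3 / 5)) * (h * R) := by ring
      rw [e]
      have h1 : ((k : ℝ) * h) * (h * (6 * 84 ^ 3 / 5)) ≤ 1 / 10 ^ 6 * (1 / 10 ^ 18 * (6 * 84 ^ 3 / 5)) := by gcongr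
      have h2 : ((k : ℝ) * h) * (h * (6 * 84 ^ 3 / 5)) ≤ 6 := h1.trans (by norm_num)
      calc _ ≤ 6 * (h * R) := mul_le_mul_of_nonneg_right h2 (by positivity)
        _ = 6 * h * R := by ring
    have s3 : (k : ℝ) / 5 * (24 * (84 * h) ^ 4 * R) ≤ 888 * h ^ 2 * R := by
      have e : (k : ℝ) / 5 * (24 * (84 * h) ^ 4 * R) = ((k : ℝ) * h) * (h * (24 * 84 ^ 4 / 5)) * (h ^ 2 * R) := by
        ring
      rw [e]
      have h1 : ((k : ℝ) * h) * (h * (24 * 84 ^ 4 / 5)) ≤ 1 / 10 ^ 6 * (1 / 10 ^ 18 * (24 * 84 ^ 4 / 5)) := by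
        gcongr
      have h2 : ((k : ℝ) * h) * (h * (24 * 84 ^ 4 / 5)) ≤ 888 := h1.trans (by norm_num)
      calc _ ≤ 888 * (h ^ 2 * R) := mul_le_mul_of_nonneg_right h2 (by positivity)
        _ = 888 * h ^ 2 * R := by ring
    have hhR : 0 ≤ h * R := by positivity
    have hh2R : 0 ≤ h ^ 2 * R := by positivity
    have c1 := comb 1 (11 / 10 * R) ((r1 i (by linarith) (by linarith)).trans (by linarith)) (q1.trans (by linarith))
    have c2 := comb 2 (90 * h * R) ((r2 i (by linarith) (by linarith)).trans (by linarith)) (q2.trans (by linarith))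
    have c3 := comb 3 (15000 * h ^ 2 * R) ((r3 i (by linarith) (by linarith)).trans (by linarith))
      (q3.trans (by linarith))
    exact ⟨c1.1, c1.2, c2.1, c2.2, c3.1, c3.2⟩
  -- neighbours
  have hnb : ∀ j : ℤ, n ≤ j → j ≤ n + 1 → |y j - II k y (j - 1)| ≤ R ∧ |II k y j - y (j - 1)| ≤ R := by
    intro j hj1 hj2
    have s0 : (k : ℝ) / 5 * (84 * h * R) ≤ 1 / 2 * R := by
      have e : (k : ℝ) / 5 * (84 * h * R) = ((k : ℝ) * h) * (84 / 5) * R := by ring
      rw [e]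
      have : ((k : ℝ) * h) * (84 / 5) ≤ 1 / 10 ^ 6 * (84 / 5) := by gcongr
      exact mul_le_mul_of_nonneg_right (this.trans (by norm_num)) hR
    have p1 := b2 k y (j - 1) (84 * h * R) (by linarith) (by positivity)
      (fun i hi1 hi2 => r2 i (by linarith) (by linarith))
    have p2 := b2 k y j (84 * h * R) (by linarith) (by positivity)
      (fun i hi1 hi2 => r2 i (by linarith) (by linarith))
    have t1 := r1 (j - 2) (by linarith) (by linarith)
    have t2 := r1 (j - 1) (by linarith) (by linarith)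
    have t1' : |y j - y (j - 1 - 1)| ≤ R := by
      have e : dd 1 y (j - 2) = y j - y (j - 1 - 1) := by
        change y (j - 2 + 2) - y (j - 2) = _
        rw [show j - 2 + 2 = j by ring, show j - 1 - 1 = j - 2 by ring]
      rw [← e]; exact t1
    have t2' : |y (j + 1) - y (j - 1)| ≤ R := by
      have e : dd 1 y (j - 1) = y (j + 1) - y (j - 1) := by
        change y (j - 1 + 2) - y (j - 1) = _
        rw [show j - 1 + 2 = j + 1 by ring]
      rw [← e]; exact t2
    rw [show j - 1 + 1 = j by ring] at p1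
    have p1' := abs_le.1 p1
    have p2' := abs_le.1 p2
    have t1'' := abs_le.1 t1'
    have t2'' := abs_le.1 t2'
    refine ⟨?_, ?_⟩ <;> rw [abs_le] <;> constructor <;>
      linarith [p1'.1, p1'.2, p2'.1, p2'.2, t1''.1, t1''.2, t2''.1, t2''.2]
  have hA1 : ∀ j : ℤ, n ≤ j → j ≤ n + 1 → |AA k y j - AA k y (j - 1)| ≤ R ∧ |BB k y j - BB k y (j - 1)| ≤ R := by
    intro j hj1 hj2
    obtain ⟨u1, u2⟩ := hnb j hj1 hj2
    have hc := abs_half_Sh _ _ R u1 u2
    refine ⟨?_, ?_⟩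
    · have e : AA k y j - AA k y (j - 1) = ((y j - II k y (j - 1)) + (II k y j - y (j - 1))) / 2 := by
        unfold AA; ring
      rw [e]; exact hc.1
    · have e0 : ee (j - 1) = -ee j := by
        rw [sub_eq_add_neg]; exact ee_odd_Sh j (-1) ⟨-1, by ring⟩
      have e : BB k y j - BB k y (j - 1) = ee j * (((y j - II k y (j - 1)) - (II k y j - y (j - 1))) / 2) := by
        unfold BB; rw [e0]; ring
      rw [e, abs_mul, ee_abs_Sh, one_mul]; exact hc.2
  have g1 := hA1 n le_rfl (by linarith)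
  have g2 := hA1 (n + 1) (by linarith) le_rfl
  rw [show n + 1 - 1 = n by ring] at g2
  have hk1 : 1 ≤ k := by linarith
  have m1 := b2 k (AA k y) n (90 * h * R) hk1 (by positivity) (fun i hi1 hi2 =>
    (hA2 i (abs_le.2 ⟨by linarith, by linarith⟩)).2.2.1)
  have m2 := b2 k (BB k y) n (90 * h * R) hk1 (by positivity) (fun i hi1 hi2 =>
    (hA2 i (abs_le.2 ⟨by linarith, by linarith⟩)).2.2.2.1)
  have e5 : (k : ℝ) / 5 * (90 * h * R) = 18 * (k : ℝ) * h * R := by ring
  rw [e5] at m1 m2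
  have i1 : II k (AA k y) n = (II k y n + II k (II k y) n) / 2 := by
    have := b3 k (fun _ => 0) (fun i => y i + 1 * II k y i) (1 / 2) n
    have z : II k (fun _ => (0 : ℝ)) n = 0 := by unfold II; simp
    rw [z, b3 k y (II k y) 1 n] at this
    have e : (fun i => (0 : ℝ) + 1 / 2 * (y i + 1 * II k y i)) = AA k y := by
      funext i; unfold AA; ring
    rw [e] at this
    rw [this]; ring
  have i2 : II k (BB k y) n = -ee n * ((II k y n - II k (II k y) n) / 2) := by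
    have h3 := b3 k y (II k y) (-1) n
    have h4 := b3 k (fun _ => 0) (fun i => y i + (-1) * II k y i) (1 / 2) n
    have z : II k (fun _ => (0 : ℝ)) n = 0 := by unfold II; simp
    rw [z, h3] at h4
    have h5 := II_ee_Sh k (fun i => (0 : ℝ) + 1 / 2 * (y i + (-1) * II k y i)) n
    rw [h4] at h5
    have e : (fun i => ee i * ((0 : ℝ) + 1 / 2 * (y i + (-1) * II k y i))) = BB k y := by
      funext i; unfold BB; ring
    rw [e] at h5
    rw [h5]; ring
  refine ⟨⟨g1.1, g2.1, g1.2, g2.2⟩, hA2, ?_, ?_⟩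
  · have e : AA k y n - (AA k y (n + 1) + AA k y (n - 1)) / 2 =
        (II k (AA k y) n - (AA k y (n + 1) + AA k y (n - 1)) / 2) + (y n - II k (II k y) n) / 2 := by
      rw [i1]; unfold AA; ring
    rw [e]
    refine (abs_add_le _ _).trans (add_le_add m1 ?_)
    rw [abs_div, abs_two]
  · have e : BB k y n - (BB k y (n + 1) + BB k y (n - 1)) / 2 =
        (II k (BB k y) n - (BB k y (n + 1) + BB k y (n - 1)) / 2) + ee n * ((y n - II k (II k y) n) / 2) := by
      rw [i2]; unfold BB; ring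
    rw [e]
    refine (abs_add_le _ _).trans (add_le_add m2 ?_)
    rw [abs_mul, ee_abs_Sh, one_mul, abs_div, abs_two]

end Helper83.TH
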