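import Pool.Agent.Helper83.TH.St

/-!
# Project TH: module Slo (slow variation of the local size)
-/

set_option autoImplicit false

open Set Filter Topology
open Helper85.HN (hen Orb Bd KK E0 dl ak)

noncomputable section

namespace Helper83.TH

private theorem exp_half_Slo : Real.exp (1 / 2) ≤ 2 := by
  have h1 : Real.exp (1 / 2) * Real.exp (1 / 2) = Real.exp 1 := by
    rw [← Real.exp_add]; norm_num
  have h2 := Real.exp_one_lt_d9
  have h3 := Real.exp_pos (1 / 2)
  nlinarith

/-- MODULE Slo. -/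
theorem hSlo : StSlo := by
  intro θ h y N hh hh2 hθ0 hθ hN hY hy n i hi
  obtain ⟨v, hv⟩ : ∃ v : ℤ → ℝ, ∀ i, v i = y (i + 1) - y (i - 1) := ⟨_, fun _ => rfl⟩
  obtain ⟨V, hV⟩ : ∃ V : ℤ → ℝ, ∀ i, V i = |v i| + |v (i - 1)| := ⟨_, fun _ => rfl⟩
  have hh3 : h ≤ 1 / 10000 := by norm_num at hh2 ⊢; linarith
  have hθh0 : 0 ≤ θ * h := mul_nonneg hθ0 hh.le
  have hθh : θ * h ≤ 16 * h := mul_le_mul_of_nonneg_right hθ hh.le
  have hκ : ∀ i, ∃ κ : ℝ, |κ| ≤ 30 * h ∧ v (i + 1) = (1 - θ * h) * v (i - 1) + κ * v i := by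
    intro i
    refine ⟨h * (y (i + 1) + y (i - 1) + θ), ?_, ?_⟩
    · rw [abs_mul, abs_of_pos hh]
      have h1 := abs_le.1 (hy (i + 1))
      have h2 := abs_le.1 (hy (i - 1))
      have h3 : |y (i + 1) + y (i - 1) + θ| ≤ 30 := by
        rw [abs_le]
        constructor <;> linarith [h1.1, h1.2, h2.1, h2.2]
      nlinarith
    · have e1 := hY (i + 1)
      have e2 := hY (i - 1)
      rw [show i + 1 - 1 = i by ring] at e1
      rw [show i - 1 + 1 = i by ring] at e2
      rw [hv, hv, hv, show i + 1 - 1 = i by ring, show i - 1 + 1 = i by ring]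
      linear_combination e1 - e2
  have hup : ∀ i, V (i + 1) ≤ (1 + 50 * h) * V i := by
    intro i
    obtain ⟨κ, hκ1, e⟩ := hκ i
    rw [hV, hV, show i + 1 - 1 = i by ring, e]
    have h1 := abs_add_le ((1 - θ * h) * v (i - 1)) (κ * v i)
    rw [abs_mul, abs_mul, abs_of_nonneg (by linarith : (0 : ℝ) ≤ 1 - θ * h)] at h1
    have h2 : |κ| * |v i| ≤ 30 * h * |v i| := mul_le_mul_of_nonneg_right hκ1 (abs_nonneg _)
    have h3 : (1 - θ * h) * |v (i - 1)| ≤ |v (i - 1)| := by
      nlinarith [abs_nonneg (v (i - 1))]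
    nlinarith [abs_nonneg (v (i - 1)), abs_nonneg (v i), mul_nonneg hh.le (abs_nonneg (v i)),
      mul_nonneg hh.le (abs_nonneg (v (i - 1)))]
  have hdown : ∀ i, V i ≤ (1 + 50 * h) * V (i + 1) := by
    intro i
    obtain ⟨κ, hκ1, e⟩ := hκ i
    rw [hV, hV, show i + 1 - 1 = i by ring]
    set a := |v (i - 1)| with ha
    set b := |v i| with hb
    set c := |v (i + 1)| with hc
    have ha0 : 0 ≤ a := abs_nonneg _
    have hb0 : 0 ≤ b := abs_nonneg _
    have hc0 : 0 ≤ c := abs_nonneg _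
    have h1 : (1 - θ * h) * a ≤ c + 30 * h * b := by
      have e2 : (1 - θ * h) * v (i - 1) = v (i + 1) - κ * v i := by rw [e]; ring
      have h2 : |(1 - θ * h) * v (i - 1)| ≤ |v (i + 1)| + |κ * v i| := by
        rw [e2]; exact abs_sub _ _
      rw [abs_mul, abs_mul, abs_of_nonneg (by linarith : (0 : ℝ) ≤ 1 - θ * h)] at h2
      have h3 : |κ| * |v i| ≤ 30 * h * |v i| := mul_le_mul_of_nonneg_right hκ1 (abs_nonneg _)
      linarith
    have h2 : (1 - 16 * h) * a ≤ c + 30 * h * b := by nlinarith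
    -- multiply by 1 + 34 h
    have h3 : a ≤ (1 + 50 * h) * c + 50 * h * b := by
      have h4 : a ≤ (1 + 33 * h) * ((1 - 16 * h) * a) := by
        have : 0 ≤ (17 - 528 * h) * h * a := by
          apply mul_nonneg (mul_nonneg (by linarith) hh.le) ha0
        nlinarith
      have h5 : (1 + 33 * h) * ((1 - 16 * h) * a) ≤ (1 + 33 * h) * (c + 30 * h * b) :=
        mul_le_mul_of_nonneg_left h2 (by linarith)
      have h6 : (1 + 33 * h) * (c + 30 * h * b) ≤ (1 + 50 * h) * c + 50 * h * b := by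
        have h7 : 0 ≤ h * c := mul_nonneg hh.le hc0
        have h8 : 0 ≤ h * b := mul_nonneg hh.le hb0
        have h9 : h * (h * b) ≤ 1 / 10000 * (h * b) := mul_le_mul_of_nonneg_right hh3 h8
        nlinarith
      linarith
    nlinarith [mul_nonneg hh.le hb0]
  have hV0 : ∀ i, 0 ≤ V i := fun i => by rw [hV]; positivity
  have hfac : ∀ j : ℕ, V (n + j) ≤ (1 + 50 * h) ^ j * V n ∧ V (n - j) ≤ (1 + 50 * h) ^ j * V n := by
    intro j
    induction j with
    | zero => simp
    | succ j ih =>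
      constructor
      · have h1 := hup (n + j)
        have h2 := mul_le_mul_of_nonneg_left ih.1 (by linarith : (0 : ℝ) ≤ 1 + 50 * h)
        rw [show n + ((j + 1 : ℕ) : ℤ) = n + j + 1 by push_cast; ring, pow_succ]
        linarith
      · have h1 := hdown (n - j - 1)
        rw [show n - (j : ℤ) - 1 + 1 = n - j by ring] at h1
        have h2 := mul_le_mul_of_nonneg_left ih.2 (by linarith : (0 : ℝ) ≤ 1 + 50 * h)
        rw [show n - ((j + 1 : ℕ) : ℤ) = n - j - 1 by push_cast; ring, pow_succ]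
        linarith
  have hpow : ∀ j : ℕ, j ≤ N → (1 + 50 * h) ^ j ≤ 2 := by
    intro j hj
    have hjN : (j : ℝ) ≤ N := by exact_mod_cast hj
    have h1 : (1 + 50 * h) ^ j ≤ Real.exp (50 * h) ^ j := by
      refine pow_le_pow_left₀ (by linarith) ?_ j
      have := Real.add_one_le_exp (50 * h)
      linarith
    have h2 : Real.exp (50 * h) ^ j = Real.exp (j * (50 * h)) := by
      rw [← Real.exp_nat_mul]
    have h3 : (j : ℝ) * (50 * h) ≤ 1 / 2 := by
      have h4 : (j : ℝ) * h ≤ N * h := mul_le_mul_of_nonneg_right hjN hh.le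
      have h5 : (10 : ℝ) ^ 4 * (N : ℝ) * h = 10000 * (N * h) := by ring
      rw [h5] at hN
      nlinarith
    rw [h2] at h1
    exact h1.trans ((Real.exp_le_exp.2 h3).trans exp_half_Slo)
  have hRR : RR y n = 2 * V n := by
    unfold RR
    rw [hV, hv, hv, show n - 1 + 1 = n by ring, show n - 1 - 1 = n - 2 by ring]
  have hVi : V i ≤ 2 * V n := by
    rcases le_total n i with hni | hni
    · obtain ⟨j, hj⟩ := Int.eq_ofNat_of_zero_le (sub_nonneg.2 hni)
      have hj2 : j ≤ N := by
        rw [hj] at hi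
        have := (abs_le.1 hi).2
        exact_mod_cast this
      have e : i = n + j := by linarith
      have h1 := (hfac j).1
      rw [← e] at h1
      exact h1.trans (mul_le_mul_of_nonneg_right (hpow j hj2) (hV0 n))
    · obtain ⟨j, hj⟩ := Int.eq_ofNat_of_zero_le (sub_nonneg.2 hni)
      have hj2 : j ≤ N := by
        have h2 : -(j : ℤ) = i - n := by linarith
        rw [← h2, abs_neg] at hi
        have := (abs_le.1 hi).2
        exact_mod_cast this
      have e : i = n - j := by linarith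
      have h1 := (hfac j).2
      rw [← e] at h1
      exact h1.trans (mul_le_mul_of_nonneg_right (hpow j hj2) (hV0 n))
  rw [← hv, hRR]
  refine le_trans ?_ hVi
  rw [hV]
  linarith [abs_nonneg (v (i - 1))]

end Helper83.TH
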