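import Pool.Agent.Helper83.TH.St

/-!
# Project TH, module Stp: one step of the Lyapunov function
-/

set_option autoImplicit false

open Set Filter Topology
open Helper85.HN (hen Orb Bd KK E0 dl ak)

namespace Helper83.TH

private theorem sg_mul (x : ℝ) : sg x * x = |x| := by
  unfold sg
  split_ifs with h
  · rw [one_mul, abs_of_nonneg h]
  · rw [abs_of_neg (not_le.1 h)]; ring

private theorem sg_abs (x z : ℝ) : sg x * z ≤ |z| := by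
  unfold sg
  split_ifs with h
  · rw [one_mul]; exact le_abs_self z
  · have := neg_abs_le z
    linarith

private theorem sg_abs' (x z : ℝ) : -|z| ≤ sg x * z := by
  unfold sg
  split_ifs with h
  · rw [one_mul]; exact neg_abs_le z
  · have := le_abs_self z
    linarith

/-- if the signs differ then the product is nonpositive -/
private theorem sg_ne (x z : ℝ) (h : sg x ≠ sg z) : x * z ≤ 0 := by
  unfold sg at h
  split_ifs at h with h1 h2 h2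
  · exact absurd rfl h
  · exact mul_nonpos_of_nonneg_of_nonpos h1 (not_le.1 h2).le
  · exact mul_nonpos_of_nonpos_of_nonneg (not_le.1 h1).le h2
  · exact absurd rfl h

/-- same sign: the bound of `X` -/
private theorem same_Stp (θ h e b s ρ L L' ε : ℝ) (h0 : 0 < h) (hh : h ≤ 1 / 10 ^ 18)
    (θ0 : 0 < θ) (θ16 : θ ≤ 16) (e0 : 0 < e) (he : 10 ^ 13 * e ≤ θ * h) (ρ0 : 0 ≤ ρ)
    (hεb : ε * b = |b|) (hε : ∀ z : ℝ, ε * z ≤ |z|)
    (hG : |L' - L + 4 * θ * h ^ 2 * b * s ^ 2| ≤ 1 / 10 ^ 10 * θ * h * (|b| * |s|) * (h * ρ)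
      + 3 * θ ^ 2 * h ^ 2 * |s| * (h * ρ) + 4 * θ * h * (h * ρ) ^ 2 + h * e * (h * ρ) ^ 2) :
    10 ^ 6 / (θ * h ^ 2) * (ε * L' - ε * L) ≤ -(4 * 10 ^ 6 * (|b| * s ^ 2)) +
      1 / 10 ^ 4 * (|b| * |s|) * ρ + 1 / 10 ^ 10 * |s| * ρ + 1 / 10 ^ 10 * ρ ^ 2 := by
  have h1 : ε * L' - ε * L = ε * (L' - L + 4 * θ * h ^ 2 * b * s ^ 2) -
      4 * θ * h ^ 2 * |b| * s ^ 2 := by
    rw [← hεb]; ring
  have h2 := (hε (L' - L + 4 * θ * h ^ 2 * b * s ^ 2)).trans hG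
  have hθh : 0 < θ * h ^ 2 := by positivity
  have h3 : 10 ^ 6 / (θ * h ^ 2) * (ε * L' - ε * L) ≤ 10 ^ 6 / (θ * h ^ 2) *
      (1 / 10 ^ 10 * θ * h * (|b| * |s|) * (h * ρ) + 3 * θ ^ 2 * h ^ 2 * |s| * (h * ρ)
        + 4 * θ * h * (h * ρ) ^ 2 + h * e * (h * ρ) ^ 2 - 4 * θ * h ^ 2 * |b| * s ^ 2) := by
    apply mul_le_mul_of_nonneg_left _ (by positivity)
    rw [h1]; linarith
  refine h3.trans ?_
  have h4 : 10 ^ 6 / (θ * h ^ 2) *
      (1 / 10 ^ 10 * θ * h * (|b| * |s|) * (h * ρ) + 3 * θ ^ 2 * h ^ 2 * |s| * (h * ρ)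
        + 4 * θ * h * (h * ρ) ^ 2 + h * e * (h * ρ) ^ 2 - 4 * θ * h ^ 2 * |b| * s ^ 2) =
      -(4 * 10 ^ 6 * (|b| * s ^ 2)) + 1 / 10 ^ 4 * (|b| * |s|) * ρ +
        (3 * 10 ^ 6 * θ * h) * (|s| * ρ) + (4 * 10 ^ 6 * h + 10 ^ 6 * (e / θ) * h) * ρ ^ 2 := by
    field_simp
    ring
  rw [h4]
  have h5 : 3 * 10 ^ 6 * θ * h ≤ 1 / 10 ^ 10 := by
    have : θ * h ≤ 16 * (1 / 10 ^ 18) := mul_le_mul θ16 hh h0.le (by norm_num)
    nlinarith
  have h6 : 4 * 10 ^ 6 * h + 10 ^ 6 * (e / θ) * h ≤ 1 / 10 ^ 10 := by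
    have h7 : e / θ ≤ h := by
      rw [div_le_iff₀ θ0]
      nlinarith
    have h8 : e / θ * h ≤ h * h := mul_le_mul_of_nonneg_right h7 h0.le
    nlinarith
  have h9 : (3 * 10 ^ 6 * θ * h) * (|s| * ρ) ≤ 1 / 10 ^ 10 * (|s| * ρ) :=
    mul_le_mul_of_nonneg_right h5 (mul_nonneg (abs_nonneg _) ρ0)
  have h10 : (4 * 10 ^ 6 * h + 10 ^ 6 * (e / θ) * h) * ρ ^ 2 ≤ 1 / 10 ^ 10 * ρ ^ 2 :=
    mul_le_mul_of_nonneg_right h6 (by positivity)
  linarith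

/-- different signs: the bound of `X` -/
private theorem diff_Stp (θ h e k ρ L L' D : ℝ) (h0 : 0 < h) (θ0 : 0 < θ) (ρ0 : 0 ≤ ρ)
    (he : 10 ^ 13 * k ^ 2 * e ≤ θ * h) (hL : |L| ≤ 100 * k ^ 2 * (e * (h * ρ)))
    (hL' : |L'| ≤ 100 * k ^ 2 * (e * (h * ρ))) (hD : D ≤ |L| + |L'|) :
    10 ^ 6 / (θ * h ^ 2) * D ≤ 1 / 10 ^ 4 * ρ := by
  have hθh : 0 < θ * h ^ 2 := by positivity
  have h1 : D ≤ 200 * k ^ 2 * (e * (h * ρ)) := by linarith
  have h2 : 10 ^ 6 / (θ * h ^ 2) * D ≤ 10 ^ 6 / (θ * h ^ 2) * (200 * k ^ 2 * (e * (h * ρ))) :=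
    mul_le_mul_of_nonneg_left h1 (by positivity)
  refine h2.trans ?_
  rw [div_mul_eq_mul_div, div_le_iff₀ hθh]
  have h3 : 200 * k ^ 2 * e ≤ 1 / 10 ^ 10 * (θ * h) := by
    have := mul_le_mul_of_nonneg_left he (show (0:ℝ) ≤ 200 / 10 ^ 13 by norm_num)
    have h5 : 0 < θ * h := by positivity
    nlinarith
  have h4 := mul_le_mul_of_nonneg_right h3 (mul_nonneg h0.le ρ0)
  have h5 : 0 ≤ θ * h ^ 2 * ρ := by positivity
  nlinarith

theorem hStp (h1 : StGro) (h2 : StLsm) (h3 : StSgc) (h4 : StRq) (h5 : StTs) (h6 : StAlG)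
    (h7 : StAlP) (h8 : StAlE) (h9 : StAlS) (h10 : StAp) (_h11 : StGl) (h12 : StReg) (h13 : StAb)
    (h14 : StSh) : StStp := by
  intro l θ h y hHyp hYe hBd n
  obtain ⟨hl, h0, hh, θ0, θ16, hlh, hlet⟩ := id hHyp
  have hlR : (1 : ℝ) ≤ l := by exact_mod_cast hl
  have hθh : θ * h ≤ 16 * (1 / 10 ^ 18) := mul_le_mul θ16 hh h0.le (by norm_num)
  have hθh0 : 0 < θ * h := mul_pos θ0 h0
  have hy7 : ∀ n, |y n| ≤ 7 :=
    h10 θ h y h0 (hh.trans (by norm_num)) θ0 (hθh.trans (by norm_num)) hYe hBd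
  have hk6 : 10 ^ 6 * ((3 * l : ℕ) : ℝ) * h ≤ 1 := by
    push_cast
    refine le_trans ?_ hlh
    have : 0 ≤ 3 * (l : ℝ) * h := by positivity
    nlinarith
  obtain ⟨hReg, R0, R1⟩ := h12 θ h y (3 * l) h0 (hh.trans (by norm_num)) θ0.le θ16 hk6 hYe hy7 n
  have hAb := h13 (3 * l) θ h y (by omega) h0 (hh.trans (by norm_num)) θ0.le θ16 hk6 hYe hy7
  obtain ⟨⟨_, hSA, _, hSB⟩, _⟩ := h14 (3 * l) y n (RR y n) h (by omega) R0 h0 hh hk6 hReg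
  have hRq := h4 l θ h y hHyp hYe hBd n
  obtain ⟨hT1, hT2⟩ := h5 l θ h y hHyp hYe hBd n
  have hGro := h1 l θ h y hHyp hYe hBd n
  have hSgc := h3 l θ h y hHyp hYe hBd n
  have e0 : 0 < et l := by
    unfold et
    positivity
  have he : 10 ^ 13 * et l ≤ θ * h := by
    refine le_trans ?_ hlet
    have h15 : (1 : ℝ) ≤ (3 * (l : ℝ)) ^ 2 := by nlinarith
    nlinarith [mul_le_mul_of_nonneg_right h15 e0.le]
  -- the local size
  obtain ⟨ρ, hρ⟩ : ∃ ρ, RR y n = h * ρ := ⟨RR y n / h, by field_simp⟩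
  have ρ0 : 0 ≤ ρ := by
    by_contra hc
    have : h * ρ < 0 := mul_neg_of_pos_of_neg h0 (not_le.1 hc)
    linarith
  have ρ1 : ρ ≤ 1100 := by
    rw [hρ] at R1
    have : h * ρ ≤ h * 1100 := by linarith
    exact le_of_mul_le_mul_left this h0
  unfold qq at hRq
  generalize AA (3 * l) y = A at hRq hT1 hT2 hGro hSgc hSA hSB hAb ⊢
  generalize BB (3 * l) y = B at hRq hT1 hT2 hGro hSgc hSA hSB hAb ⊢
  rw [hρ] at hSA hSB hRq hT1 hT2 hGro hSgc ⊢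
  have hρΛ : ρ ≤ 5 * (|A n ^ 2 + B n ^ 2 - 1| + 2 * (|B n| * |A n + θ|)) := by
    have : h * ρ ≤ h * (5 * (|A n ^ 2 + B n ^ 2 - 1| + 2 * (|B n| * |A n + θ|))) := by linarith
    exact le_of_mul_le_mul_left this h0
  have hInc : Inc (A n) (B n) (A (n + 1)) (B (n + 1)) θ h ρ :=
    ⟨h0, hh, θ0, θ16, (hAb n).1, (hAb n).2, ρ0, ρ1, hρΛ, hSA, hSB, hT1, hT2⟩
  have hG := h6 _ _ _ _ _ _ _ hInc
  have hP := h7 _ _ _ _ _ _ _ hInc
  -- it suffices to bound `X`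
  have key : ∀ D : ℝ, D = sg (B (n + 1)) * Lf (3 * l) θ h A B (n + 1) - sg (B n) * Lf (3 * l) θ h A B n →
      10 ^ 6 / (θ * h ^ 2) * D + (-(17 / 100 * (A n ^ 2 + B n ^ 2 - 1) ^ 2) -
        1 / 20 * ph (A n) (B n) + 5 * 10 ^ 5 * (|B n| * (A n + θ) ^ 2)) ≤ -(1 / 10 ^ 6 * ρ ^ 2) →
      Ff (3 * l) θ h A B (n + 1) ≤ Ff (3 * l) θ h A B n - 1 / 10 ^ 6 * (h * ρ) ^ 2 := by
    intro D hD hX
    have h15 := mul_le_mul_of_nonneg_left hX h0.le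
    have h16 : h * (10 ^ 6 / (θ * h ^ 2) * D) = 10 ^ 6 / (θ * h) * D := by
      field_simp
    have h17 : (h * ρ) ^ 2 ≤ h * ρ ^ 2 := by
      have h18 : h ^ 2 ≤ h * 1 := by rw [pow_two]; exact mul_le_mul_of_nonneg_left (hh.trans (by norm_num)) h0.le
      nlinarith [mul_le_mul_of_nonneg_right h18 (sq_nonneg ρ)]
    have h18 : 0 ≤ h * (A n ^ 2 + B n ^ 2 - 1) ^ 2 := by positivity
    have h19 : 0 ≤ h * (|B n| * (A n + θ) ^ 2) := by positivity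
    rw [mul_add, h16, hD] at h15
    unfold Ff
    have h20 : gg θ (A (n + 1)) (B (n + 1)) - 1 / 4 * (A (n + 1) * ph (A (n + 1)) (B (n + 1))) -
        (gg θ (A n) (B n) - 1 / 4 * (A n * ph (A n) (B n))) ≤
        h * (-(17 / 100 * (A n ^ 2 + B n ^ 2 - 1) ^ 2) - 1 / 20 * ph (A n) (B n) +
          5 * 10 ^ 5 * (|B n| * (A n + θ) ^ 2)) := by
      linarith
    have h21 : 10 ^ 6 / (θ * h) * (sg (B (n + 1)) * Lf (3 * l) θ h A B (n + 1)) -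
        10 ^ 6 / (θ * h) * (sg (B n) * Lf (3 * l) θ h A B n) =
        10 ^ 6 / (θ * h) * (sg (B (n + 1)) * Lf (3 * l) θ h A B (n + 1) -
          sg (B n) * Lf (3 * l) θ h A B n) := by ring
    linarith
  refine key _ rfl ?_
  by_cases hs : sg (B n) = sg (B (n + 1))
  · rw [← hs]
    refine h8 (A n) (B n) θ ρ _ θ0 θ16 (hAb n).1 (hAb n).2 ρ0 hρΛ ?_
    exact same_Stp θ h (et l) (B n) (A n + θ) ρ _ _ (sg (B n)) h0 hh θ0 θ16 e0 he ρ0
      (sg_mul _) (sg_abs _) hGro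
  · have hprod := sg_ne _ _ hs
    have hBi := hSgc hprod
    have hβ : 0 ≤ et l * (h * ρ) := by positivity
    have hL : |Lf (3 * l) θ h A B n| ≤ 100 * ((3 * l : ℕ) : ℝ) ^ 2 * (et l * (h * ρ)) := by
      refine h2 (3 * l) θ h A B n _ (by omega) h0 (hh.trans (by norm_num)) θ0.le θ16 hβ ?_
      intro i hi
      refine ⟨(hAb i).1, (hAb i).2, hBi i ?_⟩
      push_cast at hi
      omega
    have hL' : |Lf (3 * l) θ h A B (n + 1)| ≤ 100 * ((3 * l : ℕ) : ℝ) ^ 2 * (et l * (h * ρ)) := by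
      refine h2 (3 * l) θ h A B (n + 1) _ (by omega) h0 (hh.trans (by norm_num)) θ0.le θ16 hβ ?_
      intro i hi
      refine ⟨(hAb i).1, (hAb i).2, hBi i ?_⟩
      push_cast at hi
      rw [abs_le] at hi ⊢
      omega
    refine h9 (A n) (B n) θ ρ _ θ0 θ16 (hAb n).1 (hAb n).2 ρ0 ρ1 hρΛ ?_ ?_
    · have h15 := hBi n (by simp; omega)
      refine h15.trans ?_
      have h16 : et l * h ≤ 1 / 10 ^ 12 := by
        have h17 : et l ≤ 1 := by nlinarith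
        have h18 : et l * h ≤ 1 * h := mul_le_mul_of_nonneg_right h17 h0.le
        exact h18.trans (by rw [one_mul]; exact hh.trans (by norm_num))
      have := mul_le_mul_of_nonneg_right h16 ρ0
      linarith
    · refine diff_Stp θ h (et l) ((3 * l : ℕ) : ℝ) ρ _ _ _ h0 θ0 ρ0 ?_ hL hL' ?_
      · push_cast
        exact hlet
      · have h15 := sg_abs (B (n + 1)) (Lf (3 * l) θ h A B (n + 1))
        have h16 := sg_abs' (B n) (Lf (3 * l) θ h A B n)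
        linarith

end Helper83.TH
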