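import Pool.Agent.Helper83.TH.St

/-!
# MP_b39980_an, project TH, module Sum: telescoping of the Lyapunov function (helper80)
-/

set_option autoImplicit false

open Set Filter Topology
open Helper85.HN (hen Orb Bd KK E0 dl ak)

noncomputable section

namespace Helper83.TH

private theorem ph_bd_Sum (a b : ℝ) : 0 ≤ ph a b ∧ ph a b ≤ |a ^ 2 + b ^ 2 - 1| := by
  unfold ph
  refine ⟨by positivity, ?_⟩
  set q := a ^ 2 + b ^ 2 - 1 with hq
  rcases eq_or_lt_of_le (add_nonneg (abs_nonneg q) (abs_nonneg b)) with h | h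
  · rw [← h, div_zero]; exact abs_nonneg q
  · rw [div_le_iff₀ h, ← sq_abs q]
    nlinarith [abs_nonneg q, abs_nonneg b]

private theorem part2_Sum (θ a b : ℝ) (hθ0 : 0 < θ) (hθ : θ ≤ 16) (ha : |a| ≤ 8) (hb : |b| ≤ 8) :
    |gg θ a b + -(1 / 4 * (a * ph a b))| ≤ 2000 ∧ |gg θ a b - 1 / 4 * (a * ph a b)| ≤ 2000 := by
  have ha2 : a ^ 2 ≤ 64 := by rw [← sq_abs]; nlinarith [abs_nonneg a]
  have hb2 : b ^ 2 ≤ 64 := by rw [← sq_abs]; nlinarith [abs_nonneg b]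
  obtain ⟨p0, p1⟩ := ph_bd_Sum a b
  have hq : |a ^ 2 + b ^ 2 - 1| ≤ 128 := by
    rw [abs_le]; constructor <;> nlinarith [sq_nonneg a, sq_nonneg b]
  have p2 : ph a b ≤ 128 := p1.trans hq
  have e1 : |a * ph a b| ≤ 8 * 128 := by
    rw [abs_mul, abs_of_nonneg p0]
    exact mul_le_mul ha p2 p0 (by norm_num)
  have e2 : |a ^ 3| ≤ 8 ^ 3 := by rw [abs_pow]; exact pow_le_pow_left₀ (abs_nonneg _) ha 3
  have e3 : |a * b ^ 2| ≤ 8 * 64 := by
    rw [abs_mul, abs_of_nonneg (sq_nonneg b)]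
    exact mul_le_mul ha hb2 (sq_nonneg _) (by norm_num)
  have e4 : 0 ≤ θ * b ^ 2 := by positivity
  have e5 : θ * b ^ 2 ≤ 16 * 64 := mul_le_mul hθ hb2 (sq_nonneg _) (by norm_num)
  have f1 := abs_le.1 e1
  have f2 := abs_le.1 e2
  have f3 := abs_le.1 e3
  have f4 := abs_le.1 ha
  have main : |gg θ a b - 1 / 4 * (a * ph a b)| ≤ 2000 := by
    unfold gg
    rw [abs_le]
    constructor <;> linarith [f1.1, f1.2, f2.1, f2.2, f3.1, f3.2, f4.1, f4.2]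
  exact ⟨by rw [← sub_eq_add_neg]; exact main, main⟩

theorem hSum (h1 : StStp) (h2 : StAp) (_h3 : StGl) (h4 : StAb) (h5 : StLsm) : StSum := by
  intro l θ h hyp
  obtain ⟨hl, hh, hh18, hθ, hθ16, hk8, hk13⟩ := id hyp
  obtain ⟨D, hD⟩ : ∃ D : ℝ, D = 10 ^ 6 / (θ * h) * (100 * ((3 * l : ℕ) : ℝ) ^ 2 * 8) + 2000 := ⟨_, rfl⟩
  refine ⟨10 ^ 6 / 4 * (2 * D), fun y hye hbd m N => ?_⟩
  have hl0 : (1 : ℝ) ≤ l := by exact_mod_cast hl
  have hh1000 : h ≤ 1 / 1000 := hh18.trans (by norm_num)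
  have hh100 : h ≤ 1 / 100 := hh18.trans (by norm_num)
  have hθh : θ * h ≤ 1 / 200 := by
    calc θ * h ≤ 16 * (1 / 10 ^ 18) := mul_le_mul hθ16 hh18 hh.le (by norm_num)
      _ ≤ 1 / 200 := by norm_num
  have hy7 := h2 θ h y hh hh1000 hθ hθh hye hbd
  have hk1 : 1 ≤ 3 * l := by omega
  have hk6 : 10 ^ 6 * ((3 * l : ℕ) : ℝ) * h ≤ 1 := by
    push_cast
    have : 0 ≤ (3 * (l : ℝ)) * h := by positivity
    nlinarith
  have hAB := h4 (3 * l) θ h y hk1 hh hh100 hθ.le hθ16 hk6 hye hy7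
  obtain ⟨F, hF⟩ : ∃ F : ℤ → ℝ, F = fun n => Ff (3 * l) θ h (AA (3 * l) y) (BB (3 * l) y) n := ⟨_, rfl⟩
  have hFb : ∀ n, |F n| ≤ D := by
    intro n
    have hL := h5 (3 * l) θ h (AA (3 * l) y) (BB (3 * l) y) n 8 hk1 hh hh100 hθ.le hθ16 (by norm_num)
      (fun i _ => ⟨(hAB i).1, (hAB i).2, (hAB i).2⟩)
    have hsg : |sg (BB (3 * l) y n)| ≤ 1 := by unfold sg; split_ifs <;> simp
    have hp := (part2_Sum θ (AA (3 * l) y n) (BB (3 * l) y n) hθ hθ16 (hAB n).1 (hAB n).2).2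
    rw [hF]
    change |10 ^ 6 / (θ * h) * (sg (BB (3 * l) y n) * Lf (3 * l) θ h (AA (3 * l) y) (BB (3 * l) y) n)
      + (gg θ (AA (3 * l) y n) (BB (3 * l) y n)
        - 1 / 4 * (AA (3 * l) y n * ph (AA (3 * l) y n) (BB (3 * l) y n)))| ≤ D
    refine (abs_add_le _ _).trans ?_
    rw [hD]
    refine add_le_add ?_ hp
    rw [abs_mul, abs_mul, abs_of_nonneg (by positivity : (0 : ℝ) ≤ 10 ^ 6 / (θ * h))]
    refine mul_le_mul_of_nonneg_left ?_ (by positivity)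
    calc |sg (BB (3 * l) y n)| * |Lf (3 * l) θ h (AA (3 * l) y) (BB (3 * l) y) n|
        ≤ 1 * (100 * ((3 * l : ℕ) : ℝ) ^ 2 * 8) :=
          mul_le_mul hsg hL (abs_nonneg _) zero_le_one
      _ = _ := one_mul _
  have hstep : ∀ n, (y (n + 1) - y (n - 1)) ^ 2 ≤ 10 ^ 6 / 4 * (F n - F (n + 1)) := by
    intro n
    have hs := h1 l θ h y hyp hye hbd n
    have hs' : F (n + 1) ≤ F n - 1 / 10 ^ 6 * RR y n ^ 2 := by rw [hF]; exact hs
    have hR : 4 * (y (n + 1) - y (n - 1)) ^ 2 ≤ RR y n ^ 2 := by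
      unfold RR
      rw [← sq_abs (y (n + 1) - y (n - 1))]
      nlinarith [abs_nonneg (y (n + 1) - y (n - 1)), abs_nonneg (y n - y (n - 2)),
        mul_nonneg (abs_nonneg (y (n + 1) - y (n - 1))) (abs_nonneg (y n - y (n - 2)))]
    linarith
  have htel : ∀ N : ℕ, ∑ i ∈ Finset.range N, (y (m + i + 1) - y (m + i - 1)) ^ 2 ≤
      10 ^ 6 / 4 * (F m - F (m + N)) := by
    intro N
    induction N with
    | zero => simp
    | succ N ih =>
      rw [Finset.sum_range_succ]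
      have := hstep (m + N)
      push_cast
      rw [← add_assoc m (N : ℤ) 1]
      linarith
  refine (htel N).trans ?_
  have a1 := abs_le.1 (hFb m)
  have a2 := abs_le.1 (hFb (m + N))
  have : F m - F (m + N) ≤ 2 * D := by linarith [a1.2, a2.1]
  exact mul_le_mul_of_nonneg_left this (by norm_num)

end Helper83.TH
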