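import Pool.Agent.Helper83.TH.St

/-!
# Project TH, module Syz: symmetry
-/

set_option autoImplicit false

open Set Filter Topology
open Helper85.HN (hen Orb Bd KK E0 dl ak)

namespace Helper83.TH

theorem hSyz : StSyz := by
  intro b c hb hZ
  obtain ⟨C, hC⟩ := hZ
  refine ⟨b ^ 2 * C, ?_⟩
  intro x hx hbd m N
  set X : ℤ → ℝ := fun n => x (-n - 1) / b with hX
  have hXo : Orb (1 / b) (c / b ^ 2) X := by
    intro n
    have h := hx (-n - 1)
    have e1 : -(n + 1) - 1 = (-n - 1) - 1 := by ring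
    have e2 : -(n - 1) - 1 = (-n - 1) + 1 := by ring
    simp only [hX]
    rw [e1, e2, h]
    field_simp
    ring
  have hXb : Bd X := by
    obtain ⟨M, hM⟩ := hbd
    refine ⟨M / |b|, fun n => ?_⟩
    simp only [hX]
    rw [abs_div]
    exact div_le_div_of_nonneg_right (hM _) (abs_nonneg b)
  have h1 := hC X hXo hXb (-m - N) N
  have h2 : ∑ i ∈ Finset.range N, (x (m + i + 1) - x (m + i - 1)) ^ 2 =
      ∑ i ∈ Finset.range N, b ^ 2 * (X ((-m - N) + i + 1) - X ((-m - N) + i - 1)) ^ 2 := by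
    rw [← Finset.sum_range_reflect]
    apply Finset.sum_congr rfl
    intro i hi
    rw [Finset.mem_range] at hi
    have e : ((N - 1 - i : ℕ) : ℤ) = (N : ℤ) - 1 - i := by omega
    rw [e]
    simp only [hX]
    have e1 : -(-m - (N : ℤ) + i + 1) - 1 = m + ((N : ℤ) - 1 - i) - 1 := by ring
    have e2 : -(-m - (N : ℤ) + i - 1) - 1 = m + ((N : ℤ) - 1 - i) + 1 := by ring
    rw [e1, e2]
    field_simp
    ring
  rw [h2, ← Finset.mul_sum]
  exact mul_le_mul_of_nonneg_left h1 (sq_nonneg b)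

end Helper83.TH
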