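import Pool.Agent.Helper83.TH.St

/-! MP_b39980_an, project TH, module Ts: one step of `A`, `B`. -/

set_option autoImplicit false

open Set Filter Topology
open Helper85.HN (hen Orb Bd KK E0 dl ak)

namespace Helper83.TH

private theorem fin_Ts {h θ R τ L E d m e : ℝ} (hh : 0 < h) (hh2 : h ≤ 1 / 10 ^ 18) (hθ : 0 < θ) (hθ2 : θ ≤ 16)
    (hR : 0 ≤ R) (hR2 : R ≤ 1100 * h) (_hτ : 0 ≤ τ) (hτ2 : τ ≤ 1 / 10 ^ 12) (hL : 10 ^ 8 * L * h ≤ 1)
    (hd : |d| ≤ R) (hE : |E| ≤ τ * R ^ 2 / 4) (he : |e| ≤ 1) (hm : |m| ≤ 18 * L * h * R + τ * R / 4 / 2) :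
    |h * (θ * d) / 2 + e * (h * E / 4) - m| ≤ 2 / 10 ^ 7 * R := by
  have hR1 : R ≤ 1 := by
    have : 1100 * h ≤ 1100 * (1 / 10 ^ 18) := by gcongr
    norm_num at this
    linarith
  have t1 : |h * (θ * d) / 2| ≤ (1 / 10 ^ 18) * (16 * R) / 2 := by
    rw [abs_div, abs_mul, abs_mul, abs_of_pos hh, abs_of_pos hθ, abs_two]
    gcongr
  have t2 : |e * (h * E / 4)| ≤ 1 * ((1 / 10 ^ 18) * (1 / 10 ^ 12 * R / 4) / 4) := by
    rw [abs_mul, abs_div, abs_mul, abs_of_pos hh, abs_of_pos (by norm_num : (0 : ℝ) < 4)]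
    have : |E| ≤ 1 / 10 ^ 12 * R / 4 := by
      refine hE.trans ?_
      have : R ^ 2 ≤ R := by nlinarith
      gcongr
    gcongr
  have t3 : |m| ≤ 18 / 10 ^ 8 * R + 1 / 10 ^ 12 * R / 8 := by
    refine hm.trans ?_
    have s1 : L * h ≤ 1 / 10 ^ 8 := by
      rw [le_div_iff₀ (by norm_num)]
      linarith
    have s2 : 18 * L * h * R ≤ 18 / 10 ^ 8 * R := by
      calc 18 * L * h * R = 18 * (L * h) * R := by ring
        _ ≤ 18 * (1 / 10 ^ 8) * R := by gcongr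
        _ = 18 / 10 ^ 8 * R := by ring
    have s3 : τ * R / 4 / 2 ≤ 1 / 10 ^ 12 * R / 4 / 2 := by gcongr
    linarith
  have t4 : |h * (θ * d) / 2 + e * (h * E / 4) - m| ≤ |h * (θ * d) / 2| + |e * (h * E / 4)| + |m| :=
    (abs_sub _ _).trans (add_le_add (abs_add_le _ _) le_rfl)
  refine t4.trans ?_
  norm_num at t1 t2 t3 ⊢
  linarith

theorem hTs (h1 : StAp) (_h2 : StGl) (h3 : StReg) (h4 : StCk) (h5 : StE1) (h6 : StE2) (h7 : StEqs) (h8 : StSh) (_h9 : StAb) :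
    StTs := by
  rintro l θ h y ⟨hl, hh, hh2, hθ, hθ2, hlh, het⟩ hy hb n
  have hl1 : (1 : ℝ) ≤ (l : ℝ) := by exact_mod_cast hl
  have hθh : θ * h ≤ 16 * (1 / 10 ^ 18) := by gcongr
  have hy7 : ∀ n, |y n| ≤ 7 := h1 θ h y hh (hh2.trans (by norm_num)) hθ (hθh.trans (by norm_num)) hy hb
  have hcast : ((3 * l : ℕ) : ℝ) = 3 * (l : ℝ) := by push_cast; ring
  have hlh6 : 10 ^ 6 * (3 * (l : ℝ)) * h ≤ 1 := by
    have : 0 ≤ 3 * (l : ℝ) * h := by positivity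
    have e1 : 10 ^ 6 * (3 * (l : ℝ)) * h = 10 ^ 6 * (3 * (l : ℝ) * h) := by ring
    have e2 : 10 ^ 8 * (3 * (l : ℝ)) * h = 10 ^ 8 * (3 * (l : ℝ) * h) := by ring
    rw [e1]; rw [e2] at hlh
    linarith
  obtain ⟨hReg, hR0, hR1⟩ := h3 θ h y (3 * l) hh (hh2.trans (by norm_num)) hθ.le hθ2 (by rw [hcast]; exact hlh6) hy hy7 n
  have hReg2 : Reg (12 * (l : ℤ) + 1) h (RR y n) y n := by
    intro m i hm hi1 hi2
    refine hReg m i hm ?_ ?_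
    · push_cast; omega
    · push_cast; omega
  have hE1 := h5 l y n (RR y n) h hl hR0 hh hlh6 hReg2
  have hE2 := h6 l y n (RR y n) h hl hR0 hh hlh6 hReg2
  obtain ⟨q1, q2, _⟩ := h7 (3 * l) θ h y n (h4 (3 * l) (by omega)).2.2.1 hy
  obtain ⟨⟨s1, _, s3, _⟩, _, sA, sB⟩ := h8 (3 * l) y n (RR y n) h (by omega) hR0 hh hh2 (by rw [hcast]; exact hlh6) hReg
  rw [hcast] at sA sB
  have hτ : 0 ≤ et l := by unfold et; positivity
  have hτ2 : et l ≤ 1 / 10 ^ 12 := by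
    have e1 : (1 : ℝ) ≤ (3 * (l : ℝ)) ^ 2 := one_le_pow₀ (by linarith)
    have e2 : 10 ^ 13 * 1 * et l ≤ 10 ^ 13 * (3 * (l : ℝ)) ^ 2 * et l := by gcongr
    norm_num at e2 hθh het ⊢
    linarith
  have hee : |ee n| ≤ 1 := by
    unfold ee
    split_ifs
    · simp
    · simp
  have mA : |AA (3 * l) y n - (AA (3 * l) y (n + 1) + AA (3 * l) y (n - 1)) / 2| ≤
      18 * (3 * (l : ℝ)) * h * RR y n + et l * RR y n / 4 / 2 := sA.trans (by gcongr)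
  have mB : |BB (3 * l) y n - (BB (3 * l) y (n + 1) + BB (3 * l) y (n - 1)) / 2| ≤
      18 * (3 * (l : ℝ)) * h * RR y n + et l * RR y n / 4 / 2 := sB.trans (by gcongr)
  have fA := fin_Ts (L := 3 * (l : ℝ)) hh hh2 hθ hθ2 hR0 hR1 hτ hτ2 hlh s1 hE1 (e := 1) (by simp) mA
  have fB := fin_Ts (L := 3 * (l : ℝ)) hh hh2 hθ hθ2 hR0 hR1 hτ hτ2 hlh s3 hE1 (e := ee n) hee mB
  constructor
  · refine le_trans (le_of_eq (congrArg abs ?_)) fA
    linear_combination (1 / 2 : ℝ) * q1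
  · refine le_trans (le_of_eq (congrArg abs ?_)) fB
    linear_combination (1 / 2 : ℝ) * q2

end Helper83.TH
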