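import Pool.Agent.Helper83.TH.St

set_option autoImplicit false

open Set Filter Topology
open Helper85.HN (hen Orb Bd KK E0 dl ak)

namespace Helper83.TH

private theorem cont_Zen (b c : ℝ) : Continuous (hen b c) := by
  unfold hen
  fun_prop

private theorem it_Zen (b c : ℝ) (p : ℝ × ℝ) (x : ℤ → ℝ) (hx : Orb b c x) (h0 : x 0 = p.1) (h1 : x (-1) = p.2)
    (i : ℕ) : (hen b c)^[i] p = (x (i : ℤ), x ((i : ℤ) - 1)) := by
  induction i with
  | zero =>
    refine Prod.ext ?_ ?_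
    · simpa using h0.symm
    · simpa using h1.symm
  | succ i ih =>
    rw [Function.iterate_succ_apply', ih]
    have h2 := hx (i : ℤ)
    refine Prod.ext ?_ ?_
    · show x (i : ℤ) ^ 2 + c - b * x ((i : ℤ) - 1) = x (((i + 1 : ℕ)) : ℤ)
      rw [← h2]
      push_cast
      rfl
    · show x (i : ℤ) = x ((((i + 1 : ℕ)) : ℤ) - 1)
      push_cast
      congr 1
      ring

theorem hZen (h1 : StGe2) (h2 : StPer) (h3 : Helper85.HN.StKc) : StZen := by
  rintro b c ⟨C, hC⟩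
  obtain ⟨-, hK, hM, -⟩ := h3 b c
  show Dynamics.coverEntropy (hen b c) (KK b c) ≤ 0
  have hc := cont_Zen b c
  refine h1 (hen b c) (KK b c)
    (fun p => ((hen b c p).1 - p.2) ^ 2 + ((hen b c (hen b c p)).1 - p.1) ^ 2) (2 * C) hc hK hM ?_ ?_ ?_ ?_ ?_
  · have hc2 : Continuous fun p => hen b c (hen b c p) := hc.comp hc
    fun_prop
  · intro p
    positivity
  · intro p _ hp
    have e1 : ((hen b c p).1 - p.2) = 0 := by nlinarith [sq_nonneg ((hen b c p).1 - p.2), sq_nonneg ((hen b c (hen b c p)).1 - p.1)]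
    have e2 : ((hen b c (hen b c p)).1 - p.1) = 0 := by nlinarith [sq_nonneg ((hen b c p).1 - p.2), sq_nonneg ((hen b c (hen b c p)).1 - p.1)]
    refine Prod.ext ?_ ?_
    · linarith
    · show (hen b c p).1 = p.2
      linarith
  · exact (h2 b c).subset fun p hp => hp.2
  · rintro p ⟨x, hx, hB, hx0, hx1⟩ n
    have hterm : ∀ i ∈ Finset.range n, (fun p : ℝ × ℝ => ((hen b c p).1 - p.2) ^ 2 + ((hen b c (hen b c p)).1 - p.1) ^ 2)
        ((hen b c)^[i] p) = (x (0 + (i : ℤ) + 1) - x (0 + (i : ℤ) - 1)) ^ 2 + (x (1 + (i : ℤ) + 1) - x (1 + (i : ℤ) - 1)) ^ 2 := by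
      intro i _
      have a1 := it_Zen b c p x hx hx0 hx1 i
      have a2 := it_Zen b c p x hx hx0 hx1 (i + 1)
      have a3 := it_Zen b c p x hx hx0 hx1 (i + 2)
      rw [Function.iterate_succ_apply'] at a2
      have a3' : hen b c (hen b c ((hen b c)^[i] p)) = (x ((i + 2 : ℕ) : ℤ), x (((i + 2 : ℕ) : ℤ) - 1)) := by
        rw [← a3, Function.iterate_succ_apply', Function.iterate_succ_apply']
      show ((hen b c ((hen b c)^[i] p)).1 - ((hen b c)^[i] p).2) ^ 2 +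
        ((hen b c (hen b c ((hen b c)^[i] p))).1 - ((hen b c)^[i] p).1) ^ 2 = _
      rw [a3', a2, a1]
      have b1 : ((i + 1 : ℕ) : ℤ) = 0 + (i : ℤ) + 1 := by push_cast; ring
      have b2 : (i : ℤ) - 1 = 0 + (i : ℤ) - 1 := by ring
      have b3 : ((i + 2 : ℕ) : ℤ) = 1 + (i : ℤ) + 1 := by push_cast; ring
      have b4 : (i : ℤ) = 1 + (i : ℤ) - 1 := by ring
      show (x ((i + 1 : ℕ) : ℤ) - x ((i : ℤ) - 1)) ^ 2 + (x ((i + 2 : ℕ) : ℤ) - x (i : ℤ)) ^ 2 = _
      rw [b1, b2, b3, ← b4]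
    rw [Finset.sum_congr rfl hterm, Finset.sum_add_distrib]
    have c1 := hC x hx hB 0 n
    have c2 := hC x hx hB 1 n
    linarith

end Helper83.TH
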