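import Pool.Agent.Helper85.HN.Main
import Pool.Agent.Helper83.PF.Main
import Pool.Agent.Helper83.TH.M_It2
import Pool.Agent.Helper83.TH.M_Ge2
import Pool.Agent.Helper83.TH.M_Per
import Pool.Agent.Helper83.TH.M_Zen
import Pool.Agent.Helper83.TH.M_Syz
import Pool.Agent.Helper83.TH.M_ApZ
import Pool.Agent.Helper83.TH.M_Ap
import Pool.Agent.Helper83.TH.M_Big
import Pool.Agent.Helper83.TH.M_Dd
import Pool.Agent.Helper83.TH.M_Gl
import Pool.Agent.Helper83.TH.M_Loc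
import Pool.Agent.Helper83.TH.M_Slo
import Pool.Agent.Helper83.TH.M_Reg
import Pool.Agent.Helper83.TH.M_Ck
import Pool.Agent.Helper83.TH.M_Exi
import Pool.Agent.Helper83.TH.M_Iib
import Pool.Agent.Helper83.TH.M_Pol
import Pool.Agent.Helper83.TH.M_E1
import Pool.Agent.Helper83.TH.M_E2
import Pool.Agent.Helper83.TH.M_E3
import Pool.Agent.Helper83.TH.M_Eqs
import Pool.Agent.Helper83.TH.M_Sh
import Pool.Agent.Helper83.TH.M_Ab
import Pool.Agent.Helper83.TH.M_Db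
import Pool.Agent.Helper83.TH.M_Cal
import Pool.Agent.Helper83.TH.M_Idn
import Pool.Agent.Helper83.TH.M_Gro
import Pool.Agent.Helper83.TH.M_Lsm
import Pool.Agent.Helper83.TH.M_Sgc
import Pool.Agent.Helper83.TH.M_Rq
import Pool.Agent.Helper83.TH.M_Ts
import Pool.Agent.Helper83.TH.M_AlG
import Pool.Agent.Helper83.TH.M_AlQ
import Pool.Agent.Helper83.TH.M_AlR
import Pool.Agent.Helper83.TH.M_AlP
import Pool.Agent.Helper83.TH.M_AlE
import Pool.Agent.Helper83.TH.M_AlS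
import Pool.Agent.Helper83.TH.M_Stp
import Pool.Agent.Helper83.TH.M_Sum
import Pool.Agent.Helper83.TH.M_Cor
import Pool.Agent.Helper83.TH.M_Num
import Pool.Agent.Helper83.TH.M_Hp
import Pool.Agent.Helper83.TH.M_Hor
import Pool.Agent.Helper83.TH.M_Bc
import Pool.Agent.Helper83.TH.M_Frc
import Pool.Agent.Helper83.TH.M_Frd
import Pool.Agent.Helper83.TH.M_Hof

/-! # MP_b39980_an, project TH: assembly -/

set_option autoImplicit false

open Set Filter Topology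
open Helper85.HN (hen Orb Bd KK E0)

noncomputable section

namespace Helper83.TH

theorem gDd : StDd := hDd Helper85.HN.hLei
theorem gAp : StAp := hAp hApZ
theorem gGl : StGl := hGl gDd
theorem gLoc : StLoc := hLoc gDd
theorem gReg : StReg := hReg gGl gLoc hSlo
theorem gExi : StExi := hExi hCk
theorem gIib : StIib := hIib hCk
theorem gPol : StPol := hPol gDd Helper85.HN.hNew
theorem gE1 : StE1 := hE1 hCk gExi gIib gPol
theorem gE2 : StE2 := hE2 hCk gExi gIib gPol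
theorem gE3 : StE3 := hE3 hCk gExi gIib gPol Helper85.HN.hEx Helper85.HN.hBj
theorem gSh : StSh := hSh gIib gDd
theorem gAb : StAb := hAb gIib gGl
theorem gDb : StDb := hDb Helper85.HN.gTh gDd
theorem gCal : StCal := hCal Helper85.HN.hEx Helper85.HN.hBj
theorem gGro : StGro := hGro gAp gGl gReg hCk gE1 gE3 hEqs gSh gAb gDb gCal hIdn
theorem gLsm : StLsm := hLsm Helper85.HN.hBj
theorem gSgc : StSgc := hSgc gAp gGl gReg hCk gE1 gE2 hEqs gIib gAb
theorem gRq : StRq := hRq gAp gGl gReg hCk gE1 hEqs gSh gAb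
theorem gTs : StTs := hTs gAp gGl gReg hCk gE1 gE2 hEqs gSh gAb
theorem gAlP : StAlP := hAlP (hAlR hAlQ)
theorem gStp : StStp := hStp gGro gLsm gSgc gRq gTs hAlG gAlP hAlE hAlS gAp gGl gReg gAb gSh
theorem gSum : StSum := hSum gStp gAp gGl gAb gLsm
theorem gHp : StHp := hHp (hBig gAp) gSum hCor hNum
theorem gZen : StZen := hZen (hGe2 Helper85.HN.hCnt Helper85.HN.hPoly hIt2) hPer Helper85.HN.hKc
theorem gHor : StHor := hHor gHp hSyz gZen
theorem gBc : StBc := hBc gHor Helper85.HN.main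
theorem gNeg : StNeg := fun c hc => Helper83.PF.neg_Asm Helper83.PF.nbM c hc
theorem gFrc : StFrc := hFrc gBc gNeg
theorem gHof : StHof := hHof gBc

/-- The final statement: the zero entropy locus near `(-1,0)`. -/
def StSecond : Prop :=
  (∃ a d : ℝ, 0 < a ∧ 0 < d ∧
    (∀ b c : ℝ, |b + 1| < d → |c| < d → (0 ≤ c ∨ Real.exp (-(a / Real.sqrt (-c))) ≤ |b + 1|) → (b, c) ∈ E0) ∧
    (∀ q ∈ frontier E0, |q.1 + 1| < d → |q.2| < d →
      q = (-1, 0) ∨ (q.2 < 0 ∧ |q.1 + 1| ≤ Real.exp (-(a / Real.sqrt (-q.2))))) ∧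
    (∀ ε ∈ Ioo 0 d, ∃ b1 b2 : ℝ, b1 < -1 ∧ -1 < b2 ∧ (b1, -ε) ∈ frontier E0 ∧ (b2, -ε) ∈ frontier E0 ∧
      -1 - b1 ≤ Real.exp (-(a / Real.sqrt ε)) ∧ b2 + 1 ≤ Real.exp (-(a / Real.sqrt ε)))) ∧
  ¬C1At (frontier E0) (-1, 0)

private theorem mono_exp {a a' u : ℝ} (h : a ≤ a') (hu : 0 ≤ u) : Real.exp (-(a' / u)) ≤ Real.exp (-(a / u)) := by
  apply Real.exp_le_exp.2
  apply neg_le_neg
  gcongr

theorem main : StSecond := by
  obtain ⟨a1, d1, ha1, hd1, h1⟩ := gBc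
  obtain ⟨a2, d2, ha2, hd2, h2⟩ := gHof
  obtain ⟨a3, d3, ha3, hd3, h3⟩ := gFrc
  obtain ⟨a, ha⟩ : ∃ a, a = min a1 (min a2 a3) := ⟨_, rfl⟩
  obtain ⟨d, hd⟩ : ∃ d, d = min d1 (min d2 d3) := ⟨_, rfl⟩
  have e1 : a ≤ a1 := by rw [ha]; exact min_le_left _ _
  have e2 : a ≤ a2 := by rw [ha]; exact (min_le_right _ _).trans (min_le_left _ _)
  have e3 : a ≤ a3 := by rw [ha]; exact (min_le_right _ _).trans (min_le_right _ _)
  have f1 : d ≤ d1 := by rw [hd]; exact min_le_left _ _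
  have f2 : d ≤ d2 := by rw [hd]; exact (min_le_right _ _).trans (min_le_left _ _)
  have f3 : d ≤ d3 := by rw [hd]; exact (min_le_right _ _).trans (min_le_right _ _)
  refine ⟨⟨a, d, by rw [ha]; positivity, by rw [hd]; positivity, ?_, ?_, ?_⟩, hFrd _ a3 d3 ha3 hd3 h3⟩
  · intro b c hb hc hor
    refine h1 b c (by linarith) (by linarith) ?_
    rcases hor with h | h
    · exact Or.inl h
    · exact Or.inr ((mono_exp e1 (Real.sqrt_nonneg _)).trans h)
  · intro q hq hb hc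
    rcases h2 q hq (by linarith) (by linarith) with h | ⟨h, h'⟩
    · exact Or.inl h
    · exact Or.inr ⟨h, h'.trans (mono_exp e2 (Real.sqrt_nonneg _))⟩
  · intro ε hε
    obtain ⟨b1, b2, g1, g2, g3, g4, g5, g6⟩ := h3 ε ⟨hε.1, hε.2.trans_le f3⟩
    exact ⟨b1, b2, g1, g2, g3, g4, g5.trans (mono_exp e3 (Real.sqrt_nonneg _)), g6.trans (mono_exp e3 (Real.sqrt_nonneg _))⟩

end Helper83.TH

end
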