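import Pool.Agent.Helper83.TH.St

set_option autoImplicit false

namespace Helper83.TH

private theorem ph_ge_AlS (a b : ℝ) : |a ^ 2 + b ^ 2 - 1| - |b| ≤ ph a b := by
  unfold ph
  obtain ⟨q, hq⟩ : ∃ q, q = a ^ 2 + b ^ 2 - 1 := ⟨_, rfl⟩
  rw [← hq, ← sq_abs q]
  have hP0 : 0 ≤ |q| := abs_nonneg q
  have hN0 : 0 ≤ |b| := abs_nonneg b
  rcases eq_or_lt_of_le (add_nonneg hP0 hN0) with h0 | h0
  · rw [← h0, div_zero]; linarith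
  · rw [le_div_iff₀ h0]
    nlinarith

theorem hAlS : StAlS := by
  intro a b θ ρ X hθ hθ2 ha hb hρ hρ1 hρ2 hbρ hX
  have hs24 : |a + θ| ≤ 24 := by
    calc |a + θ| ≤ |a| + |θ| := abs_add_le _ _
      _ ≤ 8 + 16 := by rw [abs_of_pos hθ]; gcongr
      _ = 24 := by norm_num
  have hφ := ph_ge_AlS a b
  obtain ⟨φ, hφd⟩ : ∃ φ, φ = ph a b := ⟨_, rfl⟩
  rw [← hφd] at hφ
  rw [← hφd]
  obtain ⟨q, hq⟩ : ∃ q, q = a ^ 2 + b ^ 2 - 1 := ⟨_, rfl⟩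
  rw [← hq] at hρ2 hφ
  rw [← hq]
  have hs2 : (a + θ) ^ 2 ≤ 576 := by
    rw [← sq_abs]
    calc |a + θ| ^ 2 ≤ 24 ^ 2 := by gcongr
      _ = 576 := by norm_num
  have hN0 : 0 ≤ |b| := abs_nonneg b
  have hbs : |b| * |a + θ| ≤ |b| * 24 := by gcongr
  have hbs2 : |b| * (a + θ) ^ 2 ≤ |b| * 576 := by gcongr
  have hq2 : 0 ≤ q ^ 2 := sq_nonneg q
  have hρsq : ρ ^ 2 ≤ 1100 * ρ := by nlinarith
  norm_num at hbρ hX ⊢
  linarith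

end Helper83.TH
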