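import Pool.Agent.Helper83.TH.St

set_option autoImplicit false

namespace Helper83.TH

open Helper85.HN (dl ak DD)

theorem hDb (h1 : Helper85.HN.StTh) (h2 : StDd) : StDb := by
  intro k w n S T hk hT hS1 hS2 hT3
  have hth := h1 k (fun i => w (n + 2 * i)) 0 T 1 hk hT one_pos (by
    intro i hi1 hi2
    rw [h2.1 3 w n i]
    apply hT3
    · linarith
    · linarith)
  have hD : D2 k w n = DD k (fun i => w (n + 2 * i)) 0 := by
    unfold D2 DD
    apply Finset.sum_congr rfl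
    intro j _
    rw [zero_add, zero_sub, show n - 2 * (j : ℤ) = n + 2 * (-(j : ℤ)) by ring]
  rw [hD]
  rw [show n + 2 * ((0 : ℤ) + 1) = n + 2 by ring, show n + 2 * ((0 : ℤ) - 1) = n - 2 by ring] at hth
  have d1 : dd 1 w (n - 2) = w n - w (n - 2) := by
    show w (n - 2 + 2) - w (n - 2) = w n - w (n - 2)
    rw [sub_add_cancel]
  have d2 : dd 1 w n = w (n + 2) - w n := rfl
  rw [d1] at hS1
  rw [d2] at hS2
  have hsym : |(w (n + 2) - w (n - 2)) / 2| ≤ S := by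
    have : (w (n + 2) - w (n - 2)) / 2 = ((w (n + 2) - w n) + (w n - w (n - 2))) / 2 := by ring
    rw [this, abs_div, abs_of_pos (show (0 : ℝ) < 2 by norm_num)]
    have := abs_add_le (w (n + 2) - w n) (w n - w (n - 2))
    linarith
  have hkk : T * ((1 * (k : ℝ) + (k : ℝ) ^ 2 / 1) / 4) ≤ T * (k : ℝ) ^ 2 / 2 := by
    have hk1 : (1 : ℝ) ≤ k := by exact_mod_cast hk
    have : (1 * (k : ℝ) + (k : ℝ) ^ 2 / 1) / 4 ≤ (k : ℝ) ^ 2 / 2 := by nlinarith
    calc T * ((1 * (k : ℝ) + (k : ℝ) ^ 2 / 1) / 4) ≤ T * ((k : ℝ) ^ 2 / 2) := by gcongr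
      _ = T * (k : ℝ) ^ 2 / 2 := by ring
  have e4 : DD k (fun i => w (n + 2 * i)) 0 = (DD k (fun i => w (n + 2 * i)) 0 - (w (n + 2) - w (n - 2)) / 2) + (w (n + 2) - w (n - 2)) / 2 := by
    ring
  rw [e4]
  refine (abs_add_le _ _).trans ?_
  linarith

end Helper83.TH
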