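import Pool.Agent.Helper83.TH.St

set_option autoImplicit false

open Set Filter Topology
open Helper85.HN (hen Orb Bd KK E0 dl ak)

namespace Helper83.TH

private theorem rec_Loc (h1 : StDd) (θ h : ℝ) (y : ℤ → ℝ) (hy : Ye θ h y) (m : ℕ) (hm : 1 ≤ m) (i : ℤ) :
    dd (m + 1) y i = h * (dd m (fun k => y k * y k) (i + 1) + θ * (dd m y (i + 1) - dd m y i)) := by
  obtain ⟨-, -, hlin, hconst, hcomp, hshift⟩ := h1
  have e1 : dd 1 y = fun n => (fun _ : ℤ => (0 : ℝ)) n +
      h * ((fun n => (y (n + 1) * y (n + 1) + θ * (y (n + 1) + (-1) * y n)) + (-1) * ((fun _ : ℤ => (1 : ℝ)) n)) n) := by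
    funext n
    have h2 := hy (n + 1)
    have a1 : n + 1 + 1 = n + 2 := by ring
    have a2 : n + 1 - 1 = n := by ring
    rw [a1, a2] at h2
    show y (n + 2) - y n = 0 + h * ((y (n + 1) * y (n + 1) + θ * (y (n + 1) + (-1) * y n)) + (-1) * 1)
    rw [h2]
    ring
  rw [← hcomp m 1 y i, e1, hlin m (fun _ => (0 : ℝ)) _ h i, hconst m 0 i hm,
    hlin m (fun n => y (n + 1) * y (n + 1) + θ * (y (n + 1) + (-1) * y n)) (fun _ => (1 : ℝ)) (-1) i,
    hconst m 1 i hm, hlin m (fun n => y (n + 1) * y (n + 1)) (fun n => y (n + 1) + (-1) * y n) θ i,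
    hlin m (fun n => y (n + 1)) y (-1) i, hshift m y 1 i, hshift m (fun k => y k * y k) 1 i]
  ring

private theorem main_Loc (h1 : StDd) (θ h R : ℝ) (y : ℤ → ℝ) (p q : ℤ) (hh : 0 < h) (hθ : 0 ≤ θ) (hθ16 : θ ≤ 16)
    (hR : 0 ≤ R) (hy : Ye θ h y) (hy7 : ∀ n, |y n| ≤ 7)
    (hg : ∀ (m : ℕ) (n : ℤ), |dd m y n| ≤ 7 * (m.factorial : ℝ) * (42 * h) ^ m)
    (hl : ∀ i : ℤ, p ≤ i → i + 2 ≤ q → |y (i + 2) - y i| ≤ R) (m : ℕ) :
    ∀ i : ℤ, p ≤ i → i + 2 * ((m : ℤ) + 1) ≤ q → |dd (m + 1) y i| ≤ R * ((m + 1).factorial : ℝ) * (42 * h) ^ m := by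
  induction m using Nat.strong_induction_on with
  | _ m ih =>
    intro i hpi hiq
    rcases Nat.eq_zero_or_pos m with rfl | hm
    · have h3 := hl i hpi (by push_cast at hiq; linarith)
      show |y (i + 2) - y i| ≤ _
      simpa using h3
    obtain ⟨M, rfl⟩ : ∃ M, m = M + 1 := ⟨m - 1, by omega⟩
    push_cast at hiq
    rw [rec_Loc h1 θ h y hy (M + 1) (by omega) i, abs_mul, abs_of_pos hh]
    set Q : ℝ := R * ((M + 1).factorial : ℝ) * (42 * h) ^ M with hQ
    have hQ0 : 0 ≤ Q := by positivity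
    have d1 : |dd (M + 1) y (i + 1)| ≤ Q := ih M (by omega) (i + 1) (by linarith) (by linarith)
    have d0 : |dd (M + 1) y i| ≤ Q := ih M (by omega) i hpi (by linarith)
    have hsq : |dd (M + 1) (fun k => y k * y k) (i + 1)| ≤ 7 * ((M + 2 : ℕ) : ℝ) * Q := by
      rw [h1.2.1 (M + 1) y y (i + 1)]
      refine (Finset.abs_sum_le_sum_abs _ _).trans ?_
      have hterm : ∀ j ∈ Finset.range (M + 1 + 1),
          |((M + 1).choose j : ℝ) * dd j y (i + 1 + 2 * ((M + 1 - j : ℕ) : ℤ)) * dd (M + 1 - j) y (i + 1)| ≤ 7 * Q := by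
        intro j hj
        have hjM : j ≤ M + 1 := by have := Finset.mem_range.1 hj; omega
        rcases Nat.eq_zero_or_pos j with rfl | hj0
        · rw [abs_mul, abs_mul]
          simp only [Nat.choose_zero_right, Nat.cast_one, abs_one, one_mul, Nat.sub_zero]
          exact mul_le_mul (hy7 _) d1 (abs_nonneg _) (by norm_num)
        · obtain ⟨j, rfl⟩ : ∃ j', j = j' + 1 := ⟨j - 1, by omega⟩
          have c1 : ((M + 1 - (j + 1) : ℕ) : ℤ) = (M : ℤ) - (j : ℤ) := by
            rw [Nat.cast_sub hjM]; push_cast; ring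
          have b1 := ih j (by omega) (i + 1 + 2 * ((M + 1 - (j + 1) : ℕ) : ℤ))
            (by
              have : (0:ℤ) ≤ ((M + 1 - (j + 1) : ℕ) : ℤ) := Int.natCast_nonneg _
              linarith)
            (by rw [c1]; linarith)
          have b2 := hg (M + 1 - (j + 1)) (i + 1)
          have hcf := Nat.choose_mul_factorial_mul_factorial hjM
          have hcf' : ((M + 1).choose (j + 1) : ℝ) * ((j + 1).factorial : ℝ) * ((M + 1 - (j + 1)).factorial : ℝ) =
              ((M + 1).factorial : ℝ) := by exact_mod_cast hcf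
          rw [abs_mul, abs_mul, abs_of_nonneg (Nat.cast_nonneg (α := ℝ) ((M + 1).choose (j + 1)))]
          calc ((M + 1).choose (j + 1) : ℝ) * |dd (j + 1) y (i + 1 + 2 * ((M + 1 - (j + 1) : ℕ) : ℤ))| *
                |dd (M + 1 - (j + 1)) y (i + 1)|
              ≤ ((M + 1).choose (j + 1) : ℝ) * (R * ((j + 1).factorial : ℝ) * (42 * h) ^ j) *
                (7 * ((M + 1 - (j + 1)).factorial : ℝ) * (42 * h) ^ (M + 1 - (j + 1))) := by
                apply mul_le_mul _ b2 (abs_nonneg _) (by positivity)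
                exact mul_le_mul_of_nonneg_left b1 (Nat.cast_nonneg _)
            _ = (7 * R * ((42 * h) ^ j * (42 * h) ^ (M + 1 - (j + 1)))) *
                (((M + 1).choose (j + 1) : ℝ) * ((j + 1).factorial : ℝ) * ((M + 1 - (j + 1)).factorial : ℝ)) := by ring
            _ = 7 * Q := by
                rw [hcf', ← pow_add, hQ]
                have : j + (M + 1 - (j + 1)) = M := by omega
                rw [this]
                ring
      have hsum := Finset.sum_le_sum hterm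
      rw [Finset.sum_const, Finset.card_range, nsmul_eq_mul] at hsum
      refine hsum.trans (le_of_eq ?_)
      push_cast
      ring
    have hab : |dd (M + 1) (fun k => y k * y k) (i + 1) + θ * (dd (M + 1) y (i + 1) - dd (M + 1) y i)| ≤
        7 * ((M + 2 : ℕ) : ℝ) * Q + 32 * Q := by
      refine (abs_add_le _ _).trans (add_le_add hsq ?_)
      rw [abs_mul, abs_of_nonneg hθ]
      have h3 : |dd (M + 1) y (i + 1) - dd (M + 1) y i| ≤ 2 * Q := (abs_sub _ _).trans (by linarith)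
      calc θ * |dd (M + 1) y (i + 1) - dd (M + 1) y i| ≤ 16 * (2 * Q) :=
            mul_le_mul hθ16 h3 (abs_nonneg _) (by norm_num)
        _ = 32 * Q := by ring
    have hf2 : ((M + 1 + 1).factorial : ℝ) = ((M + 2 : ℕ) : ℝ) * ((M + 1).factorial : ℝ) := by
      rw [Nat.factorial_succ (M + 1)]; push_cast; ring
    rw [hf2, pow_succ]
    have e5 : R * (((M + 2 : ℕ) : ℝ) * ((M + 1).factorial : ℝ)) * ((42 * h) ^ M * (42 * h)) =
        h * (42 * ((M + 2 : ℕ) : ℝ) * Q) := by rw [hQ]; ring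
    rw [e5]
    refine mul_le_mul_of_nonneg_left (hab.trans ?_) hh.le
    have hM2 : (1 : ℝ) ≤ ((M + 2 : ℕ) : ℝ) := by exact_mod_cast (by omega : 1 ≤ M + 2)
    nlinarith

theorem hLoc (h1 : StDd) : StLoc := by
  intro θ h R y p q hh _ hθ hθ16 hR hy hy7 hg hl m i hm hpi hiq
  obtain ⟨M, rfl⟩ : ∃ M, m = M + 1 := ⟨m - 1, by omega⟩
  have h2 := main_Loc h1 θ h R y p q hh hθ hθ16 hR hy hy7 hg hl M i hpi (by push_cast at hiq; exact hiq)
  rw [Nat.add_sub_cancel]
  refine h2.trans ?_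
  have h3 : ((M + 1).factorial : ℝ) ≤ (M.factorial : ℝ) * 2 ^ M := by
    have h4 : M + 1 ≤ 2 ^ M := Nat.lt_two_pow_self
    have h5 : (M + 1).factorial ≤ M.factorial * 2 ^ M := by
      rw [Nat.factorial_succ, mul_comm]
      exact Nat.mul_le_mul_left _ h4
    exact_mod_cast h5
  have h6 : (84 * h) ^ M = 2 ^ M * (42 * h) ^ M := by
    rw [← mul_pow]; congr 1; ring
  rw [h6]
  calc R * ((M + 1).factorial : ℝ) * (42 * h) ^ M ≤ R * ((M.factorial : ℝ) * 2 ^ M) * (42 * h) ^ M := by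
        apply mul_le_mul_of_nonneg_right _ (by positivity)
        exact mul_le_mul_of_nonneg_left h3 hR
    _ = R * (M.factorial : ℝ) * (2 ^ M * (42 * h) ^ M) := by ring

end Helper83.TH
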