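import Pool.Agent.Helper85.HN.St

/-!
# MP_b39980_an, project TH: the zero entropy locus of the real Henon family near the second conservative point `(b,c) = (-1,0)`

Final theorem (module Top): there are `a, d > 0` such that every `(b,c)` with `|b+1| < d`, `|c| < d` and (`c ≥ 0` or `exp (-a/√(-c)) ≤ |b+1|`) is in `E0`. So near `(-1,0)` the
boundary of `E0` lies in the exponentially thin horn `c < 0`, `|b+1| ≤ exp (-a/√(-c))`; together with the positive entropy of the maps `b = -1`, `c < 0`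
(project PF, landed) it has two exponentially close branches at `(-1,0)` and is not on a `C¹` curve there.

Coordinates.  `b = -1 + δ`, `e = (1+b)²/4 - c = h²`, `δ = θ h`, `x = δ/2 + h y`: the orbit equation becomes `Ye θ h y`:
`y (n+1) - y (n-1) = h (y n ^ 2 - 1 + θ (y n - y (n-1)))`.  All bounded solutions satisfy `|y| ≤ 7`.  For `θ ≥ 16` the signs of `y (n+1) - y (n-1)` are organised and the orbits have bounded variation (module Big). Let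
`θ ≤ 16`. The subsequences of even and of odd index vary slowly (`dd m`: iterated differences with step `2`).  `II k` is the central interpolation formula with `2k` nodes (values at the other parity), exact up to an
exponentially small error (`k` of order `1/h`); `A = (y + II y)/2` and `B = ±(y - II y)/2` satisfy, up to an exponentially small error,
`A (n+1) - A (n-1) = h (A² + B² - 1 + θ (A n - A (n-1)))`, `B (n+1) - B (n-1) = -h (2 A B + θ (B n + B (n-1)))`.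
`Lf` is a discrete Noether energy with `Lf (n+1) - Lf n ≈ -4 θ h² B (A+θ)²`; the Lyapunov function is
`Ff = 10⁶/(θh) · sign(B) Lf + gg θ A B - (1/4) A ph A B`, `gg = A - A³/3 - A B² - θ B²`, `ph = q²/(|q|+|B|)`, `q = A² + B² - 1`.  It is not continuous (sign of `B`), but when `B` changes sign `B` and `Lf` are exponentially small.
So `∑ (y (i+1) - y (i-1))²` is bounded along every bounded orbit, uniformly (`ZE`), and this implies zero entropy.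

Every module `M_XX.lean` proves `theorem hXX : StXX` (hypotheses named in its row, in this order).  All statements are independent of each other.
-/

set_option autoImplicit false

open Set Filter Topology
open Helper85.HN (hen Orb Bd KK E0 dl ak)

noncomputable section

namespace Helper83.TH

/-! ## Definitions -/

/-- The scaled orbit equation. -/
def Ye (θ h : ℝ) (y : ℤ → ℝ) : Prop :=
  ∀ n : ℤ, y (n + 1) - y (n - 1) = h * (y n ^ 2 - 1 + θ * (y n - y (n - 1)))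

/-- Iterated differences with step 2. -/
def dd : ℕ → (ℤ → ℝ) → ℤ → ℝ
  | 0, u => u
  | m + 1, u => fun n => dd m u (n + 2) - dd m u n

/-- Local size of an orbit. -/
def RR (y : ℤ → ℝ) (n : ℤ) : ℝ := 2 * (|y (n + 1) - y (n - 1)| + |y n - y (n - 2)|)

/-- Local regularity: bounds of all differences in the window `[n - N, n + N]`. -/
def Reg (N : ℤ) (h R : ℝ) (y : ℤ → ℝ) (n : ℤ) : Prop := ∀ (m : ℕ) (i : ℤ), 1 ≤ m → n - N ≤ i → i + 2 * (m : ℤ) ≤ n + N →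
  |dd m y i| ≤ R * ((m - 1).factorial : ℝ) * (84 * h) ^ (m - 1)

/-- Normalisation of the interpolation coefficients. -/
def Nk (k : ℕ) : ℝ := ∑ j ∈ Finset.Icc 1 k, (-1) ^ (j + 1) * ((2 * k - 1).choose (k + j - 1) : ℝ) / (2 * (j : ℝ) - 1)

/-- Coefficients of the central interpolation formula at the midpoint (nodes `± (2j-1)`, `1 ≤ j ≤ k`). -/
def ck (k j : ℕ) : ℝ := (-1) ^ (j + 1) * ((2 * k - 1).choose (k + j - 1) : ℝ) / ((2 * (j : ℝ) - 1) * (2 * Nk k))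

/-- Interpolation from the other parity. -/
def II (k : ℕ) (w : ℤ → ℝ) (n : ℤ) : ℝ :=
  ∑ j ∈ Finset.Icc 1 k, ck k j * (w (n + (2 * (j : ℤ) - 1)) + w (n - (2 * (j : ℤ) - 1)))

/-- `(-1)^n` -/
def ee (n : ℤ) : ℝ := if Even n then 1 else -1

/-- Even part (smooth part). -/
def AA (k : ℕ) (y : ℤ → ℝ) (n : ℤ) : ℝ := (y n + II k y n) / 2

/-- Odd part (amplitude of the alternating part). -/
def BB (k : ℕ) (y : ℤ → ℝ) (n : ℤ) : ℝ := ee n * (y n - II k y n) / 2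

/-- The central difference formula on the sublattice `n + 2 ℤ`. -/
def D2 (k : ℕ) (f : ℤ → ℝ) (n : ℤ) : ℝ := ∑ j ∈ Finset.Icc 1 k, ak k j * (f (n + 2 * (j : ℤ)) - f (n - 2 * (j : ℤ)))

/-- The Hamiltonian along a pair of sequences. -/
def HH (A B : ℤ → ℝ) (i : ℤ) : ℝ := A i ^ 2 * B i + B i ^ 3 / 3 - B i

/-- A discrete symplectic product. -/
def XX (A B : ℤ → ℝ) (d i : ℤ) : ℝ := A i * B (i + d) - B i * A (i + d)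

/-- The Noether energy of the undamped system. -/
def Wf (k : ℕ) (h : ℝ) (A B : ℤ → ℝ) (n : ℤ) : ℝ := ∑ j ∈ Finset.Icc 1 k, ak k j *
  (∑ i ∈ Finset.Ico (n - 2 * (j : ℤ)) (n + 1), XX A B (2 * (j : ℤ) - 1) i
    - ∑ i ∈ Finset.Ico (n - 2 * (j : ℤ)) (n - 1), XX A B (2 * (j : ℤ) + 1) i
    - h * ∑ i ∈ Finset.Ico (n - 2 * (j : ℤ)) (n + 2 * (j : ℤ)), HH A B i)

/-- Mean of `A + θ` whose increment is `D2 k A`. -/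
def CA (k : ℕ) (θ : ℝ) (A : ℤ → ℝ) (n : ℤ) : ℝ :=
  ∑ j ∈ Finset.Icc 1 k, ak k j * ∑ i ∈ Finset.Ico (n - 2 * (j : ℤ)) (n + 2 * (j : ℤ)), (A i + θ)

/-- The corrected energy. -/
def Lf (k : ℕ) (θ h : ℝ) (A B : ℤ → ℝ) (n : ℤ) : ℝ := -Wf k h A B n + θ * h * (B n + B (n - 1)) * CA k θ A n

/-- The defect of the Leibniz rule for `HH`. -/
def EEf (k : ℕ) (A B : ℤ → ℝ) (n : ℤ) : ℝ := D2 k (fun i => B n * (A i - A n) ^ 2 + 2 * A n * (A i - A n) * (B i - B n)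
  + B n * (B i - B n) ^ 2 + (A i - A n) ^ 2 * (B i - B n) + (B i - B n) ^ 3 / 3) n

/-- The exponentially small quantity. -/
def et (l : ℕ) : ℝ := 10 ^ 5 * (3 * (l : ℝ)) ^ 6 * (1 / 10) ^ (2 * l)

/-- The standing hypotheses on the parameters. -/
def Hyp (l : ℕ) (θ h : ℝ) : Prop := 1 ≤ l ∧ 0 < h ∧ h ≤ 1 / 10 ^ 18 ∧ 0 < θ ∧ θ ≤ 16 ∧ 10 ^ 8 * (3 * (l : ℝ)) * h ≤ 1 ∧
  10 ^ 13 * (3 * (l : ℝ)) ^ 2 * et l ≤ θ * h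

/-- sign -/
def sg (x : ℝ) : ℝ := if 0 ≤ x then 1 else -1

/-- `A² + B² - 1` -/
def qq (A B : ℤ → ℝ) (n : ℤ) : ℝ := A n ^ 2 + B n ^ 2 - 1

/-- The second part of the Lyapunov function. -/
def gg (θ a b : ℝ) : ℝ := a - a ^ 3 / 3 - a * b ^ 2 - θ * b ^ 2

/-- The third part of the Lyapunov function (`0` if `a² + b² = 1` and `b = 0`). -/
def ph (a b : ℝ) : ℝ := (a ^ 2 + b ^ 2 - 1) ^ 2 / (|a ^ 2 + b ^ 2 - 1| + |b|)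

/-- The Lyapunov function. -/
def Ff (k : ℕ) (θ h : ℝ) (A B : ℤ → ℝ) (n : ℤ) : ℝ := 10 ^ 6 / (θ * h) * (sg (B n) * Lf k θ h A B n)
  + (gg θ (A n) (B n) - 1 / 4 * (A n * ph (A n) (B n)))

/-- One step `(a,b) → (a',b')` of the smooth system, `ρ` the local size divided by `h`. -/
def Inc (a b a' b' θ h ρ : ℝ) : Prop := 0 < h ∧ h ≤ 1 / 10 ^ 18 ∧ 0 < θ ∧ θ ≤ 16 ∧ |a| ≤ 8 ∧ |b| ≤ 8 ∧ 0 ≤ ρ ∧ ρ ≤ 1100 ∧
  ρ ≤ 5 * (|a ^ 2 + b ^ 2 - 1| + 2 * (|b| * |a + θ|)) ∧ |a' - a| ≤ h * ρ ∧ |b' - b| ≤ h * ρ ∧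
  |a' - a - h * (a ^ 2 + b ^ 2 - 1) / 2| ≤ 2 / 10 ^ 7 * (h * ρ) ∧ |b' - b + h * b * (a + θ)| ≤ 2 / 10 ^ 7 * (h * ρ)

/-- Uniformly bounded total variation (with step two, in the square mean) along the bounded solutions of `Ye θ h`. -/
def ZY (θ h : ℝ) : Prop := ∃ C : ℝ, ∀ y : ℤ → ℝ, Ye θ h y → Bd y → ∀ (m : ℤ) (N : ℕ),
  ∑ i ∈ Finset.range N, (y (m + i + 1) - y (m + i - 1)) ^ 2 ≤ C

/-- The same for the orbits of the Henon map. -/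
def ZE (b c : ℝ) : Prop := ∃ C : ℝ, ∀ x : ℤ → ℝ, Orb b c x → Bd x → ∀ (m : ℤ) (N : ℕ),
  ∑ i ∈ Finset.range N, (x (m + i + 1) - x (m + i - 1)) ^ 2 ≤ C

/-! ## Part N: entropy -/

/-- MODULE It2 (180 lines; adapt `Helper85/HN/M_Iti.lean`). Itineraries for maps whose recurrent points have period `≤ 2`.
Proof. `P = {x ∈ K | f (f x) = x}` is finite; `ε > 0` with `dist x y < ε → (x,y) ∈ U`. Choose `0 < δ ≤ ε/2` with `dist p q ≥ 2 δ` for distinct `p, q ∈ P` and `0 < δ' ≤ δ` with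
`f (f (ball p δ')) ⊆ ball p δ` for `p ∈ P` (continuity, `f (f p) = p`). `V p = ball p δ'`, `C = K ∖ ⋃ V p` compact. If `x ∈ V p` and `f (f x) ∈ V q` then `dist p q < 2 δ`, so `p = q`.
Cover `C` by finitely many balls of radius `ε/2`; letters: the points of `P` and these balls, transported to `Fin N`. Itinerary: at time `i` the letter `p` if `f^[i] x ∈ V p` (unique), otherwise a ball containing
`f^[i] x ∈ C`. If `w (i+2) ≠ w i` then `f^[i] x ∈ C` or `f^[i+2] x ∈ C`. On `C` (if nonempty) `ρ` is positive, hence `≥ m > 0`; `∑_{i<n} ρ (f^[i] x) ≤ C0` gives at most `C0/m` times `i` with `f^[i] x ∈ C`, so at most `2 C0/m` indices with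
`w (i+2) ≠ w i`. (`K = ∅`: trivial with `N = 0`.) -/
def StIt2 : Prop := ∀ (f : ℝ × ℝ → ℝ × ℝ) (K : Set (ℝ × ℝ)) (ρ : ℝ × ℝ → ℝ) (C0 : ℝ), Continuous f → IsCompact K → MapsTo f K K →
  Continuous ρ → (∀ p, 0 ≤ ρ p) → (∀ p ∈ K, ρ p = 0 → f (f p) = p) → {p | p ∈ K ∧ f (f p) = p}.Finite →
  (∀ p ∈ K, ∀ n : ℕ, ∑ i ∈ Finset.range n, ρ (f^[i] p) ≤ C0) →
  ∀ U ∈ uniformity (ℝ × ℝ), ∃ (N c : ℕ) (A : Fin N → Set (ℝ × ℝ)),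
    (∀ a, ∀ x ∈ A a, ∀ y ∈ A a, (x, y) ∈ U) ∧
    ∀ x ∈ K, ∃ w : ℕ → Fin N, (∀ i, f^[i] x ∈ A (w i)) ∧
      ∀ n : ℕ, ((Finset.range n).filter (fun i => w (i + 2) ≠ w i)).card ≤ c

/-- MODULE Ge2 (120 lines; theorem hGe2 (h1 : Helper85.HN.StCnt) (h2 : Helper85.HN.StPoly) (h3 : StIt2) : StGe2; adapt `Helper85/HN/M_Gen.lean`).
Proof. StPoly; for `U` take `N, c, A` from StIt2 and `W` from StCnt (`N`, `c`, `n`). For `w` as in StIt2 the words `w_e j = w (2j)`, `w_o j = w (2j+1)` have at most `c` changes (`w_e (j+1) ≠ w_e j` means `w (i+2) ≠ w i`, `i = 2j`; the bound of StIt2 holds for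
every `n`). So some `(w_e', w_o') ∈ W × W` agrees with `(w_e, w_o)` on `[0,n]`, hence the word `w' i = w_e' (i/2)` (`i` even), `w_o' (i/2)` (`i` odd) agrees with `w` on `[0,n]`. For every pair for which some `y ∈ K` has `f^[i] y ∈ A (w' i)` for all `i ≤ n` choose such a
`y`: these `y` are a dynamical cover; `coverMincard ≤ (N^(c+1) (n+1)^c)²`. -/
def StGe2 : Prop := ∀ (f : ℝ × ℝ → ℝ × ℝ) (K : Set (ℝ × ℝ)) (ρ : ℝ × ℝ → ℝ) (C0 : ℝ), Continuous f → IsCompact K → MapsTo f K K →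
  Continuous ρ → (∀ p, 0 ≤ ρ p) → (∀ p ∈ K, ρ p = 0 → f (f p) = p) → {p | p ∈ K ∧ f (f p) = p}.Finite →
  (∀ p ∈ K, ∀ n : ℕ, ∑ i ∈ Finset.range n, ρ (f^[i] p) ≤ C0) → Dynamics.coverEntropy f K ≤ 0

/-- MODULE Per (60 lines). Points of period `≤ 2`. Proof: with `p = (x,y)`: `y = x² + c - b y` and `x = y² + c - b x`, i.e. `(1+b) y = x² + c`, `(1+b) x = y² + c`. `b = -1`: `x² = -c = y²`, at most four points. `b ≠ -1`: `y = (x²+c)/(1+b)` and `x` is a root of the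
polynomial `(X²+c)² + (1+b)² c - (1+b)³ X` (monic of degree `4`), so finitely many `x`, and `y` is determined by `x`. -/
def StPer : Prop := ∀ b c : ℝ, {p : ℝ × ℝ | hen b c (hen b c p) = p}.Finite

/-- MODULE Zen (80 lines; theorem hZen (h1 : StGe2) (h2 : StPer) (h3 : Helper85.HN.StKc) : StZen).
Proof: StGe2 with `f = hen b c`, `K = KK b c` (StKc: compact, `MapsTo`), `ρ p = (x1 - p.2)² + (x2 - p.1)²` where `x1 = p.1² + c - b p.2`, `x2 = x1² + c - b p.1`. For `p ∈ KK b c` with orbit `x`, `f^[i] p = (x i, x (i-1))`, so `ρ (f^[i] p) = (x (i+1) - x (i-1))² + (x (i+2) - x i)²` and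
the sums are `≤ 2 C` (`ZE` with `m = 0` and with `m = 1`). `ρ p = 0` gives `x1 = p.2`, `x2 = p.1`, i.e. `f (f p) = (x2, x1) = p`. -/
def StZen : Prop := ∀ b c : ℝ, ZE b c → (b, c) ∈ E0

/-- MODULE Syz (60 lines). Symmetry. Proof: if `x` is a bounded orbit for `(b,c)` then `X n = x (-n-1)/b` is a bounded orbit for `(1/b, c/b²)` (`x (-n-2) = (x (-n-1)² + c - x (-n))/b`, see `Helper85/HN/M_Sym.lean`). `X (j+1) - X (j-1) = (x (-j-2) - x (-j))/b`. For a window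
`i = m + t`, `0 ≤ t < N`, put `j = -i-1`: `(x (i+1) - x (i-1))² = b² (X (j-1) - X (j+1))²`, and `j` runs over `[-m-N, -m-1]`: `Finset.sum_range_reflect`. So `C = b² C'`. -/
def StSyz : Prop := ∀ b c : ℝ, b ≠ 0 → ZE (1 / b) (c / b ^ 2) → ZE b c

/-! ## Part A: a priori bounds -/

/-- MODULE ApZ (100 lines). Bound of the slow variable `Z n = y (n+1) + (1-δ) y n`, `δ = θ h`.
Proof. `Z n - Z (n-1) = h (y n ^ 2 - 1)` (this is `Ye`). `Z n ^ 2 ≤ (1 + (1-δ)²)(y (n+1)² + y n ²) ≤ 2 (y (n+1)² + y n ²)`, so `Z (n+1) - Z (n-1) = h (y n ² + y (n+1)² - 2) ≥ h (Z n ²/2 - 2)` (*).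
(1) Suppose `Z m > 2 + h`. Then `Z (m+1) ≥ Z m - h > 2`; `M = min (Z m) (Z (m+1)) > 2`, `μ = h (M²/2 - 2) > 0`. By (*) `Z (m+2) ≥ Z m + h (Z (m+1)²/2 - 2) ≥ M + μ`, `Z (m+3) ≥ Z (m+1) + h (Z (m+2)²/2 - 2) ≥ M + μ`; by induction `min (Z (m+2j)) (Z (m+2j+1)) ≥ M + j μ`: `y` is
unbounded. (2) Suppose `Z m < -2 - h`. Then `Z (m-1) = Z m - h (y m ² - 1) ≤ Z m + h < -2`; `M = min (-Z m) (-Z (m-1)) > 2`. By (*) at `n = m-1`: `Z (m-2) ≤ Z m - h (Z (m-1)²/2 - 2) ≤ -M - μ`, then `Z (m-3) ≤ Z (m-1) - h (Z (m-2)²/2 - 2) ≤ -M - μ`, and so on: unbounded. -/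
def StApZ : Prop := ∀ (θ h : ℝ) (y : ℤ → ℝ), 0 < h → h ≤ 1 / 1000 → 0 < θ → θ * h ≤ 1 / 200 → Ye θ h y → Bd y →
  ∀ n, |y (n + 1) + (1 - θ * h) * y n| ≤ 2 + h

/-- MODULE Ap (120 lines; theorem hAp (h1 : StApZ) : StAp). Bound of bounded orbits.
Proof. `δ = θ h`, `Z n = y (n+1) + (1-δ) y n`, `Z n - Z (n-1) = h (y n ² - 1)`, `|Z n| ≤ 2 + h`. `s n = y n - y (n-1)` satisfies `s (n+1) = -(1-δ) s n + h (y n ² - 1)`, so `|s (n+1)| ≤ |s n| + h |y n ² - 1| ≤ |s n| + h (y n ² - 1) + 2h`, and for `j ≥ 0`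
`|s n| ≤ |s (n-j)| + (Z (n-1) - Z (n-j-1)) + 2 h j ≤ |s (n-j)| + 4 + 2h + 2hj`. Let `N = ⌈1/h⌉₊`, `1 ≤ N h ≤ 1 + h`. `h ∑_{i=n-N-1}^{n-1} y i ² = Z (n-1) - Z (n-N-2) + (N+1) h ≤ 4 + 2h + (N+1) h`, and `s i ² ≤ 2 (y i ² + y (i-1) ²)`, so `h ∑_{i=n-N}^{n-1} s i ² ≤ 4 (4 + 2h + (N+1) h) ≤ 20 + 16 h`:
as `N h ≥ 1` there is `i ∈ [n-N, n-1]` with `s i ² ≤ 20 + 16 h`, `|s i| ≤ 4.5`. So `|s n| ≤ 4.5 + 4 + 2h + 2 (1+h) ≤ 10.6`. Finally `(2-δ) y n = Z (n-1) + (1-δ) s n`, `|y n| ≤ (2 + h + 10.6)/(2-δ) ≤ 7`. -/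
def StAp : Prop := ∀ (θ h : ℝ) (y : ℤ → ℝ), 0 < h → h ≤ 1 / 1000 → 0 < θ → θ * h ≤ 1 / 200 → Ye θ h y → Bd y → ∀ n, |y n| ≤ 7

/-- MODULE Big (120 lines; theorem hBig (h1 : StAp) : StBig). Large friction.
Proof. `v i = y (i+1) - y (i-1)`, `δ = θ h`. Subtracting the equations at `i+1` and `i-1`: `v (i+1) - v (i-1) = h (v i (y (i+1) + y (i-1)) + θ (v i - v (i-1)))`, i.e. `v (i+1) = (1-δ) v (i-1) + κ v i`, `κ = h (y (i+1) + y (i-1) + θ) ≥ h (16 - 14) ≥ 0` (StAp), `0 ≤ 1-δ`. So `v i v (i-1) ≥ 0` implies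
`v (i+1) v i ≥ 0`. In a window `i = m + t`, `0 ≤ t < N`, let `t0 ≤ N` be the first `t` with `v (m+t) v (m+t-1) ≥ 0` (`t0 = N` if there is none). For `t < t0` the signs of `v (m+t)` alternate: `|v (m+t)| = σ (-1)^t v (m+t)`, and `∑_{t<t0} (-1)^t (y (m+t+1) - y (m+t-1))` telescopes
(`c t = (-1)^t y (m+t-1)`, the terms are `c (t+2) - c t`): `≤ 4 · 7`. For `t ≥ t0` all `v (m+t)` are `≥ 0` or all are `≤ 0` (both `v (m+t0)`, `v (m+t0-1)` have this sign, then induction): `∑ |v| = |∑ v| ≤ 4 · 7`, telescoping. So `∑ |v| ≤ 56`, `|v| ≤ 14`, `∑ v² ≤ 784 = C`. -/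
def StBig : Prop := ∀ θ h : ℝ, 16 ≤ θ → 0 < h → h ≤ 1 / 1000 → θ * h ≤ 1 / 200 → ZY θ h

/-- MODULE Dd (80 lines; theorem hDd (h1 : Helper85.HN.StLei) : StDd). Rules for `dd`.
Proof: (1) induction on `m`. (2) from (1) and StLei (1) for `fun i => u (n + 2i)`, at `i = 0`. The others by induction on `m`. -/
def StDd : Prop := (∀ (m : ℕ) (u : ℤ → ℝ) (n i : ℤ), dl m (fun i => u (n + 2 * i)) i = dd m u (n + 2 * i)) ∧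
  (∀ (m : ℕ) (u v : ℤ → ℝ) (n : ℤ), dd m (fun i => u i * v i) n =
    ∑ j ∈ Finset.range (m + 1), (m.choose j : ℝ) * dd j u (n + 2 * ((m - j : ℕ) : ℤ)) * dd (m - j) v n) ∧
  (∀ (m : ℕ) (u v : ℤ → ℝ) (x : ℝ) (n : ℤ), dd m (fun i => u i + x * v i) n = dd m u n + x * dd m v n) ∧
  (∀ (m : ℕ) (x : ℝ) (n : ℤ), 1 ≤ m → dd m (fun _ => x) n = 0) ∧
  (∀ (m j : ℕ) (u : ℤ → ℝ) (n : ℤ), dd m (dd j u) n = dd (m + j) u n) ∧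
  (∀ (m : ℕ) (u : ℤ → ℝ) (s n : ℤ), dd m (fun i => u (i + s)) n = dd m u (n + s))

/-- MODULE Gl (100 lines; theorem hGl (h1 : StDd) : StGl; compare `Helper85/HN/M_Gl.lean`). Global bounds of all differences.
Proof: induction on `m`. `m = 0`: hypothesis. `m = 1`: `|y (n+2) - y n| ≤ h (49 + 1 + 14 θ) ≤ 274 h ≤ 294 h`. For `m ≥ 1`: `dd (m+1) y i = dd m (dd 1 y) i`, `dd 1 y i = h (y (i+1)² - 1 + θ (y (i+1) - y i))`, so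
`dd (m+1) y i = h (dd m (y²) (i+1) + θ (dd m y (i+1) - dd m y i))`; by Leibniz `|dd m (y²)| ≤ ∑ C(m,j) 7 j! (42h)^j · 7 (m-j)! (42h)^(m-j) = 49 (m+1)! (42h)^m`, the friction term is `≤ 16 · 14 · m! (42h)^m`; the sum times `h` is `≤ 7 (m+1)! (42h)^m · h (7 + 32) ≤ 7 (m+1)! (42h)^(m+1)`. -/
def StGl : Prop := ∀ (θ h : ℝ) (y : ℤ → ℝ), 0 < h → h ≤ 1 / 100 → 0 ≤ θ → θ ≤ 16 → Ye θ h y → (∀ n, |y n| ≤ 7) →
  ∀ (m : ℕ) (n : ℤ), |dd m y n| ≤ 7 * (m.factorial : ℝ) * (42 * h) ^ m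

/-- MODULE Loc (140 lines; theorem hLoc (h1 : StDd) : StLoc; compare `Helper85/HN/M_Loc.lean`). Local bounds.
Proof: induction on `m ≥ 1` of `|dd m y i| ≤ R m! (42h)^(m-1)` in the window `[p,q]`. `m = 1`: hypothesis (`dd 1 y i = y (i+2) - y i`). Step as in Gl at `i`: Leibniz at `i+1`, terms `C(m,j) dd j y (i+1+2(m-j)) · dd (m-j) y (i+1)`; for `j ≥ 1` bound `dd j` locally (its window is contained in `[i, i+2(m+1)]`) and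
`dd (m-j)` globally: `≤ 7 R m! (42h)^(m-1)` each, for `j = 0` also `7 · R m! (42h)^(m-1)`. Sum `≤ 7 R (m+1)! (42h)^(m-1)`, friction `≤ 32 R m! (42h)^(m-1)`; times `h`: `≤ R (m+1)! (42h)^(m-1) h (7 + 32) ≤ R (m+1)! (42h)^m`. Finally `m! ≤ (m-1)! 2^(m-1)`. -/
def StLoc : Prop := ∀ (θ h R : ℝ) (y : ℤ → ℝ) (p q : ℤ), 0 < h → h ≤ 1 / 100 → 0 ≤ θ → θ ≤ 16 → 0 ≤ R → Ye θ h y →
  (∀ n, |y n| ≤ 7) → (∀ (m : ℕ) (n : ℤ), |dd m y n| ≤ 7 * (m.factorial : ℝ) * (42 * h) ^ m) →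
  (∀ i : ℤ, p ≤ i → i + 2 ≤ q → |y (i + 2) - y i| ≤ R) →
  ∀ (m : ℕ) (i : ℤ), 1 ≤ m → p ≤ i → i + 2 * (m : ℤ) ≤ q → |dd m y i| ≤ R * ((m - 1).factorial : ℝ) * (84 * h) ^ (m - 1)

/-- MODULE Slo (100 lines). Slow variation of the local size.
Proof: `v i = y (i+1) - y (i-1)`. Subtracting the equations at `i+1` and `i-1`: `v (i+1) - v (i-1) = h (v i (y (i+1) + y (i-1)) + θ (v i - v (i-1)))`, i.e. `v (i+1) = (1 - θh) v (i-1) + h (y (i+1) + y (i-1) + θ) v i`. `V i = |v i| + |v (i-1)|`: `V (i+1) ≤ (1 + 30 h) V i` and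
`V i ≤ (1 + 50 h) V (i+1)` (divide by `1 - θh ≥ 1 - 16 h`). After `|j| ≤ N + 1` steps the factor is `≤ (1+50h)^(N+1) ≤ exp (50 h (N+1)) ≤ 2`; `|v i| ≤ V i ≤ 2 V n = RR y n`. -/
def StSlo : Prop := ∀ (θ h : ℝ) (y : ℤ → ℝ) (N : ℕ), 0 < h → h ≤ 1 / 10 ^ 4 → 0 ≤ θ → θ ≤ 16 → 10 ^ 4 * (N : ℝ) * h ≤ 1 →
  Ye θ h y → (∀ n, |y n| ≤ 7) → ∀ n i : ℤ, |i - n| ≤ (N : ℤ) → |y (i + 1) - y (i - 1)| ≤ RR y n

/-- MODULE Reg (60 lines; theorem hReg (h1 : StGl) (h2 : StLoc) (h3 : StSlo) : StReg).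
Proof: StLoc with `p = n - 10k`, `q = n + 10k`, `R = RR y n`; hypothesis from StSlo (`N = 10 k`; `y (i+2) - y i = v (i+1)`). `RR y n ≤ 4 sup |v| ≤ 4 · 274 h`. -/
def StReg : Prop := ∀ (θ h : ℝ) (y : ℤ → ℝ) (k : ℕ), 0 < h → h ≤ 1 / 10 ^ 5 → 0 ≤ θ → θ ≤ 16 → 10 ^ 6 * (k : ℝ) * h ≤ 1 →
  Ye θ h y → (∀ n, |y n| ≤ 7) → ∀ n : ℤ, Reg (10 * (k : ℤ)) h (RR y n) y n ∧ 0 ≤ RR y n ∧ RR y n ≤ 1100 * h

/-! ## Part I: interpolation -/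

/-- MODULE Ck (140 lines). The coefficients.
Proof. `b j = C(2k-1, k+j-1)` (`b j = 0` for `j > k`), `(k+j) b (j+1) = (k-j) b j` for `1 ≤ j ≤ k` (`Nat.choose_succ_right_eq`), `t j = b j/(2j-1)`. `t` is positive and decreasing on `[1,k]`, `t 2 ≤ t 1/3`. `Nk k = ∑ (-1)^(j+1) t j ≥ t 1 - t 2 ≥ (2/3) t 1` (alternating sum: group the terms `3 - 4 + 5 - ..`; e.g. prove by
induction that `0 ≤ ∑_{j=i}^k (-1)^(j-i) t j ≤ t i`). So `|ck k j| = t j/(2 Nk) ≤ 3/4`. `∑ ck k j = Nk/(2 Nk) = 1/2`. `(2j-1) b j = T j - T (j+1)` with `T j = (k+j-1) b j` (`j ≤ k`), so `∑ (2j-1) b j = T 1 = k b 1 = k t 1` and `∑ |ck k j| (2j-1)² = k t 1/(2 Nk) ≤ 3k/4`. -/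
def StCk : Prop := ∀ k : ℕ, 1 ≤ k → 0 < Nk k ∧ (∀ j ∈ Finset.Icc 1 k, |ck k j| ≤ 3 / 4) ∧
  ∑ j ∈ Finset.Icc 1 k, ck k j = 1 / 2 ∧ ∑ j ∈ Finset.Icc 1 k, |ck k j| * (2 * (j : ℝ) - 1) ^ 2 ≤ 3 / 4 * (k : ℝ)

/-- MODULE Exi (120 lines; theorem hExi (h1 : StCk) : StExi). Exactness of the interpolation.
Proof. Put `p (t) = P (x + (t+1)/2)`, of degree `≤ 2k-1`; `p (2j-1) = P (x+j)`, `p (-(2j-1)) = P (x+1-j)`, `p 0 = P (x+1/2)`. Write `p = C (p 0) + X g`, `deg g ≤ 2k-2`. `∑ ck j (p (2j-1) + p (-(2j-1))) = p 0 · 2 ∑ ck j + ∑ ck j (2j-1) (g (2j-1) - g (-(2j-1)))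
= p 0 + (1/(2 Nk)) ∑_{j=1}^k (-1)^(j+1) C(2k-1,k+j-1) (g (2j-1) - g (-(2j-1)))`, and the last sum is, up to sign, `∑_{m=0}^{2k-1} (-1)^m C(2k-1,m) g (2m-2k+1) = 0` (the `(2k-1)`-th difference of a polynomial of degree `≤ 2k-2`: `Polynomial.fwdDiff_iter_eq_zero_of_degree_lt` and `fwdDiff_iter_eq_sum_shift`, see
`Helper85/HN/M_Ex.lean`; `m = k+j-1` and `m = k-j`, `C(2k-1,k-j) = C(2k-1,k+j-1)`). -/
def StExi : Prop := ∀ (k : ℕ) (P : Polynomial ℝ) (x : ℝ), 1 ≤ k → P.natDegree ≤ 2 * k - 1 →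
  ∑ j ∈ Finset.Icc 1 k, ck k j * (P.eval (x + j) + P.eval (x + 1 - j)) = P.eval (x + 1 / 2)

/-- MODULE Iib (120 lines; theorem hIib (h1 : StCk) : StIib). Bounds of `II`.
Proof. (1) `∑ |ck| ≤ 3k/4`. (2) `z i = w (n - 1 + 2i)`; `w (n + (2j-1)) = z j`, `w (n - (2j-1)) = z (1-j)`; `∑ ck = 1/2`, so the difference is `∑ ck j (z j - z 1 - (z 0 - z (1-j)))`; `z j - z 1 = ∑_{i=1}^{j-1} (z (i+1) - z i)`, `z 0 - z (1-j) = ∑_{i=1}^{j-1} (z (i+1-j) - z (i-j))`, and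
`(z (i+1) - z i) - (z (i+1-j) - z (i-j))` is a sum of `j` second differences `dd 2 w`, so the bracket is `≤ j (j-1) T ≤ (2j-1)² T/4`; StCk. (3), (4) by definition / induction. -/
def StIib : Prop := (∀ (k : ℕ) (w : ℤ → ℝ) (n : ℤ) (T : ℝ), 1 ≤ k → 0 ≤ T →
    (∀ i : ℤ, |i - n| ≤ 2 * (k : ℤ) - 1 → |w i| ≤ T) → |II k w n| ≤ 3 / 2 * (k : ℝ) * T) ∧
  (∀ (k : ℕ) (w : ℤ → ℝ) (n : ℤ) (T : ℝ), 1 ≤ k → 0 ≤ T →
    (∀ i : ℤ, n - (2 * (k : ℤ) - 1) ≤ i → i + 4 ≤ n + (2 * (k : ℤ) - 1) → |dd 2 w i| ≤ T) →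
    |II k w n - (w (n + 1) + w (n - 1)) / 2| ≤ (k : ℝ) / 5 * T) ∧
  (∀ (k : ℕ) (u v : ℤ → ℝ) (x : ℝ) (n : ℤ), II k (fun i => u i + x * v i) n = II k u n + x * II k v n) ∧
  (∀ (k m : ℕ) (w : ℤ → ℝ) (n : ℤ), dd m (II k w) n = II k (dd m w) n)

/-- MODULE Pol (80 lines; theorem hPol (h1 : StDd) (h2 : Helper85.HN.StNew) : StPol). Polynomial approximation on both sublattices.
Proof: StNew for the sequences `i ↦ y (n + 2i)`, `i ↦ y (n - 1 + 2i)` (centre `0`), with `6l` in place of `k`, `d = 2l`, `84h/10` in place of `h`: `20 · 6l · 8.4 h ≤ 1/10`; the differences `dl m (..) (-6l) = dd m y (n - 12 l)` resp. `dd m y (n - 1 - 12 l)`, `m ≤ 12 l`, are bounded by `Reg`. -/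
def StPol : Prop := ∀ (l : ℕ) (y : ℤ → ℝ) (n : ℤ) (R h : ℝ), 1 ≤ l → 0 ≤ R → 0 < h → 10 ^ 6 * (3 * (l : ℝ)) * h ≤ 1 →
  Reg (12 * (l : ℤ) + 1) h R y n → ∃ P Q : Polynomial ℝ, P.natDegree ≤ 2 * l ∧ Q.natDegree ≤ 2 * l ∧
    ∀ i : ℤ, |i| ≤ 6 * (l : ℤ) → |y (n + 2 * i) - P.eval (i : ℝ)| ≤ 18 * (l : ℝ) * R * (1 / 10) ^ (2 * l) ∧
      |y (n - 1 + 2 * i) - Q.eval (i : ℝ)| ≤ 18 * (l : ℝ) * R * (1 / 10) ^ (2 * l)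

/-- MODULE E1 (120 lines; theorem hE1 (h1 : StCk) (h2 : StExi) (h3 : StIib) (h4 : StPol) : StE1). `II` commutes with squares.
Proof. `k = 3l`, `τ = 6 k R (1/10)^(2l)`, `Q` from StPol. `z i = y (n-1+2i) - y (n-1)`, `G = Q - C (Q.eval 0)`, `z i = G i + ρ i`, `|ρ| ≤ 2τ`, `|z i| ≤ k R` for `|i| ≤ k` (`Reg` with `m = 1`), so `|G i| ≤ 2 k R` (`2τ ≤ kR`). By `∑ ck = 1/2` (i.e. `II` of a constant is the constant) `II (y²) - (II y)² = II (z²) - (II z)²` (nodes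
`n ± (2j-1) = n - 1 + 2i`, `i = j` or `i = 1 - j`). StExi (`x = 0`): `II` of `G` is `G (1/2)`, `II` of `G²` (degree `4l ≤ 2k-1`) is `G (1/2)²`. Hence `II (z²) - (II z)² = II (2Gρ + ρ²) - 2 G(1/2) II ρ - (II ρ)²`; `|G (1/2)| ≤ (3/2) k · 2 k R`, `|II f| ≤ (3/2) k sup |f|`. Total `≤ 40 k³ R τ = 240 k⁴ R² (1/10)^(2l) ≤ et l · R²/4`. -/
def StE1 : Prop := ∀ (l : ℕ) (y : ℤ → ℝ) (n : ℤ) (R h : ℝ), 1 ≤ l → 0 ≤ R → 0 < h → 10 ^ 6 * (3 * (l : ℝ)) * h ≤ 1 →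
  Reg (12 * (l : ℤ) + 1) h R y n → |II (3 * l) (fun i => y i ^ 2) n - II (3 * l) y n ^ 2| ≤ et l * R ^ 2 / 4

/-- MODULE E2 (100 lines; theorem hE2 (h1 : StCk) (h2 : StExi) (h3 : StIib) (h4 : StPol) : StE2). `II` is almost an involution.
Proof. `k, τ, P` as in E1 (`P` for the sublattice of `n`, valid for `|i| ≤ 2k`). For `|i| ≤ k` `II y (n - 1 + 2i)` has the nodes `n + 2(i+j-1)`, `n + 2(i-j)`, so by StExi (`x = i - 1`) it is `P (i - 1/2)` up to `(3/2) k τ`. The nodes of `II (II y) n` are `n - 1 + 2j`, `n - 1 + 2(1-j)`, so with `P̂ = P.comp (X - 1/2)`,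
`II (II y) n` is `∑ ck j (P̂ j + P̂ (1-j)) = P̂ (1/2) = P 0` up to `(3/2) k · (3/2) k τ`; and `|y n - P 0| ≤ τ`. Total `≤ 4 k² τ = 24 k³ R (1/10)^(2l) ≤ et l · R/4`. -/
def StE2 : Prop := ∀ (l : ℕ) (y : ℤ → ℝ) (n : ℤ) (R h : ℝ), 1 ≤ l → 0 ≤ R → 0 < h → 10 ^ 6 * (3 * (l : ℝ)) * h ≤ 1 →
  Reg (12 * (l : ℤ) + 1) h R y n → |y n - II (3 * l) (II (3 * l) y) n| ≤ et l * R / 4

/-- MODULE E3 (180 lines; theorem hE3 (h1 : StCk) (h2 : StExi) (h3 : StIib) (h4 : StPol) (h5 : Helper85.HN.StEx) (h6 : Helper85.HN.StBj) : StE3; compare `Helper85/HN/M_Err.lean`). The Leibniz defect.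
Proof. `k = 3l`, `τ` as in E1, `P, Q` from StPol. For `|i| ≤ k`: `II y (n + 2i)` has the nodes `n - 1 + 2(i+j)`, `n - 1 + 2(i+1-j)`, so it is `Q (i + 1/2)` up to `(3/2) k τ` (StExi, `x = i`). So with `PA = (P + Q.comp (X + 1/2))/2`, `PB = ee n (P - Q.comp (X + 1/2))/2` (`ee (n+2i) = ee n`): `|A (n+2i) - PA i|, |B (n+2i) - PB i| ≤ (τ + (3/2) k τ)/2 ≤ (5/4) k τ`.
`a i = A (n+2i) - A n`, `GA = PA - C (PA 0)`, `|a i - GA i| ≤ (5/2) k τ`; `|a i| ≤ (5/4) k² R` (`|y (n+2i) - y n| ≤ k R` and `|II y (n+2i) - II y n| ≤ k · (3/2) k R`, by `Reg` with `m = 1` and (4), (1) of StIib), `|GA i| ≤ (3/2) k² R`; the same for `b`, `GB`. `DD k` (at `0`, on the lattice) of `GA²`, `GA GB`, `GB²`, `GA² GB`, `GB³` (degrees `≤ 6l = 2k`) vanishes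
(StEx: derivative at `0` of a product of polynomials vanishing at `0`). `|ak| ≤ 1`: `|D2 f| ≤ 2k sup |f|`. So `D2` of a product of two factors is `≤ 2k · (5/2)kτ · (5/4 + 3/2) k² R ≤ 14 k⁴ R τ`, of three factors `≤ 2k · (5/2) k τ · 3 · (9/4) k⁴ R² ≤ 34 k⁶ R² τ`. Total `≤ (41 + 82 + 41) · 14 k⁴ R τ + (4/3) · 34 k⁶ R² τ`;
`τ = 6 k R (1/10)^(2l)`, `k R ≤ 6500 k h ≤ 0.0065`: `≤ (13776 k⁵ + 2 k⁶) R² (1/10)^(2l) ≤ et l · R²/4`. -/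
def StE3 : Prop := ∀ (l : ℕ) (y : ℤ → ℝ) (n : ℤ) (R h : ℝ), 1 ≤ l → 0 ≤ R → R ≤ 6500 * h → 0 < h → 10 ^ 6 * (3 * (l : ℝ)) * h ≤ 1 →
  Reg (12 * (l : ℤ) + 1) h R y n → |AA (3 * l) y n| ≤ 41 → |BB (3 * l) y n| ≤ 41 →
  |EEf (3 * l) (AA (3 * l) y) (BB (3 * l) y) n| ≤ et l * R ^ 2 / 4

/-! ## Part S: the smooth system -/

/-- MODULE Eqs (60 lines; theorem hEqs (h1 : StIib) : StEqs). Equations of `A`, `B`; pure algebra.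
Proof: apply the linear, shift invariant operator `II k` to the equation: `II y (n+1) - II y (n-1) = h (II (y²) n - 1 + θ (II y n - II y (n-1)))` (`II` of a constant is the constant: `∑ ck = 1/2`, see StCk, needed as hypothesis only here: it is the hypothesis `hc`). With `E = II (y²) n - (II y n)²`: half the sum of the two equations is (1), and
`-ee n/2` times their difference is (2), as `ee (n ± 1) = - ee n`, `(y n)² - (II y n)² = (y n + II y n)(y n - II y n) = 4 A B ee n`. -/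
def StEqs : Prop := ∀ (k : ℕ) (θ h : ℝ) (y : ℤ → ℝ) (n : ℤ), ∑ j ∈ Finset.Icc 1 k, ck k j = 1 / 2 → Ye θ h y →
  AA k y (n + 1) - AA k y (n - 1) = h * (AA k y n ^ 2 + BB k y n ^ 2 - 1 + θ * (AA k y n - AA k y (n - 1)))
      + h * (II k (fun i => y i ^ 2) n - II k y n ^ 2) / 2 ∧
  BB k y (n + 1) - BB k y (n - 1) = -h * (2 * AA k y n * BB k y n + θ * (BB k y n + BB k y (n - 1)))
      + ee n * (h * (II k (fun i => y i ^ 2) n - II k y n ^ 2) / 2) ∧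
  y n = AA k y n + ee n * BB k y n

/-- MODULE Sh (160 lines; theorem hSh (h1 : StIib) (h2 : StDd) : StSh). Sharp local estimates for `A`, `B`.
Proof. (2) `dd m A i = (dd m y i + II (dd m y) i)/2`, `dd m B i = ee i (dd m y i - II (dd m y) i)/2` (`ee (i+2) = ee i`; StIib (4)), and by StIib (2) `|II (dd m y) i| ≤ max |dd m y (i±1)| + (k/5) sup |dd (m+2) y|`. With `Reg` (all windows inside `|· - n| ≤ 10k`, as `k ≥ 3`) and `k h ≤ 10⁻⁶`: `m = 1`: `R + (k/5) R 2 (84h)² ≤ 1.1 R`; `m = 2`: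
`84 h R + (k/5) R 6 (84h)³ ≤ 90 h R`; `m = 3`: `R 2 (84h)² + (k/5) R 24 (84h)⁴ ≤ 15000 h² R`. (1) `A n - A (n-1) = ((y n - II y (n-1)) + (II y n - y (n-1)))/2`, `B n - B (n-1) = ee n ((y n - II y (n-1)) - (II y n - y (n-1)))/2`, and by StIib (2) with `T = 84 h R`: `|y n - II y (n-1)| ≤ |y n - y (n-2)|/2 + 17 k h R ≤ 0.51 R`,
`|II y n - y (n-1)| ≤ |y (n+1) - y (n-1)|/2 + 17 k h R ≤ 0.51 R` (`|y n - y (n-2)|, |y (n+1) - y (n-1)| ≤ R` by `Reg` with `m = 1`). Same at `n+1`. (3) `B j = ee j (y j - II y j)/2` gives `II B n = -ee n (II y n - II (II y) n)/2` and `B n - II B n = ee n (y n - II (II y) n)/2`; similarly `A n - II A n = (y n - II (II y) n)/2`; StIib (2) for `A` and for `B` with `T = 90 h R`. -/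
def StSh : Prop := ∀ (k : ℕ) (y : ℤ → ℝ) (n : ℤ) (R h : ℝ), 3 ≤ k → 0 ≤ R → 0 < h → h ≤ 1 / 10 ^ 18 → 10 ^ 6 * (k : ℝ) * h ≤ 1 → Reg (10 * (k : ℤ)) h R y n →
  (|AA k y n - AA k y (n - 1)| ≤ R ∧ |AA k y (n + 1) - AA k y n| ≤ R ∧ |BB k y n - BB k y (n - 1)| ≤ R ∧ |BB k y (n + 1) - BB k y n| ≤ R) ∧
  (∀ i : ℤ, |i - n| ≤ 2 * (k : ℤ) + 2 → |dd 1 (AA k y) i| ≤ 11 / 10 * R ∧ |dd 1 (BB k y) i| ≤ 11 / 10 * R ∧
    |dd 2 (AA k y) i| ≤ 90 * h * R ∧ |dd 2 (BB k y) i| ≤ 90 * h * R ∧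
    |dd 3 (AA k y) i| ≤ 15000 * h ^ 2 * R ∧ |dd 3 (BB k y) i| ≤ 15000 * h ^ 2 * R) ∧
  |AA k y n - (AA k y (n + 1) + AA k y (n - 1)) / 2| ≤ 18 * (k : ℝ) * h * R + |y n - II k (II k y) n| / 2 ∧
  |BB k y n - (BB k y (n + 1) + BB k y (n - 1)) / 2| ≤ 18 * (k : ℝ) * h * R + |y n - II k (II k y) n| / 2

/-- MODULE Ab (40 lines; theorem hAb (h1 : StIib) (h2 : StGl) : StAb). `|II y n| ≤ 7 + (k/5) · 7 · 2 · (42h)² ≤ 8` by StIib (2). -/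
def StAb : Prop := ∀ (k : ℕ) (θ h : ℝ) (y : ℤ → ℝ), 1 ≤ k → 0 < h → h ≤ 1 / 100 → 0 ≤ θ → θ ≤ 16 → 10 ^ 6 * (k : ℝ) * h ≤ 1 →
  Ye θ h y → (∀ n, |y n| ≤ 7) → ∀ n, |AA k y n| ≤ 8 ∧ |BB k y n| ≤ 8

/-- MODULE Db (40 lines; theorem hDb (h1 : Helper85.HN.StTh) (h2 : StDd) : StDb). `D2` against a symmetric difference.
Proof: StTh for `w' i = w (n + 2i)` at `0`, `t = 1`: `|D2 k w n - (w (n+2) - w (n-2))/2| ≤ T (k + k²)/4 ≤ T k²/2`. -/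
def StDb : Prop := ∀ (k : ℕ) (w : ℤ → ℝ) (n : ℤ) (S T : ℝ), 1 ≤ k → 0 ≤ T → |dd 1 w (n - 2)| ≤ S → |dd 1 w n| ≤ S →
  (∀ i : ℤ, n - 2 * (k : ℤ) ≤ i → i + 6 ≤ n + 2 * (k : ℤ) → |dd 3 w i| ≤ T) → |D2 k w n| ≤ S + T * (k : ℝ) ^ 2 / 2

/-- MODULE Cal (140 lines; theorem hCal (h1 : Helper85.HN.StEx) (h2 : Helper85.HN.StBj) : StCal). The mean value `CA`.
Proof. `z i = A i + A (i+1) + 2θ`, so `∑_{i ∈ Ico (n+1-2j) (n+1+2j)} (A i + θ)` is the sum of `z (n + t)` over the odd `t`, `|t| ≤ 2j-1`. `ζ i = z (n + 1 + 2i)`: the sum is `∑_{r=0}^{j-1} (ζ r + ζ (-r-1))` and `ζ r + ζ (-r-1) - ζ 0 - ζ (-1) = (ζ r - ζ 0) - (ζ (-1) - ζ (-r-1))` is a sum of `r (r+1)` second differences of `ζ` (i.e. `dd 2 z`, `≤ 2T`), so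
`|sum - j (ζ 0 + ζ (-1))| ≤ 2 T (j-1) j (j+1)/3 ≤ 2 T j³/3`. `∑ |ak| j³ ≤ (k² + k)/4 ≤ k²/2` (StBj, `t = k`) and `∑ ak · 2j = 1` (StEx, `p = X`). So `|CA (n+1) - (ζ 0 + ζ (-1))/2| ≤ T k²/3`, and `(ζ 0 + ζ (-1))/2 - 2 (A n + θ) = ((A (n+1) - A n) + (A (n+2) - A n) + (A (n-1) - A n))/2`. -/
def StCal : Prop := ∀ (k : ℕ) (θ : ℝ) (A : ℤ → ℝ) (n : ℤ) (R T : ℝ), 1 ≤ k → 0 ≤ R → 0 ≤ T → |A (n + 1) - A n| ≤ R → |A n - A (n - 1)| ≤ R →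
  |A (n + 2) - A n| ≤ 11 / 10 * R → (∀ i : ℤ, |i - n| ≤ 2 * (k : ℤ) + 2 → |dd 2 A i| ≤ T) →
  |CA k θ A (n + 1) - 2 * (A n + θ)| ≤ 2 * R + (k : ℝ) ^ 2 * T / 3

/-- MODULE Idn (140 lines). The exact identity (checked with exact arithmetic for arbitrary sequences).
Proof. (1) Telescoping: `∑_{Ico (p+1) (q+1)} f - ∑_{Ico p q} f = f q - f p` (`p ≤ q`). For the products of `Wf`: `(X (2j-1) (n+1) - X (2j-1) (n-2j)) - (X (2j+1) (n-1) - X (2j+1) (n-2j)) = (B (n+2j) - B (n-2j)) (A (n+1) - A (n-1)) - (A (n+2j) - A (n-2j)) (B (n+1) - B (n-1))`. So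
`Wf (n+1) - Wf n = D2 B n (A (n+1) - A (n-1)) - D2 A n (B (n+1) - B (n-1)) - h D2 (HH A B) n`. (2) `HH i - HH n = 2 A n B n (A i - A n) + (A n² + B n² - 1)(B i - B n) + (the polynomial in EEf)`, and `D2` kills constants, so `D2 (HH) n = 2 A n B n D2 A n + (A n² + B n² - 1) D2 B n + EEf n`. (3) `CA (n+1) - CA n = D2 A n`, so
`(B (n+1) + B n) CA (n+1) - (B n + B (n-1)) CA n = (B (n+1) - B (n-1)) CA (n+1) + (B n + B (n-1)) D2 A n`. Put `A (n+1) - A (n-1) = h (..) + ea`, `B (n+1) - B (n-1) = -h (..) + eb` and collect. -/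
def StIdn : Prop := ∀ (k : ℕ) (θ h : ℝ) (A B : ℤ → ℝ) (n : ℤ) (ea eb : ℝ),
  A (n + 1) - A (n - 1) = h * (A n ^ 2 + B n ^ 2 - 1 + θ * (A n - A (n - 1))) + ea →
  B (n + 1) - B (n - 1) = -h * (2 * A n * B n + θ * (B n + B (n - 1))) + eb →
  Lf k θ h A B (n + 1) - Lf k θ h A B n = -θ * h ^ 2 * (2 * A n * B n + θ * (B n + B (n - 1))) * CA k θ A (n + 1)
    + θ * h * eb * CA k θ A (n + 1) - h * θ * (A n - A (n - 1)) * D2 k B n - ea * D2 k B n + eb * D2 k A n + h * EEf k A B n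

/-- MODULE Gro (180 lines; theorem hGro (h1 : StAp) (h2 : StGl) (h3 : StReg) (h4 : StCk) (h5 : StE1) (h6 : StE3) (h7 : StEqs) (h8 : StSh) (h9 : StAb) (h10 : StDb) (h11 : StCal) (h12 : StIdn) : StGro). The growth of `Lf`.
Proof. `k = 3l`, `R = RR y n ≤ 1100 h`, `A = AA k y`, `B = BB k y`, `s = A n + θ`, `|s| ≤ 24`, `E = II (y²) n - (II y n)²`, `|E| ≤ et R²/4` (`Reg (10k)` contains `Reg (12l+1) = Reg (4k+1)`). `k h ≤ 10⁻⁸`. `|D2 A|, |D2 B| ≤ 1.1 R + 15000 h² R k²/2 ≤ 2R` (StDb, StSh). `ϑ = CA (n+1) - 2s`: `|ϑ| ≤ 2R + 30 k² h R` (StCal with `T = 90 h R`). StIdn with `ea = h E/2`, `eb = ee n h E/2`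
(StEqs). `2AB + θ (B n + B (n-1)) = 2 B n s - θ (B n - B (n-1))`, so the first term of StIdn `+ 4 θ h² B n s²` is `-θh² (2 B n s ϑ - 2 θ s (B n - B (n-1)) - θ (B n - B (n-1)) ϑ)`: `≤ θh |B n| |s| R (4h + 60 k² h²) + 2 θ² h² |s| R + θ² h² R |ϑ|`, with `4h + 60 (kh)² ≤ 10⁻¹⁰`,
`θ² h² R |ϑ| ≤ θ h R² · 10⁻¹⁰`. The others: `θh |eb| |CA| ≤ θ h² et R²/8 · 50`, `h θ |A n - A (n-1)| |D2 B| ≤ 2 θ h R²`, `|ea D2B| + |eb D2A| ≤ 2 · (h et R²/8) · 2R`, `h |EE| ≤ h et R²/4` (StE3). Sum of the `et` terms `≤ h et R²`. -/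
def StGro : Prop := ∀ (l : ℕ) (θ h : ℝ) (y : ℤ → ℝ), Hyp l θ h → Ye θ h y → Bd y → ∀ n : ℤ,
  |Lf (3 * l) θ h (AA (3 * l) y) (BB (3 * l) y) (n + 1) - Lf (3 * l) θ h (AA (3 * l) y) (BB (3 * l) y) n
    + 4 * θ * h ^ 2 * BB (3 * l) y n * (AA (3 * l) y n + θ) ^ 2|
  ≤ 1 / 10 ^ 10 * θ * h * (|BB (3 * l) y n| * |AA (3 * l) y n + θ|) * RR y n + 3 * θ ^ 2 * h ^ 2 * |AA (3 * l) y n + θ| * RR y n
    + 4 * θ * h * RR y n ^ 2 + h * et l * RR y n ^ 2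

/-- MODULE Lsm (100 lines; theorem hLsm (h1 : Helper85.HN.StBj) : StLsm). Size of `Lf`.
Proof: `|XX| ≤ 16 β`, `4j` of them (`2j+1` and `2j-1`); `|HH| ≤ (64 + 22 + 1) β`, `4j` of them, factor `h`; `|ak| ≤ 1` (StBj); `∑_{j ≤ k} 4j = 2k(k+1) ≤ 4k²`: `|Wf| ≤ 4k² (16 + 87 h) β ≤ 68 k² β`. `|CA| ≤ 4k² (8 + θ) ≤ 96 k²`, and `θ h · 2β · 96 k² ≤ 31 k² β`. -/
def StLsm : Prop := ∀ (k : ℕ) (θ h : ℝ) (A B : ℤ → ℝ) (n : ℤ) (β : ℝ), 1 ≤ k → 0 < h → h ≤ 1 / 100 → 0 ≤ θ → θ ≤ 16 → 0 ≤ β →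
  (∀ i : ℤ, |i - n| ≤ 2 * (k : ℤ) + 1 → |A i| ≤ 8 ∧ |B i| ≤ 8 ∧ |B i| ≤ β) → |Lf k θ h A B n| ≤ 100 * (k : ℝ) ^ 2 * β

/-- MODULE Sgc (180 lines; theorem hSgc (h1 : StAp) (h2 : StGl) (h3 : StReg) (h4 : StCk) (h5 : StE1) (h6 : StE2) (h7 : StEqs) (h8 : StIib) (h9 : StAb) : StSgc). When `B` changes sign it is exponentially small.
Proof. `k = 3l`, `R = RR y n ≤ 1100 h ≤ 1`, `β = max {|B i| : |i - n| ≤ 2k + 3}` (the `sup'` of a finite set). For `|i - n| ≤ 2k + 3` `Reg (4k+1)` holds at `i` with the same `R` (`6k + 4 ≤ 10 k`), so StE1 gives `|E i| ≤ et R²/4` there (`E i = II (y²) i - (II y i)²`), and StEqs (2): `|B (i+1)| ≤ |B (i-1)| + 32 h |B i| + h et R²/8` (`2|A| + θ ≤ 32`), so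
`V i = |B i| + |B (i-1)|` satisfies `V (i+1) ≤ (1 + 32h) V i + h et R²/8`; backwards (divide by `1 - θh ≥ 1 - 16 h`) `V i ≤ (1 + 50h) V (i+1) + h et R²/7`. Over at most `2k + 4` steps starting from `V (n+1) = |B n| + |B (n+1)|` (`(1+50h)^(2k+4) ≤ exp (50h (2k+4)) ≤ 1.0001`, `(2k+4) h ≤ 10⁻⁶`): `β ≤ 1.01 (|B n| + |B (n+1)|) + 10⁻⁵ et R`.
(a) `|B (n+1) - B (n-1)| ≤ 48 h β + h et R²/8`. (b) `|dd 2 B i| ≤ 2 (48 h β + h et R²/8)` for `n - (2k-1) ≤ i`, `i + 4 ≤ n + (2k-1)`, so by StIib (2) `|II B n - (B (n+1) + B (n-1))/2| ≤ (k/5) · 2 (48 h β + h et R²/8) ≤ 10⁻⁵ β + 10⁻⁶ et R`, and `B n - II B n = ee n (y n - II (II y) n)/2` (`B j = ee j (y j - II y j)/2`, and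
`ee (n ± odd) = - ee n`), so `|B n - II B n| ≤ et R/8` (StE2). So `|B (n+1) - B n| ≤ |B (n+1) - B (n-1)|/2 + |(B (n+1) + B (n-1))/2 - B n| ≤ 10⁻⁴ β + et R/7`. (c) If `B n · B (n+1) ≤ 0` then `|B n| + |B (n+1)| = |B (n+1) - B n|`, so `β ≤ 1.01 (10⁻⁴ β + et R/7) + 10⁻⁵ et R`, `β ≤ et R`. -/
def StSgc : Prop := ∀ (l : ℕ) (θ h : ℝ) (y : ℤ → ℝ), Hyp l θ h → Ye θ h y → Bd y → ∀ n : ℤ, BB (3 * l) y n * BB (3 * l) y (n + 1) ≤ 0 →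
  ∀ i : ℤ, |i - n| ≤ 6 * (l : ℤ) + 2 → |BB (3 * l) y i| ≤ et l * RR y n

/-- MODULE Rq (120 lines; theorem hRq (h1 : StAp) (h2 : StGl) (h3 : StReg) (h4 : StCk) (h5 : StE1) (h6 : StEqs) (h7 : StSh) (h8 : StAb) : StRq). The local size.
Proof. `k = 3l`, `R = RR y n = 2 (|v n| + |v (n-1)|)`, `v n = y (n+1) - y (n-1) = (A (n+1) - A (n-1)) + ee (n+1) (B (n+1) - B (n-1))` (StEqs (3)), `s = A n + θ`, `q = qq A B n`. StEqs (1), (2) with `|E| ≤ et R²/4` and `2AB + θ (B n + B (n-1)) = 2 B n s - θ (B n - B (n-1))`: `|A (n+1) - A (n-1)| ≤ h (|q| + 16 R + et R²/8)`, `|B (n+1) - B (n-1)| ≤ h (2 |B n||s| + 16 R + et R²/8)`, so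
`|v n| ≤ h (|q| + 2 |B n||s| + 33 R)`. At `n-1` (StE1 at `n-1` with the same `R`): `|v (n-1)| ≤ h (|q (n-1)| + 2 |B (n-1)||A (n-1) + θ| + 16 |A (n-1) - A (n-2)| + 16 |B (n-1) - B (n-2)| + et R²/4)`, `|A (n-1) - A (n-2)| ≤ |A n - A (n-1)| + |A n - A (n-2)| ≤ 2.1 R` (StSh (1), (2) with `i = n-2`), same for `B`; `|q (n-1) - q| ≤ 32 R`,
`||B (n-1)||A (n-1)+θ| - |B n||s|| ≤ 32 R`. So `R ≤ 4 h (|q| + 2|B n||s|) + 400 h R` and `400 h ≤ 1/5`. -/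
def StRq : Prop := ∀ (l : ℕ) (θ h : ℝ) (y : ℤ → ℝ), Hyp l θ h → Ye θ h y → Bd y → ∀ n : ℤ,
  RR y n ≤ 5 * h * (|qq (AA (3 * l) y) (BB (3 * l) y) n| + 2 * (|BB (3 * l) y n| * |AA (3 * l) y n + θ|))

/-- MODULE Ts (120 lines; theorem hTs (h1 : StAp) (h2 : StGl) (h3 : StReg) (h4 : StCk) (h5 : StE1) (h6 : StE2) (h7 : StEqs) (h8 : StSh) (h9 : StAb) : StTs). One step of `A`, `B`.
Proof. `k = 3l`, `R = RR y n ≤ 1100 h`, `s, q, E` as before, `k h ≤ 10⁻⁸`; `Hyp` gives `et l ≤ 10⁻¹²`. `A (n+1) - A n = (A (n+1) - A (n-1))/2 - (A n - (A (n+1) + A (n-1))/2)`, `A (n+1) - A (n-1) = h (q + θ (A n - A (n-1)) + E/2)` (StEqs), `|A n - A (n-1)| ≤ R`, and the last bracket is `≤ 18 k h R + et R/8` (StSh (3), StE2): so `|A (n+1) - A n - h q/2| ≤ 8 h R + h et R²/16 + 1.8·10⁻⁷ R + et R/8 ≤ 2·10⁻⁷ R`.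
`B`: `B (n+1) - B (n-1) = -h (2 B n s - θ (B n - B (n-1))) + ee n h E/2`: the same. -/
def StTs : Prop := ∀ (l : ℕ) (θ h : ℝ) (y : ℤ → ℝ), Hyp l θ h → Ye θ h y → Bd y → ∀ n : ℤ,
  |AA (3 * l) y (n + 1) - AA (3 * l) y n - h * (AA (3 * l) y n ^ 2 + BB (3 * l) y n ^ 2 - 1) / 2| ≤ 2 / 10 ^ 7 * RR y n ∧
  |BB (3 * l) y (n + 1) - BB (3 * l) y n + h * BB (3 * l) y n * (AA (3 * l) y n + θ)| ≤ 2 / 10 ^ 7 * RR y n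

/-! ## Part F: the Lyapunov inequality -/

/-- MODULE AlG (60 lines). Increment of `gg`.
Proof. `q = a² + b² - 1`, `s = a + θ`, `α = a' - a`, `β = b' - b`, `Λ = |q| + 2|b||s|`. Identity: `gg θ a' b' - gg θ a b = -q α - 2 b s β - a α² - α³/3 - s β² - 2 b α β - α β²`. The last five terms are `≤ (8 + 1 + 24 + 16 + 1)(hρ)² = 50 h²ρ²` (`|α|, |β| ≤ hρ ≤ 1`). `-q α ≤ -h q²/2 + 2·10⁻⁷ hρ|q|`, `-2 b s β ≤ 2 h b² s² + 4·10⁻⁷ hρ|b||s|`.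
So the left side is `≤ h (-q²/2 + 2 b² s² + 2·10⁻⁷ ρ Λ + 50 h ρ²)`, `ρ ≤ 5Λ`, `Λ² ≤ 2 q² + 8 b² s²`, `b² ≤ 8 |b|`. -/
def StAlG : Prop := ∀ a b a' b' θ h ρ : ℝ, Inc a b a' b' θ h ρ →
  gg θ a' b' - gg θ a b ≤ h * (-(7 / 16 * (a ^ 2 + b ^ 2 - 1) ^ 2) + 24 * (|b| * (a + θ) ^ 2))

/-- MODULE AlQ (40 lines). Increment of `P²/(P+N)`. Proof: with `x = P/(P+N)`, `u' = P'+N'`: the difference is exactly `(P' - x u')²/u' = ((P'-P) - x (u' - (P+N)))²/u'` (`P'²/u' - 2 x P' + x² u'`, and `P - x (P+N) = 0`, `P²/(P+N) = 2xP - x²(P+N)`), `|P'-P| + |u' - (P+N)| ≤ 3D`, `u' ≥ (P+N)/2`. -/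
def StAlQ : Prop := ∀ P N P' N' D : ℝ, 0 ≤ P → 0 ≤ N → 0 < P + N → (P + N) / 2 ≤ P' + N' → 0 ≤ D → |P' - P| ≤ D → |N' - N| ≤ D →
  |P' ^ 2 / (P' + N') - P ^ 2 / (P + N) - ((2 * (P / (P + N)) - (P / (P + N)) ^ 2) * (P' - P) - (P / (P + N)) ^ 2 * (N' - N))| ≤ 18 * D ^ 2 / (P + N)

/-- MODULE AlR (120 lines; theorem hAlR (h1 : StAlQ) : StAlR). Increment of `ph`.
Proof. `q, s, Λ` as in AlG, `q' = a'² + b'² - 1`, `P = |q|`, `N = |b|`, `P' = |q'|`, `N' = |b'|`, `u = P + N`, `φ = ph a b = P²/u`, `φ' = ph a' b' = P'²/(P'+N')`, `x = P/u`, `c = 2·10⁻⁷`. If `u = 0`: `q = 0`, `b = 0`, so `ρ = 0`, `a' = a`, `b' = b`. Let `u > 0`. `q' - q = 2aα + 2bβ + α² + β²`, so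
`|q' - q - h a q + 2 h b² s| ≤ 32 c hρ + 2 (hρ)² ≤ 33 c hρ` and `|P' - (1 + h a) P| ≤ |q' - (1 + h a) q| ≤ h (2 N² |s| + 33 c ρ)` (`1 + ha > 0`). `|N' - N| ≤ |b' - b| ≤ h (N |s| + c ρ)`. Also `|P' - P| ≤ |q' - q| ≤ 33 hρ = D`, `|N' - N| ≤ hρ ≤ D`, `ρ ≤ 5 (P + 48 N) ≤ 240 u`, so `P' + N' ≥ u/2`. AlQ:
`φ' - φ = (2x-x²)(P'-P) - x² (N'-N) + r`, `|r| ≤ 18 · 33² h²ρ²/u ≤ 2·10⁴ h²ρ²/u`, `ρ²/u ≤ 25 (P + 2N|s|)²/u ≤ 50 φ + 200 N s²`. With `(2x-x²) P ≥ x P = φ` (and `a · a ≥ 0`), `2x - x² ≤ 2x`, `x² ≤ x`: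
`-a (φ'-φ) ≤ -h a² φ + |a| h x (2 (2N²|s| + 33cρ) + N|s| + cρ) + 8 · 2·10⁴ h² (50 φ + 200 N s²)`. The bracket is `≤ 33 N|s| + 67 c ρ ≤ 34 N|s| + 335 c P`. `|a| x · 335 c P ≤ 2680 c φ`, `|a| x · 34 N|s| ≤ 272 P N |s|/u ≤ φ/64 + 1.4·10⁶ N s²` (AM-GM: `P N|s|/u ≤ φ/20000 + 5000 N s²`, as `N²/u ≤ N`). -/
def StAlR : Prop := ∀ a b a' b' θ h ρ : ℝ, Inc a b a' b' θ h ρ →
  -(a * (ph a' b' - ph a b)) ≤ h * (-(a ^ 2 * ph a b) + 1 / 60 * ph a b + 14 / 10 * 10 ^ 6 * (|b| * (a + θ) ^ 2)) ∧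
  |(a' - a) * ph a' b'| ≤ h * (51 / 100 * (a ^ 2 + b ^ 2 - 1) ^ 2 + |b| * (a + θ) ^ 2)

/-- MODULE AlP (60 lines; theorem hAlP (h1 : StAlR) : StAlP). Increment of the third term.
Proof. `a' φ' - a φ = (a'-a) φ' + a (φ'-φ)`. `φ ≤ 4 a² φ + 2 q²`: if `|a| ≥ 1/2` then `4a² ≥ 1`; if `|a| < 1/2` then `|b| ≥ 1/2` or `|q| ≥ 1 - 1/4 - 1/4`, so `|q| + |b| ≥ 1/2` and `φ ≤ 2 q²`. So `-(1/4) a² φ ≤ -φ/16 + q²/8`, and the sum is `≤ h ((51/400 + 1/8) q² + (1/240 - 1/16) φ + (35/100·10⁶ + 1/4) |b| s²)`. -/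
def StAlP : Prop := ∀ a b a' b' θ h ρ : ℝ, Inc a b a' b' θ h ρ →
  -(1 / 4 * (a' * ph a' b')) + 1 / 4 * (a * ph a b) ≤
    h * (13 / 50 * (a ^ 2 + b ^ 2 - 1) ^ 2 - 1 / 20 * ph a b + 4 * 10 ^ 5 * (|b| * (a + θ) ^ 2))

/-- MODULE AlE (100 lines). Domination of the errors, same sign.
Proof. `q = a² + b² - 1`, `s = a + θ`, `φ = ph a b`, `w = |b| s²`. `b² ≤ 8|b|`, so `b² s² ≤ 8 w`. `|b||s|ρ ≤ 5 (|b||s||q| + 2 b² s²) ≤ 5 (q²/2 + 20 w)`. `|s||q| ≤ 48 φ + w`: if `|q| ≥ |b|` then `φ ≥ |q|/2` (for `q = 0` trivial) and `|s||q| ≤ 24 |q|`; if `|q| < |b|` then `φ ≥ q²/(2|b|)` and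
`|s||q| ≤ q²/(4|b|) + |b| s² `. So `|s| ρ ≤ 5 (48 φ + w + 2 w)`. `ρ² ≤ 25 (2 q² + 8 b² s²) ≤ 50 q² + 1600 w`. The left side is `≤ (-4·10⁶ + 5·10⁵ + 1) w + (-17/100 + 10⁻³) q² + (-1/20 + 10⁻⁶) φ ≤ -10⁶ w - q²/10`. -/
def StAlE : Prop := ∀ a b θ ρ X : ℝ, 0 < θ → θ ≤ 16 → |a| ≤ 8 → |b| ≤ 8 → 0 ≤ ρ → ρ ≤ 5 * (|a ^ 2 + b ^ 2 - 1| + 2 * (|b| * |a + θ|)) →
  X ≤ -(4 * 10 ^ 6 * (|b| * (a + θ) ^ 2)) + 1 / 10 ^ 4 * (|b| * |a + θ|) * ρ + 1 / 10 ^ 10 * |a + θ| * ρ + 1 / 10 ^ 10 * ρ ^ 2 →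
  X + (-(17 / 100 * (a ^ 2 + b ^ 2 - 1) ^ 2) - 1 / 20 * ph a b + 5 * 10 ^ 5 * (|b| * (a + θ) ^ 2)) ≤ -(1 / 10 ^ 6 * ρ ^ 2)

/-- MODULE AlS (60 lines). Domination when `B` changes sign.
Proof. `|b| ≤ 10⁻¹² ρ`, `|s| ≤ 24`: `ρ ≤ 5 |q| + 240 |b|` gives `|q| ≥ 0.199 ρ`; `ph a b = q²/(|q|+|b|) ≥ |q| - |b| ≥ 0.198 ρ` (`ρ = 0`: `q = b = 0`, `ph = 0`); `5·10⁵ |b| s² ≤ 5·10⁵ · 10⁻¹² · 576 ρ ≤ 3·10⁻⁴ ρ`. The left side is `≤ -0.0098 ρ + 10⁻⁴ ρ + 3·10⁻⁴ ρ ≤ -ρ/200`, and `ρ ≤ 1100`. -/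
def StAlS : Prop := ∀ a b θ ρ X : ℝ, 0 < θ → θ ≤ 16 → |a| ≤ 8 → |b| ≤ 8 → 0 ≤ ρ → ρ ≤ 1100 → ρ ≤ 5 * (|a ^ 2 + b ^ 2 - 1| + 2 * (|b| * |a + θ|)) →
  |b| ≤ 1 / 10 ^ 12 * ρ → X ≤ 1 / 10 ^ 4 * ρ →
  X + (-(17 / 100 * (a ^ 2 + b ^ 2 - 1) ^ 2) - 1 / 20 * ph a b + 5 * 10 ^ 5 * (|b| * (a + θ) ^ 2)) ≤ -(1 / 10 ^ 6 * ρ ^ 2)

/-- MODULE Stp (200 lines; theorem hStp (h1 : StGro) (h2 : StLsm) (h3 : StSgc) (h4 : StRq) (h5 : StTs) (h6 : StAlG) (h7 : StAlP) (h8 : StAlE) (h9 : StAlS) (h10 : StAp) (h11 : StGl) (h12 : StReg) (h13 : StAb) (h14 : StSh) : StStp). One step.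
Proof. `k = 3l`, `R = RR y n = h ρ` (`0 ≤ ρ ≤ 1100`), `a = A n`, `b = B n`, `a' = A (n+1)`, `b' = B (n+1)`, `s = a + θ`. `Inc a b a' b' θ h ρ` by StAb, StRq, StSh (1), StTs. By AlG and AlP the second part of `Ff (n+1) - Ff n` is `≤ h (-(17/100) q² - ph a b/20 + 5·10⁵ |b| s²)`. The first part is `h X`, `X = (10⁶/(θh²)) (sg b' Lf (n+1) - sg b Lf n)`.
Same sign (`sg b' = sg b = ε`, `ε b = |b|`): StGro gives `X ≤ (10⁶/(θh²)) (-4θh² |b| s² + 10⁻¹⁰ θh |b||s| R + 3θ²h²|s|R + 4θhR² + h et R²) = -4·10⁶|b|s² + 10⁻⁴|b||s|ρ + 3·10⁶ θh |s| ρ + 4·10⁶ h ρ² + 10⁶ (et/θ) h ρ²`, `3·10⁶ θ h ≤ 10⁻¹⁰`,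
`4·10⁶ h + 10⁶ (et/θ) h ≤ 10⁻¹⁰` (`et ≤ θ h/10¹³`): AlE. Different signs (then `b b' ≤ 0`): StSgc gives `|B i| ≤ et R` for `|i - n| ≤ 2k + 2`, StLsm at `n` and at `n+1` (`β = et R`) `|Lf| ≤ 100 k² et R`, so `X ≤ (10⁶/(θh²)) 200 k² et h ρ = 2·10⁸ k² (et/(θh)) ρ ≤ 10⁻⁴ ρ` (`10¹³ k² et ≤ θh`), `|b| ≤ et h ρ ≤ 10⁻¹² ρ`: AlS.
Conclusion: `Ff (n+1) - Ff n ≤ -10⁻⁶ h ρ²` and `h ρ² = R²/h ≥ R²`. -/
def StStp : Prop := ∀ (l : ℕ) (θ h : ℝ) (y : ℤ → ℝ), Hyp l θ h → Ye θ h y → Bd y → ∀ n : ℤ,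
  Ff (3 * l) θ h (AA (3 * l) y) (BB (3 * l) y) (n + 1) ≤ Ff (3 * l) θ h (AA (3 * l) y) (BB (3 * l) y) n - 1 / 10 ^ 6 * RR y n ^ 2

/-- MODULE Sum (80 lines; theorem hSum (h1 : StStp) (h2 : StAp) (h3 : StGl) (h4 : StAb) (h5 : StLsm) : StSum). Proof: telescoping of StStp over `n = m, …, m+N-1`; `RR y n ^ 2 ≥ 4 (y (n+1) - y (n-1))²`; `|Ff n| ≤ D` with `D` depending on `l, θ, h` only: `|Lf| ≤ 100 k² · 8` (StLsm with `β = 8`), `|gg| ≤ 8 + 171 + 512 + 1024`, `0 ≤ ph a b ≤ |a² + b² - 1| ≤ 129`. So the sum is `≤ 10⁶ · 2D/4`. -/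
def StSum : Prop := ∀ (l : ℕ) (θ h : ℝ), Hyp l θ h → ZY θ h

/-- MODULE Cor (60 lines). Proof: `h = √e > 0`, `e = (1+b)²/4 - c`, `θ = (1+b)/h`, `y n = (x n - (1+b)/2)/h`. With `δ = 1 + b = θh`: `x (n+1) = x n² + c + (1-δ) x (n-1)` becomes `h y (n+1) + δ/2 = (h y n + δ/2)² + c + (1-δ)(h y (n-1) + δ/2)`, i.e. `h (y (n+1) - y (n-1)) = h² y n² + δ h (y n - y (n-1)) - e` (`c - δ²/4 = -e`), which is
`Ye θ h y` times `h` (`e = h²`). `x (i+1) - x (i-1) = h (y (i+1) - y (i-1))`, so the constant is `h² C`. -/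
def StCor : Prop := ∀ b c : ℝ, 0 < (1 + b) ^ 2 / 4 - c → ZY ((1 + b) / Real.sqrt ((1 + b) ^ 2 / 4 - c)) (Real.sqrt ((1 + b) ^ 2 / 4 - c)) → ZE b c

/-- MODULE Num (100 lines). Choice of `l`. Proof: `l = ⌊1/(3·10⁸ h)⌋₊ ≥ 1`, `1/(6·10⁸ h) ≤ l ≤ 1/(3·10⁸ h)`. `10¹³ (3l)² et l = 10¹⁸ (3l)⁸ (1/10)^(2l) ≤ 10¹⁸ (10⁻⁸/h)⁸ exp (-4l)` (`exp 2 ≤ 10`), `exp (-4l) ≤ exp (-(6·10⁻⁹/h))` (`4/6 ≥ 0.6`), and `θh ≥ exp (-(10⁻⁹/h))`: so it suffices that, with `x = 1/h ≥ 10¹⁸`,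
`10¹⁸ 10⁻⁶⁴ x⁸ ≤ exp (5·10⁻⁹ x)`: `exp t ≥ t^12/12!`, `(5·10⁻⁹ x)^12/12! = x⁸ · x⁴ · 5^12 · 10⁻¹⁰⁸/479001600 ≥ x⁸ · 10⁷² · 2·10⁸ · 10⁻¹⁰⁸/(5·10⁸) ≥ 10⁻³⁷ x⁸`. -/
def StNum : Prop := ∀ θ h : ℝ, 0 < h → h ≤ 1 / 10 ^ 18 → 0 < θ → θ ≤ 16 → Real.exp (-(1 / (10 ^ 9 * h))) ≤ θ * h → ∃ l : ℕ, Hyp l θ h

/-- MODULE Hp (60 lines; theorem hHp (h1 : StBig) (h2 : StSum) (h3 : StCor) (h4 : StNum) : StHp). The region for `b > -1`. Proof: `e = (1+b)²/4 - c`, `h = √e ≤ 10⁻¹⁸`, `θ = (1+b)/h > 0`, `θ h = 1 + b ≤ 1/200`. `θ ≥ 16`: StBig; `θ ≤ 16`: StNum, StSum. StCor. -/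
def StHp : Prop := ∀ b c : ℝ, -1 < b → 1 + b ≤ 1 / 1000 → 0 < (1 + b) ^ 2 / 4 - c → (1 + b) ^ 2 / 4 - c ≤ 1 / 10 ^ 36 →
  Real.exp (-(1 / (10 ^ 9 * Real.sqrt ((1 + b) ^ 2 / 4 - c)))) ≤ 1 + b → ZE b c

/-- MODULE Hor (100 lines; theorem hHor (h1 : StHp) (h2 : StSyz) (h3 : StZen) : StHor). The region.
Proof. `a = 10⁻¹⁰`, `d = 10⁻³⁶`; `1 + b ≠ 0` because `exp > 0`. `b > -1`: StHp (`a/√e = 1/(10¹⁰ √e) ≤ 1/(10⁹ √e)`). `b < -1`: `b' = 1/b ∈ (-1,0)`, `c' = c/b²`, `e' = (1+b')²/4 - c' = e/b² < d`, `√e' = √e/|b|`, `1 + b' = (1+b)/b = |1+b|/|b| ∈ (0, 1/1000)`, `1 < |b| ≤ 2`, and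
`|1+b|/|b| ≥ exp (-(a/√e))/2 ≥ exp (-(a/√e) - 1) ≥ exp (-(1/(10⁹ √e')))` (`1/(10⁹ √e') = |b|/(10⁹ √e) ≥ 1/(10⁹ √e) ≥ 1/(10¹⁰ √e) + 1` as `√e ≤ 10⁻¹⁸`). StHp for `(b',c')`, StSyz, StZen. -/
def StHor : Prop := ∃ a d : ℝ, 0 < a ∧ 0 < d ∧ ∀ b c : ℝ, |1 + b| < d → 0 < (1 + b) ^ 2 / 4 - c → (1 + b) ^ 2 / 4 - c < d →
  Real.exp (-(a / Real.sqrt ((1 + b) ^ 2 / 4 - c))) ≤ |1 + b| → (b, c) ∈ E0

/-! ## Part T: the boundary near `(-1,0)` -/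

/-- MODULE Bc (100 lines; theorem hBc (h1 : StHor) (h2 : Helper85.HN.StTop) : StBc). The region in terms of `c`.
Proof. `a0, d0` from StHor; there is `x0 > 0` with `exp (-(a0/√x)) ≤ x` for `0 < x < x0` (see `small_FinC` in `Helper83/PE/M_FinC.lean`; `exp t ≥ t³/6`). `a = a0/2`, `d = min (d0/2) (min (x0/2) (1/4))`. Let `|b+1| < d`, `|c| < d`, `e = (1+b)²/4 - c < 2d`. If `e ≤ 0`: `h2.2.1`. Let `e > 0` (so `e < d0`, `e < x0`). If `c ≥ 0`: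
`exp (-(a0/√e)) ≤ e ≤ (1+b)²/4 ≤ |1+b|`. If `c < 0`, `C = -c`: if `(1+b)²/4 ≤ 3C` then `e ≤ 4C`, `a0/√e ≥ a/√C`, so `exp (-(a0/√e)) ≤ exp (-(a/√C)) ≤ |1+b|`; otherwise `e ≤ (1+b)²/3` and `exp (-(a0/√e)) ≤ e ≤ |1+b|`. -/
def StBc : Prop := ∃ a d : ℝ, 0 < a ∧ 0 < d ∧ ∀ b c : ℝ, |b + 1| < d → |c| < d → (0 ≤ c ∨ Real.exp (-(a / Real.sqrt (-c))) ≤ |b + 1|) → (b, c) ∈ E0

/-- Proved in project PF (`Helper83.PF.neg_Asm`). -/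
def StNeg : Prop := ∀ c : ℝ, c < 0 → ∃ δ > 0, ∀ b' c' : ℝ, |b' + 1| < δ → |c' - c| < δ → ((b', c') : ℝ × ℝ) ∉ E0

/-- MODULE Frc (120 lines; theorem hFrc (h1 : StBc) (h2 : StNeg) : StFrc; adapt `Helper83/PE/M_FinC.lean`). Frontier points on both sides.
Proof. Let `a, d` be the constants of StBc, `η = exp (-(a/√ε))`; for small `ε`: `ε < d` and `η ≤ ε < d` (`exp (-(a/√ε)) ≤ ε` for small `ε`). For `b = -1 ± η`, `c = -ε`: `|b+1| = η`, so `(b,c) ∈ E0`. `(-1,-ε)` is not in the closure of `E0` (StNeg). The horizontal segment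
from `(-1,-ε)` to `(-1 ± η, -ε)` is connected and contains a frontier point, different from `(-1,-ε)`. -/
def StFrc : Prop := ∃ a ε0 : ℝ, 0 < a ∧ 0 < ε0 ∧ ∀ ε ∈ Ioo 0 ε0, ∃ b1 b2 : ℝ, b1 < -1 ∧ -1 < b2 ∧
  (b1, -ε) ∈ frontier E0 ∧ (b2, -ε) ∈ frontier E0 ∧
  -1 - b1 ≤ Real.exp (-(a / Real.sqrt ε)) ∧ b2 + 1 ≤ Real.exp (-(a / Real.sqrt ε))

/-- Near `q` the set `S` lies on a `C¹` embedded curve through `q`. -/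
def C1At (S : Set (ℝ × ℝ)) (q : ℝ × ℝ) : Prop := ∃ (γ : ℝ → ℝ × ℝ) (t : ℝ), ContDiffAt ℝ 1 γ t ∧ deriv γ t ≠ 0 ∧ γ t = q ∧
  ∀ V ∈ 𝓝 t, ∃ U ∈ 𝓝 q, S ∩ U ⊆ γ '' V

/-- MODULE Frd (120 lines; adapt `Helper83/PE/M_FinD.lean`: same proof with `(-1, -ε)` in place of `(1, 1-ε)` and `√ε` in place of `ε^(1/4)`). A set with two exponentially close branches is not on a `C¹` curve. -/
def StFrd : Prop := ∀ (S : Set (ℝ × ℝ)) (a ε0 : ℝ), 0 < a → 0 < ε0 → (∀ ε ∈ Ioo 0 ε0, ∃ b1 b2 : ℝ, b1 < -1 ∧ -1 < b2 ∧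
  (b1, -ε) ∈ S ∧ (b2, -ε) ∈ S ∧ -1 - b1 ≤ Real.exp (-(a / Real.sqrt ε)) ∧ b2 + 1 ≤ Real.exp (-(a / Real.sqrt ε))) →
  ¬C1At S (-1, 0)

/-- MODULE Hof (100 lines; theorem hHof (h1 : StBc) : StHof). Frontier points near `(-1,0)` lie in the horn.
Proof. The constants of StBc. Let `q = (b,c) ∈ frontier E0`, `|b+1| < d`, `|c| < d`. If a neighbourhood of `q` is contained in `E0` then `q ∈ interior E0`, which is disjoint from the frontier. `c > 0`: `c' ≥ 0` near `q`. `c = 0`, `b ≠ -1`: for `(b',c')` near `q` either `c' ≥ 0` or `exp (-(a/√(-c'))) ≤ |b+1|/2 ≤ |b'+1|`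
(`exp (-(a/√x)) → 0` for `x → 0+`). `c < 0` and `exp (-(a/√(-c))) < |b+1|`: the strict inequality holds near `q` by continuity. So `q = (-1,0)` or `c < 0`, `|b+1| ≤ exp (-(a/√(-c)))`. -/
def StHof : Prop := ∃ a d : ℝ, 0 < a ∧ 0 < d ∧ ∀ q ∈ frontier E0, |q.1 + 1| < d → |q.2| < d →
  q = (-1, 0) ∨ (q.2 < 0 ∧ |q.1 + 1| ≤ Real.exp (-(a / Real.sqrt (-q.2))))

end Helper83.TH

end
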